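import Pool.Agent.R629.NF.GeoK

/-!
# Algebraic independence of edge values
-/

set_option autoImplicit false

namespace Pool.Agent.R629.NF

open Representation Filter Topology Finset MeasureTheory
open Pool.Agent.R629.SP

/-- an element algebraic over a subalgebra of a subfield is algebraic over the subfield -/
lemma isAlgebraic_of_le {R : Type} [CommRing R] [Algebra R ℂ] (A : Subalgebra R ℂ) {F : Type}
    [Field F] [Algebra F ℂ] (L : IntermediateField F ℂ) (h : ∀ z ∈ A, z ∈ L) {x : ℂ}
    (hx : IsAlgebraic A x) : IsAlgebraic L x := by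
  set i : A →+* L := (algebraMap A ℂ).codRestrict L fun z => h _ z.2
  obtain ⟨p, hp, hpx⟩ := hx
  have hi : Function.Injective i := by
    intro a b hab
    have h1 := congrArg (fun y : L => (y : ℂ)) hab
    exact Subtype.ext h1
  refine ⟨p.map i, (Polynomial.map_ne_zero_iff hi).2 hp, ?_⟩
  rw [Polynomial.aeval_def, Polynomial.eval₂_map]
  rw [Polynomial.aeval_def] at hpx
  exact hpx

/-- **Algebraic independence from mutual transcendence.** -/
theorem algInd_of_indep {I J : Type} [Countable I] {l : I → ℝ → ℂ} {lU : J → ℝ → ℂ}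
    (h : ∀ i, IndependentOf (l i) (Sum.elim lU fun i' : {i' // i' ≠ i} => l i'.1))
    (k : Subfield ℂ) (hk : (k : Set ℂ).Countable) :
    ∀ᵐ t : ℝ, AlgebraicIndependent (IntermediateField.adjoin k (valSet (fun j => lU j t) t))
      fun i => l i t := by
  filter_upwards [ae_all_iff.2 fun i => h i k hk] with t ht
  refine algebraicIndependent_of_finite_type' (FaithfulSMul.algebraMap_injective _ _)
    fun s _ _ i hi hx => ht i ?_
  refine isAlgebraic_of_le (Algebra.adjoin (IntermediateField.adjoin k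
    (valSet (fun j => lU j t) t)) ((fun i => l i t) '' s)) _ (fun z hz => ?_) hx
  set L := IntermediateField.adjoin k (valSet (fun j => (Sum.elim lU
    fun i' : {i' // i' ≠ i} => l i'.1) j t) t) with hL
  induction hz using Algebra.adjoin_induction with
  | mem x hx =>
    obtain ⟨i', hi', rfl⟩ := hx
    have hne : i' ≠ i := fun h => hi (h ▸ hi')
    exact IntermediateField.subset_adjoin _ _ ⟨Sum.inl (Sum.inr ⟨i', hne⟩), rfl⟩
  | algebraMap r =>
    have h1 : IntermediateField.adjoin k (valSet (fun j => lU j t) t) ≤ L := by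
      rw [IntermediateField.adjoin_le_iff]
      rintro _ ⟨j | o, rfl⟩
      · exact IntermediateField.subset_adjoin _ _ ⟨Sum.inl (Sum.inl j), rfl⟩
      · exact IntermediateField.subset_adjoin _ _ ⟨Sum.inr o, rfl⟩
    exact h1 r.2
  | add x y _ _ hx hy => exact add_mem hx hy
  | mul x y _ _ hx hy => exact mul_mem hx hy

/-! ### Galois representations of `ℚ` -/

section
variable {G : Type} [Group G] [TopologicalSpace G] {k : Type} [Field k] [TopologicalSpace k]

lemma frobMat_det (ι : k →+* ℂ) (Frob : Nat.Primes → G) {r : ℕ} (σ : G →* GL (Fin r) k)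
    (p : Nat.Primes) : (frobMat ι Frob σ p).det ≠ 0 := by
  unfold frobMat
  have h2 : ((σ (Frob p)).val.map ι).det = ι (σ (Frob p)).val.det := (RingHom.map_det _ _).symm
  rw [h2]
  exact fun h => ((Matrix.isUnit_iff_isUnit_det _).1 (σ (Frob p)).isUnit).ne_zero
    ((map_eq_zero _).1 h)

lemma frobMat_charpoly (ι : k →+* ℂ) (Frob : Nat.Primes → G) {r : ℕ} (σ : G →* GL (Fin r) k)
    (p : Nat.Primes) : (frobMat ι Frob σ p).charpoly = (σ (Frob p)).val.charpoly.map ι :=
  Matrix.charpoly_map _ _

/-- **Irreducible representations against a countable family, over `ℚ`.** -/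
theorem main_geoQ [CharZero k] [IsTopologicalRing k] [T1Space k] (ι : k →+* ℂ)
    {Frob : Nat.Primes → G} (hC : Chebotarev ∅ Frob) {n : ℕ}
    {ρ : G →* GL (Fin n) k} (hρ : IsCont ρ) (hirr : (rep ρ).IsIrreducible) {J : Type} [Countable J]
    {m : J → ℕ} {H : ∀ j, G →* GL (Fin (m j)) k} (hH : ∀ j, IsCont (H j)) {w : ℝ}
    {S : Finset ℕ} {SJ : J → Finset ℕ}
    (hb : Bd S (frobMat ι Frob ρ) w) (hbH : ∀ j, Bd (SJ j) (frobMat ι Frob (H j)) w) {l : ℝ → ℂ}
    (hl : IsBoundary S (frobMat ι Frob ρ) w l) {lH : J → ℝ → ℂ}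
    (hlH : ∀ j, IsBoundary (SJ j) (frobMat ι Frob (H j)) w (lH j)) :
    (DependentOn l lH → ∃ j, IsSubquotient (rep ρ) (rep (H j))) ∧
      ((∃ j, Nonempty ((rep ρ).Equiv (rep (H j)))) → DependentOn l lH) ∧
      (DependentOn l lH ∨ IndependentOf l lH) := by
  have h1 := main_var hb hbH (fun p _ => frobMat_det ι Frob ρ p)
    (fun j p _ => frobMat_det ι Frob (H j) p) hl hlH
  refine ⟨fun h => ?_, ?_, h1.2⟩
  · obtain ⟨d, hd, e, h2⟩ := character_relation ι hC hρ hH (h1.1.2 h)
    obtain ⟨j, -, hj⟩ := subquotient_of_relation hirr (d := (d : k))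
      (by exact_mod_cast hd.ne') e.support (fun j => (e j : k)) h2
    exact ⟨j, hj⟩
  · rintro ⟨j, ⟨E⟩⟩
    refine h1.1.1 ⟨1, one_pos, Finsupp.single j 1, ?_⟩
    convert Set.finite_empty
    rw [Set.eq_empty_iff_forall_notMem]
    rintro p ⟨-, z, hne⟩
    apply hne
    rw [Finsupp.sum_single_index (zero_mul _), frobMat_charpoly, frobMat_charpoly,
      charpoly_equiv E]
    push_cast
    ring

end

end Pool.Agent.R629.NF
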