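import Pool.Agent.R629.NF.Conj

/-!
# Averaging of rational relations
-/

set_option autoImplicit false

namespace Pool.Agent.R629.NF

open Filter Topology MeasureTheory Finset NumberField IsDedekindDomain
open Pool.Agent.R629.SP

/-- averaging over a transitive group, rational coefficients -/
lemma average_auxQ {X : Type} [Fintype X] [DecidableEq X] (H : Subgroup (Equiv.Perm X))
    (ht : ∀ x y : X, ∃ π ∈ H, π x = y) (e : X → ℚ) (D : X → ℚ) (a : ℚ)
    (h : ∀ π ∈ H, a = ∑ x, e x * D (π x)) :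
    (Fintype.card X : ℚ) * a = (∑ x, e x) * ∑ x, D x := by
  classical
  have hH : Fintype H := Fintype.ofFinite H
  set c : X → ℚ := fun x => ∑ π : H, D (π.1 x) with hc
  have hconst : ∀ x y, c x = c y := by
    intro x y
    obtain ⟨π₀, hπ₀, rfl⟩ := ht x y
    simp only [hc]
    exact (Fintype.sum_equiv (Equiv.mulRight (⟨π₀, hπ₀⟩ : H)) _ _ fun π => rfl).symm
  have h1 : ∀ x, (Fintype.card X : ℚ) * c x = (Fintype.card H : ℚ) * ∑ y, D y := by
    intro x
    have h2 : ∑ y, c y = (Fintype.card X : ℚ) * c x := by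
      rw [Finset.sum_congr rfl fun y _ => hconst y x, Finset.sum_const, Finset.card_univ,
        nsmul_eq_mul]
    rw [← h2]
    simp only [hc]
    rw [Finset.sum_comm]
    have h3 : ∀ π : H, ∑ y, D (π.1 y) = ∑ y, D y := fun π => Equiv.sum_comp π.1 D
    rw [Finset.sum_congr rfl fun π _ => h3 π, Finset.sum_const, Finset.card_univ, nsmul_eq_mul]
  have h4 : (Fintype.card H : ℚ) * a = ∑ x, e x * c x := by
    have h5 : ∑ π : H, a = ∑ π : H, ∑ x, e x * D (π.1 x) :=
      Finset.sum_congr rfl fun π _ => h π.1 π.2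
    rw [Finset.sum_const, Finset.card_univ, nsmul_eq_mul] at h5
    rw [h5, Finset.sum_comm]
    refine Finset.sum_congr rfl fun x _ => ?_
    simp only [hc]
    rw [Finset.mul_sum]
  have h6 : (Fintype.card H : ℚ) * ((Fintype.card X : ℚ) * a) =
      (Fintype.card H : ℚ) * ((∑ x, e x) * ∑ x, D x) := by
    calc (Fintype.card H : ℚ) * ((Fintype.card X : ℚ) * a) =
          (Fintype.card X : ℚ) * ((Fintype.card H : ℚ) * a) := by ring
      _ = ∑ x, e x * ((Fintype.card X : ℚ) * c x) := by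
          rw [h4, Finset.mul_sum]
          exact Finset.sum_congr rfl fun x _ => by ring
      _ = ∑ x, e x * ((Fintype.card H : ℚ) * ∑ y, D y) :=
          Finset.sum_congr rfl fun x _ => by rw [h1]
      _ = _ := by
          rw [← Finset.sum_mul]
          ring
  have h7 : (Fintype.card H : ℚ) ≠ 0 := by exact_mod_cast Fintype.card_ne_zero
  exact mul_left_cancel₀ h7 h6

section
variable {M : Type} [Field M] [NumberField M] {n : ℕ} {S : Finset ℕ}

/-- invariant functions -/
def Invariant (φ : Nat.Primes → ℂ → ℚ) : Prop :=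
  ∀ (p : Nat.Primes) (σ : ℂ ≃+* ℂ) (z : ℂ), φ p (σ z) = φ p z

theorem averageQ (C : Matrix (Fin n) (Fin n) M) (F : ℂ → ℚ)
    (hF : ∀ (σ : ℂ ≃+* ℂ) (z : ℂ), F (σ z) = F z) (e : (M →+* ℂ) → ℚ)
    (h : ∀ z, F z = ∑ τ, e τ * (mu (C.map τ) z : ℚ)) (z : ℂ) :
    (Module.finrank ℚ M : ℚ) * F z = (∑ τ, e τ) * ∑ τ, (mu (C.map (τ : M →+* ℂ)) z : ℚ) := by
  classical
  have h1 := average_auxQ (galPerm M) galPerm_trans e (fun τ => (mu (C.map τ) z : ℚ)) (F z) ?_
  · rwa [NumberField.Embeddings.card M ℂ] at h1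
  · rintro π ⟨σ, hσ⟩
    rw [← hF σ.symm z, h]
    refine Finset.sum_congr rfl fun τ _ => ?_
    have h2 : (C.map (π τ) : Matrix (Fin n) (Fin n) ℂ) = (C.map τ).map σ := by
      ext i j
      simp only [Matrix.map_apply]
      exact hσ τ (C i j)
    have h3 := mu_aut σ (C.map τ) (σ.symm z)
    rw [RingEquiv.apply_symm_apply] at h3
    rw [h2, h3]

/-- averaging of classes -/
theorem avg_cls (C : Nat.Primes → Matrix (Fin n) (Fin n) M) {φ : Nat.Primes → ℂ → ℚ}
    (hφ : Invariant φ) (c : (M →+* ℂ) → ℚ)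
    (h : (nullMod S).mkQ φ = ∑ τ, c τ • cls S (conjFam C τ)) :
    (Module.finrank ℚ M : ℚ) • (nullMod S).mkQ φ =
      (∑ τ, c τ) • ∑ τ, cls S (conjFam C (τ : M →+* ℂ)) := by
  classical
  unfold cls at h ⊢
  simp only [← map_smul] at h ⊢
  rw [← map_sum] at h ⊢
  rw [← map_smul, ← sub_eq_zero, ← map_sub, Submodule.mkQ_apply, Submodule.Quotient.mk_eq_zero,
    mem_nullMod]
  rw [← sub_eq_zero, ← map_sub, Submodule.mkQ_apply, Submodule.Quotient.mk_eq_zero,
    mem_nullMod] at h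
  refine h.subset ?_
  rintro p ⟨hp, hne⟩
  refine ⟨hp, fun h0 => hne ?_⟩
  have h1 : ∀ z, φ p z = ∑ τ, c τ * (mu ((C p).map τ) z : ℚ) := by
    intro z
    have h2 := congrFun h0 z
    simp only [Pi.sub_apply, Finset.sum_apply, Pi.smul_apply, smul_eq_mul, Pi.zero_apply] at h2
    unfold dv conjFam at h2
    unfold mu
    push_cast
    linear_combination h2
  funext z
  have h2 := averageQ (C p) (φ p) (hφ p) c h1 z
  simp only [Pi.sub_apply, Finset.sum_apply, Pi.smul_apply, smul_eq_mul, Pi.zero_apply]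
  unfold dv conjFam
  unfold mu at h2
  push_cast at h2
  linear_combination h2

/-- rational families have invariant divisors -/
lemma dv_ratFam {a : ℕ} (A : Nat.Primes → Matrix (Fin a) (Fin a) ℚ) : Invariant (dv (ratFam A)) := by
  intro p σ z
  have h1 := mu_rat (A p) σ z
  unfold mu at h1
  unfold dv ratFam
  exact_mod_cast h1

lemma span_inv {J : Type} {m : J → ℕ} (A : ∀ j, Nat.Primes → Matrix (Fin (m j)) (Fin (m j)) ℚ)
    {w : (Nat.Primes → ℂ → ℚ) ⧸ nullMod S}
    (hw : w ∈ Submodule.span ℚ (Set.range fun j => cls S (ratFam (A j)))) :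
    ∃ φ : Nat.Primes → ℂ → ℚ, Invariant φ ∧ (nullMod S).mkQ φ = w := by
  induction hw using Submodule.span_induction with
  | mem x hx =>
    obtain ⟨j, rfl⟩ := hx
    exact ⟨dv (ratFam (A j)), dv_ratFam (A j), rfl⟩
  | zero => exact ⟨0, fun _ _ _ => rfl, map_zero _⟩
  | add x y _ _ hx hy =>
    obtain ⟨φ, h1, h2⟩ := hx
    obtain ⟨ψ, h3, h4⟩ := hy
    refine ⟨φ + ψ, fun p σ z => ?_, by rw [map_add, h2, h4]⟩
    simp only [Pi.add_apply, h1 p σ z, h3 p σ z]
  | smul c x _ hx =>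
    obtain ⟨φ, h1, h2⟩ := hx
    refine ⟨c • φ, fun p σ z => ?_, by rw [map_smul, h2]⟩
    simp only [Pi.smul_apply, h1 p σ z]

/-- **First consequence.**  If one conjugate is a combination of the others and of rational families
then the sum of the conjugates is a combination of rational families. -/
theorem sum_mem_of_mem {J : Type} {m : J → ℕ}
    (A : ∀ j, Nat.Primes → Matrix (Fin (m j)) (Fin (m j)) ℚ)
    (C : Nat.Primes → Matrix (Fin n) (Fin n) M)
    (hC : LinearIndependent ℚ fun τ : M →+* ℂ => cls S (conjFam C τ)) (c : (M →+* ℂ) → ℚ)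
    (hc : c ≠ 0) (hmem : ∑ τ, c τ • cls S (conjFam C τ) ∈
      Submodule.span ℚ (Set.range fun j => cls S (ratFam (A j)))) :
    (∑ τ, c τ ≠ 0) ∧ (∀ τ, (Module.finrank ℚ M : ℚ) * c τ = ∑ τ, c τ) ∧
      ∑ τ : M →+* ℂ, cls S (conjFam C τ) ∈
        Submodule.span ℚ (Set.range fun j => cls S (ratFam (A j))) := by
  classical
  have hg : (Module.finrank ℚ M : ℚ) ≠ 0 := by exact_mod_cast Module.finrank_pos.ne'
  obtain ⟨φ, h1, h2⟩ := span_inv A hmem
  have h3 := avg_cls C h1 c h2
  rw [h2] at h3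
  have hli := Fintype.linearIndependent_iff.1 hC
  have h4 : ∀ τ, (Module.finrank ℚ M : ℚ) * c τ = ∑ τ, c τ := by
    have h5 : ∑ τ, ((Module.finrank ℚ M : ℚ) * c τ - ∑ τ, c τ) • cls S (conjFam C τ) = 0 := by
      simp only [sub_smul, Finset.sum_sub_distrib, mul_smul]
      rw [← Finset.smul_sum, ← Finset.smul_sum, h3, sub_self]
    intro τ
    have := hli _ h5 τ
    linarith
  have h5 : ∑ τ, c τ ≠ 0 := by
    intro h0
    apply hc
    funext τ
    have := h4 τ
    rw [h0] at this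
    exact (mul_eq_zero.1 this).resolve_left hg
  refine ⟨h5, h4, ?_⟩
  have h6 : ∑ τ : M →+* ℂ, cls S (conjFam C τ) =
      ((∑ τ, c τ)⁻¹ * (Module.finrank ℚ M : ℚ)) • ∑ τ, c τ • cls S (conjFam C τ) := by
    rw [mul_smul, h3, smul_smul, inv_mul_cancel₀ h5, one_smul]
  rw [h6]
  exact Submodule.smul_mem _ _ hmem

/-- unrelated families are linearly independent -/
lemma linInd_of_unrelated {J : Type} [Fintype J] {m : J → ℕ}
    {B : ∀ j, Nat.Primes → Matrix (Fin (m j)) (Fin (m j)) ℂ}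
    (h : Unrelated S B) : LinearIndependent ℚ fun j => cls S (B j) := by
  classical
  rw [Fintype.linearIndependent_iff]
  intro c hc
  by_contra hne
  push Not at hne
  obtain ⟨i₀, hi₀⟩ := hne
  set d : ℕ := ∏ j, (c j).den with hd
  have hd0 : 0 < d := Finset.prod_pos fun j _ => (c j).den_pos
  have hint : ∀ j, ∃ x : ℤ, (x : ℚ) = (d : ℚ) * c j := by
    intro j
    have h1 : (c j).den ∣ d := Finset.dvd_prod_of_mem _ (Finset.mem_univ j)
    obtain ⟨r, hr⟩ := h1
    refine ⟨r * (c j).num, ?_⟩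
    have h2 := Rat.mul_den_eq_num (c j)
    rw [hr]
    push_cast
    rw [← h2]
    ring
  choose x hx using hint
  have hx0 : (Finsupp.equivFunOnFinite.symm x : J →₀ ℤ) ≠ 0 := by
    intro h0
    have h1 := DFunLike.congr_fun h0 i₀
    rw [Finsupp.equivFunOnFinite_symm_apply_apply, Finsupp.zero_apply] at h1
    have h2 := hx i₀
    rw [h1, Int.cast_zero] at h2
    have hd' : (d : ℚ) ≠ 0 := by exact_mod_cast hd0.ne'
    exact hi₀ ((mul_eq_zero.1 h2.symm).resolve_left hd')
  refine h _ hx0 ?_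
  unfold cls at hc
  simp only [← map_smul] at hc
  rw [← map_sum, Submodule.mkQ_apply, Submodule.Quotient.mk_eq_zero, mem_nullMod] at hc
  refine hc.subset ?_
  rintro p ⟨hp, z, hne⟩
  refine ⟨hp, fun h0 => hne ?_⟩
  have h1 := congrFun h0 z
  simp only [Finset.sum_apply, Pi.smul_apply, smul_eq_mul, Pi.zero_apply] at h1
  unfold dv at h1
  rw [Finsupp.sum_fintype _ _ (fun _ => zero_mul _)]
  simp only [Finsupp.equivFunOnFinite_symm_apply_apply]
  have h2 : (((∑ j, x j * ((B j p).charpoly.rootMultiplicity z : ℤ)) : ℤ) : ℚ) = 0 := by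
    push_cast
    simp only [hx]
    have h3 : ∑ j, (d : ℚ) * c j * ((B j p).charpoly.rootMultiplicity z : ℚ) =
        (d : ℚ) * ∑ j, c j * ((B j p).charpoly.rootMultiplicity z : ℚ) := by
      rw [Finset.mul_sum]
      exact Finset.sum_congr rfl fun j _ => by ring
    rw [h3, h1, mul_zero]
  exact_mod_cast h2

end

end Pool.Agent.R629.NF
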