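import Mathlib

/-!
# Linear independence of the characters of irreducible representations, any field of characteristic 0
-/

set_option autoImplicit false

namespace Pool.Agent.R629.NF

open Representation
open scoped MonoidAlgebra

section

variable {k : Type} [Field k] [CharZero k] {G : Type} [Group G] {J : Type} [Fintype J] [DecidableEq J] {V : J → Type}
  [∀ j, AddCommGroup (V j)] [∀ j, Module k (V j)]

/-- an element of the group algebra acting as the projection to one of the representations -/
theorem exists_projK [∀ j, FiniteDimensional k (V j)] (σ : ∀ j, Representation k G (V j))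
    (hirr : ∀ j, (σ j).IsIrreducible) (hne : ∀ i j, i ≠ j → IsEmpty ((σ i).Equiv (σ j)))
    (i0 : J) : ∃ r : k[G], ∀ j, (σ j).asAlgebraHom r = if j = i0 then 1 else 0 := by
  classical
  have hs : ∀ j, IsSimpleModule k[G] (σ j).asModule := fun j =>
    (irreducible_iff_isSimpleModule_asModule (σ j)).1 (hirr j)
  let M := ∀ j, (σ j).asModule
  -- off-diagonal homomorphisms vanish
  have hoff : ∀ (i j : J), i ≠ j → ∀ φ : (σ i).asModule →ₗ[k[G]] (σ j).asModule, φ = 0 := by
    intro i j hij φ
    have := hirr i
    have := hirr j
    rcases IsIrreducible.bijective_or_eq_zero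
      ((IntertwiningMap.equivLinearMapAsModule (σ i) (σ j)).symm φ) with h | h
    · exact ((hne i j hij).false (IntertwiningMap.ofBijective _ h)).elim
    · rwa [LinearEquiv.map_eq_zero_iff] at h
  have hoff' : ∀ (g : Module.End k[G] M) (i j : J), i ≠ j → ∀ x : (σ i).asModule,
      g (Pi.single i x) j = 0 := by
    intro g i j hij x
    have h := hoff i j hij ((LinearMap.proj j).comp (g.comp (LinearMap.single k[G] _ i)))
    exact LinearMap.congr_fun h x
  have hdiag : ∀ (g : Module.End k[G] M) (m : M) (i : J),
      g m i = g (Pi.single i (m i)) i := by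
    intro g m i
    conv_lhs => rw [← Finset.univ_sum_single m]
    rw [map_sum, Finset.sum_apply, Finset.sum_eq_single i]
    · intro b _ hb
      exact hoff' g b i hb _
    · intro h
      exact absurd (Finset.mem_univ i) h
  let f : Module.End (Module.End k[G] M) M :=
    { toFun := fun m => Pi.single i0 (m i0)
      map_add' := fun a b => Pi.single_add i0 (a i0) (b i0)
      map_smul' := fun g m => by
        funext j
        simp only [Module.End.smul_def, RingHom.id_apply]
        by_cases hj : j = i0
        · subst hj
          rw [Pi.single_eq_same]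
          exact hdiag g m j
        · rw [Pi.single_eq_of_ne hj]
          exact (hoff' g i0 j (Ne.symm hj) _).symm }
  have hbas : ∀ j, ∃ s : Finset (V j), Submodule.span k (s : Set (V j)) = ⊤ := fun j =>
    Module.Finite.fg_top
  choose s hs' using hbas
  let T : Finset M := Finset.univ.biUnion fun j => (s j).image fun v =>
    (Pi.single j ((σ j).asModuleEquiv.symm v) : M)
  obtain ⟨r, hr⟩ := jacobson_density f T
  refine ⟨r, fun j => ?_⟩
  refine LinearMap.ext_on (hs' j) fun v hv => ?_
  have h1 := hr (Pi.single j ((σ j).asModuleEquiv.symm v)) (by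
    rw [Finset.mem_biUnion]
    exact ⟨j, Finset.mem_univ j, Finset.mem_image_of_mem _ hv⟩)
  have h2 := congr_fun h1 j
  have h3 : (r • (Pi.single j ((σ j).asModuleEquiv.symm v) : M)) j =
      r • ((σ j).asModuleEquiv.symm v) := by
    rw [Pi.smul_apply, Pi.single_eq_same]
  rw [h3] at h2
  have h4 := congrArg (σ j).asModuleEquiv h2
  rw [asModuleEquiv_map_smul, LinearEquiv.apply_symm_apply] at h4
  rw [← h4]
  change (σ j).asModuleEquiv ((Pi.single i0 ((Pi.single j ((σ j).asModuleEquiv.symm v) : M) i0) : M) j) = _
  by_cases hj : j = i0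
  · subst hj
    rw [Pi.single_eq_same, Pi.single_eq_same, if_pos rfl, LinearEquiv.apply_symm_apply]
    rfl
  · rw [Pi.single_eq_of_ne hj, if_neg hj, map_zero]
    rfl

/-- **Linear independence of characters.** -/
theorem char_indepK [∀ j, FiniteDimensional k (V j)] (σ : ∀ j, Representation k G (V j))
    (hirr : ∀ j, (σ j).IsIrreducible) (hne : ∀ i j, i ≠ j → IsEmpty ((σ i).Equiv (σ j)))
    (e : J → k) (he : ∀ g : G, ∑ j, e j * LinearMap.trace k (V j) (σ j g) = 0) (i0 : J) :
    e i0 = 0 := by
  classical
  obtain ⟨r, hr⟩ := exists_projK σ hirr hne i0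
  have h1 : ∀ r : k[G], ∑ j, e j * LinearMap.trace k (V j) ((σ j).asAlgebraHom r) = 0 := by
    intro r
    induction r using MonoidAlgebra.induction_on with
    | of g =>
      simp only [asAlgebraHom_of]
      exact he g
    | add a b ha hb =>
      simp only [map_add, mul_add, Finset.sum_add_distrib]
      rw [ha, hb, add_zero]
    | smul c a ha =>
      simp only [map_smul, smul_eq_mul]
      have h3 : ∑ j, e j * (c * LinearMap.trace k (V j) ((σ j).asAlgebraHom a)) =
          c * ∑ j, e j * LinearMap.trace k (V j) ((σ j).asAlgebraHom a) := by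
        rw [Finset.mul_sum]
        exact Finset.sum_congr rfl fun j _ => by ring
      rw [h3, ha, mul_zero]
  have h2 := h1 r
  rw [Finset.sum_eq_single i0] at h2
  · rw [hr i0, if_pos rfl, Module.End.one_eq_id, LinearMap.trace_id] at h2
    rcases mul_eq_zero.1 h2 with h | h
    · exact h
    · exfalso
      have hs : IsSimpleModule k[G] (σ i0).asModule :=
        (irreducible_iff_isSimpleModule_asModule (σ i0)).1 (hirr i0)
      have h5 : Module.finrank k (V i0) = 0 := by exact_mod_cast h
      have h6 : Subsingleton (V i0) := Module.finrank_zero_iff.1 h5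
      have h7 : Nontrivial (σ i0).asModule := IsSimpleModule.nontrivial k[G] _
      obtain ⟨x, y, hxy⟩ := h7
      exact hxy ((σ i0).asModuleEquiv.injective (Subsingleton.elim _ _))
  · intro j _ hj
    rw [hr j, if_neg hj, map_zero, mul_zero]
  · intro h
    exact absurd (Finset.mem_univ i0) h

end

end Pool.Agent.R629.NF
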