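import Pool.Agent.R629.NF.Gal

/-!
# Primes of degree one as kernels
-/

set_option autoImplicit false

namespace Pool.Agent.R629.NF

open NumberField IsDedekindDomain
open Pool.Agent.TH339.MP (nm pr dg Sp mem_Sp nm_eq dg_pos)

section
variable {K : Type} [Field K] [NumberField K] {p : ℕ} [hp : Fact p.Prime]

/-- The kernel of a homomorphism to `ZMod p`. -/
noncomputable def kv (f : 𝓞 K →+* ZMod p) : HeightOneSpectrum (𝓞 K) where
  asIdeal := RingHom.ker f
  isPrime := RingHom.ker_isPrime f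
  ne_bot := by
    intro h
    have h1 : (p : 𝓞 K) ∈ RingHom.ker f := by
      rw [RingHom.mem_ker, map_natCast, ZMod.natCast_self]
    rw [h, Ideal.mem_bot] at h1
    exact hp.out.ne_zero (by exact_mod_cast h1)

lemma mem_kv {f : 𝓞 K →+* ZMod p} {x : 𝓞 K} : x ∈ (kv f).asIdeal ↔ f x = 0 := RingHom.mem_ker

lemma nm_kv (f : 𝓞 K →+* ZMod p) : nm (kv f) = p := by
  have h1 : nm (kv f) = Nat.card (𝓞 K ⧸ RingHom.ker f) := by
    unfold nm
    rw [Ideal.absNorm_apply, Submodule.cardQuot_apply]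
    rfl
  rw [h1, Nat.card_congr (RingHom.quotientKerEquivOfSurjective
    (ZMod.ringHom_surjective f)).toEquiv, Nat.card_zmod]

lemma pr_kv (f : 𝓞 K →+* ZMod p) : (pr (kv f) : ℕ) = p ∧ dg (kv f) = 1 := by
  have h1 := nm_kv f
  rw [nm_eq] at h1
  have h2 : dg (kv f) = 1 := by
    have h3 : Nat.Prime ((pr (kv f) : ℕ) ^ dg (kv f)) := by
      rw [h1]
      exact hp.out
    exact h3.eq_one_of_pow
  rw [h2, pow_one] at h1
  exact ⟨h1, h2⟩

lemma kv_inj {f f' : 𝓞 K →+* ZMod p} (h : kv f = kv f') : f = f' := by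
  ext x
  have h1 : x - ((f x).val : 𝓞 K) ∈ (kv f).asIdeal := by
    rw [mem_kv, map_sub, map_natCast, ZMod.natCast_zmod_val, sub_self]
  rw [h, mem_kv, map_sub, map_natCast, ZMod.natCast_zmod_val, sub_eq_zero] at h1
  exact h1.symm

end

end Pool.Agent.R629.NF
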