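import Pool.Agent.R629.NF.Poly

/-!
# One Euler product against a family over several number fields
-/

set_option autoImplicit false

namespace Pool.Agent.R629.NF

open Filter Topology Finset MeasureTheory NumberField IsDedekindDomain
open Pool.Agent.R629.SP
open Pool.Agent.TH339.MP (nm pr dg Sp mem_Sp nm_eq dg_pos)

/-- For some positive integer `d` and integers `e_j`, almost all zero, and almost all primes `p`, the
divisor of `P_p` multiplied by `d` is the sum of the divisors of the `Q_{j,p}` multiplied by the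
`e_j`. -/
def VirtP {J : Type} (P : Nat.Primes → Polynomial ℂ) (Q : J → Nat.Primes → Polynomial ℂ) : Prop :=
  ∃ d : ℕ, 0 < d ∧ ∃ e : J →₀ ℤ, {p : Nat.Primes | ∃ z,
    (d : ℤ) * ((P p).rootMultiplicity z : ℤ) ≠
      e.sum fun j k => k * ((Q j p).rootMultiplicity z : ℤ)}.Finite

lemma virtP_iff {J : Type} {n : ℕ} {m : J → ℕ} {A : Nat.Primes → Matrix (Fin n) (Fin n) ℂ}
    {B : ∀ j, Nat.Primes → Matrix (Fin (m j)) (Fin (m j)) ℂ}
    {P : Nat.Primes → Polynomial ℂ} {Q : J → Nat.Primes → Polynomial ℂ}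
    {S : Finset ℕ} {SJ : J → Finset ℕ}
    (hA : ∀ p : Nat.Primes, (p : ℕ) ∉ S → (A p).charpoly = P p)
    (hB : ∀ j (p : Nat.Primes), (p : ℕ) ∉ SJ j → (B j p).charpoly = Q j p) :
    VirtualRelation ∅ A B ↔ VirtP P Q := by
  classical
  have hfin : ∀ T : Finset ℕ, {p : Nat.Primes | (p : ℕ) ∈ T}.Finite := fun T =>
    Set.Finite.preimage (f := fun p : Nat.Primes => (p : ℕ)) Subtype.val_injective.injOn
      T.finite_toSet
  refine exists_congr fun d => and_congr_right fun _ => exists_congr fun e => ?_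
  have hbad : ({p : Nat.Primes | (p : ℕ) ∈ S} ∪
      ⋃ j ∈ e.support, {p : Nat.Primes | (p : ℕ) ∈ SJ j}).Finite :=
    (hfin S).union (e.support.finite_toSet.biUnion fun j _ => hfin (SJ j))
  have key : ∀ p : Nat.Primes, p ∉ ({p : Nat.Primes | (p : ℕ) ∈ S} ∪
      ⋃ j ∈ e.support, {p : Nat.Primes | (p : ℕ) ∈ SJ j}) → ∀ z,
      ((d : ℤ) * ((A p).charpoly.rootMultiplicity z : ℤ) ≠
        e.sum fun j k => k * ((B j p).charpoly.rootMultiplicity z : ℤ)) ↔
      ((d : ℤ) * ((P p).rootMultiplicity z : ℤ) ≠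
        e.sum fun j k => k * ((Q j p).rootMultiplicity z : ℤ)) := by
    intro p hp z
    rw [Set.mem_union, not_or, Set.mem_iUnion₂] at hp
    push Not at hp
    have h2 : (e.sum fun j k => k * ((B j p).charpoly.rootMultiplicity z : ℤ)) =
        e.sum fun j k => k * ((Q j p).rootMultiplicity z : ℤ) :=
      Finset.sum_congr rfl fun j hj => by
        change e j * ((B j p).charpoly.rootMultiplicity z : ℤ) = _
        rw [hB j p (hp.2 j hj)]
    rw [hA p hp.1, h2]
  constructor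
  · intro h
    refine (h.union hbad).subset ?_
    rintro p ⟨z, hz⟩
    by_cases hb : p ∈ ({p : Nat.Primes | (p : ℕ) ∈ S} ∪
      ⋃ j ∈ e.support, {p : Nat.Primes | (p : ℕ) ∈ SJ j})
    · exact Or.inr hb
    · exact Or.inl ⟨Finset.notMem_empty _, z, (key p hb z).2 hz⟩
  · intro h
    refine (h.union hbad).subset ?_
    rintro p ⟨-, z, hz⟩
    by_cases hb : p ∈ ({p : Nat.Primes | (p : ℕ) ∈ S} ∪
      ⋃ j ∈ e.support, {p : Nat.Primes | (p : ℕ) ∈ SJ j})
    · exact Or.inr hb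
    · exact Or.inl ⟨z, (key p hb z).1 hz⟩

/-- **The edge criterion for Euler products over several number fields.** -/
theorem singleK {J : Type} [Countable J] {K : Type} [Field K] [NumberField K]
    {L : J → Type} [∀ j, Field (L j)] [∀ j, NumberField (L j)]
    {N : ℕ} {m : J → ℕ} {S : Finset ℕ} {SJ : J → Finset ℕ} {w : ℝ}
    (hS : Unram K S) (hSJ : ∀ j, Unram (L j) (SJ j))
    {P : HeightOneSpectrum (𝓞 K) → Polynomial ℂ} (hP : IsSysLe S N w P)
    {Q : ∀ j, HeightOneSpectrum (𝓞 (L j)) → Polynomial ℂ}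
    (hQ : ∀ j, IsSysLe (SJ j) (m j) w (Q j))
    {l : ℝ → ℂ} (hl : IsEdgeOf S N P w l)
    {lQ : J → ℝ → ℂ} (hlQ : ∀ j, IsEdgeOf (SJ j) (m j) (Q j) w (lQ j)) :
    (VirtP (above P) (fun j => above (Q j)) ↔ DependentOn l lQ) ∧
      (DependentOn l lQ ∨ IndependentOf l lQ) := by
  obtain ⟨A, hA⟩ := exists_mats hS (fun v hv => (hP v hv).1) (fun v hv => (hP v hv).2.1)
  have h1 : ∀ j, ∃ B : Nat.Primes → Matrix (Fin (m j * Module.finrank ℚ (L j)))
      (Fin (m j * Module.finrank ℚ (L j))) ℂ, ∀ p : Nat.Primes, (p : ℕ) ∉ SJ j →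
      (B p).charpoly = above (Q j) p := fun j =>
    exists_mats (hSJ j) (fun v hv => (hQ j v hv).1) (fun v hv => (hQ j v hv).2.1)
  choose B hB using h1
  obtain ⟨a1, a2, a3⟩ := sys_bridge_le hP hA
  have b := fun j => sys_bridge_le (hQ j) (hB j)
  obtain ⟨h2, h3⟩ := main_var a1 (fun j => (b j).1) a2 (fun j => (b j).2.1) ((a3 l).1 hl)
    (fun j => ((b j).2.2 _).1 (hlQ j))
  refine ⟨?_, h3⟩
  rw [← h2]
  exact (virtP_iff hA hB).symm

end Pool.Agent.R629.NF
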