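import Pool.Agent.R629.NF.Conc1
import Pool.Agent.R629.NF.Poly2
import Pool.Agent.W401.Cheb.Main

/-!
# Frobenius elements in absolute Galois groups, and Chebotarev's theorem
-/

set_option autoImplicit false
set_option linter.unusedSectionVars false

namespace Pool.Agent.R629.NF

open NumberField IsDedekindDomain
open Pool.Agent.W401.Cheb (HasFrob TorAt tw tw_apply tw_inj frob_unique hasFrob_tw xp)
open Pool.Agent.TH339.MP (nm pr dg Sp mem_Sp nm_eq dg_pos)

/-- The absolute Galois group of `K`, as the subgroup of the elements of the absolute Galois group of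
`ℚ` which are the identity on `K`. -/
noncomputable abbrev GalOf (K Ω : Type) [Field K] [NumberField K] [IsGalois ℚ K] [Field Ω]
    [CharZero Ω] [IsAlgClosure ℚ Ω] [Algebra K Ω] : Subgroup Gal(Ω/ℚ) :=
  (AlgEquiv.restrictNormalHom K : Gal(Ω/ℚ) →* Gal(K/ℚ)).ker

/-- `g` is a Frobenius element at the prime `v` of `K`: for some prime number `p` and homomorphism
`π` from the algebraic integers to `F̄_p` whose kernel contains `v`, `π(g y) = π(y)^{q_v}` for all
algebraic integers `y`. -/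
def IsFrobAt {K : Type} (Ω : Type) [Field K] [NumberField K] [Field Ω] [CharZero Ω]
    [IsAlgClosure ℚ Ω] [Algebra K Ω] (v : HeightOneSpectrum (𝓞 K)) (g : Gal(Ω/ℚ)) : Prop :=
  ∃ (p : ℕ) (_ : Fact p.Prime) (π : 𝓞 Ω →+* AlgebraicClosure (ZMod p)),
    (∀ x ∈ v.asIdeal, π (algebraMap (𝓞 K) (𝓞 Ω) x) = 0) ∧ ∀ y, π (g • y) = π y ^ nm v

section
variable {K Ω : Type} [Field K] [NumberField K] [IsGalois ℚ K] [Field Ω]
    [CharZero Ω] [IsAlgClosure ℚ Ω] [Algebra K Ω]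

/-- Conjugation by `s`, as an endomorphism of the absolute Galois group of `K`. -/
noncomputable def conjBy (K : Type) {Ω : Type} [Field K] [NumberField K] [IsGalois ℚ K] [Field Ω]
    [CharZero Ω] [IsAlgClosure ℚ Ω] [Algebra K Ω] (s : Gal(Ω/ℚ)) : GalOf K Ω →* GalOf K Ω :=
  (MulAut.conjNormal s).toMonoidHom

lemma conjBy_coe (s : Gal(Ω/ℚ)) (g : GalOf K Ω) :
    (conjBy K s g : Gal(Ω/ℚ)) = s * g * s⁻¹ := by
  unfold conjBy
  exact MulAut.conjNormal_apply s g

lemma conjBy_surj (s : Gal(Ω/ℚ)) : Function.Surjective (conjBy K s) :=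
  (MulAut.conjNormal s).surjective

lemma conjBy_one : conjBy K (1 : Gal(Ω/ℚ)) = MonoidHom.id _ := by
  ext g : 2
  rw [conjBy_coe]
  simp

variable {L : Type} [Field L] [NumberField L] [IsGalois ℚ L] [Algebra L Ω]

/-- Restriction to `L`. -/
noncomputable abbrev rsT (L : Type) {Ω : Type} [Field L] [NumberField L] [IsGalois ℚ L] [Field Ω]
    [CharZero Ω] [IsAlgClosure ℚ Ω] [Algebra L Ω] : Gal(Ω/ℚ) →* Gal(L/ℚ) :=
  AlgEquiv.restrictNormalHom L

lemma rs_coe (g : Gal(Ω/ℚ)) (x : L) : algebraMap L Ω (rsT L g x) = g (algebraMap L Ω x) :=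
  AlgEquiv.restrictNormal_commutes g L x

lemma oq_ext {x y : 𝓞 Ω} (h : (x : Ω) = (y : Ω)) : x = y := RingOfIntegers.ext h

lemma alg_smul (g : Gal(Ω/ℚ)) (x : 𝓞 L) :
    algebraMap (𝓞 L) (𝓞 Ω) (rsT L g • x) = g • algebraMap (𝓞 L) (𝓞 Ω) x := by
  apply oq_ext
  exact rs_coe g (x : L)

lemma alg_inj {x y : 𝓞 L} (h : algebraMap (𝓞 L) (𝓞 Ω) x = algebraMap (𝓞 L) (𝓞 Ω) y) :
    x = y := by
  have h1 := congrArg (fun z : 𝓞 Ω => (z : Ω)) h
  have h2 : algebraMap L Ω (x : L) = algebraMap L Ω (y : L) := h1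
  exact RingOfIntegers.ext ((algebraMap L Ω).injective h2)

lemma rs_of_mem (g : GalOf K Ω) : rsT K (g : Gal(Ω/ℚ)) = 1 := g.2

/-- The inclusion of rings of integers. -/
noncomputable def incl (i : K →+* L) : 𝓞 K →+* 𝓞 L := RingOfIntegers.mapRingHom i

lemma alg_incl {i : K →+* L} (hi : ∀ x, algebraMap L Ω (i x) = algebraMap K Ω x) (x : 𝓞 K) :
    algebraMap (𝓞 L) (𝓞 Ω) (incl i x) = algebraMap (𝓞 K) (𝓞 Ω) x := by
  apply oq_ext
  exact hi (x : K)

lemma incl_smul {i : K →+* L} (hi : ∀ x, algebraMap L Ω (i x) = algebraMap K Ω x)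
    (g : Gal(Ω/ℚ)) (x : 𝓞 K) : rsT L g • incl i x = incl i (rsT K g • x) := by
  apply alg_inj (Ω := Ω)
  rw [alg_smul, alg_incl hi, alg_incl hi, alg_smul]

end

end Pool.Agent.R629.NF
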