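import Pool.Agent.R629.NF.Conc2

/-!
# Chebotarev's theorem for the absolute Galois group of a Galois number field
-/

set_option autoImplicit false
set_option linter.unusedSectionVars false

namespace Pool.Agent.R629.NF

open NumberField IsDedekindDomain
open Pool.Agent.W401.Cheb (HasFrob TorAt tw tw_apply tw_inj frob_unique hasFrob_tw xp torsor
  infinite_frob)
open Pool.Agent.TH339.MP (nm pr dg Sp mem_Sp nm_eq dg_pos)

/-- A homomorphism to `F̄_p` whose values are fixed by the Frobenius comes from `ZMod p`. -/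
lemma exists_zmod {A : Type} [CommRing A] {p : ℕ} [Fact p.Prime]
    (f : A →+* AlgebraicClosure (ZMod p)) (hf : ∀ x, f x ^ p = f x) :
    ∃ f' : A →+* ZMod p, ∀ x, algebraMap (ZMod p) (AlgebraicClosure (ZMod p)) (f' x) = f x := by
  have h1 : ∀ x, ∃ w : ZMod p, algebraMap (ZMod p) (AlgebraicClosure (ZMod p)) w = f x :=
    fun x => W54.ChTor.frob_fixed p _ (hf x)
  choose w hw using h1
  have hinj := (algebraMap (ZMod p) (AlgebraicClosure (ZMod p))).injective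
  exact ⟨{ toFun := w
           map_one' := hinj (by rw [hw]; simp)
           map_mul' := fun a b => hinj (by rw [hw, map_mul, map_mul, hw, hw])
           map_zero' := hinj (by rw [hw]; simp)
           map_add' := fun a b => hinj (by rw [hw, map_add, map_add, hw, hw]) }, hw⟩

/-- Two homomorphisms to `F̄_p`, one with values in `ZMod p` and the other zero on its kernel, are
equal. -/
lemma eq_of_ker {A : Type} [CommRing A] {p : ℕ} [Fact p.Prime]
    {f : A →+* AlgebraicClosure (ZMod p)} {f' : A →+* ZMod p}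
    (h : ∀ x, f' x = 0 → f x = 0) (x : A) :
    f x = algebraMap (ZMod p) (AlgebraicClosure (ZMod p)) (f' x) := by
  have h1 := h (x - ((f' x).val : A)) (by
    rw [map_sub, map_natCast, ZMod.natCast_zmod_val, sub_self])
  rw [map_sub, map_natCast, sub_eq_zero] at h1
  rw [h1]
  conv_rhs => rw [← ZMod.natCast_zmod_val (f' x)]
  rw [map_natCast]

section
variable {K Ω : Type} [Field K] [NumberField K] [IsGalois ℚ K] [Field Ω]
    [CharZero Ω] [IsAlgClosure ℚ Ω] [Algebra K Ω]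
variable {L : Type} [Field L] [NumberField L] [IsGalois ℚ L] [Algebra L Ω]

theorem conc_split {S₀ : Finset ℕ} (hU : Unram K S₀)
    {F : HeightOneSpectrum (𝓞 K) → GalOf K Ω} (hF : ∀ v, IsFrobAt Ω v (F v : Gal(Ω/ℚ)))
    {i : K →+* L} (hi : ∀ x, algebraMap L Ω (i x) = algebraMap K Ω x)
    {lift : Gal(K/ℚ) → Gal(Ω/ℚ)} (hlift : ∀ σ, rsT K (lift σ) = σ)
    (g : GalOf K Ω) (T : Finset ℕ) :
    ∃ p : Nat.Primes, (p : ℕ) ∉ T ∧ ∃ b : Gal(K/ℚ) → HeightOneSpectrum (𝓞 K),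
      Function.Injective b ∧ (∀ v, v ∈ Sp p ↔ ∃ σ, b σ = v) ∧ (∀ σ, dg (b σ) = 1) ∧
      ∀ σ, ∃ h : GalOf K Ω, rsT L (conjBy K (lift σ) g : Gal(Ω/ℚ)) =
        rsT L ((h * F (b σ) * h⁻¹ : GalOf K Ω) : Gal(Ω/ℚ)) := by
  classical
  obtain ⟨DK, hDK0, hDK⟩ := torsor K
  obtain ⟨DL, hDL0, hDL⟩ := torsor L
  obtain ⟨p, ⟨hp, hx⟩, hbad⟩ := (infinite_frob L (rsT L (g : Gal(Ω/ℚ)))).exists_notMem_finset
    (T ∪ S₀ ∪ DK.divisors ∪ DL.divisors)
  simp only [Finset.mem_union, not_or] at hbad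
  obtain ⟨⟨⟨hpT, hpS⟩, hpK⟩, hpL⟩ := hbad
  have : Fact p.Prime := ⟨hp⟩
  obtain ⟨P, hPp⟩ : ∃ P : Nat.Primes, (P : ℕ) = p := ⟨⟨p, hp⟩, rfl⟩
  have hTK : TorAt K p := hDK p fun h => hpK (Nat.mem_divisors.2 ⟨h, hDK0.ne'⟩)
  have hTL : TorAt L p := hDL p fun h => hpL (Nat.mem_divisors.2 ⟨h, hDL0.ne'⟩)
  obtain ⟨φ, hφ⟩ : ∃ φ : 𝓞 L →+* AlgebraicClosure (ZMod p),
      HasFrob p φ (rsT L (g : Gal(Ω/ℚ))) := by
    by_contra hno
    push Not at hno
    apply hx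
    unfold xp
    rw [dif_pos hp]
    have : IsEmpty {φ : 𝓞 L →+* AlgebraicClosure (ZMod p) //
        HasFrob p φ (rsT L (g : Gal(Ω/ℚ)))} := ⟨fun φ => hno φ.1 φ.2⟩
    exact Nat.card_of_isEmpty
  have hsm : ∀ (s : Gal(Ω/ℚ)) (x : 𝓞 K), rsT L s • incl i x = incl i (rsT K s • x) :=
    fun s x => incl_smul hi s x
  set f : 𝓞 K →+* AlgebraicClosure (ZMod p) := φ.comp (incl i) with hfdef
  have hfx : ∀ x, f x = φ (incl i x) := fun x => rfl
  have hf : ∀ x, f x ^ p = f x := fun x => by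
    rw [hfx, ← hφ, hsm, rs_of_mem, one_smul]
  obtain ⟨f', hf'⟩ := exists_zmod f hf
  let fs : Gal(K/ℚ) → (𝓞 K →+* ZMod p) := fun σ => tw f' σ⁻¹
  have hfs : ∀ σ x, fs σ x = f' (σ⁻¹ • x) := fun σ x => rfl
  let b : Gal(K/ℚ) → HeightOneSpectrum (𝓞 K) := fun σ => kv (fs σ)
  have hbinj : Function.Injective b := by
    intro σ τ h
    have h1 : fs σ = fs τ := kv_inj h
    have h2 : σ⁻¹ = τ⁻¹ := tw_inj hTK (φ := f) fun x => by
      rw [← hf', ← hf', ← hfs, ← hfs, h1]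
    exact inv_injective h2
  have hbdg : ∀ σ, dg (b σ) = 1 := fun σ => (pr_kv (fs σ)).2
  have hbpr : ∀ σ, pr (b σ) = P := fun σ => Subtype.ext ((pr_kv (fs σ)).1.trans hPp.symm)
  have hbS : ∀ v, v ∈ Sp P ↔ ∃ σ, b σ = v := by
    have hsub : Finset.univ.image b ⊆ Sp P := by
      intro v hv
      obtain ⟨σ, -, rfl⟩ := Finset.mem_image.1 hv
      rw [mem_Sp]
      exact hbpr σ
    have hsum := hU P (by rw [hPp]; exact hpS)
    have hcard : (Finset.univ.image b).card = Module.finrank ℚ K := by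
      rw [Finset.card_image_of_injective _ hbinj, Finset.card_univ,
        ← Nat.card_eq_fintype_card, IsGalois.card_aut_eq_finrank]
    have heq : Finset.univ.image b = Sp P := by
      refine Finset.eq_of_subset_of_card_le hsub ?_
      rw [hcard, ← hsum, Finset.card_eq_sum_ones]
      exact Finset.sum_le_sum fun v _ => dg_pos v
    intro v
    rw [← heq, Finset.mem_image]
    simp
  refine ⟨P, by rw [hPp]; exact hpT, b, hbinj, hbS, hbdg, fun σ => ?_⟩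
  obtain ⟨p', hp', π, hπ1, hπ2⟩ := hF (b σ)
  have hnm : nm (b σ) = p := nm_kv (fs σ)
  have hpp : p' = p := by
    have h1 : ((p : ℕ) : 𝓞 K) ∈ (b σ).asIdeal := by
      rw [mem_kv, map_natCast, ZMod.natCast_self]
    have h2 := hπ1 _ h1
    rw [map_natCast, map_natCast] at h2
    have hchar : CharP (AlgebraicClosure (ZMod p')) p' :=
      charP_of_injective_algebraMap
        (algebraMap (ZMod p') (AlgebraicClosure (ZMod p'))).injective p'
    have h3 : p' ∣ p := (CharP.cast_eq_zero_iff (AlgebraicClosure (ZMod p')) p' p).1 h2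
    exact (Nat.prime_dvd_prime_iff_eq hp'.out hp).1 h3
  subst hpp
  rw [hnm] at hπ2
  let πL : 𝓞 L →+* AlgebraicClosure (ZMod p') := π.comp (algebraMap (𝓞 L) (𝓞 Ω))
  have hπL : HasFrob p' πL (rsT L (F (b σ) : Gal(Ω/ℚ))) := fun x => by
    change π (algebraMap (𝓞 L) (𝓞 Ω) (rsT L (F (b σ) : Gal(Ω/ℚ)) • x)) = _
    rw [alg_smul, hπ2]
    rfl
  set t : Gal(L/ℚ) := rsT L (lift σ) with ht
  have hψ : HasFrob p' (tw φ t⁻¹) (t * rsT L (g : Gal(Ω/ℚ)) * t⁻¹) := by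
    rw [hasFrob_tw hTL hφ, inv_inv]
  obtain ⟨s, hs, -⟩ := hTL.2.1 (tw φ t⁻¹) πL
  have hs' : πL = tw (tw φ t⁻¹) s := RingHom.ext fun x => hs x
  have h4 : rsT L (F (b σ) : Gal(Ω/ℚ)) = s⁻¹ * (t * rsT L (g : Gal(Ω/ℚ)) * t⁻¹) * s := by
    rw [← hasFrob_tw hTL hψ, ← hs']
    exact hπL
  obtain ⟨h, hh⟩ := AlgEquiv.restrictNormalHom_surjective (F := ℚ) (K₁ := L) Ω s
  -- `h` is the identity on `K`
  have hψK : ∀ x : 𝓞 K, tw φ t⁻¹ (incl i x) =
      algebraMap (ZMod p') (AlgebraicClosure (ZMod p')) (fs σ x) := by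
    intro x
    have h5 : t⁻¹ = rsT L (lift σ)⁻¹ := by rw [map_inv]
    rw [tw_apply, h5, hsm, map_inv, hlift, hfs, hf']
    rfl
  have hπK : ∀ x : 𝓞 K, πL (incl i x) =
      algebraMap (ZMod p') (AlgebraicClosure (ZMod p')) (fs σ x) := by
    refine eq_of_ker (f := πL.comp (incl i)) (f' := fs σ) fun x hx => ?_
    change π (algebraMap (𝓞 L) (𝓞 Ω) (incl i x)) = 0
    rw [alg_incl hi]
    exact hπ1 x (mem_kv.2 hx)
  have hK : rsT K h = 1 := by
    have h6 : rsT K h * 1 = 1 * 1 := by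
      have h7 : ∀ x : 𝓞 K, fs σ (rsT K h • x) = fs σ x := by
        intro x
        apply (algebraMap (ZMod p') (AlgebraicClosure (ZMod p'))).injective
        rw [← hψK, ← hπK, ← hsm, hh]
        exact (hs _).symm
      have h8 : σ⁻¹ * rsT K h = σ⁻¹ := tw_inj hTK (φ := f) fun x => by
        rw [mul_smul, ← hf', ← hf', ← hfs, ← hfs, h7]
      rw [mul_one, mul_one]
      exact mul_left_cancel (a := σ⁻¹) (by rw [h8, mul_one])
    simpa using h6
  refine ⟨⟨h, hK⟩, ?_⟩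
  rw [conjBy_coe, map_mul, map_mul, map_inv]
  have h9 : rsT L (((⟨h, hK⟩ * F (b σ) * ⟨h, hK⟩⁻¹ : GalOf K Ω)) : Gal(Ω/ℚ)) =
      s * rsT L (F (b σ) : Gal(Ω/ℚ)) * s⁻¹ := by
    rw [← hh, ← map_inv, ← map_mul, ← map_mul]
    rfl
  rw [h9, h4]
  have h10 : ∀ a b : Gal(L/ℚ), b = a * (a⁻¹ * b * a) * a⁻¹ := fun a b => by group
  exact h10 s _

end

end Pool.Agent.R629.NF
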