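import Pool.Agent.R629.NF.ModP4

/-!
# Mod p eigenforms, their levels, and mod p representations of dimension two
-/

set_option autoImplicit false

namespace Pool.Agent.R629.NF

open Representation Filter Topology Finset NumberField IsDedekindDomain MeasureTheory
open Pool.Agent.R629.SP
open Pool.Agent.TH339.MP (nm pr dg Sp mem_Sp nm_eq dg_pos)

section
variable {k : Type} [Field k] {K : Type} [Field K] [NumberField K] {G : Type} [Group G]
variable {Γ : Type} [Fintype Γ] {S₀ : Finset ℕ} [TopologicalSpace G]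
  {Frob : HeightOneSpectrum (𝓞 K) → G} {c : Γ → G →* G}
  {act : Γ → HeightOneSpectrum (𝓞 K) → HeightOneSpectrum (𝓞 K)}

/-- `ρ` is attached to the system of eigenvalues `a_v`: for all `v` not above `T` the characteristic
polynomial of `ρ(Frob_v)` is `X² - a_v X + q_v`. -/
def IsAttached (Frob : HeightOneSpectrum (𝓞 K) → G) (T : Finset ℕ)
    (a : HeightOneSpectrum (𝓞 K) → k) (ρ : G →* GL (Fin 2) k) : Prop :=
  ∀ v, (pr v : ℕ) ∉ T → (ρ (Frob v)).val.charpoly =
    Polynomial.X ^ 2 - Polynomial.C (a v) * Polynomial.X + Polynomial.C ((nm v : ℕ) : k)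

lemma attached_trace {T : Finset ℕ} {a : HeightOneSpectrum (𝓞 K) → k} {ρ : G →* GL (Fin 2) k}
    (h : IsAttached Frob T a ρ) {v : HeightOneSpectrum (𝓞 K)} (hv : (pr v : ℕ) ∉ T) :
    (ρ (Frob v)).val.trace = a v := by
  have h1 := h v hv
  rw [Matrix.charpoly_fin_two] at h1
  have h2 := congrArg (fun P : Polynomial k => P.coeff 1) h1
  simp [Polynomial.coeff_X_pow] at h2
  exact h2

lemma attached_iff {T : Finset ℕ} {a : HeightOneSpectrum (𝓞 K) → k} {ρ : G →* GL (Fin 2) k} :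
    IsAttached Frob T a ρ ↔ ∀ v, (pr v : ℕ) ∉ T → (ρ (Frob v)).val.trace = a v ∧
      (ρ (Frob v)).val.det = ((nm v : ℕ) : k) := by
  constructor
  · intro h v hv
    refine ⟨attached_trace h hv, ?_⟩
    have h1 := h v hv
    rw [Matrix.charpoly_fin_two] at h1
    have h2 := congrArg (fun P : Polynomial k => P.coeff 0) h1
    simp [Polynomial.coeff_X_pow] at h2
    exact h2
  · intro h v hv
    obtain ⟨h1, h2⟩ := h v hv
    rw [Matrix.charpoly_fin_two, h1, h2]

end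

section
variable {k : Type} [Field k] [IsAlgClosed k] {K : Type} [Field K] [NumberField K]
  {G : Type} [Group G]
variable {Γ : Type} [Fintype Γ] {S₀ : Finset ℕ} [TopologicalSpace G]
  {Frob : HeightOneSpectrum (𝓞 K) → G} {c : Γ → G →* G}
  {act : Γ → HeightOneSpectrum (𝓞 K) → HeightOneSpectrum (𝓞 K)}

/-- **Two-dimensional mod p representations and eigenforms, with levels.** -/
theorem main_levels {I J : Type} [Countable I] [Countable J] (hG : IsGalData S₀ Frob c act)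
    (hsurj : ∀ σ, Function.Surjective (c σ))
    {θ : k → ℂ} (hθ : Function.Injective θ) (hθ1 : ∀ z : k, z ≠ 0 → ‖θ z‖ = 1)
    {Lev : Type} (actL : Γ → Lev → Lev) {lvl : J → Lev}
    {a : J → HeightOneSpectrum (𝓞 K) → k} {H : J → G →* GL (Fin 2) k}
    {SJ : J → Finset ℕ} (hSJ : ∀ j, S₀ ⊆ SJ j)
    (hH : ∀ j, IsDiscCont (H j)) (hHirr : ∀ j, (rep (H j)).IsIrreducible)
    (hatt : ∀ j, IsAttached Frob (SJ j) (a j) (H j))
    (hstab : ∀ j σ, ∃ j', lvl j' = actL σ (lvl j) ∧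
      Nonempty ((rep ((H j).comp (c σ))).Equiv (rep (H j'))))
    {R : I → G →* GL (Fin 2) k} {SI : I → Finset ℕ} (hSI : ∀ i, S₀ ⊆ SI i)
    (hR : ∀ i, IsDiscCont (R i)) (hRirr : ∀ i, (rep (R i)).IsIrreducible)
    (hdet : ∀ i v, (pr v : ℕ) ∉ SI i → (R i (Frob v)).val.det = ((nm v : ℕ) : k))
    {l : I → ℝ → ℂ} (hl : ∀ i, IsEdgeOf (SI i) 2 (frobLift θ Frob (R i)) 0 (l i))
    {lH : J → ℝ → ℂ} (hlH : ∀ j, IsEdgeOf (SJ j) 2 (frobLift θ Frob (H j)) 0 (lH j)) (i : I)
    (Λ : Set Lev) (hΛ : ∀ σ, ∀ N ∈ Λ, actL σ N ∈ Λ) :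
    [∃ j, lvl j ∈ Λ ∧ Nonempty ((rep (R i)).Equiv (rep (H j))),
      ∃ j, lvl j ∈ Λ ∧ ∀ v, (pr v : ℕ) ∉ SI i ∪ SJ j → (R i (Frob v)).val.trace = a j v,
      ∃ j, lvl j ∈ Λ ∧ ∃ T : Finset ℕ, ∀ v, (pr v : ℕ) ∉ T → (R i (Frob v)).val.trace = a j v,
      DependentOn (l i) fun j : {j // lvl j ∈ Λ} => lH j,
      ¬ IndependentOf (l i) fun j : {j // lvl j ∈ Λ} => lH j].TFAE := by
  classical
  have hmain := (main_modP hG hsurj hθ hθ1 hR hRirr (H := fun j : {j // lvl j ∈ Λ} => H j)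
    (fun j => hH j) (fun j => hHirr j) hSI (fun j => hSJ j) hl
    (lH := fun j : {j // lvl j ∈ Λ} => lH j) (fun j => hlH j)).1 i
  have hvirt := (singleK (K := K) (L := fun _ : {j // lvl j ∈ Λ} => K)
    (unram_mono hG.unram (hSI i)) (fun j => unram_mono hG.unram (hSJ j))
    (frobLift_sys hθ1 Frob (R i) (SI i)) (Q := fun j => frobLift θ Frob (H j))
    (fun j => frobLift_sys hθ1 Frob (H j) (SJ j)) (hl i)
    (lQ := fun j : {j // lvl j ∈ Λ} => lH j) (fun j => hlH j)).1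
  tfae_have 1 → 2 := by
    rintro ⟨j, hj, ⟨E⟩⟩
    refine ⟨j, hj, fun v hv => ?_⟩
    rw [Finset.mem_union, not_or] at hv
    have h1 : (R i (Frob v)).val.charpoly = (H j (Frob v)).val.charpoly := charpoly_equiv E _
    have h2 := hatt j v hv.2
    rw [← h1, Matrix.charpoly_fin_two] at h2
    have h3 := congrArg (fun P : Polynomial k => P.coeff 1) h2
    simp [Polynomial.coeff_X_pow] at h3
    exact h3
  tfae_have 2 → 3 := by
    rintro ⟨j, hj, h⟩
    exact ⟨j, hj, _, h⟩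
  tfae_have 3 → 4 := by
    rintro ⟨j, hj, T, h⟩
    rw [← hvirt]
    refine ⟨1, one_pos, Finsupp.single ⟨j, hj⟩ 1, ?_⟩
    have hfin : {p : Nat.Primes | (p : ℕ) ∈ T ∪ (SI i ∪ SJ j)}.Finite :=
      Set.Finite.preimage (f := fun p : Nat.Primes => (p : ℕ)) Subtype.val_injective.injOn
        (T ∪ (SI i ∪ SJ j)).finite_toSet
    refine hfin.subset ?_
    rintro p ⟨z, hne⟩
    by_contra hno
    apply hne
    change ¬ ((p : ℕ) ∈ T ∪ (SI i ∪ SJ j)) at hno
    rw [Finset.mem_union, Finset.mem_union, not_or, not_or] at hno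
    rw [Finsupp.sum_single_index (zero_mul _)]
    beta_reduce
    have h5 : above (frobLift θ Frob (R i)) p = above (frobLift θ Frob (H j)) p := by
      unfold above
      refine Finset.prod_congr rfl fun v hv => ?_
      rw [mem_Sp] at hv
      rw [← hv] at hno
      have h6 := hatt j v hno.2.2
      unfold frobLift
      rw [h6, Matrix.charpoly_fin_two, h v hno.1, hdet i v hno.2.1]
    rw [h5]
    push_cast
    ring
  tfae_have 4 → 1 := by
    intro h
    obtain ⟨⟨j, hj⟩, σ, ⟨E⟩⟩ := hmain.1.2 h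
    obtain ⟨j', hj', ⟨E'⟩⟩ := hstab j σ
    refine ⟨j', ?_, ⟨E.trans E'⟩⟩
    rw [hj']
    exact hΛ σ _ hj
  tfae_have 4 → 5 := fun h => not_indep h
  tfae_have 5 → 4 := fun h => hmain.2.resolve_right h
  tfae_finish

end

end Pool.Agent.R629.NF
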