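import Pool.Agent.R629.NF.Conc3
import Pool.Agent.R629.NF.ModP5

/-!
# Edge values of mod p representations of absolute Galois groups
-/

set_option autoImplicit false
set_option linter.unusedSectionVars false

namespace Pool.Agent.R629.NF

open Representation Filter Topology Finset NumberField IsDedekindDomain MeasureTheory
open Pool.Agent.R629.SP
open Pool.Agent.TH339.MP (nm pr dg Sp mem_Sp nm_eq dg_pos)

section
variable {k : Type} [Field k] [IsAlgClosed k] {K : Type} [Field K] [NumberField K]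
  {G : Type} [Group G] {Γ : Type} [Fintype Γ]

lemma lift_split' {θ : k → ℂ} (hθ : Function.Injective θ) {p : Nat.Primes}
    {b : Γ → HeightOneSpectrum (𝓞 K)} (hb : Function.Injective b)
    (hSp : ∀ v : HeightOneSpectrum (𝓞 K), v ∈ Sp p ↔ ∃ i, b i = v) (hdg : ∀ i, dg (b i) = 1)
    {Frob : HeightOneSpectrum (𝓞 K) → G} {n : ℕ} (ρ : G →* GL (Fin n) k) (q : Γ → Polynomial k)
    (hq : ∀ σ, q σ = (ρ (Frob (b σ))).val.charpoly) (z : k) :
    (above (frobLift θ Frob ρ) p).rootMultiplicity (θ z) = ∑ σ, (q σ).rootMultiplicity z := by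
  classical
  have h1 : (Sp p : Finset (HeightOneSpectrum (𝓞 K))) = Finset.univ.image b := by
    ext v
    rw [hSp, Finset.mem_image]
    simp
  unfold above
  rw [h1, Finset.prod_image fun i _ j _ h => hb h, rm_prod _ _ fun i _ => ?_]
  · refine Finset.sum_congr rfl fun i _ => ?_
    rw [hdg i, Polynomial.expand_one, hq i]
    exact liftPoly_mult hθ _ z
  · rw [hdg i, Polynomial.expand_one]
    exact (liftPoly_monic _ _).ne_zero

variable {I J : Type} {n : I → ℕ} {m : J → ℕ}

/-- A representation which is not conjugate to the others has the coefficient zero. -/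
theorem noRel_core {c : Γ → G →* G} (hone : ∃ σ, c σ = MonoidHom.id G)
    (hsurj : ∀ σ, Function.Surjective (c σ))
    {R : ∀ i, G →* GL (Fin (n i)) k} (hRirr : ∀ i, (rep (R i)).IsIrreducible)
    {H : ∀ j, G →* GL (Fin (m j)) k} (hHirr : ∀ j, (rep (H j)).IsIrreducible)
    (a : I →₀ ℤ) (e : J →₀ ℤ)
    (hall : ∀ (g : G) (z : k),
      (a.sum fun i k => k * ∑ σ, ((R i (c σ g)).val.charpoly.rootMultiplicity z : ℤ)) =
      e.sum fun j k => k * ∑ σ, ((H j (c σ g)).val.charpoly.rootMultiplicity z : ℤ))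
    (i₀ : I) (h1 : ∀ i, i ≠ i₀ → ¬ IsConjugate c (R i₀) (R i))
    (h2 : ∀ j, ¬ IsConjugate c (R i₀) (H j)) : a i₀ = 0 := by
  classical
  let _ : TopologicalSpace G := ⊥
  by_contra ha
  have hmem : i₀ ∈ a.support := Finsupp.mem_support_iff.2 ha
  obtain ⟨σ₀, hσ₀⟩ := hone
  have hcomp : (R i₀).comp (c σ₀) = R i₀ := by
    rw [hσ₀]
    exact MonoidHom.comp_id _
  let X : Type := (a.support × Γ) ⊕ (e.support × Γ)
  let N : X → ℕ := Sum.elim (fun x => n x.1) fun y => m y.1
  let σX : ∀ x : X, G →* GL (Fin (N x)) k := fun x => match x with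
    | Sum.inl x => (R x.1).comp (c x.2)
    | Sum.inr y => (H y.1).comp (c y.2)
  let b : X → ℤ := Sum.elim (fun x => a x.1) fun y => - e y.1
  have hXirr : ∀ x, (rep (σX x)).IsIrreducible := by
    rintro (x | y)
    · exact irr_comp (hRirr x.1) (hsurj x.2)
    · exact irr_comp (hHirr y.1) (hsurj y.2)
  have hb : ∀ (g : G) (z : k), ∑ x, b x * ((σX x g).val.charpoly.rootMultiplicity z : ℤ) = 0 := by
    intro g z
    have h3 := hall g z
    rw [Fintype.sum_sum_type, Fintype.sum_prod_type, Fintype.sum_prod_type]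
    have h4 : (a.sum fun i k => k * ∑ σ, ((R i (c σ g)).val.charpoly.rootMultiplicity z : ℤ)) =
        ∑ i : a.support, ∑ σ : Γ, a i * ((R i (c σ g)).val.charpoly.rootMultiplicity z : ℤ) := by
      unfold Finsupp.sum
      rw [← Finset.sum_coe_sort]
      exact Finset.sum_congr rfl fun i _ => Finset.mul_sum _ _ _
    have h5 : (e.sum fun j k => k * ∑ σ, ((H j (c σ g)).val.charpoly.rootMultiplicity z : ℤ)) =
        ∑ j : e.support, ∑ σ : Γ, e j * ((H j (c σ g)).val.charpoly.rootMultiplicity z : ℤ) := by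
      unfold Finsupp.sum
      rw [← Finset.sum_coe_sort]
      exact Finset.sum_congr rfl fun i _ => Finset.mul_sum _ _ _
    rw [h4, h5] at h3
    have h6 : ∑ j : e.support, ∑ σ : Γ,
        b (Sum.inr (j, σ)) * ((σX (Sum.inr (j, σ)) g).val.charpoly.rootMultiplicity z : ℤ) =
        - ∑ j : e.support, ∑ σ : Γ,
          e j * ((H j (c σ g)).val.charpoly.rootMultiplicity z : ℤ) := by
      rw [← Finset.sum_neg_distrib]
      refine Finset.sum_congr rfl fun j _ => ?_
      rw [← Finset.sum_neg_distrib]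
      exact Finset.sum_congr rfl fun σ _ => neg_mul _ _
    rw [h6, ← h3]
    exact add_neg_cancel _
  have h7 := class_indep σX hXirr b hb (Sum.inl (⟨i₀, hmem⟩, σ₀))
    (Finset.univ.filter fun x =>
      Nonempty ((rep (σX x)).Equiv (rep (σX (Sum.inl (⟨i₀, hmem⟩, σ₀))))))
    (fun x => by rw [Finset.mem_filter]; exact and_iff_right (Finset.mem_univ _))
  have h8 : ∀ x ∈ Finset.univ.filter (fun x : X =>
      Nonempty ((rep (σX x)).Equiv (rep (σX (Sum.inl (⟨i₀, hmem⟩, σ₀)))))), b x = a i₀ := by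
    intro x hx
    have hx := (Finset.mem_filter.1 hx).2
    have hE : Nonempty ((rep (R i₀)).Equiv (rep (σX x))) := by
      obtain ⟨E⟩ := hx
      have h9 : σX (Sum.inl (⟨i₀, hmem⟩, σ₀)) = R i₀ := hcomp
      rw [h9] at E
      exact ⟨E.symm⟩
    match x with
    | Sum.inl (i, σ) =>
      by_cases hi : (i : I) = i₀
      · change a i = a i₀
        rw [hi]
      · exact absurd ⟨σ, hE⟩ (h1 i hi)
    | Sum.inr (j, σ) => exact absurd ⟨σ, hE⟩ (h2 j)
  rw [Finset.sum_congr rfl h8, Finset.sum_const, nsmul_eq_mul] at h7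
  have h9 : (Finset.univ.filter (fun x : X =>
      Nonempty ((rep (σX x)).Equiv (rep (σX (Sum.inl (⟨i₀, hmem⟩, σ₀))))))).card ≠ 0 := by
    rw [Finset.card_ne_zero]
    exact ⟨Sum.inl (⟨i₀, hmem⟩, σ₀), Finset.mem_filter.2
      ⟨Finset.mem_univ _, ⟨Representation.Equiv.refl _⟩⟩⟩
  rcases mul_eq_zero.1 h7 with h10 | h10
  · exact h9 (by exact_mod_cast h10)
  · exact ha h10

end

/-- The representation is continuous for the discrete topology on the matrices: it is trivial on the
elements of the Galois group which are the identity on some finite extension of `ℚ`. -/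
def IsSmooth {K Ω k : Type} [Field K] [NumberField K] [IsGalois ℚ K] [Field Ω] [CharZero Ω]
    [IsAlgClosure ℚ Ω] [Algebra K Ω] [Field k] {n : ℕ} (ρ : GalOf K Ω →* GL (Fin n) k) : Prop :=
  ∃ E : IntermediateField ℚ Ω, FiniteDimensional ℚ E ∧
    ∀ g : GalOf K Ω, (∀ x ∈ E, (g : Gal(Ω/ℚ)) x = x) → ρ g = 1

section
variable {K Ω : Type} [Field K] [NumberField K] [IsGalois ℚ K] [Field Ω]
    [CharZero Ω] [IsAlgClosure ℚ Ω] [Algebra K Ω]

/-- Finitely many finite extensions are contained in a finite Galois extension. -/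
lemma exists_L {A : Type} [Finite A] (E : A → IntermediateField ℚ Ω)
    (hE : ∀ a, FiniteDimensional ℚ (E a)) :
    ∃ L : IntermediateField ℚ Ω, NumberField L ∧ IsGalois ℚ L ∧ (∀ a, E a ≤ L) ∧
      ∃ i : K →+* L, ∀ x, algebraMap L Ω (i x) = algebraMap K Ω x := by
  let E0 : IntermediateField ℚ Ω := (IsScalarTower.toAlgHom ℚ K Ω).fieldRange
  have hE0 : FiniteDimensional ℚ E0 :=
    (LinearEquiv.finiteDimensional
      (AlgEquiv.ofInjectiveField (IsScalarTower.toAlgHom ℚ K Ω)).toLinearEquiv)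
  let M : IntermediateField ℚ Ω := E0 ⊔ ⨆ a, E a
  have hsup : FiniteDimensional ℚ (⨆ a, E a : IntermediateField ℚ Ω) :=
    IntermediateField.finiteDimensional_iSup_of_finite
  have hM : FiniteDimensional ℚ M := IntermediateField.finiteDimensional_sup E0 _
  let L : IntermediateField ℚ Ω := IntermediateField.normalClosure ℚ M Ω
  have hL : FiniteDimensional ℚ L := inferInstance
  have hML : M ≤ L := IntermediateField.le_normalClosure M
  have hLG : IsGalois ℚ L := IsGalois.normalClosure ℚ M Ω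
  refine ⟨L, { to_charZero := inferInstance, to_finiteDimensional := hL }, hLG,
    fun a => (le_iSup E a).trans (le_sup_right.trans hML), ?_⟩
  · have h1 : ∀ x : K, algebraMap K Ω x ∈ L := fun x => hML (le_sup_left (a := E0)
      (show algebraMap K Ω x ∈ E0 from ⟨x, rfl⟩))
    exact ⟨(algebraMap K Ω).codRestrict L.toSubfield h1, fun x => rfl⟩

end

end Pool.Agent.R629.NF
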