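import Pool.Agent.R629.NF.Conc4

/-!
# The main theorem on edge values of mod p representations of absolute Galois groups
-/

set_option autoImplicit false
set_option linter.unusedSectionVars false

namespace Pool.Agent.R629.NF

open Representation Filter Topology Finset NumberField IsDedekindDomain MeasureTheory
open Pool.Agent.R629.SP
open Pool.Agent.TH339.MP (nm pr dg Sp mem_Sp nm_eq dg_pos)

section
variable {K Ω : Type} [Field K] [NumberField K] [IsGalois ℚ K] [Field Ω]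
    [CharZero Ω] [IsAlgClosure ℚ Ω] [Algebra K Ω]
variable {k : Type} [Field k]

lemma smooth_eq {L : IntermediateField ℚ Ω} [NumberField L] [IsGalois ℚ L] {x y : GalOf K Ω}
    (h : rsT L (x : Gal(Ω/ℚ)) = rsT L (y : Gal(Ω/ℚ))) {n : ℕ} {ρ : GalOf K Ω →* GL (Fin n) k}
    {E : IntermediateField ℚ Ω} (hE : E ≤ L)
    (hρ : ∀ g : GalOf K Ω, (∀ x ∈ E, (g : Gal(Ω/ℚ)) x = x) → ρ g = 1) : ρ x = ρ y := by
  have h1 : ρ (x * y⁻¹) = 1 := by
    refine hρ _ fun z hz => ?_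
    have h2 : rsT L ((x * y⁻¹ : GalOf K Ω) : Gal(Ω/ℚ)) = 1 := by
      have h3 : ((x * y⁻¹ : GalOf K Ω) : Gal(Ω/ℚ)) = (x : Gal(Ω/ℚ)) * (y : Gal(Ω/ℚ))⁻¹ := rfl
      rw [h3, map_mul, map_inv, h, mul_inv_cancel]
    have h4 := rs_coe (L := L) ((x * y⁻¹ : GalOf K Ω) : Gal(Ω/ℚ)) ⟨z, hE hz⟩
    rw [h2] at h4
    exact h4.symm
  rwa [map_mul, map_inv, mul_inv_eq_one] at h1

variable [IsAlgClosed k] {I J : Type} {n : I → ℕ} {m : J → ℕ}

theorem conc_rel {S₀ : Finset ℕ} (hU : Unram K S₀)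
    {F : HeightOneSpectrum (𝓞 K) → GalOf K Ω} (hF : ∀ v, IsFrobAt Ω v (F v : Gal(Ω/ℚ)))
    {θ : k → ℂ} (hθ : Function.Injective θ)
    {R : ∀ i, GalOf K Ω →* GL (Fin (n i)) k} (hR : ∀ i, IsSmooth (R i))
    {H : ∀ j, GalOf K Ω →* GL (Fin (m j)) k} (hH : ∀ j, IsSmooth (H j))
    {lift : Gal(K/ℚ) → Gal(Ω/ℚ)} (hlift : ∀ σ, rsT K (lift σ) = σ)
    (a : I →₀ ℤ) (e : J →₀ ℤ)
    (hfin : {p : Nat.Primes | ∃ z,
      (a.sum fun i k => k * ((above (frobLift θ F (R i)) p).rootMultiplicity z : ℤ)) ≠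
      e.sum fun j k => k * ((above (frobLift θ F (H j)) p).rootMultiplicity z : ℤ)}.Finite)
    (g : GalOf K Ω) (z : k) :
    (a.sum fun i k => k * ∑ σ,
      ((R i (conjBy K (lift σ) g)).val.charpoly.rootMultiplicity z : ℤ)) =
      e.sum fun j k => k * ∑ σ,
        ((H j (conjBy K (lift σ) g)).val.charpoly.rootMultiplicity z : ℤ) := by
  classical
  choose ER hER1 hER2 using hR
  choose EH hEH1 hEH2 using hH
  obtain ⟨L, hNF, hGal, hE, i, hi⟩ := exists_L (K := K) (A := a.support ⊕ e.support)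
    (Sum.elim (fun i => ER i) fun j => EH j) (by
      rintro (i | j)
      · exact hER1 i
      · exact hEH1 j)
  obtain ⟨p, hpT, b, hb, hSp, hdg, hc⟩ := conc_split (L := L) hU hF hi hlift g
    (hfin.toFinset.image fun p : Nat.Primes => (p : ℕ))
  have key : ∀ {r : ℕ} {ρ : GalOf K Ω →* GL (Fin r) k} {E : IntermediateField ℚ Ω} (_ : E ≤ L)
      (_ : ∀ g : GalOf K Ω, (∀ x ∈ E, (g : Gal(Ω/ℚ)) x = x) → ρ g = 1) (σ : Gal(K/ℚ)),
      (ρ (conjBy K (lift σ) g)).val.charpoly = (ρ (F (b σ))).val.charpoly := by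
    intro r ρ E hEL hρ σ
    obtain ⟨h, hh⟩ := hc σ
    rw [smooth_eq hh hEL hρ, charpoly_conj]
  have hp : ∀ z, (a.sum fun i k => k * ((above (frobLift θ F (R i)) p).rootMultiplicity z : ℤ)) =
      e.sum fun j k => k * ((above (frobLift θ F (H j)) p).rootMultiplicity z : ℤ) := by
    intro z
    by_contra hne
    exact hpT (Finset.mem_image.2 ⟨p, hfin.mem_toFinset.2 ⟨z, hne⟩, rfl⟩)
  have h1 := hp (θ z)
  convert h1 using 1
  · refine Finset.sum_congr rfl fun i' hi' => ?_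
    change a i' * _ = a i' * _
    rw [lift_split' hθ hb hSp hdg (R i') (fun σ => (R i' (conjBy K (lift σ) g)).val.charpoly)
      (fun σ => key (hE (Sum.inl ⟨i', hi'⟩)) (hER2 i') σ), Nat.cast_sum]
  · refine Finset.sum_congr rfl fun j' hj' => ?_
    change e j' * _ = e j' * _
    rw [lift_split' hθ hb hSp hdg (H j') (fun σ => (H j' (conjBy K (lift σ) g)).val.charpoly)
      (fun σ => key (hE (Sum.inr ⟨j', hj'⟩)) (hEH2 j') σ), Nat.cast_sum]

/-- A representation which is not conjugate to the others has the coefficient zero. -/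
theorem conc_noRel {S₀ : Finset ℕ} (hU : Unram K S₀)
    {F : HeightOneSpectrum (𝓞 K) → GalOf K Ω} (hF : ∀ v, IsFrobAt Ω v (F v : Gal(Ω/ℚ)))
    {θ : k → ℂ} (hθ : Function.Injective θ)
    {R : ∀ i, GalOf K Ω →* GL (Fin (n i)) k} (hR : ∀ i, IsSmooth (R i))
    (hRirr : ∀ i, (rep (R i)).IsIrreducible)
    {H : ∀ j, GalOf K Ω →* GL (Fin (m j)) k} (hH : ∀ j, IsSmooth (H j))
    (hHirr : ∀ j, (rep (H j)).IsIrreducible)
    (a : I →₀ ℤ) (e : J →₀ ℤ)
    (hfin : {p : Nat.Primes | ∃ z,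
      (a.sum fun i k => k * ((above (frobLift θ F (R i)) p).rootMultiplicity z : ℤ)) ≠
      e.sum fun j k => k * ((above (frobLift θ F (H j)) p).rootMultiplicity z : ℤ)}.Finite)
    (i₀ : I) (h1 : ∀ i, i ≠ i₀ → ¬ IsConjugate (conjBy (Ω := Ω) K) (R i₀) (R i))
    (h2 : ∀ j, ¬ IsConjugate (conjBy (Ω := Ω) K) (R i₀) (H j)) : a i₀ = 0 := by
  classical
  have hsurj : ∀ σ : Gal(K/ℚ), ∃ s : Gal(Ω/ℚ), rsT K s = σ :=
    fun σ => AlgEquiv.restrictNormalHom_surjective (F := ℚ) (K₁ := K) Ω σ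
  choose l0 hl0 using hsurj
  let lift : Gal(K/ℚ) → Gal(Ω/ℚ) := fun σ => if σ = 1 then 1 else l0 σ
  have hlift : ∀ σ, rsT K (lift σ) = σ := by
    intro σ
    by_cases hσ : σ = 1
    · simp only [lift, hσ, if_true, map_one]
    · simp only [lift, hσ, if_false]
      exact hl0 σ
  refine noRel_core (c := fun σ : Gal(K/ℚ) => conjBy K (lift σ)) ⟨1, ?_⟩
    (fun σ => conjBy_surj _) hRirr hHirr a e
    (fun g z => conc_rel hU hF hθ hR hH hlift a e hfin g z) i₀ ?_ ?_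
  · simp only [lift, if_true]
    exact conjBy_one
  · rintro i hi ⟨σ, E⟩
    exact h1 i hi ⟨lift σ, E⟩
  · rintro j ⟨σ, E⟩
    exact h2 j ⟨lift σ, E⟩

/-- **Edge values of irreducible mod p representations of absolute Galois groups.** -/
theorem main_conc [Countable I] [Countable J] {S₀ : Finset ℕ} (hU : Unram K S₀)
    {F : HeightOneSpectrum (𝓞 K) → GalOf K Ω} (hF : ∀ v, IsFrobAt Ω v (F v : Gal(Ω/ℚ)))
    {θ : k → ℂ} (hθ : Function.Injective θ) (hθ1 : ∀ z : k, z ≠ 0 → ‖θ z‖ = 1)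
    {R : ∀ i, GalOf K Ω →* GL (Fin (n i)) k} (hR : ∀ i, IsSmooth (R i))
    (hRirr : ∀ i, (rep (R i)).IsIrreducible)
    {H : ∀ j, GalOf K Ω →* GL (Fin (m j)) k} (hH : ∀ j, IsSmooth (H j))
    (hHirr : ∀ j, (rep (H j)).IsIrreducible)
    (hstab : ∀ j (s : Gal(Ω/ℚ)), IsIn H ((H j).comp (conjBy K s)))
    {SI : I → Finset ℕ} (hSI : ∀ i, S₀ ⊆ SI i) {SJ : J → Finset ℕ} (hSJ : ∀ j, S₀ ⊆ SJ j)
    {l : I → ℝ → ℂ} (hl : ∀ i, IsEdgeOf (SI i) (n i) (frobLift θ F (R i)) 0 (l i))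
    {lH : J → ℝ → ℂ} (hlH : ∀ j, IsEdgeOf (SJ j) (m j) (frobLift θ F (H j)) 0 (lH j)) :
    (∀ i, (IsIn H (R i) ↔ VirtP (above (frobLift θ F (R i))) fun j => above (frobLift θ F (H j))) ∧
      (IsIn H (R i) ↔ DependentOn (l i) lH) ∧
      (DependentOn (l i) lH ∨ IndependentOf (l i) lH)) ∧
    ((∀ i i', i' ≠ i → ¬ IsConjugate (conjBy (Ω := Ω) K) (R i) (R i')) →
      ∀ k' : Subfield ℂ, (k' : Set ℂ).Countable → ∀ᵐ t : ℝ, AlgebraicIndependent
        (IntermediateField.adjoin k' (valSet (fun j => lH j t) t))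
        fun i : {i : I // ¬ IsIn H (R i)} => l i t) := by
  classical
  have hUI : ∀ i, Unram K (SI i) := fun i => unram_mono hU (hSI i)
  have hUJ : ∀ j, Unram K (SJ j) := fun j => unram_mono hU (hSJ j)
  have hP := fun i => frobLift_sys hθ1 F (R i) (SI i)
  have hQ := fun j => frobLift_sys hθ1 F (H j) (SJ j)
  have hone : ∃ s : Gal(Ω/ℚ), conjBy K s = MonoidHom.id _ := ⟨1, conjBy_one⟩
  have hiff : ∀ i, IsIn H (R i) ↔ ∃ j, IsConjugate (conjBy (Ω := Ω) K) (R i) (H j) := fun i =>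
    isIn_iff hone hstab
  have hvirt : ∀ i, IsIn H (R i) ↔
      VirtP (above (frobLift θ F (R i))) fun j => above (frobLift θ F (H j)) := by
    intro i
    constructor
    · rintro ⟨j, ⟨E⟩⟩
      refine ⟨1, one_pos, Finsupp.single j 1, ?_⟩
      refine Set.Finite.subset Set.finite_empty ?_
      rintro p ⟨z, hne⟩
      exfalso
      apply hne
      rw [Finsupp.sum_single_index (zero_mul _)]
      beta_reduce
      have h5 : frobLift θ F (R i) = frobLift θ F (H j) := by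
        funext v
        unfold frobLift
        rw [charpoly_equiv E]
      rw [h5]
      push_cast
      ring
    · rintro ⟨d, hd, e, hfin⟩
      rw [hiff]
      by_contra hno
      push Not at hno
      have h3 := conc_noRel (I := Unit) hU hF hθ (R := fun _ => R i) (fun _ => hR i)
        (fun _ => hRirr i) hH hHirr (Finsupp.single () (d : ℤ)) e (by
          refine hfin.subset ?_
          rintro p ⟨z, hz⟩
          refine ⟨z, fun h => hz ?_⟩
          rw [Finsupp.sum_single_index (zero_mul _)]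
          exact h) () (fun i' hi' => absurd (Subsingleton.elim i' ()) hi') hno
      rw [Finsupp.single_eq_same] at h3
      omega
  refine ⟨fun i => ?_, fun hnc => ?_⟩
  · obtain ⟨h1, h2⟩ := singleK (K := K) (L := fun _ : J => K) (hUI i) hUJ (hP i) hQ (hl i) hlH
    exact ⟨hvirt i, (hvirt i).trans h1, h2⟩
  · intro k' hk'
    have h1 := (matroidK (K := fun _ : {i : I // ¬ IsIn H (R i)} => K)
      (L := fun _ : J => K) (fun i => hUI i.1) hUJ (fun i => hP i.1) hQ (fun i => hl i.1)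
      hlH).out 0 1
    refine h1.1 (fun a e hfin => ?_) k' hk'
    ext i₀
    exact conc_noRel hU hF hθ (R := fun i : {i : I // ¬ IsIn H (R i)} => R i.1)
      (fun i => hR i.1) (fun i => hRirr i.1) hH hHirr a e hfin i₀
      (fun i hi => hnc _ _ fun h => hi (Subtype.ext h))
      (fun j hj => i₀.2 ((hiff i₀.1).2 ⟨j, hj⟩))

end

end Pool.Agent.R629.NF
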