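import Pool.Agent.R629.NF.Conc5

/-!
# Mod p eigenforms, their levels, and two-dimensional mod p representations
-/

set_option autoImplicit false
set_option linter.unusedSectionVars false

namespace Pool.Agent.R629.NF

open Representation Filter Topology Finset NumberField IsDedekindDomain MeasureTheory
open Pool.Agent.R629.SP
open Pool.Agent.TH339.MP (nm pr dg Sp mem_Sp nm_eq dg_pos)

section
variable {K Ω : Type} [Field K] [NumberField K] [IsGalois ℚ K] [Field Ω]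
    [CharZero Ω] [IsAlgClosure ℚ Ω] [Algebra K Ω]
variable {k : Type} [Field k] [IsAlgClosed k] {I J : Type} [Countable I] [Countable J]

/-- **Two-dimensional mod p representations and eigenforms, with levels.** -/
theorem conc_levels {S₀ : Finset ℕ} (hU : Unram K S₀)
    {F : HeightOneSpectrum (𝓞 K) → GalOf K Ω} (hF : ∀ v, IsFrobAt Ω v (F v : Gal(Ω/ℚ)))
    {θ : k → ℂ} (hθ : Function.Injective θ) (hθ1 : ∀ z : k, z ≠ 0 → ‖θ z‖ = 1)
    {Lev : Type} {actL : Gal(Ω/ℚ) → Lev → Lev} {lvl : J → Lev}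
    {a : J → HeightOneSpectrum (𝓞 K) → k} {H : J → GalOf K Ω →* GL (Fin 2) k}
    {SJ : J → Finset ℕ} (hSJ : ∀ j, S₀ ⊆ SJ j)
    (hH : ∀ j, IsSmooth (H j)) (hHirr : ∀ j, (rep (H j)).IsIrreducible)
    (hatt : ∀ j, IsAttached F (SJ j) (a j) (H j))
    (hstab : ∀ j s, ∃ j', lvl j' = actL s (lvl j) ∧
      Nonempty ((rep ((H j).comp (conjBy K s))).Equiv (rep (H j'))))
    {R : I → GalOf K Ω →* GL (Fin 2) k} {SI : I → Finset ℕ} (hSI : ∀ i, S₀ ⊆ SI i)
    (hR : ∀ i, IsSmooth (R i)) (hRirr : ∀ i, (rep (R i)).IsIrreducible)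
    (hdet : ∀ i v, (pr v : ℕ) ∉ SI i → (R i (F v)).val.det = ((nm v : ℕ) : k))
    {l : I → ℝ → ℂ} (hl : ∀ i, IsEdgeOf (SI i) 2 (frobLift θ F (R i)) 0 (l i))
    {lH : J → ℝ → ℂ} (hlH : ∀ j, IsEdgeOf (SJ j) 2 (frobLift θ F (H j)) 0 (lH j)) (i : I)
    (Λ : Set Lev) (hΛ : ∀ s, ∀ N ∈ Λ, actL s N ∈ Λ) :
    [∃ j, lvl j ∈ Λ ∧ Nonempty ((rep (R i)).Equiv (rep (H j))),
      ∃ j, lvl j ∈ Λ ∧ ∀ v, (pr v : ℕ) ∉ SI i ∪ SJ j → (R i (F v)).val.trace = a j v,
      ∃ j, lvl j ∈ Λ ∧ ∃ T : Finset ℕ, ∀ v, (pr v : ℕ) ∉ T → (R i (F v)).val.trace = a j v,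
      DependentOn (l i) fun j : {j // lvl j ∈ Λ} => lH j,
      ¬ IndependentOf (l i) fun j : {j // lvl j ∈ Λ} => lH j].TFAE := by
  classical
  have hst : ∀ (j : {j // lvl j ∈ Λ}) (s : Gal(Ω/ℚ)),
      IsIn (fun j : {j // lvl j ∈ Λ} => H j) ((H j).comp (conjBy K s)) := by
    rintro ⟨j, hj⟩ s
    obtain ⟨j', hj', hE⟩ := hstab j s
    exact ⟨⟨j', by rw [hj']; exact hΛ s _ hj⟩, hE⟩
  have hmain := (main_conc hU hF hθ hθ1 hR hRirr (H := fun j : {j // lvl j ∈ Λ} => H j)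
    (fun j => hH j) (fun j => hHirr j) hst hSI (fun j => hSJ j) hl
    (lH := fun j : {j // lvl j ∈ Λ} => lH j) (fun j => hlH j)).1 i
  tfae_have 1 → 2 := by
    rintro ⟨j, hj, ⟨E⟩⟩
    refine ⟨j, hj, fun v hv => ?_⟩
    rw [Finset.mem_union, not_or] at hv
    have h1 : (R i (F v)).val.charpoly = (H j (F v)).val.charpoly := charpoly_equiv E _
    have h2 := hatt j v hv.2
    rw [← h1, Matrix.charpoly_fin_two] at h2
    have h3 := congrArg (fun P : Polynomial k => P.coeff 1) h2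
    simp [Polynomial.coeff_X_pow] at h3
    exact h3
  tfae_have 2 → 3 := by
    rintro ⟨j, hj, h⟩
    exact ⟨j, hj, _, h⟩
  tfae_have 3 → 1 := by
    rintro ⟨j, hj, T, h⟩
    have hv : VirtP (above (frobLift θ F (R i)))
        fun j : {j // lvl j ∈ Λ} => above (frobLift θ F (H j)) := by
      refine ⟨1, one_pos, Finsupp.single ⟨j, hj⟩ 1, ?_⟩
      have hfin : {p : Nat.Primes | (p : ℕ) ∈ T ∪ (SI i ∪ SJ j)}.Finite :=
        Set.Finite.preimage (f := fun p : Nat.Primes => (p : ℕ)) Subtype.val_injective.injOn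
          (T ∪ (SI i ∪ SJ j)).finite_toSet
      refine hfin.subset ?_
      rintro p ⟨z, hne⟩
      by_contra hno
      apply hne
      change ¬ ((p : ℕ) ∈ T ∪ (SI i ∪ SJ j)) at hno
      rw [Finset.mem_union, Finset.mem_union, not_or, not_or] at hno
      rw [Finsupp.sum_single_index (zero_mul _)]
      beta_reduce
      have h5 : above (frobLift θ F (R i)) p = above (frobLift θ F (H j)) p := by
        unfold above
        refine Finset.prod_congr rfl fun v hv => ?_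
        rw [mem_Sp] at hv
        rw [← hv] at hno
        have h6 := hatt j v hno.2.2
        unfold frobLift
        rw [h6, Matrix.charpoly_fin_two, h v hno.1, hdet i v hno.2.1]
      rw [h5]
      push_cast
      ring
    obtain ⟨⟨j', hj'⟩, hE⟩ := hmain.1.2 hv
    exact ⟨j', hj', hE⟩
  tfae_have 1 ↔ 4 := by
    rw [← hmain.2.1]
    constructor
    · rintro ⟨j, hj, hE⟩
      exact ⟨⟨j, hj⟩, hE⟩
    · rintro ⟨⟨j, hj⟩, hE⟩
      exact ⟨j, hj, hE⟩
  tfae_have 4 → 5 := fun h => not_indep h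
  tfae_have 5 → 4 := fun h => hmain.2.2.resolve_right h
  tfae_finish

end

end Pool.Agent.R629.NF
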