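import Pool.Agent.R629.NF.Sys

/-!
# A rational system against the conjugates of a system
-/

set_option autoImplicit false

namespace Pool.Agent.R629.NF

open Filter Topology MeasureTheory Finset NumberField IsDedekindDomain
open Pool.Agent.R629.SP

section
variable {M : Type} [Field M] [NumberField M] {n a : ℕ} {S : Finset ℕ}

/-- the complex matrices of a rational family -/
noncomputable def ratFam (A : Nat.Primes → Matrix (Fin a) (Fin a) ℚ) :
    Nat.Primes → Matrix (Fin a) (Fin a) ℂ := fun p => (A p).map (Rat.castHom ℂ)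

/-- the conjugates of a family over `M` -/
noncomputable def conjFam (C : Nat.Primes → Matrix (Fin n) (Fin n) M) (τ : M →+* ℂ) :
    Nat.Primes → Matrix (Fin n) (Fin n) ℂ := fun p => (C p).map τ

lemma finrank_pos' : (0 : ℤ) < (Module.finrank ℚ M : ℤ) := by exact_mod_cast Module.finrank_pos

/-- a local relation is a multiple of the norm relation -/
lemma local_relation (A : Matrix (Fin a) (Fin a) ℚ) (C : Matrix (Fin n) (Fin n) M)
    {d : ℤ} (hd : d ≠ 0) (e : (M →+* ℂ) → ℤ)
    (h : ∀ z, d * mu (A.map (Rat.castHom ℂ)) z = ∑ τ, e τ * mu (C.map τ) z) (z : ℂ) :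
    (n * Module.finrank ℚ M : ℤ) * mu (A.map (Rat.castHom ℂ)) z =
      a * ∑ τ, mu (C.map (τ : M →+* ℂ)) z := by
  classical
  have h1 : ∀ z, (Module.finrank ℚ M : ℤ) * (d * mu (A.map (Rat.castHom ℂ)) z) =
      (∑ τ, e τ) * ∑ τ, mu (C.map (τ : M →+* ℂ)) z :=
    average C (fun z => d * mu (A.map (Rat.castHom ℂ)) z)
      (fun σ z => by simp only [mu_rat]) e h
  set Z : Finset ℂ := (A.map (Rat.castHom ℂ)).charpoly.roots.toFinset ∪
    Finset.univ.biUnion fun τ : M →+* ℂ => (C.map τ).charpoly.roots.toFinset with hZ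
  have h2 : ∑ z ∈ Z, mu (A.map (Rat.castHom ℂ)) z = a :=
    sum_mult _ Z fun z hz => Finset.mem_union_left _ (Multiset.mem_toFinset.2 hz)
  have h3 : ∀ τ : M →+* ℂ, ∑ z ∈ Z, mu (C.map τ) z = n := fun τ =>
    sum_mult _ Z fun z hz => Finset.mem_union_right _ (Finset.mem_biUnion.2
      ⟨τ, Finset.mem_univ _, Multiset.mem_toFinset.2 hz⟩)
  have h4 : (Module.finrank ℚ M : ℤ) * (d * a) = (∑ τ, e τ) * ((Module.finrank ℚ M : ℤ) * n) := by
    have h5 := Finset.sum_congr (rfl : Z = Z) fun z _ => h1 z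
    rw [← Finset.mul_sum, ← Finset.mul_sum, ← Finset.mul_sum, h2, Finset.sum_comm] at h5
    rw [h5]
    congr 1
    rw [Finset.sum_congr rfl fun τ _ => h3 τ, Finset.sum_const, Finset.card_univ,
      NumberField.Embeddings.card M ℂ, nsmul_eq_mul]
  have hg := finrank_pos' (M := M)
  have h6 : d * a = (∑ τ, e τ) * n := by
    have : (Module.finrank ℚ M : ℤ) * (d * a) =
        (Module.finrank ℚ M : ℤ) * ((∑ τ, e τ) * n) := by
      rw [h4]
      ring
    exact mul_left_cancel₀ hg.ne' this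
  refine mul_left_cancel₀ hd ?_
  calc d * ((n * Module.finrank ℚ M : ℤ) * mu (A.map (Rat.castHom ℂ)) z) =
        n * ((Module.finrank ℚ M : ℤ) * (d * mu (A.map (Rat.castHom ℂ)) z)) := by ring
    _ = n * ((∑ τ, e τ) * ∑ τ, mu (C.map (τ : M →+* ℂ)) z) := by rw [h1]
    _ = ((∑ τ, e τ) * n) * ∑ τ, mu (C.map (τ : M →+* ℂ)) z := by ring
    _ = _ := by
        rw [← h6]
        ring

/-- the norm relation in terms of polynomials -/
lemma norm_relation_iff (A : Matrix (Fin a) (Fin a) ℚ) (C : Matrix (Fin n) (Fin n) M) :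
    (A.map (Rat.castHom ℂ)).charpoly ^ (n * Module.finrank ℚ M) =
      (∏ τ : M →+* ℂ, (C.map τ).charpoly) ^ a ↔
    ∀ z, (n * Module.finrank ℚ M : ℤ) * mu (A.map (Rat.castHom ℂ)) z =
      a * ∑ τ, mu (C.map (τ : M →+* ℂ)) z := by
  rw [monic_eq_iff ((Matrix.charpoly_monic _).pow _)
    ((Polynomial.monic_prod_of_monic _ _ fun τ _ => Matrix.charpoly_monic _).pow _)]
  refine forall_congr' fun z => ?_
  rw [rm_pow, rm_pow, rm_prod _ _ fun τ _ => (Matrix.charpoly_monic _).ne_zero]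
  unfold mu
  constructor
  · intro h
    have h1 := congrArg (fun x : ℕ => (x : ℤ)) h
    push_cast at h1
    exact h1
  · intro h
    have h1 : (((n * Module.finrank ℚ M) * (A.map (Rat.castHom ℂ)).charpoly.rootMultiplicity z :
        ℕ) : ℤ) = ((a * ∑ τ : M →+* ℂ, (C.map τ).charpoly.rootMultiplicity z : ℕ) : ℤ) := by
      push_cast
      exact h
    exact_mod_cast h1

theorem relation_conj_iff (hn : 0 < n) (A : Nat.Primes → Matrix (Fin a) (Fin a) ℚ)
    (C : Nat.Primes → Matrix (Fin n) (Fin n) M) :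
    VirtualRelation S (ratFam A) (conjFam C) ↔
      {p : Nat.Primes | (p : ℕ) ∉ S ∧ (ratFam A p).charpoly ^ (n * Module.finrank ℚ M) ≠
        (∏ τ : M →+* ℂ, (conjFam C τ p).charpoly) ^ a}.Finite := by
  classical
  have hg := finrank_pos' (M := M)
  constructor
  · rintro ⟨d, hd, e, hfin⟩
    refine hfin.subset ?_
    rintro p ⟨hp, hne⟩
    refine ⟨hp, ?_⟩
    by_contra hno
    push Not at hno
    apply hne
    refine (norm_relation_iff (A p) (C p)).2 (local_relation (A p) (C p) (d := (d : ℤ))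
      (by exact_mod_cast hd.ne') e fun z => ?_)
    have h1 := hno z
    rw [Finsupp.sum_fintype _ _ (fun _ => zero_mul _)] at h1
    exact h1
  · intro hfin
    refine ⟨n * Module.finrank ℚ M, Nat.mul_pos hn Module.finrank_pos,
      Finsupp.equivFunOnFinite.symm fun _ => (a : ℤ), hfin.subset ?_⟩
    rintro p ⟨hp, z, hne⟩
    refine ⟨hp, fun h => hne ?_⟩
    have h1 := (norm_relation_iff (A p) (C p)).1 h z
    rw [Finsupp.sum_fintype _ _ (fun _ => zero_mul _)]
    simp only [Finsupp.equivFunOnFinite_symm_apply_apply]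
    rw [← Finset.mul_sum]
    push_cast
    exact h1

/-- For some countable field `k` of complex numbers and almost all `t` the number `l(t)` is algebraic
over the field generated by `k`, the numbers `l_j(t)`, `j ∈ J`, the number `t` and the numbers
`p^{-it}`, `p` prime. -/
def DependentOn {J : Type} (l : ℝ → ℂ) (lB : J → ℝ → ℂ) : Prop :=
  ∃ k : Subfield ℂ, (k : Set ℂ).Countable ∧
    ∀ᵐ t : ℝ, IsAlgebraic (IntermediateField.adjoin k (valSet (fun j => lB j t) t)) (l t)

/-- For every countable field `k` of complex numbers and almost all `t` the number `l(t)` is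
transcendental over this field. -/
def IndependentOf {J : Type} (l : ℝ → ℂ) (lB : J → ℝ → ℂ) : Prop :=
  ∀ k : Subfield ℂ, (k : Set ℂ).Countable →
    ∀ᵐ t : ℝ, Transcendental (IntermediateField.adjoin k (valSet (fun j => lB j t) t)) (l t)

lemma dichotomy {J : Type} {l : ℝ → ℂ} {lB : J → ℝ → ℂ} {Q : Prop}
    (h : [Q, ∃ k : Subfield ℂ, (k : Set ℂ).Countable ∧
        ∀ᵐ τ : ℝ, IsAlgebraic (IntermediateField.adjoin k (valSet (fun j => lB j τ) τ)) (l τ),
      ∃ k : Subfield ℂ, (k : Set ℂ).Countable ∧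
        ¬ ∀ᵐ τ : ℝ, Transcendental (IntermediateField.adjoin k (valSet (fun j => lB j τ) τ))
          (l τ)].TFAE) : (Q ↔ DependentOn l lB) ∧ (DependentOn l lB ∨ IndependentOf l lB) := by
  have h12 := h.out 0 1
  have h23 := h.out 1 2
  refine ⟨h12, ?_⟩
  by_cases h : DependentOn l lB
  · exact Or.inl h
  · right
    intro k hk
    by_contra hne
    exact h (h23.2 ⟨k, hk, hne⟩)

lemma mats_of_map {K : Type} [Field K] [NumberField K] {N : ℕ} {w : ℝ} (hS : Unram K S)
    {R : Type} [Field R] (f : R →+* ℂ) {P : HeightOneSpectrum (𝓞 K) → Polynomial R}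
    (hP : IsSys S N w fun v => (P v).map f) :
    ∃ A : Nat.Primes → Matrix (Fin (N * Module.finrank ℚ K)) (Fin (N * Module.finrank ℚ K)) R,
      (∀ p : Nat.Primes, (p : ℕ) ∉ S → (A p).charpoly = above P p) := by
  refine exists_mats hS (fun v hv => ?_) (fun v hv => ?_)
  · exact (Polynomial.monic_map_iff (f := f)).1 (hP v hv).1
  · rw [← Polynomial.natDegree_map f]
    exact (hP v hv).2.1

lemma charpoly_of_map {K : Type} [Field K] [NumberField K] {n : ℕ}
    {R : Type} [Field R] (f : R →+* ℂ) {P : HeightOneSpectrum (𝓞 K) → Polynomial R}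
    {A : Nat.Primes → Matrix (Fin n) (Fin n) R}
    (hA : ∀ p : Nat.Primes, (p : ℕ) ∉ S → (A p).charpoly = above P p) (p : Nat.Primes)
    (hp : (p : ℕ) ∉ S) : ((A p).map f).charpoly = above (fun v => (P v).map f) p := by
  rw [← above_map, ← hA p hp]
  exact Matrix.charpoly_map (A p) f

/-- **A rational system of rank `N [M:ℚ]` against the conjugates of a system of rank `N` over `M`.** -/
theorem sys_vs_conj {K : Type} [Field K] [NumberField K] {N : ℕ} {w : ℝ} (hN : 0 < N)
    (hS : Unram K S) {P : HeightOneSpectrum (𝓞 K) → Polynomial ℚ}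
    {R : HeightOneSpectrum (𝓞 K) → Polynomial M}
    (hP : IsSys S (N * Module.finrank ℚ M) w fun v => (P v).map (Rat.castHom ℂ))
    (hR : ∀ τ : M →+* ℂ, IsSys S N w fun v => (R v).map τ) {l : ℝ → ℂ}
    (hl : IsEdgeOf S (N * Module.finrank ℚ M) (fun v => (P v).map (Rat.castHom ℂ)) w l)
    {lR : (M →+* ℂ) → ℝ → ℂ}
    (hlR : ∀ τ : M →+* ℂ, IsEdgeOf S N (fun v => (R v).map τ) w (lR τ)) :
    ({p : Nat.Primes | (p : ℕ) ∉ S ∧ above (fun v => (P v).map (Rat.castHom ℂ)) p ≠
      ∏ τ : M →+* ℂ, above (fun v => (R v).map τ) p}.Finite ↔ DependentOn l lR) ∧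
      (DependentOn l lR ∨ IndependentOf l lR) := by
  classical
  obtain ⟨τ₀⟩ : Nonempty (M →+* ℂ) := inferInstance
  obtain ⟨A, hA⟩ := mats_of_map hS (Rat.castHom ℂ) hP
  obtain ⟨C, hC⟩ := mats_of_map hS τ₀ (hR τ₀)
  have hA' : ∀ p : Nat.Primes, (p : ℕ) ∉ S → (ratFam A p).charpoly =
      above (fun v => (P v).map (Rat.castHom ℂ)) p := fun p hp =>
    charpoly_of_map (Rat.castHom ℂ) hA p hp
  have hC' : ∀ (τ : M →+* ℂ) (p : Nat.Primes), (p : ℕ) ∉ S → (conjFam C τ p).charpoly =
      above (fun v => (R v).map τ) p := fun τ p hp => charpoly_of_map τ hC p hp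
  obtain ⟨a1, a2, a3⟩ := sys_bridge hP hA'
  have hb := fun τ => sys_bridge (hR τ) (hC' τ)
  have hn : 0 < N * Module.finrank ℚ K := Nat.mul_pos hN Module.finrank_pos
  have h1 := dichotomy (tfae_gen a1 (fun τ => (hb τ).1) a2 (fun τ => (hb τ).2.1)
    ((a3 l).1 hl) (fun τ => ((hb τ).2.2 _).1 (hlR τ)))
  refine ⟨?_, h1.2⟩
  rw [← h1.1, relation_conj_iff hn]
  have h2 : ∀ p : Nat.Primes, (p : ℕ) ∉ S → ((above (fun v => (P v).map (Rat.castHom ℂ)) p ≠
      ∏ τ : M →+* ℂ, above (fun v => (R v).map τ) p) ↔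
      (ratFam A p).charpoly ^ (N * Module.finrank ℚ K * Module.finrank ℚ M) ≠
        (∏ τ : M →+* ℂ, (conjFam C τ p).charpoly) ^
          (N * Module.finrank ℚ M * Module.finrank ℚ K)) := by
    intro p hp
    refine not_congr ?_
    have h3 : (∏ τ : M →+* ℂ, above (fun v => (R v).map τ) p) =
        ∏ τ : M →+* ℂ, (conjFam C τ p).charpoly :=
      Finset.prod_congr rfl fun τ _ => (hC' τ p hp).symm
    have h4 : N * Module.finrank ℚ K * Module.finrank ℚ M =
        N * Module.finrank ℚ M * Module.finrank ℚ K := by ring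
    have h5 : 0 < N * Module.finrank ℚ M * Module.finrank ℚ K :=
      Nat.mul_pos (Nat.mul_pos hN Module.finrank_pos) Module.finrank_pos
    rw [h3, ← hA' p hp, h4]
    refine ⟨fun h => by rw [h], fun h => ?_⟩
    have m1 : (ratFam A p).charpoly.Monic := Matrix.charpoly_monic _
    have m2 : (∏ τ : M →+* ℂ, (conjFam C τ p).charpoly).Monic :=
      Polynomial.monic_prod_of_monic _ _ fun τ _ => Matrix.charpoly_monic _
    rw [monic_eq_iff m1 m2]
    intro z
    have h6 := (monic_eq_iff (m1.pow _) (m2.pow _)).1 h z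
    rw [rm_pow, rm_pow] at h6
    exact Nat.eq_of_mul_eq_mul_left h5 h6
  have h3 : {p : Nat.Primes | (p : ℕ) ∉ S ∧ above (fun v => (P v).map (Rat.castHom ℂ)) p ≠
      ∏ τ : M →+* ℂ, above (fun v => (R v).map τ) p} =
      {p : Nat.Primes | (p : ℕ) ∉ S ∧
        (ratFam A p).charpoly ^ (N * Module.finrank ℚ K * Module.finrank ℚ M) ≠
        (∏ τ : M →+* ℂ, (conjFam C τ p).charpoly) ^
          (N * Module.finrank ℚ M * Module.finrank ℚ K)} := by
    ext p
    simp only [Set.mem_ofPred_eq]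
    exact and_congr_right fun hp => h2 p hp
  rw [h3]

end

end Pool.Agent.R629.NF
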