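import Pool.Agent.R629.SP.Tfae

/-!
# The criterion for families with relations
-/

set_option autoImplicit false

namespace Pool.Agent.R629.NF

open Filter Topology MeasureTheory Finset
open Pool.Agent.R629.SP
open Pool.Agent.TH339.MP (ap ae_notMem)
open Pool.Agent.W350.Edge (divSet)

lemma alg_trans {k k' : Subfield ℂ} {s s' : Set ℂ}
    (h1 : ∀ z ∈ k, IsAlgebraic (IntermediateField.adjoin k' s') z)
    (h2 : ∀ z ∈ s, IsAlgebraic (IntermediateField.adjoin k' s') z) {x : ℂ}
    (hx : IsAlgebraic (IntermediateField.adjoin k s) x) :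
    IsAlgebraic (IntermediateField.adjoin k' s') x := by
  set L := IntermediateField.adjoin k' s'
  set M := algebraicClosure L ℂ
  have h3 : ∀ z : IntermediateField.adjoin k s, algebraMap (IntermediateField.adjoin k s) ℂ z ∈ M := by
    rintro ⟨z, hz⟩
    change z ∈ M
    induction hz using IntermediateField.adjoin_induction with
    | mem x hx => exact mem_algebraicClosure_iff.2 (h2 x hx)
    | algebraMap x => exact mem_algebraicClosure_iff.2 (h1 x x.2)
    | add x y _ _ hx hy => exact add_mem hx hy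
    | inv x _ hx => exact inv_mem hx
    | mul x y _ _ hx hy => exact mul_mem hx hy
  set i : IntermediateField.adjoin k s →+* M :=
    (algebraMap (IntermediateField.adjoin k s) ℂ).codRestrict M h3
  have h4 : IsAlgebraic M x := by
    obtain ⟨p, hp, hpx⟩ := hx
    refine ⟨p.map i, (Polynomial.map_ne_zero_iff i.injective).2 hp, ?_⟩
    rw [Polynomial.aeval_def, Polynomial.eval₂_map]
    rw [Polynomial.aeval_def] at hpx
    exact hpx
  exact h4.restrictScalars L

section
variable {J : Type} {n : ℕ} {m : J → ℕ} {S : Finset ℕ} {w : ℝ}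

/-- the functions vanishing at almost all primes -/
def nullMod (S : Finset ℕ) : Submodule ℚ (Nat.Primes → ℂ → ℚ) where
  carrier := {f | {p : Nat.Primes | (p : ℕ) ∉ S ∧ f p ≠ 0}.Finite}
  zero_mem' := by simp
  add_mem' := by
    intro f g hf hg
    refine (hf.union hg).subset ?_
    rintro p ⟨hp, hne⟩
    by_contra hno
    rw [Set.mem_union, not_or, Set.mem_ofPred_eq, Set.mem_ofPred_eq, not_and, not_and, not_not,
      not_not] at hno
    apply hne
    rw [Pi.add_apply, hno.1 hp, hno.2 hp, add_zero]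
  smul_mem' := by
    intro c f hf
    refine Set.Finite.subset hf ?_
    rintro p ⟨hp, hne⟩
    refine ⟨hp, fun h => hne ?_⟩
    rw [Pi.smul_apply, h, smul_zero]

lemma mem_nullMod {f : Nat.Primes → ℂ → ℚ} :
    f ∈ nullMod S ↔ {p : Nat.Primes | (p : ℕ) ∉ S ∧ f p ≠ 0}.Finite := Iff.rfl

/-- the divisors of the eigenvalues -/
noncomputable def dv {n : ℕ} (X : Nat.Primes → Matrix (Fin n) (Fin n) ℂ) : Nat.Primes → ℂ → ℚ :=
  fun p z => ((X p).charpoly.rootMultiplicity z : ℚ)

/-- their classes -/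
noncomputable def cls (S : Finset ℕ) {n : ℕ} (X : Nat.Primes → Matrix (Fin n) (Fin n) ℂ) :
    (Nat.Primes → ℂ → ℚ) ⧸ nullMod S := (nullMod S).mkQ (dv X)

variable {A : Nat.Primes → Matrix (Fin n) (Fin n) ℂ}
  {B : ∀ j, Nat.Primes → Matrix (Fin (m j)) (Fin (m j)) ℂ}

lemma unrelated_of_linInd (h : LinearIndependent ℚ fun j => cls S (B j)) : Unrelated S B := by
  intro e he hfin
  apply he
  have h1 : (Finsupp.linearCombination ℚ fun j => cls S (B j))
      (e.mapRange (fun x : ℤ => (x : ℚ)) Int.cast_zero) = 0 := by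
    rw [Finsupp.linearCombination_apply, Finsupp.sum_mapRange_index
      (h := fun i (a : ℚ) => a • cls S (B i)) (fun j => zero_smul _ _)]
    unfold Finsupp.sum cls
    simp only [← map_smul]
    rw [← map_sum, Submodule.mkQ_apply, Submodule.Quotient.mk_eq_zero, mem_nullMod]
    refine hfin.subset ?_
    rintro p ⟨hp, hne⟩
    refine ⟨hp, ?_⟩
    by_contra hno
    push Not at hno
    apply hne
    funext z
    have h2 := hno z
    unfold Finsupp.sum at h2
    have h3 : ((∑ j ∈ e.support, e j * ((B j p).charpoly.rootMultiplicity z : ℤ) : ℤ) : ℚ) = 0 := by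
      rw [h2]
      simp
    push_cast at h3
    simp only [Finset.sum_apply, Pi.smul_apply, smul_eq_mul, Pi.zero_apply]
    exact h3
  have h2 := (linearIndependent_iff.1 h) _ h1
  ext j
  have h3 := DFunLike.congr_fun h2 j
  rw [Finsupp.mapRange_apply, Finsupp.zero_apply] at h3
  rw [Finsupp.zero_apply]
  exact_mod_cast h3

lemma virtual_iff_span : VirtualRelation S A B ↔
    cls S A ∈ Submodule.span ℚ (Set.range fun j => cls S (B j)) := by
  classical
  rw [Finsupp.mem_span_range_iff_exists_finsupp]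
  constructor
  · rintro ⟨d, hd, e, hfin⟩
    have hd' : (d : ℚ) ≠ 0 := by exact_mod_cast hd.ne'
    refine ⟨(d : ℚ)⁻¹ • e.mapRange (fun x : ℤ => (x : ℚ)) Int.cast_zero, ?_⟩
    rw [Finsupp.sum_smul_index (h := fun i (a : ℚ) => a • cls S (B i)) (fun j => zero_smul _ _),
      Finsupp.sum_mapRange_index (h := fun i (a : ℚ) => ((d : ℚ)⁻¹ * a) • cls S (B i))
        (fun j => by rw [mul_zero, zero_smul])]
    unfold Finsupp.sum cls
    simp only [← map_smul]
    rw [← map_sum, ← sub_eq_zero, ← map_sub, Submodule.mkQ_apply, Submodule.Quotient.mk_eq_zero,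
      mem_nullMod]
    refine hfin.subset ?_
    rintro p ⟨hp, hne⟩
    refine ⟨hp, ?_⟩
    by_contra hno
    push Not at hno
    apply hne
    funext z
    have h2 := hno z
    unfold Finsupp.sum at h2
    have h3 : (((d : ℤ) * ((A p).charpoly.rootMultiplicity z : ℤ) : ℤ) : ℚ) =
        ((∑ j ∈ e.support, e j * ((B j p).charpoly.rootMultiplicity z : ℤ) : ℤ) : ℚ) := by
      rw [h2]
    push_cast at h3
    simp only [Pi.sub_apply, Finset.sum_apply, Pi.smul_apply, smul_eq_mul, Pi.zero_apply]
    unfold dv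
    have h4 : ∑ j ∈ e.support, (d : ℚ)⁻¹ * (e j : ℚ) *
        ((B j p).charpoly.rootMultiplicity z : ℚ) = (d : ℚ)⁻¹ * ∑ j ∈ e.support, (e j : ℚ) *
        ((B j p).charpoly.rootMultiplicity z : ℚ) := by
      rw [Finset.mul_sum]
      exact Finset.sum_congr rfl fun j _ => by ring
    rw [h4, ← h3]
    field_simp
    ring
  · rintro ⟨c, hc⟩
    set d : ℕ := ∏ j ∈ c.support, (c j).den with hd
    have hd0 : 0 < d := Finset.prod_pos fun j _ => (c j).den_pos
    have hint : ∀ j, ∃ x : ℤ, (x : ℚ) = (d : ℚ) * c j := by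
      intro j
      by_cases hj : j ∈ c.support
      · have h1 : (c j).den ∣ d := Finset.dvd_prod_of_mem _ hj
        obtain ⟨r, hr⟩ := h1
        refine ⟨r * (c j).num, ?_⟩
        have h2 := Rat.mul_den_eq_num (c j)
        rw [hr]
        push_cast
        rw [← h2]
        ring
      · rw [Finsupp.notMem_support_iff] at hj
        exact ⟨0, by rw [hj]; simp⟩
    choose x hx using hint
    have hfs : (Function.support x).Finite := by
      refine c.support.finite_toSet.subset fun j hj => ?_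
      rw [Finset.mem_coe, Finsupp.mem_support_iff]
      intro h0
      apply hj
      have := hx j
      rw [h0, mul_zero] at this
      exact_mod_cast this
    refine ⟨d, hd0, Finsupp.ofSupportFinite x hfs, ?_⟩
    unfold Finsupp.sum cls at hc
    simp only [← map_smul] at hc
    rw [← map_sum, ← sub_eq_zero, ← map_sub, Submodule.mkQ_apply, Submodule.Quotient.mk_eq_zero,
      mem_nullMod] at hc
    refine hc.subset ?_
    rintro p ⟨hp, z, hne⟩
    refine ⟨hp, fun h => hne ?_⟩
    have h2 := congrFun h z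
    simp only [Pi.sub_apply, Finset.sum_apply, Pi.smul_apply, smul_eq_mul, Pi.zero_apply] at h2
    unfold dv at h2
    have h3 : (((d : ℤ) * ((A p).charpoly.rootMultiplicity z : ℤ) : ℤ) : ℚ) =
        (((Finsupp.ofSupportFinite x hfs).sum fun j k =>
          k * ((B j p).charpoly.rootMultiplicity z : ℤ) : ℤ) : ℚ) := by
      rw [Finsupp.sum_of_support_subset (s := c.support) _ (fun j hj => by
        rw [Finsupp.mem_support_iff]
        intro h0
        rw [Finsupp.mem_support_iff, Finsupp.ofSupportFinite_coe] at hj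
        apply hj
        have := hx j
        rw [h0, mul_zero] at this
        exact_mod_cast this) _ (fun _ _ => zero_mul _)]
      push_cast
      simp only [Finsupp.ofSupportFinite_coe, hx]
      have h4 : (∑ j ∈ c.support, c j * ((B j p).charpoly.rootMultiplicity z : ℚ)) =
          ((A p).charpoly.rootMultiplicity z : ℚ) := by linear_combination h2
      rw [← h4, Finset.mul_sum]
      exact Finset.sum_congr rfl fun j _ => by ring
    exact_mod_cast h3

theorem crit_gen [Countable J] (hA : Bd S A w) (hBd : ∀ j, Bd S (B j) w)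
    (hdA : ∀ p : Nat.Primes, (p : ℕ) ∉ S → (A p).det ≠ 0)
    (hdB : ∀ j (p : Nat.Primes), (p : ℕ) ∉ S → (B j p).det ≠ 0)
    (hR : ¬ VirtualRelation S A B) (k : Subfield ℂ) (hk : (k : Set ℂ).Countable) :
    ∀ᵐ τ : ℝ, Transcendental (IntermediateField.adjoin k (valSet (fun j => bd S (B j) w τ) τ))
      (bd S A w τ) := by
  obtain ⟨κ, a, ha, hspan, hli⟩ := exists_linearIndependent' ℚ fun j => cls S (B j)
  have hκ : Countable κ := ha.countable
  have hun : Unrelated S fun i => B (a i) := unrelated_of_linInd hli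
  have hR' : ¬ VirtualRelation S A fun i => B (a i) := by
    intro h
    apply hR
    rw [virtual_iff_span] at h ⊢
    rw [← hspan]
    exact h
  have hrel : ∀ j, VirtualRelation S (B j) fun i => B (a i) := by
    intro j
    rw [virtual_iff_span]
    have h1 : cls S (B j) ∈ Submodule.span ℚ (Set.range fun j => cls S (B j)) :=
      Submodule.subset_span ⟨j, rfl⟩
    rw [← hspan] at h1
    exact h1
  have halg : ∀ j, ∃ k' : Subfield ℂ, (k' : Set ℂ).Countable ∧ ∀ τ : ℝ,
      τ ∉ divSet (ap (bQ (par S (B j) w))) → (∀ i, τ ∉ divSet (ap (bQ (par S (B (a i)) w)))) →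
        IsAlgebraic (IntermediateField.adjoin k' (valSet (fun i => bd S (B (a i)) w τ) τ))
          (bd S (B j) w τ) := fun j =>
    crit_alg (hBd j) (fun i => hBd (a i)) (hdB j) (fun i => hdB (a i)) (hrel j)
  choose kj hkj1 hkj2 using halg
  set U : Set ℂ := (k : Set ℂ) ∪ ⋃ j, (kj j : Set ℂ) with hU
  have hUc : U.Countable := hk.union (Set.countable_iUnion fun j => hkj1 j)
  set k' : Subfield ℂ := Subfield.closure U with hk'
  have hk'c : (k' : Set ℂ).Countable := by
    have h1 := Subfield.cardinalMk_closure_le_max U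
    have h2 : Cardinal.mk U ≤ Cardinal.aleph0 := by
      rw [Cardinal.mk_le_aleph0_iff]
      exact hUc.to_subtype
    rw [max_eq_right h2] at h1
    exact Cardinal.mk_le_aleph0_iff.1 h1 |>.to_set
  have hdiv : ∀ᵐ τ : ℝ, ∀ j, τ ∉ divSet (ap (bQ (par S (B j) w))) :=
    ae_all_iff.2 fun j => ae_notMem (norm_bQ (norm_par (hBd j)))
  filter_upwards [crit_transc hA (fun i => hBd (a i)) hdA (fun i => hdB (a i)) hun hR' k' hk'c,
    hdiv] with τ h1 h2 h3
  apply h1
  refine alg_trans (fun z hz => ?_) (fun z hz => ?_) h3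
  · exact isAlgebraic_algebraMap (⟨z, IntermediateField.algebraMap_mem _
      (⟨z, Subfield.subset_closure (Or.inl hz)⟩ : k')⟩ :
        IntermediateField.adjoin k' (valSet (fun i => bd S (B (a i)) w τ) τ))
  · obtain ⟨j | o, rfl⟩ := hz
    · have h4 := hkj2 j τ (h2 j) fun i => h2 (a i)
      refine alg_trans (fun z hz => ?_) (fun z hz => ?_) h4
      · exact isAlgebraic_algebraMap (⟨z, IntermediateField.algebraMap_mem _
          (⟨z, Subfield.subset_closure (Or.inr (Set.mem_iUnion.2 ⟨j, hz⟩))⟩ : k')⟩ :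
            IntermediateField.adjoin k' (valSet (fun i => bd S (B (a i)) w τ) τ))
      · exact isAlgebraic_algebraMap (⟨z, IntermediateField.subset_adjoin _ _ hz⟩ :
            IntermediateField.adjoin k' (valSet (fun i => bd S (B (a i)) w τ) τ))
    · exact isAlgebraic_algebraMap (⟨powers τ o, IntermediateField.subset_adjoin _ _
        ⟨Sum.inr o, rfl⟩⟩ :
          IntermediateField.adjoin k' (valSet (fun i => bd S (B (a i)) w τ) τ))

theorem tfae_gen [Countable J]
    (hA : Bd S A w) (hBd : ∀ j, Bd S (B j) w)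
    (hdA : ∀ p : Nat.Primes, (p : ℕ) ∉ S → (A p).det ≠ 0)
    (hdB : ∀ j (p : Nat.Primes), (p : ℕ) ∉ S → (B j p).det ≠ 0)
    {l : ℝ → ℂ} (hl : IsBoundary S A w l) {lB : J → ℝ → ℂ}
    (hlB : ∀ j, IsBoundary S (B j) w (lB j)) :
    [VirtualRelation S A B,
      ∃ k : Subfield ℂ, (k : Set ℂ).Countable ∧
        ∀ᵐ τ : ℝ, IsAlgebraic (IntermediateField.adjoin k (valSet (fun j => lB j τ) τ)) (l τ),
      ∃ k : Subfield ℂ, (k : Set ℂ).Countable ∧
        ¬ ∀ᵐ τ : ℝ, Transcendental (IntermediateField.adjoin k (valSet (fun j => lB j τ) τ))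
          (l τ)].TFAE := by
  have e1 : ∀ᵐ τ : ℝ, l τ = bd S A w τ := boundary_ae hl (isBoundary_bd hA)
  have e2 : ∀ᵐ τ : ℝ, (fun j => lB j τ) = fun j => bd S (B j) w τ := by
    have h1 : ∀ᵐ τ : ℝ, ∀ j, lB j τ = bd S (B j) w τ :=
      ae_all_iff.2 fun j => boundary_ae (hlB j) (isBoundary_bd (hBd j))
    filter_upwards [h1] with τ hτ
    funext j
    exact hτ j
  tfae_have 1 → 2 := by
    intro hR
    obtain ⟨k, hk, h1⟩ := crit_alg hA hBd hdA hdB hR
    refine ⟨k, hk, ?_⟩
    have h2 : ∀ᵐ τ : ℝ, ∀ j, τ ∉ divSet (ap (bQ (par S (B j) w))) :=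
      ae_all_iff.2 fun j => ae_notMem (norm_bQ (norm_par (hBd j)))
    filter_upwards [e1, e2, ae_notMem (norm_bQ (norm_par hA)), h2] with τ h3 h4 h5 h6
    rw [h3, h4]
    exact h1 τ h5 h6
  tfae_have 2 → 3 := by
    rintro ⟨k, hk, h1⟩
    refine ⟨k, hk, fun h2 => ?_⟩
    obtain ⟨τ, h3, h4⟩ := (h1.and h2).exists
    exact h4 h3
  tfae_have 3 → 1 := by
    rintro ⟨k, hk, h1⟩
    by_contra hR
    apply h1
    filter_upwards [e1, e2, crit_gen hA hBd hdA hdB hR k hk] with τ h3 h4 h5
    rw [h3, h4]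
    exact h5
  tfae_finish

end

end Pool.Agent.R629.NF
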