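import Pool.Agent.R629.NF.Sub
import Pool.Agent.R629.NF.Gen
import Pool.Agent.R629.NF.Conj

/-!
# Galois representations and relations between edge values
-/

set_option autoImplicit false

namespace Pool.Agent.R629.NF

open Representation Filter Topology
open scoped MonoidAlgebra
open Pool.Agent.R629.SP

section
variable {k : Type} [Field k] {G : Type} [Group G]

/-- The representation of `G` on `kⁿ` with the matrices `ρ(g)`. -/
noncomputable def rep {n : ℕ} (ρ : G →* GL (Fin n) k) : Representation k G (Fin n → k) where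
  toFun g := Matrix.toLin' (ρ g).val
  map_one' := by
    rw [map_one, Units.val_one, Matrix.toLin'_one]
    rfl
  map_mul' a b := by
    rw [map_mul, Units.val_mul, Matrix.toLin'_mul]
    rfl

lemma trace_rep {n : ℕ} (ρ : G →* GL (Fin n) k) (g : G) :
    LinearMap.trace k (Fin n → k) (rep ρ g) = (ρ g).val.trace :=
  Matrix.trace_toLin'_eq _

/-- **A relation between characters gives a subquotient.** -/
theorem subquotient_of_relation [CharZero k] {n : ℕ} {ρ : G →* GL (Fin n) k}
    (hρ : (rep ρ).IsIrreducible) {J : Type} {m : J → ℕ} {H : ∀ j, G →* GL (Fin (m j)) k} {d : k}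
    (hd : d ≠ 0) (s : Finset J) (e : J → k)
    (h : ∀ g, d * (ρ g).val.trace = ∑ j ∈ s, e j * (H j g).val.trace) :
    ∃ j ∈ s, IsSubquotient (rep ρ) (rep (H j)) := by
  classical
  by_contra hno
  push Not at hno
  -- an element killing all the `H j`
  have h1 : ∀ s' : Finset J, s' ⊆ s → ∃ r : k[G], (rep ρ).asAlgebraHom r = 1 ∧
      ∀ j ∈ s', (rep (H j)).asAlgebraHom r = 0 := by
    intro s'
    induction s' using Finset.induction_on with
    | empty => exact fun _ => ⟨1, map_one _, fun j hj => absurd hj (Finset.notMem_empty j)⟩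
    | insert i s' hi ih =>
      intro hsub
      obtain ⟨r, hr1, hr2⟩ := ih fun j hj => hsub (Finset.mem_insert_of_mem hj)
      obtain ⟨r', hr1', hr2'⟩ := exists_ann hρ _ (Fin (m i) → k) (rep (H i)) rfl
        (hno i (hsub (Finset.mem_insert_self _ _)))
      refine ⟨r * r', by rw [map_mul, hr1, hr1', one_mul], fun j hj => ?_⟩
      rw [map_mul]
      rcases Finset.mem_insert.1 hj with rfl | hj
      · rw [hr2', mul_zero]
      · rw [hr2 j hj, zero_mul]
  obtain ⟨r, hr1, hr2⟩ := h1 s subset_rfl
  have h2 : ∀ r : k[G], d * LinearMap.trace k _ ((rep ρ).asAlgebraHom r) =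
      ∑ j ∈ s, e j * LinearMap.trace k _ ((rep (H j)).asAlgebraHom r) := by
    intro r
    induction r using MonoidAlgebra.induction_on with
    | of g =>
      simp only [asAlgebraHom_of, trace_rep]
      exact h g
    | add a b ha hb =>
      simp only [map_add, mul_add, Finset.sum_add_distrib]
      rw [ha, hb]
    | smul c a ha =>
      simp only [map_smul, smul_eq_mul]
      have h3 : ∑ j ∈ s, e j * (c * LinearMap.trace k _ ((rep (H j)).asAlgebraHom a)) =
          c * ∑ j ∈ s, e j * LinearMap.trace k _ ((rep (H j)).asAlgebraHom a) := by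
        rw [Finset.mul_sum]
        exact Finset.sum_congr rfl fun j _ => by ring
      rw [h3, ← ha]
      ring
  have h3 := h2 r
  rw [hr1, Finset.sum_eq_zero fun j hj => by rw [hr2 j hj, map_zero, mul_zero],
    Module.End.one_eq_id, LinearMap.trace_id, Module.finrank_fin_fun] at h3
  rcases mul_eq_zero.1 h3 with h4 | h4
  · exact hd h4
  · have hn : n = 0 := by exact_mod_cast h4
    subst hn
    have h5 : Nontrivial (Subrepresentation (rep ρ)) := hρ.toNontrivial
    obtain ⟨a, b, hab⟩ := h5
    apply hab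
    apply Subrepresentation.toSubmodule_injective
    ext x
    have hx : x = 0 := Subsingleton.elim _ _
    rw [hx]
    exact ⟨fun _ => zero_mem _, fun _ => zero_mem _⟩

end

/-! ### Frobenius elements -/

section
variable {G : Type} [Group G] [TopologicalSpace G]

/-- Chebotarev's theorem: for every finite set `T` of primes the conjugates of the Frobenius elements
at the primes `p ∉ S ∪ T` are dense in the group. -/
def Chebotarev (S : Finset ℕ) (Frob : Nat.Primes → G) : Prop :=
  ∀ T : Finset ℕ, Dense {g : G | ∃ p : Nat.Primes, (p : ℕ) ∉ S ∧ (p : ℕ) ∉ T ∧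
    ∃ h : G, g = h * Frob p * h⁻¹}

variable {k : Type} [Field k] [TopologicalSpace k]

/-- The matrix entries are continuous functions. -/
def IsCont {n : ℕ} (ρ : G →* GL (Fin n) k) : Prop :=
  ∀ i j, Continuous fun g => (ρ g).val i j

/-- The matrices of the Frobenius elements, considered as complex matrices by `ι : k → ℂ`. -/
noncomputable def frobMat (ι : k →+* ℂ) (Frob : Nat.Primes → G) {n : ℕ} (ρ : G →* GL (Fin n) k) :
    Nat.Primes → Matrix (Fin n) (Fin n) ℂ := fun p => (ρ (Frob p)).val.map ι

lemma trace_eq_mult {n : ℕ} (X : Matrix (Fin n) (Fin n) ℂ) (Z : Finset ℂ)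
    (hZ : ∀ z, z ∈ X.charpoly.roots → z ∈ Z) :
    X.trace = ∑ z ∈ Z, (X.charpoly.rootMultiplicity z : ℂ) * z := by
  rw [trace_eig]
  exact sum_eig X Z hZ id

lemma trace_conj {n : ℕ} (ρ : G →* GL (Fin n) k) (h g : G) :
    (ρ (h * g * h⁻¹)).val.trace = (ρ g).val.trace := by
  rw [map_mul, map_mul, Units.val_mul, Units.val_mul, Matrix.trace_mul_comm, ← mul_assoc,
    ← Units.val_mul, ← map_mul, inv_mul_cancel, map_one, Units.val_one, one_mul]

/-- **From a virtual relation at the primes to a relation between characters.** -/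
theorem character_relation [IsTopologicalRing k] [T1Space k] (ι : k →+* ℂ) {S : Finset ℕ}
    {Frob : Nat.Primes → G} (hC : Chebotarev S Frob) {n : ℕ} {ρ : G →* GL (Fin n) k}
    (hρ : IsCont ρ) {J : Type} {m : J → ℕ} {H : ∀ j, G →* GL (Fin (m j)) k}
    (hH : ∀ j, IsCont (H j))
    (h : VirtualRelation S (frobMat ι Frob ρ) fun j => frobMat ι Frob (H j)) :
    ∃ d : ℕ, 0 < d ∧ ∃ e : J →₀ ℤ, ∀ g, (d : k) * (ρ g).val.trace =
      ∑ j ∈ e.support, (e j : k) * (H j g).val.trace := by
  classical
  obtain ⟨d, hd, e, hfin⟩ := h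
  refine ⟨d, hd, e, ?_⟩
  set F : G → k := fun g => (d : k) * (ρ g).val.trace -
    ∑ j ∈ e.support, (e j : k) * (H j g).val.trace with hF
  have hcont : Continuous F := by
    have h1 : ∀ {r : ℕ} {σ : G →* GL (Fin r) k}, IsCont σ → Continuous fun g => (σ g).val.trace := by
      intro r σ hσ
      unfold Matrix.trace
      exact continuous_finsetSum _ fun i _ => hσ i i
    exact (continuous_const.mul (h1 hρ)).sub
      (continuous_finsetSum _ fun j _ => continuous_const.mul (h1 (hH j)))
  set T : Finset ℕ := hfin.toFinset.image fun p : Nat.Primes => (p : ℕ) with hT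
  have hzero : ∀ g ∈ {g : G | ∃ p : Nat.Primes, (p : ℕ) ∉ S ∧ (p : ℕ) ∉ T ∧
      ∃ h : G, g = h * Frob p * h⁻¹}, F g = 0 := by
    rintro g ⟨p, hp, hpT, h, rfl⟩
    simp only [hF, trace_conj]
    have h1 : ∀ z, (d : ℤ) * ((frobMat ι Frob ρ p).charpoly.rootMultiplicity z : ℤ) =
        e.sum fun j c => c * ((frobMat ι Frob (H j) p).charpoly.rootMultiplicity z : ℤ) := by
      by_contra hne
      push Not at hne
      apply hpT
      rw [hT, Finset.mem_image]
      exact ⟨p, hfin.mem_toFinset.2 ⟨hp, hne⟩, rfl⟩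
    set Z : Finset ℂ := (frobMat ι Frob ρ p).charpoly.roots.toFinset ∪
      e.support.biUnion fun j => (frobMat ι Frob (H j) p).charpoly.roots.toFinset with hZ
    have h2 := trace_eq_mult (frobMat ι Frob ρ p) Z fun z hz =>
      Finset.mem_union_left _ (Multiset.mem_toFinset.2 hz)
    have h3 : ∀ j ∈ e.support, (frobMat ι Frob (H j) p).trace =
        ∑ z ∈ Z, ((frobMat ι Frob (H j) p).charpoly.rootMultiplicity z : ℂ) * z := fun j hj =>
      trace_eq_mult _ Z fun z hz => Finset.mem_union_right _ (Finset.mem_biUnion.2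
        ⟨j, hj, Multiset.mem_toFinset.2 hz⟩)
    have h4 : (d : ℂ) * (frobMat ι Frob ρ p).trace =
        ∑ j ∈ e.support, (e j : ℂ) * (frobMat ι Frob (H j) p).trace := by
      have hR : ∑ j ∈ e.support, (e j : ℂ) * (frobMat ι Frob (H j) p).trace =
          ∑ j ∈ e.support, ∑ z ∈ Z, (e j : ℂ) *
            (((frobMat ι Frob (H j) p).charpoly.rootMultiplicity z : ℂ) * z) :=
        Finset.sum_congr rfl fun j hj => by rw [h3 j hj, Finset.mul_sum]
      rw [h2, hR, Finset.sum_comm (s := e.support), Finset.mul_sum]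
      refine Finset.sum_congr rfl fun z _ => ?_
      have h5 := h1 z
      unfold Finsupp.sum at h5
      have h6 : (((d : ℤ) * ((frobMat ι Frob ρ p).charpoly.rootMultiplicity z : ℤ) : ℤ) : ℂ) =
          ((∑ j ∈ e.support, e j *
            ((frobMat ι Frob (H j) p).charpoly.rootMultiplicity z : ℤ) : ℤ) : ℂ) := by rw [h5]
      push_cast at h6
      rw [← mul_assoc, h6, Finset.sum_mul]
      exact Finset.sum_congr rfl fun j _ => by ring
    have h5 : ∀ {r : ℕ} (σ : G →* GL (Fin r) k), (frobMat ι Frob σ p).trace =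
        ι (σ (Frob p)).val.trace := by
      intro r σ
      unfold frobMat Matrix.trace
      rw [map_sum]
      rfl
    rw [h5] at h4
    simp only [h5] at h4
    have h6 : ι ((d : k) * (ρ (Frob p)).val.trace) =
        ι (∑ j ∈ e.support, (e j : k) * (H j (Frob p)).val.trace) := by
      rw [map_mul, map_natCast, map_sum, h4]
      exact Finset.sum_congr rfl fun j _ => by rw [map_mul, map_intCast]
    rw [ι.injective h6, sub_self]
  intro g
  have h1 : F g = 0 := by
    have h2 : IsClosed {g | F g = 0} := isClosed_singleton.preimage hcont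
    have h3 : Dense {g | F g = 0} := (hC T).mono hzero
    have h4 := h3.closure_eq
    rw [h2.closure_eq] at h4
    have h5 : g ∈ {g | F g = 0} := by
      rw [h4]
      exact Set.mem_univ g
    exact h5
  exact sub_eq_zero.1 h1

/-- **Dependence on the edge implies that an irreducible representation is a subquotient.** -/
theorem subquotient_of_dependent [CharZero k] [IsTopologicalRing k] [T1Space k] (ι : k →+* ℂ)
    {S : Finset ℕ} {Frob : Nat.Primes → G} (hC : Chebotarev S Frob) {n : ℕ}
    {ρ : G →* GL (Fin n) k} (hρ : IsCont ρ) (hirr : (rep ρ).IsIrreducible) {J : Type} [Countable J]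
    {m : J → ℕ} {H : ∀ j, G →* GL (Fin (m j)) k} (hH : ∀ j, IsCont (H j)) {w : ℝ}
    (hb : Bd S (frobMat ι Frob ρ) w) (hbH : ∀ j, Bd S (frobMat ι Frob (H j)) w) {l : ℝ → ℂ}
    (hl : IsBoundary S (frobMat ι Frob ρ) w l) {lH : J → ℝ → ℂ}
    (hlH : ∀ j, IsBoundary S (frobMat ι Frob (H j)) w (lH j)) :
    (DependentOn l lH → ∃ j, IsSubquotient (rep ρ) (rep (H j))) ∧
      (DependentOn l lH ∨ IndependentOf l lH) := by
  have hdet : ∀ {r : ℕ} (σ : G →* GL (Fin r) k) (p : Nat.Primes), (frobMat ι Frob σ p).det ≠ 0 := by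
    intro r σ p
    unfold frobMat
    have h2 : ((σ (Frob p)).val.map ι).det = ι (σ (Frob p)).val.det := (RingHom.map_det _ _).symm
    rw [h2]
    exact fun h => ((Matrix.isUnit_iff_isUnit_det _).1 (σ (Frob p)).isUnit).ne_zero
      ((map_eq_zero _).1 h)
  have h1 := dichotomy (tfae_gen hb hbH (fun p _ => hdet ρ p) (fun j p _ => hdet (H j) p) hl hlH)
  refine ⟨fun h => ?_, h1.2⟩
  obtain ⟨d, hd, e, h2⟩ := character_relation ι hC hρ hH (h1.1.2 h)
  obtain ⟨j, -, hj⟩ := subquotient_of_relation hirr (d := (d : k))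
    (by exact_mod_cast hd.ne') e.support (fun j => (e j : k)) h2
  exact ⟨j, hj⟩

end

end Pool.Agent.R629.NF
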