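import Pool.Agent.R629.NF.Conc3
import Pool.Agent.R629.NF.Geo

/-!
# Chebotarev's theorem for the absolute Galois group of `ℚ`
-/

set_option autoImplicit false
set_option linter.unusedSectionVars false

namespace Pool.Agent.R629.NF

open NumberField IsDedekindDomain Topology
open Pool.Agent.W401.Cheb (HasFrob TorAt tw tw_apply tw_inj frob_unique hasFrob_tw xp torsor
  infinite_frob)

/-- `g` is a Frobenius element at the prime number `p`: for some homomorphism `π` from the algebraic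
integers to `F̄_p`, `π(g y) = π(y)^p` for all algebraic integers `y`. -/
def IsFrobQ (Ω : Type) [Field Ω] [CharZero Ω] [IsAlgClosure ℚ Ω] (p : Nat.Primes)
    (g : Gal(Ω/ℚ)) : Prop :=
  ∃ (_ : Fact (p : ℕ).Prime) (π : 𝓞 Ω →+* AlgebraicClosure (ZMod p)),
    ∀ y, π (g • y) = π y ^ (p : ℕ)

section
variable {Ω : Type} [Field Ω] [CharZero Ω] [IsAlgClosure ℚ Ω]

/-- **Chebotarev's theorem**: the conjugates of the Frobenius elements are dense. -/
theorem cheb_rat {Frob : Nat.Primes → Gal(Ω/ℚ)} (hF : ∀ p, IsFrobQ Ω p (Frob p)) :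
    Chebotarev ∅ Frob := by
  intro T
  rw [dense_iff_inter_open]
  rintro O hO ⟨x, hx⟩
  have hO1 : (fun g => x * g) ⁻¹' O ∈ 𝓝 (1 : Gal(Ω/ℚ)) :=
    (hO.preimage (continuous_const_mul x)).mem_nhds (by simpa using hx)
  obtain ⟨L, hLfin, hLnor, hL⟩ := (krullTopology_mem_nhds_one_iff_of_normal ℚ Ω _).1 hO1
  have hNF : NumberField L := { to_charZero := inferInstance, to_finiteDimensional := hLfin }
  have hGal : IsGalois ℚ L := { to_isSeparable := inferInstance, to_normal := hLnor }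
  obtain ⟨D, hD0, hD⟩ := torsor L
  obtain ⟨p, ⟨hp, hx'⟩, hbad⟩ := (infinite_frob L (rsT L x)).exists_notMem_finset
    (T ∪ D.divisors)
  simp only [Finset.mem_union, not_or] at hbad
  obtain ⟨hpT, hpD⟩ := hbad
  obtain ⟨hfact, π, hπ⟩ := hF ⟨p, hp⟩
  have hfact : Fact p.Prime := ⟨hp⟩
  have hT : TorAt L p := hD p fun h => hpD (Nat.mem_divisors.2 ⟨h, hD0.ne'⟩)
  obtain ⟨φ, hφ⟩ : ∃ φ : 𝓞 L →+* AlgebraicClosure (ZMod p), HasFrob p φ (rsT L x) := by
    by_contra hno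
    push Not at hno
    apply hx'
    unfold xp
    rw [dif_pos hp]
    have : IsEmpty {φ : 𝓞 L →+* AlgebraicClosure (ZMod p) //
        HasFrob p φ (rsT L x)} := ⟨fun φ => hno φ.1 φ.2⟩
    exact Nat.card_of_isEmpty
  let πL : 𝓞 L →+* AlgebraicClosure (ZMod p) := RingHom.comp π (algebraMap (𝓞 L) (𝓞 Ω))
  have hπL : HasFrob p πL (rsT L (Frob ⟨p, hp⟩)) := fun y => by
    change π (algebraMap (𝓞 L) (𝓞 Ω) (rsT L (Frob ⟨p, hp⟩) • y)) = _
    rw [alg_smul, hπ]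
    rfl
  obtain ⟨s, hs, -⟩ := hT.2.1 φ πL
  have hs' : πL = tw φ s := RingHom.ext fun y => hs y
  have h4 : rsT L (Frob ⟨p, hp⟩) = s⁻¹ * rsT L x * s := by
    rw [← hasFrob_tw hT hφ, ← hs']
    exact hπL
  obtain ⟨h, hh⟩ := AlgEquiv.restrictNormalHom_surjective (F := ℚ) (K₁ := L) Ω s
  refine ⟨h * Frob ⟨p, hp⟩ * h⁻¹, ?_, ⟨p, hp⟩, Finset.notMem_empty _, hpT, h, rfl⟩
  have h5 : rsT L (x⁻¹ * (h * Frob ⟨p, hp⟩ * h⁻¹)) = 1 := by
    rw [map_mul, map_mul, map_mul, map_inv, map_inv, h4]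
    have h6 : rsT L h = s := hh
    rw [h6]
    group
  have h6 : x⁻¹ * (h * Frob ⟨p, hp⟩ * h⁻¹) ∈ L.fixingSubgroup := by
    intro z
    have h7 := rs_coe (L := L) (x⁻¹ * (h * Frob ⟨p, hp⟩ * h⁻¹)) (⟨z.1, z.2⟩ : L)
    rw [h5] at h7
    exact h7.symm
  have h7 := hL h6
  change x * (x⁻¹ * (h * Frob ⟨p, hp⟩ * h⁻¹)) ∈ O at h7
  rwa [mul_inv_cancel_left] at h7

end

end Pool.Agent.R629.NF
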