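import Pool.Agent.R629.NF.AlgInd

/-!
# Galois representations of Galois number fields and their edge values
-/

set_option autoImplicit false

namespace Pool.Agent.R629.NF

open Representation Filter Topology Finset NumberField IsDedekindDomain
open Pool.Agent.R629.SP
open Pool.Agent.TH339.MP (nm pr dg Sp mem_Sp nm_eq dg_pos)

/-- The properties which are used of the absolute Galois group `G` of a number field `K` which is
Galois over `ℚ`, of its Frobenius elements, of the conjugations `c_σ` by lifts of the elements `σ` of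
the Galois group `Γ` of `K` and of the action of `Γ` on the primes of `K`; `S₀` is a finite set of
primes containing the primes which ramify in `K`. The last property is Chebotarev's theorem. -/
structure IsGalData {K : Type} [Field K] [NumberField K] {G : Type} [Group G] [TopologicalSpace G]
    {Γ : Type} [Fintype Γ] (S₀ : Finset ℕ) (Frob : HeightOneSpectrum (𝓞 K) → G)
    (c : Γ → G →* G) (act : Γ → HeightOneSpectrum (𝓞 K) → HeightOneSpectrum (𝓞 K)) : Prop where
  unram : Unram K S₀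
  card : Fintype.card Γ = Module.finrank ℚ K
  one : ∃ σ, c σ = MonoidHom.id G
  continuous : ∀ σ, Continuous (c σ)
  bij : ∀ σ, Function.Bijective (act σ)
  pr_act : ∀ σ v, pr (act σ v) = pr v
  dg_act : ∀ σ v, dg (act σ v) = dg v
  trans : ∀ v v', pr v = pr v' → ∃ σ, act σ v = v'
  conj : ∀ σ v, (pr v : ℕ) ∉ S₀ → ∃ h, c σ (Frob v) = h * Frob (act σ v) * h⁻¹
  dense : ∀ T : Finset ℕ, Dense {g : G | ∃ v : HeightOneSpectrum (𝓞 K), dg v = 1 ∧
    (pr v : ℕ) ∉ T ∧ ∃ h, g = h * Frob v * h⁻¹}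

section
variable {K : Type} [Field K] [NumberField K] {G : Type} [Group G] [TopologicalSpace G]
  {Γ : Type} [Fintype Γ] {S₀ : Finset ℕ} {Frob : HeightOneSpectrum (𝓞 K) → G}
  {c : Γ → G →* G} {act : Γ → HeightOneSpectrum (𝓞 K) → HeightOneSpectrum (𝓞 K)}

lemma unram_mono {S S' : Finset ℕ} (h : Unram K S) (hS : S ⊆ S') : Unram K S' :=
  fun p hp => h p fun h' => hp (hS h')

theorem galData_split (hG : IsGalData S₀ Frob c act) (T : Finset ℕ) :
    Dense {x : G | ∃ p : Nat.Primes, (p : ℕ) ∉ T ∧ SplitFrob Frob c p x} := by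
  classical
  refine (hG.dense (T ∪ S₀)).mono ?_
  rintro x ⟨v, hdv, hT, h, rfl⟩
  rw [Finset.mem_union, not_or] at hT
  have hmem : ∀ u : HeightOneSpectrum (𝓞 K), u ∈ Sp (pr v) ↔ ∃ σ, act σ v = u := by
    intro u
    rw [mem_Sp]
    constructor
    · intro hu
      exact hG.trans v u hu.symm
    · rintro ⟨σ, rfl⟩
      exact hG.pr_act σ v
  have hdg : ∀ σ, dg (act σ v) = 1 := fun σ => by rw [hG.dg_act, hdv]
  have himg : (Sp (pr v) : Finset (HeightOneSpectrum (𝓞 K))) =
      Finset.univ.image fun σ => act σ v := by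
    ext u
    rw [hmem, Finset.mem_image]
    simp
  have hcard : (Finset.univ.image fun σ => act σ v).card = (Finset.univ : Finset Γ).card := by
    have h1 := hG.unram (pr v) hT.2
    rw [himg] at h1
    rw [Finset.card_univ, hG.card, ← h1, Finset.card_eq_sum_ones]
    refine Finset.sum_congr rfl fun u hu => ?_
    obtain ⟨σ, -, rfl⟩ := Finset.mem_image.1 hu
    exact (hdg σ).symm
  have hinj : Function.Injective fun σ => act σ v := by
    intro a b hab
    exact (Finset.card_image_iff.1 hcard) (Finset.mem_coe.2 (Finset.mem_univ a))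
      (Finset.mem_coe.2 (Finset.mem_univ b)) hab
  refine ⟨pr v, hT.1, fun σ => act σ v, hinj, hmem, hdg, fun σ => ?_⟩
  obtain ⟨h', hh'⟩ := hG.conj σ v hT.2
  refine ⟨c σ h * h', ?_⟩
  rw [map_mul, map_mul, hh', map_inv, mul_inv_rev]
  group

variable {k : Type} [Field k]

lemma above_conj (hG : IsGalData S₀ Frob c act) (ι : k →+* ℂ) {n : ℕ} (H : G →* GL (Fin n) k)
    (σ : Γ) {p : Nat.Primes} (hp : (p : ℕ) ∉ S₀) :
    above (frobPoly ι Frob (H.comp (c σ))) p = above (frobPoly ι Frob H) p := by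
  unfold above
  refine Finset.prod_bij (fun v _ => act σ v) (fun v hv => ?_) (fun v _ v' _ h => ?_)
    (fun v hv => ?_) (fun v hv => ?_)
  · rw [mem_Sp] at hv ⊢
    rw [hG.pr_act, hv]
  · exact (hG.bij σ).1 h
  · obtain ⟨u, rfl⟩ := (hG.bij σ).2 v
    refine ⟨u, ?_, rfl⟩
    rw [mem_Sp] at hv ⊢
    rw [← hv, hG.pr_act]
  · rw [mem_Sp] at hv
    obtain ⟨h, hh⟩ := hG.conj σ v (by rw [hv]; exact hp)
    have h1 : frobPoly ι Frob (H.comp (c σ)) v = frobPoly ι Frob H (act σ v) := by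
      unfold frobPoly
      rw [MonoidHom.comp_apply, hh, charpoly_conj]
    rw [h1, hG.dg_act]

variable [TopologicalSpace k]

/-- **The edge criterion for Galois representations of a Galois number field.** -/
theorem main_galK [CharZero k] [IsTopologicalRing k] [T1Space k] (ι : k →+* ℂ)
    (hG : IsGalData S₀ Frob c act) {n : ℕ} {ρ : G →* GL (Fin n) k} (hρ : IsCont ρ)
    (hirr : (rep ρ).IsIrreducible) {J : Type} [Countable J]
    {H : J → G →* GL (Fin n) k} (hH : ∀ j, IsCont (H j))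
    {S : Finset ℕ} (hS : S₀ ⊆ S) {SJ : J → Finset ℕ} (hSJ : ∀ j, S₀ ⊆ SJ j) {w : ℝ}
    (hP : IsSys S n w (frobPoly ι Frob ρ)) (hPJ : ∀ j, IsSys (SJ j) n w (frobPoly ι Frob (H j)))
    {l : ℝ → ℂ} (hl : IsEdgeOf S n (frobPoly ι Frob ρ) w l) {lH : J → ℝ → ℂ}
    (hlH : ∀ j, IsEdgeOf (SJ j) n (frobPoly ι Frob (H j)) w (lH j)) :
    ((∃ j σ, Nonempty ((rep ρ).Equiv (rep ((H j).comp (c σ))))) ↔ DependentOn l lH) ∧
      (DependentOn l lH ∨ IndependentOf l lH) := by
  have hcont : ∀ {r : ℕ} {τ : G →* GL (Fin r) k}, IsCont τ →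
      ∀ σ, IsCont (τ.comp (c σ)) := fun hτ σ i j => (hτ i j).comp (hG.continuous σ)
  obtain ⟨σ₀, hσ₀⟩ := hG.one
  have hcomp : ρ.comp (c σ₀) = ρ := by
    rw [hσ₀]
    exact MonoidHom.comp_id ρ
  have hUS := unram_mono hG.unram hS
  have hUJ := fun j => unram_mono hG.unram (hSJ j)
  obtain ⟨h1, -, h3⟩ := main_geoK ι (c := c) σ₀ (galData_split hG) (hcont hρ)
    (by rw [hcomp]; exact hirr) (fun j => hcont (hH j)) hUS hUJ hP hPJ hl hlH
  refine ⟨⟨?_, fun h => ?_⟩, h3⟩
  · rintro ⟨j, σ, ⟨E⟩⟩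
    obtain ⟨A, hA⟩ := exists_mats hUS (fun v hv => (hP v hv).1) (fun v hv => (hP v hv).2.1)
    have h4 : ∀ j, ∃ B : Nat.Primes → Matrix (Fin (n * Module.finrank ℚ K))
        (Fin (n * Module.finrank ℚ K)) ℂ, ∀ p : Nat.Primes, (p : ℕ) ∉ SJ j →
        (B p).charpoly = above (frobPoly ι Frob (H j)) p := fun j =>
      exists_mats (hUJ j) (fun v hv => (hPJ j v hv).1) (fun v hv => (hPJ j v hv).2.1)
    choose B hB using h4
    obtain ⟨a1, a2, a3⟩ := sys_bridge hP hA
    have b := fun j => sys_bridge (hPJ j) (hB j)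
    obtain ⟨h2, -⟩ := main_var a1 (fun j => (b j).1) a2 (fun j => (b j).2.1) ((a3 l).1 hl)
      (fun j => ((b j).2.2 _).1 (hlH j))
    refine h2.1 ⟨1, one_pos, Finsupp.single j 1, ?_⟩
    have hfin : ∀ T : Finset ℕ, {p : Nat.Primes | (p : ℕ) ∈ T}.Finite := fun T =>
      Set.Finite.preimage (f := fun p : Nat.Primes => (p : ℕ)) Subtype.val_injective.injOn
        T.finite_toSet
    refine ((hfin S).union (hfin (SJ j))).subset ?_
    rintro p ⟨-, z, hne⟩
    by_contra hno
    rw [Set.mem_union, not_or] at hno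
    apply hne
    rw [Finsupp.sum_single_index (zero_mul _), hA p hno.1, hB j p hno.2,
      ← above_conj hG ι (H j) σ fun h => hno.1 (hS h)]
    have h5 : frobPoly ι Frob ρ = frobPoly ι Frob ((H j).comp (c σ)) := by
      funext v
      unfold frobPoly
      rw [charpoly_equiv E]
    rw [h5]
    push_cast
    ring
  · obtain ⟨j, σ, h4⟩ := h1 h
    rw [hcomp] at h4
    obtain ⟨E⟩ := equiv_of_subquotient h4 le_rfl
    exact ⟨j, σ, ⟨E.symm⟩⟩

lemma not_indep {J : Type} {l : ℝ → ℂ} {lH : J → ℝ → ℂ} (h : DependentOn l lH) :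
    ¬ IndependentOf l lH := by
  obtain ⟨k, hk, h1⟩ := h
  intro h2
  obtain ⟨t, h3, h4⟩ := (h1.and (h2 k hk)).exists
  exact h4 h3

end

end Pool.Agent.R629.NF
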