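import Pool.Agent.R629.NF.Conc4
import Pool.Agent.R629.NF.GalK

/-!
# Chebotarev's theorem with exact Frobenius elements, and representations in characteristic zero
-/

set_option autoImplicit false
set_option linter.unusedSectionVars false

namespace Pool.Agent.R629.NF

open Representation Filter Topology Finset NumberField IsDedekindDomain MeasureTheory
open Pool.Agent.R629.SP
open Pool.Agent.W401.Cheb (HasFrob TorAt tw tw_apply tw_inj frob_unique hasFrob_tw xp torsor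
  infinite_frob)
open Pool.Agent.TH339.MP (nm pr dg Sp mem_Sp nm_eq dg_pos)

section
variable {K Ω : Type} [Field K] [NumberField K] [IsGalois ℚ K] [Field Ω]
    [CharZero Ω] [IsAlgClosure ℚ Ω] [Algebra K Ω]
variable {L : Type} [Field L] [NumberField L] [IsGalois ℚ L] [Algebra L Ω]

lemma frobAt_conj (s : Gal(Ω/ℚ)) {v v' : HeightOneSpectrum (𝓞 K)}
    (hv : ∀ z ∈ v'.asIdeal, (rsT K s)⁻¹ • z ∈ v.asIdeal) (hnm : nm v' = nm v) {g : Gal(Ω/ℚ)}
    (h : IsFrobAt Ω v g) : IsFrobAt Ω v' (s * g * s⁻¹) := by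
  obtain ⟨p, hp, π, h1, h2⟩ := h
  refine ⟨p, hp, π.comp (MulSemiringAction.toRingHom Gal(Ω/ℚ) (𝓞 Ω) s⁻¹), fun x hx => ?_,
    fun y => ?_⟩
  · change π (s⁻¹ • algebraMap (𝓞 K) (𝓞 Ω) x) = 0
    rw [← alg_smul, map_inv]
    exact h1 _ (hv x hx)
  · change π (s⁻¹ • (s * g * s⁻¹) • y) = π (s⁻¹ • y) ^ nm v'
    rw [← mul_smul, show s⁻¹ * (s * g * s⁻¹) = g * s⁻¹ by group, mul_smul, h2, hnm]

theorem conc_split2 {S₀ : Finset ℕ} (hU : Unram K S₀)
    {F : HeightOneSpectrum (𝓞 K) → GalOf K Ω} (hF : ∀ v, IsFrobAt Ω v (F v : Gal(Ω/ℚ)))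
    {i : K →+* L} (hi : ∀ x, algebraMap L Ω (i x) = algebraMap K Ω x)
    {lift : Gal(K/ℚ) → Gal(Ω/ℚ)} (hlift : ∀ σ, rsT K (lift σ) = σ)
    (g : GalOf K Ω) (T : Finset ℕ) :
    ∃ p : Nat.Primes, (p : ℕ) ∉ T ∧ ∃ b : Gal(K/ℚ) → HeightOneSpectrum (𝓞 K),
      Function.Injective b ∧ (∀ v, v ∈ Sp p ↔ ∃ σ, b σ = v) ∧ (∀ σ, dg (b σ) = 1) ∧
      ∃ x : GalOf K Ω, rsT L (x : Gal(Ω/ℚ)) = rsT L (g : Gal(Ω/ℚ)) ∧
        ∀ σ, IsFrobAt Ω (b σ) (conjBy K (lift σ) x : Gal(Ω/ℚ)) := by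
  classical
  obtain ⟨DK, hDK0, hDK⟩ := torsor K
  obtain ⟨DL, hDL0, hDL⟩ := torsor L
  obtain ⟨p, ⟨hp, hx⟩, hbad⟩ := (infinite_frob L (rsT L (g : Gal(Ω/ℚ)))).exists_notMem_finset
    (T ∪ S₀ ∪ DK.divisors ∪ DL.divisors)
  simp only [Finset.mem_union, not_or] at hbad
  obtain ⟨⟨⟨hpT, hpS⟩, hpK⟩, hpL⟩ := hbad
  have : Fact p.Prime := ⟨hp⟩
  obtain ⟨P, hPp⟩ : ∃ P : Nat.Primes, (P : ℕ) = p := ⟨⟨p, hp⟩, rfl⟩
  have hTK : TorAt K p := hDK p fun h => hpK (Nat.mem_divisors.2 ⟨h, hDK0.ne'⟩)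
  have hTL : TorAt L p := hDL p fun h => hpL (Nat.mem_divisors.2 ⟨h, hDL0.ne'⟩)
  obtain ⟨φ, hφ⟩ : ∃ φ : 𝓞 L →+* AlgebraicClosure (ZMod p),
      HasFrob p φ (rsT L (g : Gal(Ω/ℚ))) := by
    by_contra hno
    push Not at hno
    apply hx
    unfold xp
    rw [dif_pos hp]
    have : IsEmpty {φ : 𝓞 L →+* AlgebraicClosure (ZMod p) //
        HasFrob p φ (rsT L (g : Gal(Ω/ℚ)))} := ⟨fun φ => hno φ.1 φ.2⟩
    exact Nat.card_of_isEmpty
  have hsm : ∀ (s : Gal(Ω/ℚ)) (x : 𝓞 K), rsT L s • incl i x = incl i (rsT K s • x) :=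
    fun s x => incl_smul hi s x
  set f : 𝓞 K →+* AlgebraicClosure (ZMod p) := φ.comp (incl i) with hfdef
  have hfx : ∀ x, f x = φ (incl i x) := fun x => rfl
  have hf : ∀ x, f x ^ p = f x := fun x => by
    rw [hfx, ← hφ, hsm, rs_of_mem, one_smul]
  obtain ⟨f', hf'⟩ := exists_zmod f hf
  let fs : Gal(K/ℚ) → (𝓞 K →+* ZMod p) := fun σ => tw f' σ⁻¹
  have hfs : ∀ σ x, fs σ x = f' (σ⁻¹ • x) := fun σ x => rfl
  let b : Gal(K/ℚ) → HeightOneSpectrum (𝓞 K) := fun σ => kv (fs σ)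
  have hbinj : Function.Injective b := by
    intro σ τ h
    have h1 : fs σ = fs τ := kv_inj h
    have h2 : σ⁻¹ = τ⁻¹ := tw_inj hTK (φ := f) fun x => by
      rw [← hf', ← hf', ← hfs, ← hfs, h1]
    exact inv_injective h2
  have hbdg : ∀ σ, dg (b σ) = 1 := fun σ => (pr_kv (fs σ)).2
  have hbpr : ∀ σ, pr (b σ) = P := fun σ => Subtype.ext ((pr_kv (fs σ)).1.trans hPp.symm)
  have hbS : ∀ v, v ∈ Sp P ↔ ∃ σ, b σ = v := by
    have hsub : Finset.univ.image b ⊆ Sp P := by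
      intro v hv
      obtain ⟨σ, -, rfl⟩ := Finset.mem_image.1 hv
      rw [mem_Sp]
      exact hbpr σ
    have hsum := hU P (by rw [hPp]; exact hpS)
    have hcard : (Finset.univ.image b).card = Module.finrank ℚ K := by
      rw [Finset.card_image_of_injective _ hbinj, Finset.card_univ,
        ← Nat.card_eq_fintype_card, IsGalois.card_aut_eq_finrank]
    have heq : Finset.univ.image b = Sp P := by
      refine Finset.eq_of_subset_of_card_le hsub ?_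
      rw [hcard, ← hsum, Finset.card_eq_sum_ones]
      exact Finset.sum_le_sum fun v _ => dg_pos v
    intro v
    rw [← heq, Finset.mem_image]
    simp
  refine ⟨P, by rw [hPp]; exact hpT, b, hbinj, hbS, hbdg, ?_⟩
  obtain ⟨p', hp', π, hπ1, hπ2⟩ := hF (b 1)
  have hnm : ∀ σ, nm (b σ) = p := fun σ => nm_kv (fs σ)
  have hpp : p' = p := by
    have h1 : ((p : ℕ) : 𝓞 K) ∈ (b 1).asIdeal := by
      rw [mem_kv, map_natCast, ZMod.natCast_self]
    have h2 := hπ1 _ h1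
    rw [map_natCast, map_natCast] at h2
    have hchar : CharP (AlgebraicClosure (ZMod p')) p' :=
      charP_of_injective_algebraMap
        (algebraMap (ZMod p') (AlgebraicClosure (ZMod p'))).injective p'
    have h3 : p' ∣ p := (CharP.cast_eq_zero_iff (AlgebraicClosure (ZMod p')) p' p).1 h2
    exact (Nat.prime_dvd_prime_iff_eq hp'.out hp).1 h3
  subst hpp
  have hπ3 := hπ2
  rw [hnm] at hπ3
  let πL : 𝓞 L →+* AlgebraicClosure (ZMod p') := π.comp (algebraMap (𝓞 L) (𝓞 Ω))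
  have hπL : HasFrob p' πL (rsT L (F (b 1) : Gal(Ω/ℚ))) := fun x => by
    change π (algebraMap (𝓞 L) (𝓞 Ω) (rsT L (F (b 1) : Gal(Ω/ℚ)) • x)) = _
    rw [alg_smul, hπ3]
    rfl
  obtain ⟨s, hs, -⟩ := hTL.2.1 φ πL
  have hs' : πL = tw φ s := RingHom.ext fun x => hs x
  have h4 : rsT L (F (b 1) : Gal(Ω/ℚ)) = s⁻¹ * rsT L (g : Gal(Ω/ℚ)) * s := by
    rw [← hasFrob_tw hTL hφ, ← hs']
    exact hπL
  obtain ⟨h, hh⟩ := AlgEquiv.restrictNormalHom_surjective (F := ℚ) (K₁ := L) Ω s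
  have hφK : ∀ x : 𝓞 K, φ (incl i x) =
      algebraMap (ZMod p') (AlgebraicClosure (ZMod p')) (f' x) := fun x => (hf' x).symm
  have hπK : ∀ x : 𝓞 K, πL (incl i x) =
      algebraMap (ZMod p') (AlgebraicClosure (ZMod p')) (f' x) := by
    refine eq_of_ker (f := πL.comp (incl i)) (f' := f') fun x hx => ?_
    change π (algebraMap (𝓞 L) (𝓞 Ω) (incl i x)) = 0
    rw [alg_incl hi]
    refine hπ1 x (mem_kv.2 ?_)
    rw [hfs, inv_one, one_smul]
    exact hx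
  have hK : rsT K h = 1 := by
    have h7 : ∀ x : 𝓞 K, f' (rsT K h • x) = f' x := by
      intro x
      apply (algebraMap (ZMod p') (AlgebraicClosure (ZMod p'))).injective
      rw [← hφK, ← hπK, ← hsm, hh]
      exact (hs _).symm
    exact tw_inj hTK (φ := f) fun x => by
      rw [← hf', ← hf', h7, one_smul]
  -- the Frobenius element
  have hx1 : IsFrobAt Ω (b 1) (h * (F (b 1) : Gal(Ω/ℚ)) * h⁻¹) :=
    frobAt_conj h (fun z hz => by rw [hK, inv_one, one_smul]; exact hz) rfl (hF (b 1))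
  refine ⟨⟨h, hK⟩ * F (b 1) * ⟨h, hK⟩⁻¹, ?_, fun σ => ?_⟩
  · have h9 : rsT L (((⟨h, hK⟩ * F (b 1) * ⟨h, hK⟩⁻¹ : GalOf K Ω)) : Gal(Ω/ℚ)) =
        s * rsT L (F (b 1) : Gal(Ω/ℚ)) * s⁻¹ := by
      rw [← hh, ← map_inv, ← map_mul, ← map_mul]
      rfl
    rw [h9, h4]
    group
  · rw [conjBy_coe]
    refine frobAt_conj (lift σ) (fun z hz => ?_) ((hnm σ).trans (hnm 1).symm) hx1
    rw [hlift]
    rw [mem_kv, hfs] at hz ⊢
    rw [inv_one, one_smul]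
    exact hz

end

end Pool.Agent.R629.NF
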