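import Pool.Agent.R629.NF.Conc8

/-!
# Representations of absolute Galois groups in characteristic zero and their edge values
-/

set_option autoImplicit false
set_option linter.unusedSectionVars false

namespace Pool.Agent.R629.NF

open Representation Filter Topology Finset NumberField IsDedekindDomain MeasureTheory
open Pool.Agent.R629.SP
open Pool.Agent.TH339.MP (nm pr dg Sp mem_Sp nm_eq dg_pos)

section
variable {G : Type} [Group G] {k : Type} [Field k]

/-- The composition of an irreducible representation with a surjective endomorphism is irreducible. -/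
lemma irr_comp0 {n : ℕ} {ρ : G →* GL (Fin n) k} (hρ : (rep ρ).IsIrreducible) {f : G →* G}
    (hf : Function.Surjective f) : (rep (ρ.comp f)).IsIrreducible := by
  have h0 : Nontrivial (Subrepresentation (rep ρ)) := hρ.toNontrivial
  obtain ⟨a, b, hab⟩ := h0
  have key : ∀ W : Subrepresentation (rep (ρ.comp f)), ∀ (g : G), ∀ x ∈ W.toSubmodule,
      rep ρ g x ∈ W.toSubmodule := by
    intro W g x hx
    obtain ⟨g', rfl⟩ := hf g
    exact W.apply_mem_toSubmodule g' hx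
  have hab' : a.toSubmodule ≠ b.toSubmodule := fun h =>
    hab (Subrepresentation.toSubmodule_injective h)
  let A : Subrepresentation (rep (ρ.comp f)) :=
    ⟨a.toSubmodule, fun g x hx => a.apply_mem_toSubmodule (f g) hx⟩
  let B : Subrepresentation (rep (ρ.comp f)) :=
    ⟨b.toSubmodule, fun g x hx => b.apply_mem_toSubmodule (f g) hx⟩
  have hAB : A ≠ B := fun h => hab'
    (congrArg (fun W : Subrepresentation (rep (ρ.comp f)) => W.toSubmodule) h)
  refine { exists_pair_ne := ⟨A, B, hAB⟩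
           eq_bot_or_eq_top := fun W => ?_ }
  let W' : Subrepresentation (rep ρ) := ⟨W.toSubmodule, fun g x hx => key W g x hx⟩
  rcases hρ.eq_bot_or_eq_top W' with h | h
  · left
    have h1 : W'.toSubmodule = ⊥ :=
      congrArg (fun W : Subrepresentation (rep ρ) => W.toSubmodule) h
    exact Subrepresentation.toSubmodule_injective h1
  · right
    have h1 : W'.toSubmodule = ⊤ :=
      congrArg (fun W : Subrepresentation (rep ρ) => W.toSubmodule) h
    exact Subrepresentation.toSubmodule_injective h1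

end

/-- Away from the primes above the finite set `S` of prime numbers, the characteristic polynomial of
the matrix of a Frobenius element does not depend on the choice of the Frobenius element. All
representations which are unramified outside `S` have this property. -/
def IsUnr {K Ω k : Type} [Field K] [NumberField K] [IsGalois ℚ K] [Field Ω] [CharZero Ω]
    [IsAlgClosure ℚ Ω] [Algebra K Ω] [Field k] (S : Finset ℕ) {n : ℕ}
    (ρ : GalOf K Ω →* GL (Fin n) k) : Prop :=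
  ∀ v : HeightOneSpectrum (𝓞 K), (pr v : ℕ) ∉ S → ∀ g g' : GalOf K Ω,
    IsFrobAt Ω v (g : Gal(Ω/ℚ)) → IsFrobAt Ω v (g' : Gal(Ω/ℚ)) →
    (ρ g).val.charpoly = (ρ g').val.charpoly

section
variable {K Ω : Type} [Field K] [NumberField K] [IsGalois ℚ K] [Field Ω]
    [CharZero Ω] [IsAlgClosure ℚ Ω] [Algebra K Ω]

/-- `p` splits completely in `K` and, for all `σ`, the conjugate of `x` by the lift of `σ` is a
Frobenius element at the prime `b_σ` above `p`. -/
def SplitAt (lift : Gal(K/ℚ) → Gal(Ω/ℚ)) (p : Nat.Primes) (x : GalOf K Ω) : Prop :=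
  ∃ b : Gal(K/ℚ) → HeightOneSpectrum (𝓞 K), Function.Injective b ∧
    (∀ v, v ∈ Sp p ↔ ∃ σ, b σ = v) ∧ (∀ σ, dg (b σ) = 1) ∧
    ∀ σ, IsFrobAt Ω (b σ) (conjBy K (lift σ) x : Gal(Ω/ℚ))

lemma continuous_conjBy (s : Gal(Ω/ℚ)) : Continuous (conjBy K s) := by
  refine continuous_induced_rng.2 ?_
  have h : (Subtype.val ∘ conjBy K s) =
      fun g : GalOf K Ω => s * (g : Gal(Ω/ℚ)) * s⁻¹ := by
    funext g
    exact conjBy_coe s g
  rw [h]
  exact (continuous_const.mul continuous_subtype_val).mul continuous_const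

theorem dense_split {S₀ : Finset ℕ} (hU : Unram K S₀)
    {F : HeightOneSpectrum (𝓞 K) → GalOf K Ω} (hF : ∀ v, IsFrobAt Ω v (F v : Gal(Ω/ℚ)))
    {lift : Gal(K/ℚ) → Gal(Ω/ℚ)} (hlift : ∀ σ, rsT K (lift σ) = σ) (T : Finset ℕ) :
    Dense {x : GalOf K Ω | ∃ p : Nat.Primes, (p : ℕ) ∉ T ∧ SplitAt lift p x} := by
  rw [dense_iff_inter_open]
  rintro O hO ⟨g, hg⟩
  obtain ⟨V, hV, rfl⟩ := isOpen_induced_iff.1 hO
  have hV1 : (fun x => (g : Gal(Ω/ℚ)) * x) ⁻¹' V ∈ 𝓝 (1 : Gal(Ω/ℚ)) :=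
    (hV.preimage (continuous_const_mul _)).mem_nhds (by simpa using hg)
  obtain ⟨E, hE, hEV⟩ := (krullTopology_mem_nhds_one_iff ℚ Ω _).1 hV1
  obtain ⟨L, hNF, hGal, hEL, i, hi⟩ := exists_L (K := K) (fun _ : Unit => E) (fun _ => hE)
  obtain ⟨p, hp, b, hb, hSp, hdg, x, hx, hfr⟩ := conc_split2 (L := L) hU hF hi hlift g T
  refine ⟨x, ?_, p, hp, b, hb, hSp, hdg, hfr⟩
  have h5 : rsT L ((g : Gal(Ω/ℚ))⁻¹ * (x : Gal(Ω/ℚ))) = 1 := by
    rw [map_mul, map_inv, hx, inv_mul_cancel]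
  have h6 : (g : Gal(Ω/ℚ))⁻¹ * (x : Gal(Ω/ℚ)) ∈ E.fixingSubgroup := by
    intro z
    have h7 := rs_coe (L := L) ((g : Gal(Ω/ℚ))⁻¹ * (x : Gal(Ω/ℚ))) (⟨z.1, hEL () z.2⟩ : L)
    rw [h5] at h7
    exact h7.symm
  have h7 := hEV h6
  change (g : Gal(Ω/ℚ)) * ((g : Gal(Ω/ℚ))⁻¹ * (x : Gal(Ω/ℚ))) ∈ V at h7
  rwa [mul_inv_cancel_left] at h7

variable {k : Type} [Field k]

lemma above_split2 {ι : k →+* ℂ} {F : HeightOneSpectrum (𝓞 K) → GalOf K Ω}
    (hF : ∀ v, IsFrobAt Ω v (F v : Gal(Ω/ℚ))) {lift : Gal(K/ℚ) → Gal(Ω/ℚ)}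
    {p : Nat.Primes} {x : GalOf K Ω} (hx : SplitAt lift p x) {n : ℕ}
    {ρ : GalOf K Ω →* GL (Fin n) k} {S : Finset ℕ} (hρ : IsUnr S ρ) (hp : (p : ℕ) ∉ S) :
    above (frobPoly ι F ρ) p = ∏ σ, ((ρ (conjBy K (lift σ) x)).val.charpoly.map ι) := by
  classical
  obtain ⟨b, hb, hSp, hdg, hc⟩ := hx
  have h1 : (Sp p : Finset (HeightOneSpectrum (𝓞 K))) = Finset.univ.image b := by
    ext v
    rw [hSp, Finset.mem_image]
    simp
  unfold above
  rw [h1, Finset.prod_image fun i _ j _ h => hb h]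
  refine Finset.prod_congr rfl fun i _ => ?_
  have h2 : pr (b i) = p := (mem_Sp _ _).1 ((hSp _).2 ⟨i, rfl⟩)
  rw [hdg i, Polynomial.expand_one]
  unfold frobPoly
  rw [hρ (b i) (by rw [h2]; exact hp) _ _ (hc i) (hF (b i))]

lemma trace_split2 {ι : k →+* ℂ} {F : HeightOneSpectrum (𝓞 K) → GalOf K Ω}
    (hF : ∀ v, IsFrobAt Ω v (F v : Gal(Ω/ℚ))) {lift : Gal(K/ℚ) → Gal(Ω/ℚ)}
    {p : Nat.Primes} {x : GalOf K Ω} (hx : SplitAt lift p x) {n r : ℕ}
    {ρ : GalOf K Ω →* GL (Fin n) k} {S : Finset ℕ} (hρ : IsUnr S ρ) (hp : (p : ℕ) ∉ S)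
    {A : Matrix (Fin r) (Fin r) ℂ} (hA : A.charpoly = above (frobPoly ι F ρ) p) :
    A.trace = ι (∑ σ, (ρ (conjBy K (lift σ) x)).val.trace) := by
  have h1 : A.charpoly.nextCoeff =
      ∑ σ, ((ρ (conjBy K (lift σ) x)).val.charpoly.map ι).nextCoeff := by
    rw [hA, above_split2 hF hx hρ hp]
    exact Polynomial.Monic.nextCoeff_prod _ _ fun i _ => (Matrix.charpoly_monic _).map ι
  rw [Matrix.trace_eq_neg_charpoly_nextCoeff A, h1, map_sum, ← Finset.sum_neg_distrib]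
  refine Finset.sum_congr rfl fun i _ => ?_
  rw [Polynomial.nextCoeff_map ι.injective, Matrix.trace_eq_neg_charpoly_nextCoeff, map_neg]

variable [TopologicalSpace k]

/-- **From a virtual relation at the primes to a relation between sums of characters.** -/
theorem character_relationC [IsTopologicalRing k] [T1Space k] (ι : k →+* ℂ)
    {S₀ : Finset ℕ} (hU : Unram K S₀)
    {F : HeightOneSpectrum (𝓞 K) → GalOf K Ω} (hF : ∀ v, IsFrobAt Ω v (F v : Gal(Ω/ℚ)))
    {lift : Gal(K/ℚ) → Gal(Ω/ℚ)} (hlift : ∀ σ, rsT K (lift σ) = σ)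
    {n : ℕ} {ρ : GalOf K Ω →* GL (Fin n) k} (hρ : IsCont ρ) {J : Type} {m : J → ℕ}
    {H : ∀ j, GalOf K Ω →* GL (Fin (m j)) k} (hH : ∀ j, IsCont (H j))
    {SA : Finset ℕ} (hρS : IsUnr SA ρ) {SB : J → Finset ℕ} (hHS : ∀ j, IsUnr (SB j) (H j))
    {r : ℕ} {A : Nat.Primes → Matrix (Fin r) (Fin r) ℂ}
    {q : J → ℕ} {B : ∀ j, Nat.Primes → Matrix (Fin (q j)) (Fin (q j)) ℂ}
    (hA : ∀ p : Nat.Primes, (p : ℕ) ∉ SA → (A p).charpoly = above (frobPoly ι F ρ) p)
    (hB : ∀ j (p : Nat.Primes), (p : ℕ) ∉ SB j →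
      (B j p).charpoly = above (frobPoly ι F (H j)) p)
    (h : VirtualRelation ∅ A B) :
    ∃ d : ℕ, 0 < d ∧ ∃ e : J →₀ ℤ, ∀ g : GalOf K Ω,
      (d : k) * ∑ σ, (ρ (conjBy K (lift σ) g)).val.trace =
      ∑ j ∈ e.support, (e j : k) * ∑ σ, (H j (conjBy K (lift σ) g)).val.trace := by
  classical
  obtain ⟨d, hd, e, hfin⟩ := h
  refine ⟨d, hd, e, ?_⟩
  set F' : GalOf K Ω → k := fun g => (d : k) * ∑ σ, (ρ (conjBy K (lift σ) g)).val.trace -
    ∑ j ∈ e.support, (e j : k) * ∑ σ, (H j (conjBy K (lift σ) g)).val.trace with hF'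
  have hcont : Continuous F' := by
    have h1 : ∀ {r : ℕ} {τ : GalOf K Ω →* GL (Fin r) k}, IsCont τ →
        ∀ s : Gal(Ω/ℚ), Continuous fun g => (τ (conjBy K s g)).val.trace := by
      intro r τ hτ s
      unfold Matrix.trace
      exact continuous_finsetSum _ fun i _ => (hτ i i).comp (continuous_conjBy s)
    exact (continuous_const.mul (continuous_finsetSum _ fun i _ => h1 hρ _)).sub
      (continuous_finsetSum _ fun j _ => continuous_const.mul
        (continuous_finsetSum _ fun i _ => h1 (hH j) _))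
  set T : Finset ℕ := (hfin.toFinset.image fun p : Nat.Primes => (p : ℕ)) ∪ SA ∪
    e.support.biUnion SB with hT
  have hzero : ∀ g ∈ {x : GalOf K Ω | ∃ p : Nat.Primes, (p : ℕ) ∉ T ∧ SplitAt lift p x},
      F' g = 0 := by
    rintro g ⟨p, hpT, hsp⟩
    have hp1 : (p : ℕ) ∉ hfin.toFinset.image fun p : Nat.Primes => (p : ℕ) := fun hp =>
      hpT (by rw [hT]; exact Finset.mem_union_left _ (Finset.mem_union_left _ hp))
    have hp2 : (p : ℕ) ∉ SA := fun hp =>
      hpT (by rw [hT]; exact Finset.mem_union_left _ (Finset.mem_union_right _ hp))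
    have hp3 : ∀ j ∈ e.support, (p : ℕ) ∉ SB j := fun j hj hp =>
      hpT (by rw [hT]; exact Finset.mem_union_right _ (Finset.mem_biUnion.2 ⟨j, hj, hp⟩))
    have h1 : ∀ z, (d : ℤ) * ((A p).charpoly.rootMultiplicity z : ℤ) =
        e.sum fun j c => c * ((B j p).charpoly.rootMultiplicity z : ℤ) := by
      by_contra hne
      push Not at hne
      apply hp1
      rw [Finset.mem_image]
      exact ⟨p, hfin.mem_toFinset.2 ⟨Finset.notMem_empty _, hne⟩, rfl⟩
    set Z : Finset ℂ := (A p).charpoly.roots.toFinset ∪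
      e.support.biUnion fun j => (B j p).charpoly.roots.toFinset with hZ
    have h2 := trace_eq_mult (A p) Z fun z hz =>
      Finset.mem_union_left _ (Multiset.mem_toFinset.2 hz)
    have h3 : ∀ j ∈ e.support, (B j p).trace =
        ∑ z ∈ Z, ((B j p).charpoly.rootMultiplicity z : ℂ) * z := fun j hj =>
      trace_eq_mult _ Z fun z hz => Finset.mem_union_right _ (Finset.mem_biUnion.2
        ⟨j, hj, Multiset.mem_toFinset.2 hz⟩)
    have h4 : (d : ℂ) * (A p).trace = ∑ j ∈ e.support, (e j : ℂ) * (B j p).trace := by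
      have hR : ∑ j ∈ e.support, (e j : ℂ) * (B j p).trace =
          ∑ j ∈ e.support, ∑ z ∈ Z, (e j : ℂ) *
            (((B j p).charpoly.rootMultiplicity z : ℂ) * z) :=
        Finset.sum_congr rfl fun j hj => by rw [h3 j hj, Finset.mul_sum]
      rw [h2, hR, Finset.sum_comm (s := e.support), Finset.mul_sum]
      refine Finset.sum_congr rfl fun z _ => ?_
      have h5 := h1 z
      unfold Finsupp.sum at h5
      have h6 : (((d : ℤ) * ((A p).charpoly.rootMultiplicity z : ℤ) : ℤ) : ℂ) =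
          ((∑ j ∈ e.support, e j *
            ((B j p).charpoly.rootMultiplicity z : ℤ) : ℤ) : ℂ) := by rw [h5]
      push_cast at h6
      rw [← mul_assoc, h6, Finset.sum_mul]
      exact Finset.sum_congr rfl fun j _ => by ring
    have h7 : ∑ j ∈ e.support, (e j : ℂ) * (B j p).trace =
        ∑ j ∈ e.support, (e j : ℂ) * ι (∑ σ, (H j (conjBy K (lift σ) g)).val.trace) :=
      Finset.sum_congr rfl fun j hj => by
        rw [trace_split2 hF hsp (hHS j) (hp3 j hj) (hB j p (hp3 j hj))]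
    rw [trace_split2 hF hsp hρS hp2 (hA p hp2), h7] at h4
    have h6 : ι ((d : k) * ∑ σ, (ρ (conjBy K (lift σ) g)).val.trace) =
        ι (∑ j ∈ e.support, (e j : k) * ∑ σ, (H j (conjBy K (lift σ) g)).val.trace) := by
      rw [map_mul, map_natCast,
        map_sum ι (fun j => (e j : k) * ∑ σ, (H j (conjBy K (lift σ) g)).val.trace), h4]
      exact Finset.sum_congr rfl fun j _ => by rw [map_mul, map_intCast]
    simp only [hF']
    rw [ι.injective h6, sub_self]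
  intro g
  have h1 : F' g = 0 := by
    have h2 : IsClosed {g | F' g = 0} := isClosed_singleton.preimage hcont
    have h3 : Dense {g | F' g = 0} := (dense_split hU hF hlift T).mono hzero
    have h4 := h3.closure_eq
    rw [h2.closure_eq] at h4
    have h5 : g ∈ {g | F' g = 0} := by
      rw [h4]
      exact Set.mem_univ g
    exact h5
  exact sub_eq_zero.1 h1

/-- **The edge values of a representation of an absolute Galois group against those of a countable
family.** -/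
theorem main_conc0 [CharZero k] [IsTopologicalRing k] [T1Space k] (ι : k →+* ℂ)
    {F : HeightOneSpectrum (𝓞 K) → GalOf K Ω} (hF : ∀ v, IsFrobAt Ω v (F v : Gal(Ω/ℚ)))
    {n : ℕ} {ρ : GalOf K Ω →* GL (Fin n) k} (hρ : IsCont ρ)
    (hirr : (rep ρ).IsIrreducible) {J : Type} [Countable J] {m : J → ℕ}
    {H : ∀ j, GalOf K Ω →* GL (Fin (m j)) k} (hH : ∀ j, IsCont (H j))
    {S : Finset ℕ} (hS : Unram K S) (hρS : IsUnr S ρ)
    {SJ : J → Finset ℕ} (hSJ : ∀ j, Unram K (SJ j)) (hHS : ∀ j, IsUnr (SJ j) (H j)) {w : ℝ}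
    (hP : IsSys S n w (frobPoly ι F ρ)) (hPJ : ∀ j, IsSys (SJ j) (m j) w (frobPoly ι F (H j)))
    {l : ℝ → ℂ} (hl : IsEdgeOf S n (frobPoly ι F ρ) w l) {lH : J → ℝ → ℂ}
    (hlH : ∀ j, IsEdgeOf (SJ j) (m j) (frobPoly ι F (H j)) w (lH j)) :
    (DependentOn l lH → ∃ j, ∃ s : Gal(Ω/ℚ), IsSubquotient (rep ρ)
        (rep ((H j).comp (conjBy K s)))) ∧
      ((∃ j, Nonempty ((rep ρ).Equiv (rep (H j)))) → DependentOn l lH) ∧
      (DependentOn l lH ∨ IndependentOf l lH) := by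
  classical
  have hsurj : ∀ σ : Gal(K/ℚ), ∃ s : Gal(Ω/ℚ), rsT K s = σ :=
    fun σ => AlgEquiv.restrictNormalHom_surjective (F := ℚ) (K₁ := K) Ω σ
  choose l0 hl0 using hsurj
  let lift : Gal(K/ℚ) → Gal(Ω/ℚ) := fun σ => if σ = 1 then 1 else l0 σ
  have hlift : ∀ σ, rsT K (lift σ) = σ := by
    intro σ
    by_cases hσ : σ = 1
    · simp only [lift, hσ, if_true, map_one]
    · simp only [lift, hσ, if_false]
      exact hl0 σ
  have hlift1 : ρ.comp (conjBy K (lift 1)) = ρ := by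
    simp only [lift, if_true]
    rw [conjBy_one]
    exact MonoidHom.comp_id ρ
  obtain ⟨A, hA⟩ := exists_mats hS (fun v hv => (hP v hv).1) (fun v hv => (hP v hv).2.1)
  have h1 : ∀ j, ∃ B : Nat.Primes → Matrix (Fin (m j * Module.finrank ℚ K))
      (Fin (m j * Module.finrank ℚ K)) ℂ, ∀ p : Nat.Primes, (p : ℕ) ∉ SJ j →
      (B p).charpoly = above (frobPoly ι F (H j)) p := fun j =>
    exists_mats (hSJ j) (fun v hv => (hPJ j v hv).1) (fun v hv => (hPJ j v hv).2.1)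
  choose B hB using h1
  obtain ⟨a1, a2, a3⟩ := sys_bridge hP hA
  have b := fun j => sys_bridge (hPJ j) (hB j)
  obtain ⟨h2, h3⟩ := main_var a1 (fun j => (b j).1) a2 (fun j => (b j).2.1) ((a3 l).1 hl)
    (fun j => ((b j).2.2 _).1 (hlH j))
  refine ⟨fun h => ?_, ?_, h3⟩
  · obtain ⟨d, hd, e, h4⟩ := character_relationC ι hS hF hlift hρ hH hρS hHS hA hB (h2.2 h)
    obtain ⟨j, σ, h5⟩ := subquotient_sum (fun σ : Gal(K/ℚ) => conjBy K (lift σ)) 1
      (by rw [hlift1]; exact hirr) hd e h4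
    rw [hlift1] at h5
    exact ⟨j, lift σ, h5⟩
  · rintro ⟨j, ⟨E⟩⟩
    refine h2.1 ⟨1, one_pos, Finsupp.single j 1, ?_⟩
    have hfin : ∀ T : Finset ℕ, {p : Nat.Primes | (p : ℕ) ∈ T}.Finite := fun T =>
      Set.Finite.preimage (f := fun p : Nat.Primes => (p : ℕ)) Subtype.val_injective.injOn
        T.finite_toSet
    refine ((hfin S).union (hfin (SJ j))).subset ?_
    rintro p ⟨-, z, hne⟩
    by_contra hno
    rw [Set.mem_union, not_or] at hno
    apply hne
    rw [Finsupp.sum_single_index (zero_mul _), hA p hno.1, hB j p hno.2]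
    have h5 : frobPoly ι F ρ = frobPoly ι F (H j) := by
      funext v
      unfold frobPoly
      rw [charpoly_equiv E]
    rw [h5]
    push_cast
    ring

/-- The same for a family of irreducible representations which is stable under conjugation. -/
theorem main_conc1 [CharZero k] [IsTopologicalRing k] [T1Space k] (ι : k →+* ℂ)
    {F : HeightOneSpectrum (𝓞 K) → GalOf K Ω} (hF : ∀ v, IsFrobAt Ω v (F v : Gal(Ω/ℚ)))
    {n : ℕ} {ρ : GalOf K Ω →* GL (Fin n) k} (hρ : IsCont ρ)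
    (hirr : (rep ρ).IsIrreducible) {J : Type} [Countable J] {m : J → ℕ}
    {H : ∀ j, GalOf K Ω →* GL (Fin (m j)) k} (hH : ∀ j, IsCont (H j))
    (hHirr : ∀ j, (rep (H j)).IsIrreducible)
    (hstab : ∀ j (s : Gal(Ω/ℚ)), IsIn H ((H j).comp (conjBy K s)))
    {S : Finset ℕ} (hS : Unram K S) (hρS : IsUnr S ρ)
    {SJ : J → Finset ℕ} (hSJ : ∀ j, Unram K (SJ j)) (hHS : ∀ j, IsUnr (SJ j) (H j)) {w : ℝ}
    (hP : IsSys S n w (frobPoly ι F ρ)) (hPJ : ∀ j, IsSys (SJ j) (m j) w (frobPoly ι F (H j)))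
    {l : ℝ → ℂ} (hl : IsEdgeOf S n (frobPoly ι F ρ) w l) {lH : J → ℝ → ℂ}
    (hlH : ∀ j, IsEdgeOf (SJ j) (m j) (frobPoly ι F (H j)) w (lH j)) :
    (IsIn H ρ ↔ DependentOn l lH) ∧ (¬ IsIn H ρ → IndependentOf l lH) := by
  obtain ⟨h1, h2, h3⟩ := main_conc0 ι hF hρ hirr hH hS hρS hSJ hHS hP hPJ hl hlH
  have h4 : IsIn H ρ ↔ DependentOn l lH := by
    refine ⟨h2, fun h => ?_⟩
    obtain ⟨j, s, hj⟩ := h1 h
    obtain ⟨j', ⟨E⟩⟩ := hstab j s
    obtain ⟨E'⟩ := equiv_of_irreducible (hHirr j') hirr (subquotient_trans hj E)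
    exact ⟨j', ⟨E'.symm⟩⟩
  refine ⟨h4, fun hno => ?_⟩
  rcases h3 with h5 | h5
  · exact absurd (h4.2 h5) hno
  · exact h5

/-- Algebraic independence of the edge values of the representations which are not in the family. -/
theorem main_conc2 [CharZero k] [IsTopologicalRing k] [T1Space k] (ι : k →+* ℂ)
    {F : HeightOneSpectrum (𝓞 K) → GalOf K Ω} (hF : ∀ v, IsFrobAt Ω v (F v : Gal(Ω/ℚ)))
    {I : Type} [Countable I] {n : I → ℕ} {R : ∀ i, GalOf K Ω →* GL (Fin (n i)) k}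
    (hR : ∀ i, IsCont (R i)) (hirr : ∀ i, (rep (R i)).IsIrreducible)
    {J : Type} [Countable J] {m : J → ℕ}
    {H : ∀ j, GalOf K Ω →* GL (Fin (m j)) k} (hH : ∀ j, IsCont (H j))
    (hHirr : ∀ j, (rep (H j)).IsIrreducible)
    (hstab : ∀ j (s : Gal(Ω/ℚ)), IsIn H ((H j).comp (conjBy K s)))
    {SI : I → Finset ℕ} (hSI : ∀ i, Unram K (SI i)) (hRS : ∀ i, IsUnr (SI i) (R i))
    {SJ : J → Finset ℕ} (hSJ : ∀ j, Unram K (SJ j)) (hHS : ∀ j, IsUnr (SJ j) (H j)) {w : ℝ}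
    (hPI : ∀ i, IsSys (SI i) (n i) w (frobPoly ι F (R i)))
    (hPJ : ∀ j, IsSys (SJ j) (m j) w (frobPoly ι F (H j)))
    {l : I → ℝ → ℂ} (hl : ∀ i, IsEdgeOf (SI i) (n i) (frobPoly ι F (R i)) w (l i))
    {lH : J → ℝ → ℂ} (hlH : ∀ j, IsEdgeOf (SJ j) (m j) (frobPoly ι F (H j)) w (lH j))
    (hnc : ∀ i i', i ≠ i' → ¬ IsConjugate (conjBy (Ω := Ω) K) (R i) (R i'))
    (k' : Subfield ℂ) (hk' : (k' : Set ℂ).Countable) :
    ∀ᵐ t : ℝ, AlgebraicIndependent (IntermediateField.adjoin k' (valSet (fun j => lH j t) t))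
      fun i : {i // ¬ IsIn H (R i)} => l i.1 t := by
  classical
  refine algInd_of_indep (l := fun i : {i // ¬ IsIn H (R i)} => l i.1) (lU := lH)
    (fun i => ?_) k' hk'
  let X : Type := J ⊕ {i' : {i // ¬ IsIn H (R i)} // i' ≠ i}
  let N : X → ℕ := Sum.elim m fun i' => n i'.1.1
  let σX : ∀ x : X, GalOf K Ω →* GL (Fin (N x)) k := fun x => match x with
    | Sum.inl j => H j
    | Sum.inr i' => R i'.1.1
  let SX : X → Finset ℕ := Sum.elim SJ fun i' => SI i'.1.1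
  obtain ⟨h1, -, h3⟩ := main_conc0 ι hF (hR i.1) (hirr i.1) (J := X) (m := N) (H := σX)
    (by rintro (j | i'); exacts [hH j, hR i'.1.1]) (hSI i.1) (hRS i.1) (SJ := SX)
    (by rintro (j | i'); exacts [hSJ j, hSI i'.1.1])
    (by rintro (j | i'); exacts [hHS j, hRS i'.1.1]) (hPI i.1)
    (by rintro (j | i'); exacts [hPJ j, hPI i'.1.1]) (hl i.1)
    (lH := Sum.elim lH fun i' => l i'.1.1)
    (by rintro (j | i'); exacts [hlH j, hl i'.1.1])
  rcases h3 with h3 | h3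
  · exfalso
    obtain ⟨j | i', s, h4⟩ := h1 h3
    · obtain ⟨j', ⟨E⟩⟩ := hstab j s
      obtain ⟨E'⟩ := equiv_of_irreducible (hHirr j') (hirr i.1) (subquotient_trans h4 E)
      exact i.2 ⟨j', ⟨E'.symm⟩⟩
    · obtain ⟨E'⟩ := equiv_of_irreducible (irr_comp0 (hirr i'.1.1) (conjBy_surj s)) (hirr i.1) h4
      exact hnc i.1 i'.1.1 (fun h => i'.2 (Subtype.ext h.symm)) ⟨s, ⟨E'.symm⟩⟩
  · exact h3

end

end Pool.Agent.R629.NF
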