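import Pool.Agent.R629.NF.Conc5

/-!
# Edge values of mod p representations of the absolute Galois group of `ℚ`
-/

set_option autoImplicit false
set_option linter.unusedSectionVars false

namespace Pool.Agent.R629.NF

open Representation Filter Topology Finset NumberField IsDedekindDomain MeasureTheory
open Pool.Agent.R629.SP
open Pool.Agent.TH339.MP (nm pr dg Sp mem_Sp nm_eq dg_pos)

instance isGaloisRat : @IsGalois ℚ _ ℚ _ DivisionRing.toRatAlgebra := by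
  have h : (DivisionRing.toRatAlgebra : Algebra ℚ ℚ) = Algebra.id ℚ := Subsingleton.elim _ _
  rw [h]
  exact IsGalois.self ℚ

/-- There is one prime of `ℚ` above `p`. -/
lemma unramQ : Unram ℚ ∅ := by
  intro p _
  have hp : Fact (p : ℕ).Prime := ⟨p.2⟩
  let f : 𝓞 ℚ →+* ZMod (p : ℕ) :=
    (Int.castRingHom (ZMod (p : ℕ))).comp (Rat.ringOfIntegersEquiv : 𝓞 ℚ →+* ℤ)
  have h1 : pr (kv f) = p := Subtype.ext (pr_kv f).1
  have h2 : dg (kv f) = 1 := (pr_kv f).2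
  have h3 : (Sp p : Finset (HeightOneSpectrum (𝓞 ℚ))) = {kv f} := by
    ext v
    rw [mem_Sp, Finset.mem_singleton]
    constructor
    · intro hv
      have h4 : ((p : ℕ) : 𝓞 ℚ) ∈ v.asIdeal := by
        have h5 : ((nm v : ℕ) : 𝓞 ℚ) ∈ v.asIdeal := Ideal.absNorm_mem v.asIdeal
        rw [nm_eq, hv, Nat.cast_pow] at h5
        exact v.isPrime.mem_of_pow_mem _ h5
      have h6 : (kv f).asIdeal ≤ v.asIdeal := by
        intro x hx
        rw [mem_kv] at hx
        have h7 : ((Rat.ringOfIntegersEquiv x : ℤ) : ZMod (p : ℕ)) = 0 := hx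
        rw [ZMod.intCast_zmod_eq_zero_iff_dvd] at h7
        obtain ⟨c, hc⟩ := h7
        have h8 : x = ((p : ℕ) : 𝓞 ℚ) * (Rat.ringOfIntegersEquiv.symm c) := by
          apply Rat.ringOfIntegersEquiv.injective
          rw [map_mul, map_natCast, RingEquiv.apply_symm_apply, hc]
        rw [h8]
        exact v.asIdeal.mul_mem_right _ h4
      exact (HeightOneSpectrum.ext ((kv f).isMaximal.eq_of_le v.isPrime.ne_top h6)).symm
    · rintro rfl
      exact h1
  rw [h3, Finset.sum_singleton, h2, Module.finrank_self]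

lemma equiv_inner {G k : Type} [Group G] [Field k] {n : ℕ} (ρ : G →* GL (Fin n) k) (f : G →* G)
    (h : G) (hf : ∀ g, f g = h * g * h⁻¹) :
    Nonempty ((rep (ρ.comp f)).Equiv (rep ρ)) := by
  have h1 : (rep ρ h⁻¹) ∘ₗ (rep ρ h) = LinearMap.id := by
    have h3 : rep ρ (h⁻¹ * h) = 1 := by rw [inv_mul_cancel, map_one]
    rw [map_mul] at h3
    exact h3
  have h2 : (rep ρ h) ∘ₗ (rep ρ h⁻¹) = LinearMap.id := by
    have h3 : rep ρ (h * h⁻¹) = 1 := by rw [mul_inv_cancel, map_one]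
    rw [map_mul] at h3
    exact h3
  let e : (Fin n → k) ≃ₗ[k] (Fin n → k) := LinearEquiv.ofLinearMap (rep ρ h⁻¹) (rep ρ h) h1 h2
  refine ⟨Representation.Equiv.mk e ?_⟩
  intro g
  refine LinearMap.ext fun x => ?_
  have h4 : ∀ a b (x : Fin n → k), rep ρ a (rep ρ b x) = rep ρ (a * b) x := fun a b x => by
    rw [map_mul]
    rfl
  change rep ρ h⁻¹ (rep ρ (f g) x) = rep ρ g (rep ρ h⁻¹ x)
  rw [hf, h4, h4]
  congr 2
  group

section
variable {Ω : Type} [Field Ω] [CharZero Ω] [IsAlgClosure ℚ Ω]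

lemma mem_galOf (g : Gal(Ω/ℚ)) : g ∈ GalOf ℚ Ω := by
  rw [MonoidHom.mem_ker]
  refine AlgEquiv.ext fun x => ?_
  have h := map_ratCast (AlgEquiv.restrictNormalHom ℚ g : Gal(ℚ/ℚ)) x
  rw [Rat.cast_id] at h
  exact h

variable {k : Type} [Field k]

lemma equiv_conjBy {n : ℕ} (ρ : GalOf ℚ Ω →* GL (Fin n) k) (s : Gal(Ω/ℚ)) :
    Nonempty ((rep (ρ.comp (conjBy ℚ s))).Equiv (rep ρ)) :=
  equiv_inner ρ _ ⟨s, mem_galOf s⟩ fun g => Subtype.ext (conjBy_coe s g)

variable [IsAlgClosed k] {I J : Type} [Countable I] [Countable J] {n : I → ℕ} {m : J → ℕ}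

/-- **Edge values of irreducible mod p representations of the absolute Galois group of `ℚ`.** -/
theorem main_concQ {F : HeightOneSpectrum (𝓞 ℚ) → GalOf ℚ Ω}
    (hF : ∀ v, IsFrobAt Ω v (F v : Gal(Ω/ℚ)))
    {θ : k → ℂ} (hθ : Function.Injective θ) (hθ1 : ∀ z : k, z ≠ 0 → ‖θ z‖ = 1)
    {R : ∀ i, GalOf ℚ Ω →* GL (Fin (n i)) k} (hR : ∀ i, IsSmooth (R i))
    (hRirr : ∀ i, (rep (R i)).IsIrreducible)
    {H : ∀ j, GalOf ℚ Ω →* GL (Fin (m j)) k} (hH : ∀ j, IsSmooth (H j))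
    (hHirr : ∀ j, (rep (H j)).IsIrreducible)
    {SI : I → Finset ℕ} {SJ : J → Finset ℕ}
    {l : I → ℝ → ℂ} (hl : ∀ i, IsEdgeOf (SI i) (n i) (frobLift θ F (R i)) 0 (l i))
    {lH : J → ℝ → ℂ} (hlH : ∀ j, IsEdgeOf (SJ j) (m j) (frobLift θ F (H j)) 0 (lH j)) :
    (∀ i, (IsIn H (R i) ↔ VirtP (above (frobLift θ F (R i))) fun j => above (frobLift θ F (H j))) ∧
      (IsIn H (R i) ↔ DependentOn (l i) lH) ∧
      (DependentOn (l i) lH ∨ IndependentOf (l i) lH)) ∧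
    ((∀ i i', i' ≠ i → IsEmpty ((rep (R i)).Equiv (rep (R i')))) →
      ∀ k' : Subfield ℂ, (k' : Set ℂ).Countable → ∀ᵐ t : ℝ, AlgebraicIndependent
        (IntermediateField.adjoin k' (valSet (fun j => lH j t) t))
        fun i : {i : I // ¬ IsIn H (R i)} => l i t) := by
  obtain ⟨h1, h2⟩ := main_conc unramQ hF hθ hθ1 hR hRirr hH hHirr
    (fun j s => ⟨j, equiv_conjBy (H j) s⟩) (fun _ => Finset.empty_subset _)
    (fun _ => Finset.empty_subset _) hl hlH
  refine ⟨h1, fun hnc => h2 fun i i' hne => ?_⟩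
  rintro ⟨s, ⟨E⟩⟩
  obtain ⟨E'⟩ := equiv_conjBy (R i') s
  exact (hnc i i' hne).false (E.trans E')

end

end Pool.Agent.R629.NF
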