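import Pool.Agent.R629.NF.Avg

/-!
# All conjugates against all rational systems
-/

set_option autoImplicit false

namespace Pool.Agent.R629.NF

open Filter Topology MeasureTheory Finset NumberField IsDedekindDomain
open Pool.Agent.R629.SP

/-! ### Sums of families -/

section
variable {J I : Type} {m : J → ℕ} {m' : I → ℕ} {S : Finset ℕ}

/-- the dimensions of the joint family -/
def sumDim (m : J → ℕ) (m' : I → ℕ) : J ⊕ I → ℕ
  | Sum.inl j => m j
  | Sum.inr i => m' i

/-- the joint family -/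
def sumFam (B : ∀ j, Nat.Primes → Matrix (Fin (m j)) (Fin (m j)) ℂ)
    (B' : ∀ i, Nat.Primes → Matrix (Fin (m' i)) (Fin (m' i)) ℂ) :
    ∀ x : J ⊕ I, Nat.Primes → Matrix (Fin (sumDim m m' x)) (Fin (sumDim m m' x)) ℂ
  | Sum.inl j => B j
  | Sum.inr i => B' i

lemma span_sumFam (B : ∀ j, Nat.Primes → Matrix (Fin (m j)) (Fin (m j)) ℂ)
    (B' : ∀ i, Nat.Primes → Matrix (Fin (m' i)) (Fin (m' i)) ℂ) :
    Submodule.span ℚ (Set.range fun x => cls S (sumFam B B' x)) =
      Submodule.span ℚ (Set.range fun j => cls S (B j)) ⊔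
        Submodule.span ℚ (Set.range fun i => cls S (B' i)) := by
  rw [← Submodule.span_union]
  congr 1
  ext z
  constructor
  · rintro ⟨j | i, rfl⟩
    · exact Or.inl ⟨j, rfl⟩
    · exact Or.inr ⟨i, rfl⟩
  · rintro (⟨j, rfl⟩ | ⟨i, rfl⟩)
    · exact ⟨Sum.inl j, rfl⟩
    · exact ⟨Sum.inr i, rfl⟩

end

section
variable {M : Type} [Field M] [NumberField M] {n : ℕ} {S : Finset ℕ} {J : Type} {m : J → ℕ}

open Classical in
/-- a relation of one conjugate with rational families and some of the other conjugates -/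
lemma relation_sum (A : ∀ j, Nat.Primes → Matrix (Fin (m j)) (Fin (m j)) ℚ)
    (C : Nat.Primes → Matrix (Fin n) (Fin n) M) (T : (M →+* ℂ) → Prop) {τ₁ : M →+* ℂ}
    (hT : ¬ T τ₁)
    (h : VirtualRelation S (conjFam C τ₁)
      (sumFam (fun j => ratFam (A j)) fun σ : {σ : M →+* ℂ // T σ} => conjFam C σ.1)) :
    ∃ c : (M →+* ℂ) → ℚ, c τ₁ = 1 ∧ (∀ σ, σ ≠ τ₁ → ¬ T σ → c σ = 0) ∧
      ∑ σ, c σ • cls S (conjFam C σ) ∈
        Submodule.span ℚ (Set.range fun j => cls S (ratFam (A j))) := by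
  rw [virtual_iff_span, span_sumFam, Submodule.mem_sup] at h
  obtain ⟨w, hw, u, hu, hwu⟩ := h
  obtain ⟨d, hd⟩ := (Submodule.mem_span_range_iff_exists_fun ℚ).1 hu
  refine ⟨fun σ => if σ = τ₁ then 1 else if hσ : T σ then -d ⟨σ, hσ⟩ else 0, if_pos rfl,
    fun σ h1 h2 => (if_neg h1).trans (dif_neg h2), ?_⟩
  have h1 : ∑ σ : M →+* ℂ, (if σ = τ₁ then (1 : ℚ) else if hσ : T σ then -d ⟨σ, hσ⟩ else 0) •
      cls S (conjFam C σ) = cls S (conjFam C τ₁) -
        ∑ σ : {σ : M →+* ℂ // T σ}, d σ • cls S (conjFam C σ.1) := by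
    have h2 : ∑ σ : {σ : M →+* ℂ // T σ}, d σ • cls S (conjFam C σ.1) =
        ∑ σ : M →+* ℂ, if hσ : T σ then d ⟨σ, hσ⟩ • cls S (conjFam C σ) else 0 := by
      rw [← Finset.sum_subset (Finset.subset_univ (Finset.univ.filter T)) (fun σ _ h3 => by
        rw [Finset.mem_filter, not_and] at h3
        exact dif_neg (h3 (Finset.mem_univ _)))]
      refine Finset.sum_bij' (fun σ _ => σ.1) (fun σ hσ => ⟨σ, (Finset.mem_filter.1 hσ).2⟩)
        (fun σ _ => Finset.mem_filter.2 ⟨Finset.mem_univ _, σ.2⟩) (fun _ _ => Finset.mem_univ _)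
        (fun _ _ => rfl) (fun _ _ => rfl) (fun σ _ => ?_)
      rw [dif_pos σ.2]
    rw [h2]
    have h3 : ∀ σ : M →+* ℂ, (if σ = τ₁ then (1 : ℚ) else if hσ : T σ then -d ⟨σ, hσ⟩ else 0) •
        cls S (conjFam C σ) = (if σ = τ₁ then cls S (conjFam C σ) else 0) -
          if hσ : T σ then d ⟨σ, hσ⟩ • cls S (conjFam C σ) else 0 := by
      intro σ
      by_cases h4 : σ = τ₁
      · rw [if_pos h4, if_pos h4, dif_neg (by rw [h4]; exact hT), one_smul, sub_zero]
      · rw [if_neg h4, if_neg h4]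
        by_cases h5 : T σ
        · rw [dif_pos h5, dif_pos h5, neg_smul, zero_sub]
        · rw [dif_neg h5, dif_neg h5, zero_smul, sub_zero]
    rw [Finset.sum_congr rfl fun σ _ => h3 σ, Finset.sum_sub_distrib]
    congr 1
    rw [Finset.sum_ite_eq' Finset.univ τ₁ fun σ => cls S (conjFam C σ),
      if_pos (Finset.mem_univ _)]
  rw [h1, hd, ← hwu, add_sub_cancel_right]
  exact hw

/-- **One conjugate against the others and rational families.** -/
theorem relation_one_iff (A : ∀ j, Nat.Primes → Matrix (Fin (m j)) (Fin (m j)) ℚ)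
    (C : Nat.Primes → Matrix (Fin n) (Fin n) M)
    (hC : LinearIndependent ℚ fun τ : M →+* ℂ => cls S (conjFam C τ)) (τ₀ : M →+* ℂ) :
    VirtualRelation S (conjFam C τ₀)
      (sumFam (fun j => ratFam (A j)) fun σ : {σ : M →+* ℂ // σ ≠ τ₀} => conjFam C σ.1) ↔
    ∑ τ : M →+* ℂ, cls S (conjFam C τ) ∈
      Submodule.span ℚ (Set.range fun j => cls S (ratFam (A j))) := by
  classical
  constructor
  · intro h
    obtain ⟨c, h1, -, h3⟩ := relation_sum A C (fun σ => σ ≠ τ₀) (by simp) h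
    refine (sum_mem_of_mem A C hC c ?_ h3).2.2
    intro h0
    rw [h0] at h1
    exact zero_ne_one h1
  · intro h
    rw [virtual_iff_span, span_sumFam, Submodule.mem_sup]
    refine ⟨_, h, -∑ σ : {σ : M →+* ℂ // σ ≠ τ₀}, cls S (conjFam C σ.1), ?_, ?_⟩
    · exact Submodule.neg_mem _ (Submodule.sum_mem _ fun σ _ => Submodule.subset_span ⟨σ, rfl⟩)
    · rw [← sub_eq_add_neg, sub_eq_iff_eq_add, ← Finset.add_sum_erase _ _ (Finset.mem_univ τ₀)]
      congr 1
      exact (Finset.sum_subtype _ (fun σ => by simp) fun σ => cls S (conjFam C σ))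

/-- **Two conjugates cannot both be left out.** -/
theorem no_relation_two (A : ∀ j, Nat.Primes → Matrix (Fin (m j)) (Fin (m j)) ℚ)
    (C : Nat.Primes → Matrix (Fin n) (Fin n) M)
    (hC : LinearIndependent ℚ fun τ : M →+* ℂ => cls S (conjFam C τ)) {τ₁ τ₂ : M →+* ℂ}
    (h12 : τ₁ ≠ τ₂) : ¬ VirtualRelation S (conjFam C τ₁)
      (sumFam (fun j => ratFam (A j))
        fun σ : {σ : M →+* ℂ // σ ≠ τ₁ ∧ σ ≠ τ₂} => conjFam C σ.1) := by
  intro h
  obtain ⟨c, h1, h2, h3⟩ := relation_sum A C (fun σ => σ ≠ τ₁ ∧ σ ≠ τ₂) (by simp) h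
  have h4 := (sum_mem_of_mem A C hC c (fun h0 => by
    rw [h0] at h1
    exact zero_ne_one h1) h3).2.1
  have h5 := h4 τ₁
  have h6 := h4 τ₂
  rw [h1] at h5
  rw [h2 τ₂ h12.symm (by simp)] at h6
  have hg : (Module.finrank ℚ M : ℚ) ≠ 0 := by exact_mod_cast Module.finrank_pos.ne'
  apply hg
  linarith

end

/-! ### Systems of polynomials -/

section
variable {K : Type} [Field K] [NumberField K] {M : Type} [Field M] [NumberField M] {N : ℕ} {w : ℝ}
  {S : Finset ℕ} {J : Type} {D : J → ℕ}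

/-- The system of polynomials `P_v ∈ R[X]`, considered as a system with complex coefficients by
`f : R → ℂ`. -/
noncomputable def toC {R : Type} [CommRing R] (f : R →+* ℂ)
    (P : HeightOneSpectrum (𝓞 K) → Polynomial R) (v : HeightOneSpectrum (𝓞 K)) : Polynomial ℂ :=
  (P v).map f

/-- The product of the conjugates of the system `R` comes virtually from the rational systems `P_j`:
there are an integer `d > 0` and integers `e_j`, almost all zero, such that for all but finitely many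
primes `p ∉ S` the divisor of the roots of the polynomial `∏_τ ∏_{v | p} τR_v(X^{f_v})`, multiplied
by `d`, is the combination with the coefficients `e_j` of the divisors of the roots of the
`∏_{v | p} P_{j,v}(X^{f_v})`. -/
def VirtuallyFrom (S : Finset ℕ) (P : J → HeightOneSpectrum (𝓞 K) → Polynomial ℚ)
    (R : HeightOneSpectrum (𝓞 K) → Polynomial M) : Prop :=
  ∃ d : ℕ, 0 < d ∧ ∃ e : J →₀ ℤ, {p : Nat.Primes | (p : ℕ) ∉ S ∧
    ∃ z, (d : ℤ) * ((∏ τ : M →+* ℂ, above (toC τ R) p).rootMultiplicity z : ℤ) ≠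
      e.sum fun j k => k * ((above (toC (Rat.castHom ℂ) (P j)) p).rootMultiplicity z : ℤ)}.Finite

/-- The conjugates of the system `R` are unrelated: for all integers `e_τ`, not all zero, there are
infinitely many primes `p ∉ S` for which the combination with the coefficients `e_τ` of the divisors
of the roots of the `∏_{v | p} τR_v(X^{f_v})` is not zero. -/
def UnrelatedConj (S : Finset ℕ) (R : HeightOneSpectrum (𝓞 K) → Polynomial M) : Prop :=
  ∀ e : (M →+* ℂ) → ℤ, e ≠ 0 → {p : Nat.Primes | (p : ℕ) ∉ S ∧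
    ∃ z, (∑ τ, e τ * ((above (toC τ R) p).rootMultiplicity z : ℤ)) ≠ 0}.Infinite

theorem conj_main [Countable J] (hS : Unram K S)
    {P : J → HeightOneSpectrum (𝓞 K) → Polynomial ℚ}
    {R : HeightOneSpectrum (𝓞 K) → Polynomial M}
    (hP : ∀ j, IsSys S (D j) w (toC (Rat.castHom ℂ) (P j)))
    (hR : ∀ τ : M →+* ℂ, IsSys S N w (toC τ R)) (hU : UnrelatedConj S R)
    {lA : J → ℝ → ℂ} (hlA : ∀ j, IsEdgeOf S (D j) (toC (Rat.castHom ℂ) (P j)) w (lA j))
    {lR : (M →+* ℂ) → ℝ → ℂ}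
    (hlR : ∀ τ : M →+* ℂ, IsEdgeOf S N (toC τ R) w (lR τ)) :
    (∀ τ₀ : M →+* ℂ, (VirtuallyFrom S P R ↔
        DependentOn (lR τ₀) (Sum.elim lA fun σ : {σ : M →+* ℂ // σ ≠ τ₀} => lR σ.1)) ∧
      (DependentOn (lR τ₀) (Sum.elim lA fun σ : {σ : M →+* ℂ // σ ≠ τ₀} => lR σ.1) ∨
        IndependentOf (lR τ₀) (Sum.elim lA fun σ : {σ : M →+* ℂ // σ ≠ τ₀} => lR σ.1))) ∧
    ∀ τ₁ τ₂ : M →+* ℂ, τ₁ ≠ τ₂ → IndependentOf (lR τ₁)
      (Sum.elim lA fun σ : {σ : M →+* ℂ // σ ≠ τ₁ ∧ σ ≠ τ₂} => lR σ.1) := by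
  classical
  obtain ⟨τ'⟩ : Nonempty (M →+* ℂ) := inferInstance
  choose A hA using fun j => mats_of_map hS (Rat.castHom ℂ) (hP j)
  obtain ⟨C, hC⟩ := mats_of_map hS τ' (hR τ')
  have hA' : ∀ (j : J) (p : Nat.Primes), (p : ℕ) ∉ S → (ratFam (A j) p).charpoly =
      above (toC (Rat.castHom ℂ) (P j)) p := fun j p hp =>
    charpoly_of_map (Rat.castHom ℂ) (hA j) p hp
  have hC' : ∀ (τ : M →+* ℂ) (p : Nat.Primes), (p : ℕ) ∉ S → (conjFam C τ p).charpoly =
      above (toC τ R) p := fun τ p hp => charpoly_of_map τ hC p hp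
  have ha := fun j => sys_bridge (hP j) (hA' j)
  have hb := fun τ => sys_bridge (hR τ) (hC' τ)
  have hun : Unrelated S fun τ : M →+* ℂ => conjFam C τ := by
    intro e he
    refine (hU e (fun h0 => he (by ext τ; exact congrFun h0 τ))).mono ?_
    rintro p ⟨hp, z, hz⟩
    refine ⟨hp, z, ?_⟩
    rw [Finsupp.sum_fintype _ _ (fun _ => zero_mul _)]
    simp only [hC' _ p hp]
    exact hz
  have hli := linInd_of_unrelated hun
  -- a matrix family for the product
  obtain ⟨Λ, hΛ⟩ : ∃ Λ : Nat.Primes → Matrix (Fin (Fintype.card (M →+* ℂ) *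
      (N * Module.finrank ℚ K))) (Fin (Fintype.card (M →+* ℂ) * (N * Module.finrank ℚ K))) ℂ,
      ∀ p : Nat.Primes, (Λ p).charpoly = ∏ τ : M →+* ℂ, (conjFam C τ p).charpoly := by
    have h1 : ∀ p : Nat.Primes, ∃ Λ : Matrix (Fin (Fintype.card (M →+* ℂ) *
      (N * Module.finrank ℚ K))) (Fin (Fintype.card (M →+* ℂ) * (N * Module.finrank ℚ K))) ℂ,
      Λ.charpoly = ∏ τ : M →+* ℂ, (conjFam C τ p).charpoly := fun p =>
      exists_matrix (Polynomial.monic_prod_of_monic _ _ fun τ _ => Matrix.charpoly_monic _) (by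
        rw [Polynomial.natDegree_prod_of_monic _ _ fun τ _ => Matrix.charpoly_monic _]
        simp [Matrix.charpoly_natDegree_eq_dim, Finset.card_univ])
    choose Λ hΛ using h1
    exact ⟨Λ, hΛ⟩
  have hcls : cls S Λ = ∑ τ : M →+* ℂ, cls S (conjFam C τ) := by
    unfold cls
    rw [← map_sum]
    congr 1
    funext p z
    simp only [Finset.sum_apply]
    unfold dv
    rw [hΛ, rm_prod _ _ fun τ _ => (Matrix.charpoly_monic _).ne_zero]
    push_cast
    rfl
  have hV : VirtuallyFrom S P R ↔ ∑ τ : M →+* ℂ, cls S (conjFam C τ) ∈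
      Submodule.span ℚ (Set.range fun j => cls S (ratFam (A j))) := by
    rw [← hcls, ← virtual_iff_span]
    refine exists_congr fun d => and_congr_right fun _ => exists_congr fun e => ?_
    have h1 : {p : Nat.Primes | (p : ℕ) ∉ S ∧
        ∃ z, (d : ℤ) * ((∏ τ : M →+* ℂ, above (toC τ R) p).rootMultiplicity z : ℤ) ≠
        e.sum fun j k => k * ((above (toC (Rat.castHom ℂ) (P j)) p).rootMultiplicity z : ℤ)} =
        {p : Nat.Primes | (p : ℕ) ∉ S ∧
        ∃ z, (d : ℤ) * ((Λ p).charpoly.rootMultiplicity z : ℤ) ≠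
        e.sum fun j k => k * ((ratFam (A j) p).charpoly.rootMultiplicity z : ℤ)} := by
      ext p
      simp only [Set.mem_ofPred_eq]
      refine and_congr_right fun hp => ?_
      rw [hΛ, Finset.prod_congr rfl fun τ _ => hC' τ p hp]
      simp only [hA' _ p hp]
    rw [h1]
  refine ⟨fun τ₀ => ?_, fun τ₁ τ₂ h12 => ?_⟩
  · rw [hV, ← relation_one_iff A C hli τ₀]
    exact dichotomy (tfae_gen (hb τ₀).1
      (fun x => match x with
        | Sum.inl j => (ha j).1
        | Sum.inr σ => (hb σ.1).1) (hb τ₀).2.1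
      (fun x => match x with
        | Sum.inl j => (ha j).2.1
        | Sum.inr σ => (hb σ.1).2.1) (((hb τ₀).2.2 _).1 (hlR τ₀))
      (fun x => match x with
        | Sum.inl j => ((ha j).2.2 _).1 (hlA j)
        | Sum.inr σ => ((hb σ.1).2.2 _).1 (hlR σ.1)))
  · have h1 := dichotomy (tfae_gen (A := conjFam C τ₁)
      (B := sumFam (fun j => ratFam (A j))
        fun σ : {σ : M →+* ℂ // σ ≠ τ₁ ∧ σ ≠ τ₂} => conjFam C σ.1) (hb τ₁).1
      (fun x => match x with
        | Sum.inl j => (ha j).1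
        | Sum.inr σ => (hb σ.1).1) (hb τ₁).2.1
      (fun x => match x with
        | Sum.inl j => (ha j).2.1
        | Sum.inr σ => (hb σ.1).2.1) (((hb τ₁).2.2 _).1 (hlR τ₁))
      (lB := Sum.elim lA fun σ : {σ : M →+* ℂ // σ ≠ τ₁ ∧ σ ≠ τ₂} => lR σ.1)
      (fun x => match x with
        | Sum.inl j => ((ha j).2.2 _).1 (hlA j)
        | Sum.inr σ => ((hb σ.1).2.2 _).1 (hlR σ.1)))
    exact h1.2.resolve_left fun h => no_relation_two A C hli h12 (h1.1.2 h)

end

end Pool.Agent.R629.NF
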