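import Pool.Agent.R629.NF.Ind
import Pool.Agent.TH339.MP.P9

/-!
# Euler products of degree two over number fields
-/

set_option autoImplicit false

namespace Pool.Agent.R629.NF

open Filter Topology MeasureTheory Finset NumberField IsDedekindDomain
open Pool.Agent.R629.SP
open Pool.Agent.TH339.MP (nm pr dg Sp mem_Sp nm_eq dg_pos)

section
variable {K : Type} [Field K] [NumberField K]

open Classical in
/-- The Euler product of the factors `1 - χ(v) a_v q_v^{-s} + χ(v)² q_v^{1-2s}`, over the primes `v` of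
`K` which do not lie above the primes in `S`. -/
noncomputable def LFun (S : Finset ℕ) (χ : HeightOneSpectrum (𝓞 K) → ℂ)
    (a : HeightOneSpectrum (𝓞 K) → ℝ) (s : ℂ) : ℂ :=
  ∏' v : HeightOneSpectrum (𝓞 K), if (pr v : ℕ) ∈ S then 1 else
    (1 - χ v * (a v : ℂ) * ((nm v : ℕ) : ℂ) ^ (-s) +
      χ v ^ 2 * ((nm v : ℕ) : ℂ) ^ (1 - 2 * s))⁻¹

/-- `l` is the boundary function of the Euler product on the line `Re s = 3/2`: outside a set of real
numbers `τ` of Hausdorff dimension `0` the Euler product tends to `l(τ) ≠ 0` as `s` tends to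
`3/2 + iτ` in any angle in the half-plane `Re s > 3/2`. -/
def IsEdge (S : Finset ℕ) (χ : HeightOneSpectrum (𝓞 K) → ℂ) (a : HeightOneSpectrum (𝓞 K) → ℝ)
    (l : ℝ → ℂ) : Prop :=
  ∃ Z : Set ℝ, dimH Z = 0 ∧ ∀ τ : ℝ, τ ∉ Z → l τ ≠ 0 ∧ ∀ C : ℝ,
    Tendsto (LFun S χ a) (𝓝[ang (1 / 2) τ C] (pt (1 / 2) τ)) (𝓝 (l τ))

/-- The local factor above `p`, as a polynomial:
`∏_{v | p} (X^{2 f_v} - χ(v) a_v X^{f_v} + χ(v)² q_v)`. -/
noncomputable def locPoly (χ : HeightOneSpectrum (𝓞 K) → ℂ) (a : HeightOneSpectrum (𝓞 K) → ℝ)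
    (p : Nat.Primes) : Polynomial ℂ :=
  ∏ v ∈ Sp p, (Polynomial.X ^ (2 * dg v) - Polynomial.C (χ v * (a v : ℂ)) * Polynomial.X ^ dg v +
    Polynomial.C (χ v ^ 2 * (nm v : ℂ)))

lemma nm_pos (v : HeightOneSpectrum (𝓞 K)) : 0 < nm v := by
  rw [nm_eq]
  exact pow_pos (pr v).2.pos _

theorem exists_prm {S : Finset ℕ} {χ : HeightOneSpectrum (𝓞 K) → ℂ} (hχ : ∀ v, ‖χ v‖ = 1)
    {a : HeightOneSpectrum (𝓞 K) → ℝ}
    (ha : ∀ v, (pr v : ℕ) ∉ S → |a v| ≤ 2 * Real.sqrt (nm v)) :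
    ∃ β : HeightOneSpectrum (𝓞 K) → Fin 2 → ℂ,
      (∀ v, (pr v : ℕ) ∉ S → ∀ j, ‖β v j‖ = Real.sqrt (nm v)) ∧
      (∀ v, (pr v : ℕ) ∉ S → β v 0 + β v 1 = χ v * (a v : ℂ) ∧
        β v 0 * β v 1 = χ v ^ 2 * (nm v : ℂ)) := by
  have h1 : ∀ v : HeightOneSpectrum (𝓞 K), ∃ α : Fin 2 → ℂ, (pr v : ℕ) ∉ S →
      (∀ j, ‖α j‖ = Real.sqrt (nm v)) ∧ α 0 + α 1 = χ v * (a v : ℂ) ∧
        α 0 * α 1 = χ v ^ 2 * (nm v : ℂ) := by
    intro v
    by_cases hv : (pr v : ℕ) ∈ S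
    · exact ⟨0, fun h => absurd hv h⟩
    · have hq : (0 : ℝ) < (nm v : ℝ) := by exact_mod_cast nm_pos v
      obtain ⟨α, h1, h2, h3⟩ := Pool.Agent.TH339.MP.exists_roots hq (ha v hv)
      refine ⟨fun j => χ v * α j, fun _ => ⟨fun j => ?_, ?_, ?_⟩⟩
      · rw [norm_mul, hχ, one_mul, h1]
      · rw [← mul_add, h2]
      · have h3' : α 0 * α 1 = (nm v : ℂ) := by
          rw [h3]
          simp
        rw [← h3']
        ring
  choose β hβ using h1
  exact ⟨β, fun v hv j => (hβ v hv).1 j, fun v hv => (hβ v hv).2⟩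

variable {S : Finset ℕ} {χ : HeightOneSpectrum (𝓞 K) → ℂ} {a : HeightOneSpectrum (𝓞 K) → ℝ}
  {β : HeightOneSpectrum (𝓞 K) → Fin 2 → ℂ}

lemma polyAt_prm (h : ∀ v, (pr v : ℕ) ∉ S → β v 0 + β v 1 = χ v * (a v : ℂ) ∧
      β v 0 * β v 1 = χ v ^ 2 * (nm v : ℂ)) {p : Nat.Primes} (hp : (p : ℕ) ∉ S) :
    polyAt β p = locPoly χ a p := by
  unfold polyAt locPoly
  refine Finset.prod_congr rfl fun v hv => ?_
  rw [mem_Sp] at hv
  obtain ⟨h1, h2⟩ := h v (by rw [hv]; exact hp)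
  rw [Fin.prod_univ_two, ← h1, ← h2, Polynomial.C_add, Polynomial.C_mul, two_mul, pow_add]
  ring

lemma LFun_eq (h : ∀ v, (pr v : ℕ) ∉ S → β v 0 + β v 1 = χ v * (a v : ℂ) ∧
      β v 0 * β v 1 = χ v ^ 2 * (nm v : ℂ)) (s : ℂ) : LFun S χ a s = LK S β s := by
  unfold LFun LK
  congr 1
  funext v
  split_ifs with hv
  · rfl
  · obtain ⟨h1, h2⟩ := h v hv
    have hne : ((nm v : ℕ) : ℂ) ≠ 0 := by exact_mod_cast (nm_pos v).ne'
    rw [Fin.prod_univ_two, ← mul_inv]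
    congr 1
    have h3 : (1 - 2 * s) = 1 + (-s + -s) := by ring
    rw [h3, Complex.cpow_add _ _ hne, Complex.cpow_add _ _ hne, Complex.cpow_one, ← h1]
    linear_combination (-((nm v : ℂ) ^ (-s)) ^ 2) * h2

lemma isEdge_iff (h : ∀ v, (pr v : ℕ) ∉ S → β v 0 + β v 1 = χ v * (a v : ℂ) ∧
      β v 0 * β v 1 = χ v ^ 2 * (nm v : ℂ)) (l : ℝ → ℂ) :
    IsEdge S χ a l ↔ IsBdK S β (1 / 2) l := by
  have h1 : LFun S χ a = LK S β := funext fun s => LFun_eq h s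
  unfold IsEdge IsBdK
  rw [h1]

lemma sqrt_rpow (v : HeightOneSpectrum (𝓞 K)) :
    Real.sqrt (nm v) = ((nm v : ℕ) : ℝ) ^ (1 / 2 : ℝ) := Real.sqrt_eq_rpow _

/-- For some countable field `k` of complex numbers and almost all `τ` the number `l(τ)` is algebraic
over the field generated by `k`, the number `l'(τ)`, the number `τ` and the numbers `p^{-iτ}`, `p`
prime. -/
def Dependent (l l' : ℝ → ℂ) : Prop :=
  ∃ k : Subfield ℂ, (k : Set ℂ).Countable ∧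
    ∀ᵐ τ : ℝ, IsAlgebraic (IntermediateField.adjoin k (valSet (fun _ : Unit => l' τ) τ)) (l τ)

/-- For every countable field `k` of complex numbers and almost all `τ` the number `l(τ)` is
transcendental over this field. -/
def Independent (l l' : ℝ → ℂ) : Prop :=
  ∀ k : Subfield ℂ, (k : Set ℂ).Countable →
    ∀ᵐ τ : ℝ, Transcendental (IntermediateField.adjoin k (valSet (fun _ : Unit => l' τ) τ)) (l τ)

theorem exists_edge (hS : Unram K S) (hχ : ∀ v, ‖χ v‖ = 1)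
    (ha : ∀ v, (pr v : ℕ) ∉ S → |a v| ≤ 2 * Real.sqrt (nm v)) :
    ∃ l : ℝ → ℂ, IsEdge S χ a l := by
  obtain ⟨β, h1, h2⟩ := exists_prm hχ ha
  obtain ⟨A, hA⟩ := exists_ind hS β
  have h3 : ∀ v, (pr v : ℕ) ∉ S → ∀ j, ‖β v j‖ ≤ ((nm v : ℕ) : ℝ) ^ (1 / 2 : ℝ) :=
    fun v hv j => by rw [h1 v hv j, sqrt_rpow]
  refine ⟨bd S A (1 / 2), ?_⟩
  rw [isEdge_iff h2, isBdK_iff hA h3]
  exact isBoundary_bd (ind_bd hA h3)

/-- **One Euler product of degree two against another one.** -/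
theorem pair (hS : Unram K S) (hχ : ∀ v, ‖χ v‖ = 1)
    (ha : ∀ v, (pr v : ℕ) ∉ S → |a v| ≤ 2 * Real.sqrt (nm v))
    {b : HeightOneSpectrum (𝓞 K) → ℝ}
    (hb : ∀ v, (pr v : ℕ) ∉ S → |b v| ≤ 2 * Real.sqrt (nm v)) {l l' : ℝ → ℂ}
    (hl : IsEdge S χ a l) (hl' : IsEdge S χ b l') :
    ({p : Nat.Primes | (p : ℕ) ∉ S ∧ locPoly χ a p ≠ locPoly χ b p}.Finite ↔ Dependent l l') ∧
      (Dependent l l' ∨ Independent l l') := by
  obtain ⟨α, h1, h2⟩ := exists_prm hχ ha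
  obtain ⟨β, h1', h2'⟩ := exists_prm hχ hb
  obtain ⟨A, hA⟩ := exists_ind hS α
  obtain ⟨B, hB⟩ := exists_ind hS β
  have hpos : ∀ v : HeightOneSpectrum (𝓞 K), 0 < Real.sqrt (nm v) := fun v =>
    Real.sqrt_pos.2 (by exact_mod_cast nm_pos v)
  have h3 : ∀ v, (pr v : ℕ) ∉ S → ∀ j, ‖α v j‖ ≤ ((nm v : ℕ) : ℝ) ^ (1 / 2 : ℝ) :=
    fun v hv j => by rw [h1 v hv j, sqrt_rpow]
  have h3' : ∀ v, (pr v : ℕ) ∉ S → ∀ j, ‖β v j‖ ≤ ((nm v : ℕ) : ℝ) ^ (1 / 2 : ℝ) :=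
    fun v hv j => by rw [h1' v hv j, sqrt_rpow]
  have h4 : ∀ v, (pr v : ℕ) ∉ S → ∀ j, α v j ≠ 0 := fun v hv j h => by
    have := h1 v hv j
    rw [h, norm_zero] at this
    exact (hpos v).ne this
  have h4' : ∀ v, (pr v : ℕ) ∉ S → ∀ j, β v j ≠ 0 := fun v hv j h => by
    have := h1' v hv j
    rw [h, norm_zero] at this
    exact (hpos v).ne this
  rw [isEdge_iff h2, isBdK_iff hA h3] at hl
  rw [isEdge_iff h2', isBdK_iff hB h3'] at hl'
  have hn : 0 < 2 * Module.finrank ℚ K := Nat.mul_pos two_pos Module.finrank_pos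
  have h5 := tfae_family (ind_bd hA h3) (fun _ : Unit => ind_bd hB h3')
    (fun p hp => ind_det hA h4 p hp) (fun _ p hp => ind_det hB h4' p hp)
    (unrelated_unit (B := B) hn) hl (fun _ : Unit => hl')
  have h12 := h5.out 0 1
  have h23 := h5.out 1 2
  have h6 : {p : Nat.Primes | (p : ℕ) ∉ S ∧ locPoly χ a p ≠ locPoly χ b p} =
      {p : Nat.Primes | (p : ℕ) ∉ S ∧ (A p).charpoly ≠ (B p).charpoly} := by
    ext p
    simp only [Set.mem_ofPred_eq]
    constructor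
    · rintro ⟨hp, h⟩
      refine ⟨hp, ?_⟩
      rwa [hA p hp, hB p hp, polyAt_prm h2 hp, polyAt_prm h2' hp]
    · rintro ⟨hp, h⟩
      refine ⟨hp, ?_⟩
      rwa [hA p hp, hB p hp, polyAt_prm h2 hp, polyAt_prm h2' hp] at h
  rw [h6, ← relation_iff (A := A) (B := B) (S := S) hn]
  refine ⟨h12, ?_⟩
  by_cases h : Dependent l l'
  · exact Or.inl h
  · right
    intro k hk
    by_contra hne
    exact h (h23.2 ⟨k, hk, hne⟩)

/-! ### Quadratic fields -/

open Classical in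
/-- The primes of a quadratic field above an unramified prime. -/
lemma quad_cases (hK : Module.finrank ℚ K = 2) (hS : Unram K S) {p : Nat.Primes}
    (hp : (p : ℕ) ∉ S) :
    (∃ v : HeightOneSpectrum (𝓞 K), Sp p = {v} ∧ dg v = 2) ∨
      ∃ v w : HeightOneSpectrum (𝓞 K), v ≠ w ∧ Sp p = {v, w} ∧ dg v = 1 ∧ dg w = 1 := by
  have h1 := hS p hp
  rw [hK] at h1
  have h2 : (Sp p : Finset (HeightOneSpectrum (𝓞 K))).card ≤ 2 := by
    rw [← h1, Finset.card_eq_sum_ones]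
    exact Finset.sum_le_sum fun v _ => dg_pos v
  have h3 : (Sp p : Finset (HeightOneSpectrum (𝓞 K))).card = 0 ∨
      (Sp p : Finset (HeightOneSpectrum (𝓞 K))).card = 1 ∨
      (Sp p : Finset (HeightOneSpectrum (𝓞 K))).card = 2 := by omega
  rcases h3 with h3 | h3 | h3
  · rw [Finset.card_eq_zero] at h3
    rw [h3, Finset.sum_empty] at h1
    omega
  · obtain ⟨v, hv⟩ := Finset.card_eq_one.1 h3
    left
    refine ⟨v, hv, ?_⟩
    rwa [hv, Finset.sum_singleton] at h1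
  · obtain ⟨v, w, hvw, hv⟩ := Finset.card_eq_two.1 h3
    right
    refine ⟨v, w, hvw, hv, ?_⟩
    rw [hv, Finset.sum_pair hvw] at h1
    have := dg_pos v
    have := dg_pos w
    omega

lemma pair_iff {a b c d : ℝ} :
    ({a, b} : Multiset ℝ) = {c, d} ↔ (a = c ∧ b = d) ∨ (a = d ∧ b = c) := by
  constructor
  · intro h
    have ha : a ∈ ({c, d} : Multiset ℝ) := by
      rw [← h]
      simp
    rw [Multiset.insert_eq_cons, Multiset.mem_cons, Multiset.mem_singleton] at ha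
    rcases ha with rfl | rfl
    · left
      exact ⟨rfl, Multiset.singleton_inj.1 ((Multiset.cons_inj_right a).1 h)⟩
    · right
      rw [Multiset.pair_comm c a] at h
      exact ⟨rfl, Multiset.singleton_inj.1 ((Multiset.cons_inj_right a).1 h)⟩
  · rintro (⟨rfl, rfl⟩ | ⟨rfl, rfl⟩)
    · rfl
    · exact Multiset.pair_comm _ _

lemma inert_eq {v : HeightOneSpectrum (𝓞 K)} {p : Nat.Primes} (hv : Sp p = {v})
    (hχ : ∀ v, ‖χ v‖ = 1) {b : HeightOneSpectrum (𝓞 K) → ℝ}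
    (h : locPoly χ a p = locPoly χ b p) : a v = b v := by
  unfold locPoly at h
  rw [hv, Finset.prod_singleton, Finset.prod_singleton] at h
  have h1 := congrArg (Polynomial.eval 1) h
  simp only [Polynomial.eval_add, Polynomial.eval_sub, Polynomial.eval_mul, Polynomial.eval_pow,
    Polynomial.eval_X, Polynomial.eval_C, one_pow, mul_one] at h1
  have h2 : χ v * (a v : ℂ) = χ v * (b v : ℂ) := by linear_combination -h1
  have h3 : χ v ≠ 0 := by
    intro h0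
    have := hχ v
    rw [h0, norm_zero] at this
    exact zero_ne_one this
  exact_mod_cast mul_left_cancel₀ h3 h2

open Classical in
lemma split_eq {v w : HeightOneSpectrum (𝓞 K)} (hvw : v ≠ w) {p : Nat.Primes}
    (hv : Sp p = {v, w}) (hdv : dg v = 1) (hdw : dg w = 1) {b : HeightOneSpectrum (𝓞 K) → ℝ}
    (h : locPoly χ a p = locPoly χ b p) :
    χ v * (a v : ℂ) + χ w * (a w : ℂ) = χ v * (b v : ℂ) + χ w * (b w : ℂ) ∧
      (χ v * (a v : ℂ)) * (χ w * (a w : ℂ)) = (χ v * (b v : ℂ)) * (χ w * (b w : ℂ)) := by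
  unfold locPoly at h
  rw [hv, Finset.prod_pair hvw, Finset.prod_pair hvw, hdv, hdw] at h
  have key : ∀ x : ℂ, (x ^ 2 - χ v * (a v : ℂ) * x + χ v ^ 2 * (nm v : ℂ)) *
      (x ^ 2 - χ w * (a w : ℂ) * x + χ w ^ 2 * (nm w : ℂ)) =
      (x ^ 2 - χ v * (b v : ℂ) * x + χ v ^ 2 * (nm v : ℂ)) *
      (x ^ 2 - χ w * (b w : ℂ) * x + χ w ^ 2 * (nm w : ℂ)) := by
    intro x
    have h1 := congrArg (Polynomial.eval x) h
    simpa only [Polynomial.eval_add, Polynomial.eval_sub, Polynomial.eval_mul,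
      Polynomial.eval_pow, Polynomial.eval_X, Polynomial.eval_C, pow_one, mul_one] using h1
  have e1 := key 1
  have e2 := key (-1)
  have e3 := key 2
  have e4 := key (-2)
  constructor
  · linear_combination (-1 / 12) * (e3 - e4) + (1 / 6) * (e1 - e2)
  · linear_combination (1 / 2) * (e1 + e2)

end

end Pool.Agent.R629.NF
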