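import Pool.Agent.R629.NF.Conj
import Pool.Agent.TH119.MX.Gal

/-!
# Fields of rationality
-/

set_option autoImplicit false

namespace Pool.Agent.R629.NF

open Filter Topology MeasureTheory Finset
open Pool.Agent.R629.SP

section
variable {n : ℕ}

lemma charpoly_fixed {X : Matrix (Fin n) (Fin n) ℂ} {σ : ℂ ≃+* ℂ}
    (h : ∀ z, mu X (σ z) = mu X z) : X.charpoly.map (σ : ℂ →+* ℂ) = X.charpoly := by
  rw [monic_eq_iff ((Matrix.charpoly_monic X).map _) (Matrix.charpoly_monic X)]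
  intro z
  have h1 := Polynomial.eq_rootMultiplicity_map (p := X.charpoly) (f := (σ : ℂ →+* ℂ)) σ.injective
    (σ.symm z)
  have h2 : (σ : ℂ →+* ℂ) (σ.symm z) = z := σ.apply_symm_apply z
  rw [h2] at h1
  rw [← h1]
  have h3 := h (σ.symm z)
  rw [RingEquiv.apply_symm_apply] at h3
  unfold mu at h3
  exact_mod_cast h3.symm

theorem coeff_mem_of_invariant {X : Matrix (Fin n) (Fin n) ℂ} {F : Subfield ℂ} {d : ℤ}
    (hd : d ≠ 0) {G : ℂ → ℤ}
    (hG : ∀ σ : ℂ ≃+* ℂ, (∀ x ∈ F, σ x = x) → ∀ z, G (σ z) = G z)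
    (h : ∀ z, d * mu X z = G z) (i : ℕ) : X.charpoly.coeff i ∈ F := by
  by_contra hne
  obtain ⟨σ, h1, h2⟩ := Pool.Agent.TH119.MX.exists_move hne
  apply h2
  have h3 : ∀ z, mu X (σ z) = mu X z := by
    intro z
    refine mul_left_cancel₀ hd ?_
    rw [h, h, hG σ h1]
  have h4 := charpoly_fixed h3
  have h5 := congrArg (fun P : Polynomial ℂ => P.coeff i) h4
  simp only [Polynomial.coeff_map] at h5
  exact h5

lemma mu_fixed_of_range {E : Type} [Field E] {m : ℕ} (τ : E →+* ℂ) (C : Matrix (Fin m) (Fin m) E)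
    {σ : ℂ ≃+* ℂ} (hσ : ∀ x, σ (τ x) = τ x) (z : ℂ) : mu (C.map τ) (σ z) = mu (C.map τ) z := by
  have h1 := mu_aut σ (C.map τ) z
  have h2 : ((C.map τ).map σ : Matrix (Fin m) (Fin m) ℂ) = C.map τ := by
    ext i j
    simp only [Matrix.map_apply]
    exact hσ _
  rw [h2] at h1
  exact h1

/-- **Virtual relations descend the field of rationality.** -/
theorem rational_of_relation {J : Type} {E : J → Type} [∀ j, Field (E j)] [∀ j, NumberField (E j)]
    (τ : ∀ j, E j →+* ℂ) {m : J → ℕ} (C : ∀ j, Nat.Primes → Matrix (Fin (m j)) (Fin (m j)) (E j))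
    {S : Finset ℕ} {A : Nat.Primes → Matrix (Fin n) (Fin n) ℂ}
    (h : VirtualRelation S A fun j p => (C j p).map (τ j)) :
    ∃ E₀ : IntermediateField ℚ ℂ, FiniteDimensional ℚ E₀ ∧
      {p : Nat.Primes | (p : ℕ) ∉ S ∧ ¬ ∀ i, (A p).charpoly.coeff i ∈ E₀}.Finite := by
  classical
  obtain ⟨d, hd, e, hfin⟩ := h
  refine ⟨⨆ j ∈ e.support, (τ j).toRatAlgHom.fieldRange, ?_, hfin.subset ?_⟩
  · have : ∀ j, FiniteDimensional ℚ (τ j).toRatAlgHom.fieldRange := fun j => by
      have h1 : Function.Surjective (τ j).toRatAlgHom.rangeRestrict :=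
        AlgHom.rangeRestrict_surjective _
      exact Module.Finite.of_surjective (τ j).toRatAlgHom.rangeRestrict.toLinearMap h1
    exact IntermediateField.finiteDimensional_iSup_of_finset
  · rintro p ⟨hp, hne⟩
    refine ⟨hp, ?_⟩
    by_contra hno
    push Not at hno
    apply hne
    intro i
    set F : IntermediateField ℚ ℂ := ⨆ j ∈ e.support, (τ j).toRatAlgHom.fieldRange with hF
    refine coeff_mem_of_invariant (F := F.toSubfield) (d := (d : ℤ)) (by exact_mod_cast hd.ne')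
      (G := fun z => ∑ j ∈ e.support, e j * mu ((C j p).map (τ j)) z) ?_ (fun z => hno z) i
    intro σ hσ z
    refine Finset.sum_congr rfl fun j hj => ?_
    rw [mu_fixed_of_range (τ j) (C j p) (fun x => hσ _ ?_)]
    have h1 : (τ j).toRatAlgHom.fieldRange ≤ F :=
      le_iSup₂_of_le (f := fun j (_ : j ∈ e.support) => (τ j).toRatAlgHom.fieldRange) j hj le_rfl
    exact h1 ⟨x, rfl⟩

end

end Pool.Agent.R629.NF
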