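import Pool.Agent.R629.NF.Gen
import Pool.Agent.H977R3.CM.Aut

/-!
# Galois averaging of relations
-/

set_option autoImplicit false

namespace Pool.Agent.R629.NF

open Filter Topology MeasureTheory Finset
open Pool.Agent.R629.SP

/-- two embeddings of a number field differ by an automorphism of `ℂ` -/
theorem exists_aut_emb {M : Type} [Field M] [NumberField M] (τ τ' : M →+* ℂ) :
    ∃ σ : ℂ ≃+* ℂ, ∀ x, σ (τ x) = τ' x := by
  let L : IntermediateField ℚ ℂ := IntermediateField.normalClosure ℚ M ℂ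
  have hn0 : IsNormalClosure ℚ M L :=
    Algebra.IsAlgebraic.isNormalClosure_normalClosure fun x => IsAlgClosed.splits _
  have hn : Normal ℚ L := hn0.normal
  let φ : M →ₐ[ℚ] ℂ := τ.toRatAlgHom
  let φ' : M →ₐ[ℚ] ℂ := τ'.toRatAlgHom
  have h1 : ∀ (ψ : M →ₐ[ℚ] ℂ) (x : M), ψ x ∈ L := fun ψ x =>
    (AlgHom.fieldRange_le_normalClosure ψ) ⟨x, rfl⟩
  let ι : M →ₐ[ℚ] L := φ.codRestrict L.toSubalgebra (h1 φ)
  let ι' : M →ₐ[ℚ] L := φ'.codRestrict L.toSubalgebra (h1 φ')
  let _ : Algebra M L := ι.toRingHom.toAlgebra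
  have _ : IsScalarTower ℚ M L := IsScalarTower.of_algebraMap_eq fun x => by
    rw [eq_ratCast, eq_ratCast]
    exact (map_ratCast ι x).symm
  let g : L →ₐ[ℚ] L := ι'.liftNormal L
  have hg : ∀ x, g (ι x) = ι' x := fun x => by
    have := ι'.liftNormal_commutes L x
    exact this
  have hbij : Function.Bijective g := AlgHom.normal_bijective ℚ L L g
  let e : L ≃+* L := RingEquiv.ofBijective g hbij
  obtain ⟨σ, hσ⟩ := Pool.Agent.H977R3.CM.exists_aut (L.val : L →+* ℂ) e
  refine ⟨σ, fun x => ?_⟩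
  have h2 := hσ (ι x)
  have h3 : e (ι x) = ι' x := hg x
  rw [h3] at h2
  exact h2

/-- monic polynomials over a field are characteristic polynomials -/
theorem exists_matrix_field {M : Type} [Field M] {n : ℕ} {P : Polynomial M} (hP : P.Monic)
    (hn : P.natDegree = n) : ∃ C : Matrix (Fin n) (Fin n) M, C.charpoly = P := by
  have key : ∀ d : ℕ, (AdjoinRoot.powerBasis' hP).dim = d →
      ∃ C : Matrix (Fin d) (Fin d) M, C.charpoly = P := by
    rintro _ rfl
    refine ⟨Algebra.leftMulMatrix (AdjoinRoot.powerBasis' hP).basis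
      (AdjoinRoot.powerBasis' hP).gen, ?_⟩
    rw [charpoly_leftMulMatrix, AdjoinRoot.powerBasis'_gen, AdjoinRoot.minpoly_root hP.ne_zero,
      hP.leadingCoeff, inv_one, Polynomial.C_1, mul_one]
  exact key n (by rw [AdjoinRoot.powerBasis'_dim, hn])

section
variable {M : Type} [Field M] [NumberField M]

/-- the multiplicity of an eigenvalue -/
noncomputable def mu {n : ℕ} (X : Matrix (Fin n) (Fin n) ℂ) (z : ℂ) : ℤ :=
  (X.charpoly.rootMultiplicity z : ℤ)

lemma mu_aut {n : ℕ} (σ : ℂ ≃+* ℂ) (X : Matrix (Fin n) (Fin n) ℂ) (z : ℂ) :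
    mu (X.map σ) (σ z) = mu X z := by
  unfold mu
  have h1 : (X.map σ).charpoly = X.charpoly.map (σ : ℂ →+* ℂ) :=
    Matrix.charpoly_map X (σ : ℂ →+* ℂ)
  rw [h1, Polynomial.eq_rootMultiplicity_map (f := (σ : ℂ →+* ℂ)) σ.injective z]
  rfl

/-- the permutations of the embeddings induced by the automorphisms of `ℂ` -/
def galPerm (M : Type) [Field M] : Subgroup (Equiv.Perm (M →+* ℂ)) where
  carrier := {π | ∃ σ : ℂ ≃+* ℂ, ∀ (τ : M →+* ℂ) (x : M), (π τ) x = σ (τ x)}
  one_mem' := ⟨RingEquiv.refl ℂ, fun _ _ => rfl⟩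
  mul_mem' := by
    rintro π π' ⟨σ, h⟩ ⟨σ', h'⟩
    exact ⟨σ'.trans σ, fun τ x => by
      rw [Equiv.Perm.mul_apply, h, h']
      rfl⟩
  inv_mem' := by
    rintro π ⟨σ, h⟩
    refine ⟨σ.symm, fun τ x => ?_⟩
    have h1 := h (π⁻¹ τ) x
    have h2 : π (π⁻¹ τ) = τ := π.apply_symm_apply τ
    rw [h2] at h1
    rw [h1, RingEquiv.symm_apply_apply]

lemma galPerm_trans (τ τ' : M →+* ℂ) : ∃ π ∈ galPerm M, π τ = τ' := by
  obtain ⟨σ, hσ⟩ := exists_aut_emb τ τ'
  refine ⟨{ toFun := fun φ => (σ : ℂ →+* ℂ).comp φ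
            invFun := fun φ => (σ.symm : ℂ →+* ℂ).comp φ
            left_inv := fun φ => ?_
            right_inv := fun φ => ?_ }, ⟨σ, fun φ x => rfl⟩, ?_⟩
  · ext x
    exact σ.symm_apply_apply _
  · ext x
    exact σ.apply_symm_apply _
  · ext x
    exact hσ x

/-- averaging over a transitive group -/
lemma average_aux {X : Type} [Fintype X] [DecidableEq X] (H : Subgroup (Equiv.Perm X))
    (ht : ∀ x y : X, ∃ π ∈ H, π x = y) (e : X → ℤ) (D : X → ℤ) (a : ℤ)
    (h : ∀ π ∈ H, a = ∑ x, e x * D (π x)) :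
    (Fintype.card X : ℤ) * a = (∑ x, e x) * ∑ x, D x := by
  classical
  have hH : Fintype H := Fintype.ofFinite H
  set c : X → ℤ := fun x => ∑ π : H, D (π.1 x) with hc
  have hconst : ∀ x y, c x = c y := by
    intro x y
    obtain ⟨π₀, hπ₀, rfl⟩ := ht x y
    simp only [hc]
    exact (Fintype.sum_equiv (Equiv.mulRight (⟨π₀, hπ₀⟩ : H)) _ _ fun π => rfl).symm
  have h1 : ∀ x, (Fintype.card X : ℤ) * c x = (Fintype.card H : ℤ) * ∑ y, D y := by
    intro x
    have h2 : ∑ y, c y = (Fintype.card X : ℤ) * c x := by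
      rw [Finset.sum_congr rfl fun y _ => hconst y x, Finset.sum_const, Finset.card_univ,
        nsmul_eq_mul]
    rw [← h2]
    simp only [hc]
    rw [Finset.sum_comm]
    have h3 : ∀ π : H, ∑ y, D (π.1 y) = ∑ y, D y := fun π => Equiv.sum_comp π.1 D
    rw [Finset.sum_congr rfl fun π _ => h3 π, Finset.sum_const, Finset.card_univ, nsmul_eq_mul]
  have h4 : (Fintype.card H : ℤ) * a = ∑ x, e x * c x := by
    have h5 : ∑ π : H, a = ∑ π : H, ∑ x, e x * D (π.1 x) :=
      Finset.sum_congr rfl fun π _ => h π.1 π.2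
    rw [Finset.sum_const, Finset.card_univ, nsmul_eq_mul] at h5
    rw [h5, Finset.sum_comm]
    refine Finset.sum_congr rfl fun x _ => ?_
    simp only [hc]
    rw [Finset.mul_sum]
  have h6 : (Fintype.card H : ℤ) * ((Fintype.card X : ℤ) * a) =
      (Fintype.card H : ℤ) * ((∑ x, e x) * ∑ x, D x) := by
    calc (Fintype.card H : ℤ) * ((Fintype.card X : ℤ) * a) =
          (Fintype.card X : ℤ) * ((Fintype.card H : ℤ) * a) := by ring
      _ = ∑ x, e x * ((Fintype.card X : ℤ) * c x) := by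
          rw [h4, Finset.mul_sum]
          exact Finset.sum_congr rfl fun x _ => by ring
      _ = ∑ x, e x * ((Fintype.card H : ℤ) * ∑ y, D y) :=
          Finset.sum_congr rfl fun x _ => by rw [h1]
      _ = _ := by
          rw [← Finset.sum_mul]
          ring
  have h7 : (Fintype.card H : ℤ) ≠ 0 := by exact_mod_cast Fintype.card_ne_zero
  exact mul_left_cancel₀ h7 h6

/-- **Averaging.**  A function `F` of the eigenvalue which is invariant under the automorphisms of
`ℂ` and is a combination of the multiplicities of the conjugates of a matrix over `M`. -/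
theorem average {n : ℕ} (C : Matrix (Fin n) (Fin n) M) (F : ℂ → ℤ)
    (hF : ∀ (σ : ℂ ≃+* ℂ) (z : ℂ), F (σ z) = F z) (e : (M →+* ℂ) → ℤ)
    (h : ∀ z, F z = ∑ τ, e τ * mu (C.map τ) z) (z : ℂ) :
    (Module.finrank ℚ M : ℤ) * F z = (∑ τ, e τ) * ∑ τ, mu (C.map (τ : M →+* ℂ)) z := by
  classical
  have h1 := average_aux (galPerm M) galPerm_trans e (fun τ => mu (C.map τ) z) (F z) ?_
  · rwa [NumberField.Embeddings.card M ℂ] at h1
  · rintro π ⟨σ, hσ⟩
    rw [← hF σ.symm z, h]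
    refine Finset.sum_congr rfl fun τ _ => ?_
    have h2 : (C.map (π τ) : Matrix (Fin n) (Fin n) ℂ) = (C.map τ).map σ := by
      ext i j
      simp only [Matrix.map_apply]
      exact hσ τ (C i j)
    have h3 := mu_aut σ (C.map τ) (σ.symm z)
    rw [RingEquiv.apply_symm_apply] at h3
    rw [h2, h3]

lemma mu_rat {a : ℕ} (A : Matrix (Fin a) (Fin a) ℚ) (σ : ℂ ≃+* ℂ) (z : ℂ) :
    mu (A.map (Rat.castHom ℂ)) (σ z) = mu (A.map (Rat.castHom ℂ)) z := by
  have h1 := mu_aut σ (A.map (Rat.castHom ℂ)) z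
  have h2 : ((A.map (Rat.castHom ℂ)).map σ : Matrix (Fin a) (Fin a) ℂ) =
      A.map (Rat.castHom ℂ) := by
    ext i j
    simp
  rw [h2] at h1
  exact h1

end

end Pool.Agent.R629.NF
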