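import Pool.Agent.R629.NF.Ind
import Pool.Agent.R629.NF.Gal

/-!
# Systems of polynomials over number fields
-/

set_option autoImplicit false

namespace Pool.Agent.R629.NF

open Filter Topology MeasureTheory Finset NumberField IsDedekindDomain
open Pool.Agent.R629.SP
open Pool.Agent.TH339.MP (nm pr dg Sp mem_Sp nm_eq dg_pos)

/-- the value at `s` of the Euler factor with the characteristic polynomial `P` of degree `N` -/
noncomputable def factorAt (N : ℕ) (P : Polynomial ℂ) (q : ℕ) (s : ℂ) : ℂ :=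
  ((q : ℂ) ^ (-s)) ^ N * P.eval ((q : ℂ) ^ s)

section
variable {K : Type} [Field K] [NumberField K] {N : ℕ}

open Classical in
/-- The Euler product of the `(q_v^{-Ns} P_v(q_v^s))⁻¹` over the primes `v` of `K` which do not lie
above the primes in `S`. -/
noncomputable def LPoly (S : Finset ℕ) (N : ℕ) (P : HeightOneSpectrum (𝓞 K) → Polynomial ℂ)
    (s : ℂ) : ℂ :=
  ∏' v : HeightOneSpectrum (𝓞 K), if (pr v : ℕ) ∈ S then 1 else (factorAt N (P v) (nm v) s)⁻¹

/-- `l` is the boundary function on the line `Re s = 1 + w` of the Euler product: outside a set of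
real numbers `τ` of Hausdorff dimension `0` it tends to `l(τ) ≠ 0` as `s` tends to `1 + w + iτ` in any
angle in the half-plane `Re s > 1 + w`. -/
def IsEdgeOf (S : Finset ℕ) (N : ℕ) (P : HeightOneSpectrum (𝓞 K) → Polynomial ℂ) (w : ℝ)
    (l : ℝ → ℂ) : Prop :=
  ∃ Z : Set ℝ, dimH Z = 0 ∧ ∀ τ : ℝ, τ ∉ Z → l τ ≠ 0 ∧ ∀ C : ℝ,
    Tendsto (LPoly S N P) (𝓝[ang w τ C] (pt w τ)) (𝓝 (l τ))

/-- The polynomial `∏_{v | p} P_v(X^{f_v})`. -/
noncomputable def above {R : Type} [CommRing R] (P : HeightOneSpectrum (𝓞 K) → Polynomial R)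
    (p : Nat.Primes) : Polynomial R :=
  ∏ v ∈ Sp p, Polynomial.expand R (dg v) (P v)

lemma above_map {R R' : Type} [CommRing R] [CommRing R'] (f : R →+* R')
    (P : HeightOneSpectrum (𝓞 K) → Polynomial R) (p : Nat.Primes) :
    (above P p).map f = above (fun v => (P v).map f) p := by
  unfold above
  rw [Polynomial.map_prod]
  exact Finset.prod_congr rfl fun v _ => by rw [Polynomial.map_expand]

lemma above_monic {R : Type} [CommRing R] [Nontrivial R] {S : Finset ℕ}
    {P : HeightOneSpectrum (𝓞 K) → Polynomial R}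
    (hP : ∀ v, (pr v : ℕ) ∉ S → (P v).Monic) {p : Nat.Primes} (hp : (p : ℕ) ∉ S) :
    (above P p).Monic := by
  refine Polynomial.monic_prod_of_monic _ _ fun v hv => ?_
  rw [mem_Sp] at hv
  exact (hP v (by rw [hv]; exact hp)).expand (dg_pos v)

lemma above_natDegree {R : Type} [CommRing R] [Nontrivial R] {S : Finset ℕ}
    {P : HeightOneSpectrum (𝓞 K) → Polynomial R} (hS : Unram K S)
    (hP : ∀ v, (pr v : ℕ) ∉ S → (P v).Monic) (hN : ∀ v, (pr v : ℕ) ∉ S → (P v).natDegree = N)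
    {p : Nat.Primes} (hp : (p : ℕ) ∉ S) :
    (above P p).natDegree = N * Module.finrank ℚ K := by
  unfold above
  rw [Polynomial.natDegree_prod_of_monic _ _ fun v hv => ?_]
  · rw [← hS p hp, Finset.mul_sum]
    refine Finset.sum_congr rfl fun v hv => ?_
    rw [mem_Sp] at hv
    rw [Polynomial.natDegree_expand, hN v (by rw [hv]; exact hp)]
  · rw [mem_Sp] at hv
    exact (hP v (by rw [hv]; exact hp)).expand (dg_pos v)

lemma exists_rt {P : Polynomial ℂ} (hP : P.Monic) (hn : P.natDegree = N) :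
    ∃ α : Fin N → ℂ, P = ∏ j, (Polynomial.X - Polynomial.C (α j)) := by
  have h1 : P.roots.card = N := by
    rw [← hn, (IsAlgClosed.splits P).natDegree_eq_card_roots]
  obtain ⟨l, hl⟩ : ∃ l : List ℂ, (l : Multiset ℂ) = P.roots := Quot.exists_rep _
  have h2 : l.length = N := by
    rw [← h1, ← hl]
    rfl
  subst h2
  refine ⟨l.get, ?_⟩
  have h3 := (IsAlgClosed.splits P).eq_prod_roots_of_monic hP
  rw [← hl] at h3
  have h4 : (l : Multiset ℂ) = univ.val.map l.get := by
    rw [Fin.univ_val_map]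
    simp
  rw [h4, Multiset.map_map] at h3
  exact h3

lemma factorAt_eq {P : Polynomial ℂ} {α : Fin N → ℂ}
    (h : P = ∏ j, (Polynomial.X - Polynomial.C (α j))) {q : ℕ} (hq : 0 < q) (s : ℂ) :
    (factorAt N P q s)⁻¹ = ∏ j, (1 - α j * ((q : ℕ) : ℂ) ^ (-s))⁻¹ := by
  unfold factorAt
  rw [Finset.prod_inv_distrib, h, Polynomial.eval_prod]
  congr 1
  have h4 : ((q : ℂ) ^ (-s)) ^ N = ∏ _j : Fin N, (q : ℂ) ^ (-s) := by simp
  rw [h4, ← Finset.prod_mul_distrib]
  refine Finset.prod_congr rfl fun j _ => ?_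
  have hq0 : (q : ℂ) ≠ 0 := by exact_mod_cast hq.ne'
  have h5 : (q : ℂ) ^ (-s) * (q : ℂ) ^ s = 1 := by
    rw [← Complex.cpow_add _ _ hq0, neg_add_cancel, Complex.cpow_zero]
  rw [Polynomial.eval_sub, Polynomial.eval_X, Polynomial.eval_C, mul_sub, h5]
  ring

/-- The conditions on a system of polynomials: monic of degree `N`, with roots of absolute value
`q_v^w`, for all `v` which do not lie above the primes in `S`. -/
def IsSys (S : Finset ℕ) (N : ℕ) (w : ℝ) (P : HeightOneSpectrum (𝓞 K) → Polynomial ℂ) : Prop :=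
  ∀ v, (pr v : ℕ) ∉ S → (P v).Monic ∧ (P v).natDegree = N ∧
    ∀ z ∈ (P v).roots, ‖z‖ = ((nm v : ℕ) : ℝ) ^ w

theorem sys_bridge {S : Finset ℕ} {w : ℝ} {P : HeightOneSpectrum (𝓞 K) → Polynomial ℂ}
    (hP : IsSys S N w P) {n : ℕ} {A : Nat.Primes → Matrix (Fin n) (Fin n) ℂ}
    (hA : ∀ p : Nat.Primes, (p : ℕ) ∉ S → (A p).charpoly = above P p) :
    Bd S A w ∧ (∀ p : Nat.Primes, (p : ℕ) ∉ S → (A p).det ≠ 0) ∧
      ∀ l : ℝ → ℂ, IsEdgeOf S N P w l ↔ IsBoundary S A w l := by
  classical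
  have hpos : ∀ v : HeightOneSpectrum (𝓞 K), 0 < nm v := fun v => by
    rw [nm_eq]
    exact pow_pos (pr v).2.pos _
  have h1 : ∀ v : HeightOneSpectrum (𝓞 K), ∃ α : Fin N → ℂ, (pr v : ℕ) ∉ S →
      P v = ∏ j, (Polynomial.X - Polynomial.C (α j)) := by
    intro v
    by_cases hv : (pr v : ℕ) ∈ S
    · exact ⟨0, fun h => absurd hv h⟩
    · obtain ⟨α, hα⟩ := exists_rt (hP v hv).1 (hP v hv).2.1
      exact ⟨α, fun _ => hα⟩
  choose β hβ using h1
  have hnorm : ∀ v, (pr v : ℕ) ∉ S → ∀ j, ‖β v j‖ = ((nm v : ℕ) : ℝ) ^ w := by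
    intro v hv j
    refine (hP v hv).2.2 _ ?_
    rw [Polynomial.mem_roots (hP v hv).1.ne_zero, Polynomial.IsRoot, hβ v hv,
      Polynomial.eval_prod]
    refine Finset.prod_eq_zero (Finset.mem_univ j) ?_
    simp
  have hind : IsInd S β A := by
    intro p hp
    rw [hA p hp]
    unfold above polyAt
    refine Finset.prod_congr rfl fun v hv => ?_
    rw [mem_Sp] at hv
    rw [hβ v (by rw [hv]; exact hp), map_prod]
    refine Finset.prod_congr rfl fun j _ => ?_
    rw [map_sub, Polynomial.expand_X, Polynomial.expand_C]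
  have hle : ∀ v, (pr v : ℕ) ∉ S → ∀ j, ‖β v j‖ ≤ ((nm v : ℕ) : ℝ) ^ w :=
    fun v hv j => (hnorm v hv j).le
  refine ⟨ind_bd hind hle, fun p hp => ind_det hind (fun v hv j h => ?_) p hp, fun l => ?_⟩
  · have h2 := hnorm v hv j
    rw [h, norm_zero] at h2
    have h3 : (0 : ℝ) < ((nm v : ℕ) : ℝ) := by exact_mod_cast hpos v
    exact (Real.rpow_pos_of_pos h3 w).ne h2
  · rw [← isBdK_iff hind hle]
    have h2 : LPoly S N P = LK S β := by
      funext s
      unfold LPoly LK
      congr 1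
      funext v
      split_ifs with hv
      · rfl
      · exact factorAt_eq (hβ v hv) (hpos v) s
    unfold IsEdgeOf IsBdK
    rw [h2]

theorem exists_mats {S : Finset ℕ} (hS : Unram K S) {R : Type} [Field R]
    {P : HeightOneSpectrum (𝓞 K) → Polynomial R}
    (hP : ∀ v, (pr v : ℕ) ∉ S → (P v).Monic) (hN : ∀ v, (pr v : ℕ) ∉ S → (P v).natDegree = N) :
    ∃ A : Nat.Primes → Matrix (Fin (N * Module.finrank ℚ K)) (Fin (N * Module.finrank ℚ K)) R,
      ∀ p : Nat.Primes, (p : ℕ) ∉ S → (A p).charpoly = above P p := by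
  classical
  have h1 : ∀ p : Nat.Primes, ∃ A : Matrix (Fin (N * Module.finrank ℚ K))
      (Fin (N * Module.finrank ℚ K)) R, (p : ℕ) ∉ S → A.charpoly = above P p := by
    intro p
    by_cases hp : (p : ℕ) ∈ S
    · exact ⟨0, fun h => absurd hp h⟩
    · obtain ⟨A, hA⟩ := exists_matrix_field (above_monic hP hp) (above_natDegree hS hP hN hp)
      exact ⟨A, fun _ => hA⟩
  choose A hA using h1
  exact ⟨A, hA⟩

/-- every system has a boundary function -/
theorem exists_edgeOf {S : Finset ℕ} (hS : Unram K S) {w : ℝ}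
    {P : HeightOneSpectrum (𝓞 K) → Polynomial ℂ} (hP : IsSys S N w P) :
    ∃ l : ℝ → ℂ, IsEdgeOf S N P w l := by
  obtain ⟨A, hA⟩ := exists_mats hS (fun v hv => (hP v hv).1) (fun v hv => (hP v hv).2.1)
  obtain ⟨h1, -, h3⟩ := sys_bridge hP hA
  exact ⟨_, (h3 _).2 (isBoundary_bd h1)⟩

end

/-! ### Multiplicities and polynomials -/

lemma rm_pow {P : Polynomial ℂ} (k : ℕ) (z : ℂ) :
    (P ^ k).rootMultiplicity z = k * P.rootMultiplicity z := by
  classical
  rw [← Polynomial.count_roots, ← Polynomial.count_roots, Polynomial.roots_pow,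
    Multiset.count_nsmul]

lemma rm_prod {ι : Type} (s : Finset ι) (P : ι → Polynomial ℂ) (hP : ∀ i ∈ s, P i ≠ 0) (z : ℂ) :
    (∏ i ∈ s, P i).rootMultiplicity z = ∑ i ∈ s, (P i).rootMultiplicity z := by
  classical
  induction s using Finset.induction_on with
  | empty => simp
  | insert i s hi ih =>
    have h1 : ∏ j ∈ s, P j ≠ 0 :=
      Finset.prod_ne_zero_iff.2 fun j hj => hP j (Finset.mem_insert_of_mem hj)
    have h2 : P i ≠ 0 := hP i (Finset.mem_insert_self _ _)
    rw [Finset.prod_insert hi, Finset.sum_insert hi,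
      Polynomial.rootMultiplicity_mul (mul_ne_zero h2 h1),
      ih fun j hj => hP j (Finset.mem_insert_of_mem hj)]

lemma monic_eq_iff {P Q : Polynomial ℂ} (hP : P.Monic) (hQ : Q.Monic) :
    P = Q ↔ ∀ z, P.rootMultiplicity z = Q.rootMultiplicity z := by
  classical
  refine ⟨fun h z => by rw [h], fun h => ?_⟩
  have h1 : P.roots = Q.roots := by
    ext z
    rw [Polynomial.count_roots, Polynomial.count_roots, h z]
  rw [(IsAlgClosed.splits P).eq_prod_roots_of_monic hP,
    (IsAlgClosed.splits Q).eq_prod_roots_of_monic hQ, h1]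

end Pool.Agent.R629.NF
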