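import Pool.Agent.R629.NF.Conj

/-!
# Families of Euler products with different sets of omitted primes
-/

set_option autoImplicit false

namespace Pool.Agent.R629.NF

open Filter Topology MeasureTheory Finset
open Pool.Agent.R629.SP
open Pool.Agent.TH339.MP (FF bl ap)

/-! ### Fields generated by edge values -/

lemma alg_twist_one {J : Type} {k : Subfield ℂ} {τ : ℝ} {x c : ℂ} {y cj : J → ℂ}
    (hcj0 : ∀ j, cj j ≠ 0)
    (hc : ∀ s, Set.range (powers τ) ⊆ s → c ∈ IntermediateField.adjoin k s)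
    (hcj : ∀ j s, Set.range (powers τ) ⊆ s → cj j ∈ IntermediateField.adjoin k s)
    (h : IsAlgebraic (IntermediateField.adjoin k (valSet y τ)) x) :
    IsAlgebraic (IntermediateField.adjoin k (valSet (fun j => y j * cj j) τ)) (x * c) := by
  set s := valSet (fun j => y j * cj j) τ with hs
  have hpow : Set.range (powers τ) ⊆ s := by
    rintro _ ⟨o, rfl⟩
    exact ⟨Sum.inr o, rfl⟩
  have h1 : IsAlgebraic (IntermediateField.adjoin k s) x := by
    refine alg_trans (fun z hz => ?_) (fun z hz => ?_) h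
    · exact isAlgebraic_algebraMap (⟨z, IntermediateField.algebraMap_mem _ (⟨z, hz⟩ : k)⟩ :
        IntermediateField.adjoin k s)
    · obtain ⟨j | o, rfl⟩ := hz
      · have h2 : y j ∈ IntermediateField.adjoin k s := by
          have h3 : y j * cj j ∈ IntermediateField.adjoin k s :=
            IntermediateField.subset_adjoin _ _ ⟨Sum.inl j, rfl⟩
          have h4 := div_mem h3 (hcj j s hpow)
          rwa [mul_div_cancel_right₀ _ (hcj0 j)] at h4
        exact isAlgebraic_algebraMap (⟨y j, h2⟩ : IntermediateField.adjoin k s)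
      · exact isAlgebraic_algebraMap (⟨powers τ o, IntermediateField.subset_adjoin _ _
          (hpow ⟨o, rfl⟩)⟩ : IntermediateField.adjoin k s)
  exact h1.mul (isAlgebraic_algebraMap (⟨c, hc s hpow⟩ : IntermediateField.adjoin k s))

lemma alg_twist {J : Type} {k : Subfield ℂ} {τ : ℝ} {x c : ℂ} {y cj : J → ℂ} (hc0 : c ≠ 0)
    (hcj0 : ∀ j, cj j ≠ 0)
    (hc : ∀ s, Set.range (powers τ) ⊆ s → c ∈ IntermediateField.adjoin k s)
    (hcj : ∀ j s, Set.range (powers τ) ⊆ s → cj j ∈ IntermediateField.adjoin k s) :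
    IsAlgebraic (IntermediateField.adjoin k (valSet y τ)) x ↔
    IsAlgebraic (IntermediateField.adjoin k (valSet (fun j => y j * cj j) τ)) (x * c) := by
  refine ⟨alg_twist_one hcj0 hc hcj, fun h => ?_⟩
  have h1 := alg_twist_one (c := c⁻¹) (cj := fun j => (cj j)⁻¹) (fun j => inv_ne_zero (hcj0 j))
    (fun s hs => inv_mem (hc s hs)) (fun j s hs => inv_mem (hcj j s hs)) h
  have h2 : (fun j => y j * cj j * (cj j)⁻¹) = y := by
    funext j
    exact mul_inv_cancel_right₀ (hcj0 j) _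
  rw [h2, mul_inv_cancel_right₀ hc0] at h1
  exact h1

section
variable {m : ℕ} {S : Finset ℕ} {w : ℝ} {B : Nat.Primes → Matrix (Fin m) (Fin m) ℂ}

open Classical in
/-- the family with scalar matrices at the primes in `S` -/
noncomputable def modM (S : Finset ℕ) (w : ℝ) (B : Nat.Primes → Matrix (Fin m) (Fin m) ℂ) :
    Nat.Primes → Matrix (Fin m) (Fin m) ℂ := fun p =>
  if (p : ℕ) ∈ S then Matrix.diagonal fun _ => ((p : ℕ) : ℂ) ^ (w : ℂ) else B p

lemma modM_of_notMem {p : Nat.Primes} (hp : (p : ℕ) ∉ S) : modM S w B p = B p := if_neg hp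

lemma cpow_prime_ne (p : Nat.Primes) (s : ℂ) : ((p : ℕ) : ℂ) ^ s ≠ 0 := by
  have hp : ((p : ℕ) : ℂ) ≠ 0 := by exact_mod_cast p.2.ne_zero
  rw [Ne, Complex.cpow_eq_zero_iff]
  exact fun h => hp h.1

lemma modM_roots {p : Nat.Primes} (hp : (p : ℕ) ∈ S) {z : ℂ}
    (hz : z ∈ (modM S w B p).charpoly.roots) : z = ((p : ℕ) : ℂ) ^ (w : ℂ) := by
  unfold modM at hz
  rw [if_pos hp, Matrix.charpoly_diagonal, Polynomial.mem_roots
    (Polynomial.monic_prod_of_monic _ _ fun i _ => Polynomial.monic_X_sub_C _).ne_zero,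
    Polynomial.IsRoot, Polynomial.eval_prod, Finset.prod_eq_zero_iff] at hz
  obtain ⟨i, -, h⟩ := hz
  rw [Polynomial.eval_sub, Polynomial.eval_X, Polynomial.eval_C, sub_eq_zero] at h
  exact h

lemma modM_bd (h : Bd S B w) : Bd ∅ (modM S w B) w := by
  intro p _ z hz
  by_cases hp : (p : ℕ) ∈ S
  · rw [modM_roots hp hz, Complex.norm_natCast_cpow_of_pos p.2.pos, Complex.ofReal_re]
  · rw [modM_of_notMem hp] at hz
    exact h p hp z hz

lemma modM_det (h : ∀ p : Nat.Primes, (p : ℕ) ∉ S → (B p).det ≠ 0) (p : Nat.Primes) :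
    (modM S w B p).det ≠ 0 := by
  by_cases hp : (p : ℕ) ∈ S
  · unfold modM
    rw [if_pos hp, Matrix.det_diagonal]
    exact Finset.prod_ne_zero_iff.2 fun _ _ => cpow_prime_ne p _
  · rw [modM_of_notMem hp]
    exact h p hp

lemma par_modM_mem {p : Nat.Primes} (hp : (p : ℕ) ∈ S) (j : Fin m) :
    par ∅ (modM S w B) w p j = 1 := by
  unfold par
  rw [if_neg (Finset.notMem_empty _), modM_roots hp (eig_mem _ j), Complex.cpow_neg,
    mul_inv_cancel₀ (cpow_prime_ne p _)]

lemma par_modM_notMem {p : Nat.Primes} (hp : (p : ℕ) ∉ S) (j : Fin m) :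
    par ∅ (modM S w B) w p j = par S B w p j := by
  unfold par
  rw [if_neg (Finset.notMem_empty _), if_neg hp, modM_of_notMem hp]

/-- the correction factor -/
noncomputable def corr (S : Finset ℕ) (m : ℕ) (s : ℂ) : ℂ :=
  ∏ p ∈ S.subtype Nat.Prime, ((1 - (((p : Nat.Primes) : ℕ) : ℂ) ^ (-s)) ^ m)⁻¹

lemma LM_modM (h : Bd S B w) {s : ℂ} (hs : 1 < s.re) :
    LM ∅ (modM S w B) (s + w) = LM S B (s + w) * corr S m s := by
  classical
  rw [LM_eq h hs, LM_eq (modM_bd h) hs]
  have h1 := hasProd_bQ (norm_par h) hs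
  have h2 := hasProd_bQ (norm_par (modM_bd h)) hs
  have h3 : HasProd (fun p : Nat.Primes => if (p : ℕ) ∈ S then
      ((1 - ((p : ℕ) : ℂ) ^ (-s)) ^ m)⁻¹ else 1) (corr S m s) := by
    have h4 : HasProd (fun p : Nat.Primes => if (p : ℕ) ∈ S then
        ((1 - ((p : ℕ) : ℂ) ^ (-s)) ^ m)⁻¹ else 1) (∏ p ∈ S.subtype Nat.Prime,
          if ((p : Nat.Primes) : ℕ) ∈ S then ((1 - ((p : ℕ) : ℂ) ^ (-s)) ^ m)⁻¹ else 1) :=
      hasProd_prod_of_ne_finset_one (fun p hp => by
          rw [if_neg]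
          exact fun hp' => hp (Finset.mem_subtype.2 hp'))
    convert h4 using 1
    unfold corr
    refine Finset.prod_congr rfl fun p hp => ?_
    rw [if_pos (Finset.mem_subtype.1 hp)]
  refine h2.unique ?_
  have h5 := h1.mul h3
  refine h5.congr_fun fun p => ?_
  by_cases hp : (p : ℕ) ∈ S
  · rw [if_pos hp]
    have h6 : ∀ j, par S B w p j = 0 := fun j => by
      unfold par
      rw [if_pos hp]
    simp only [par_modM_mem hp, h6, zero_mul, sub_zero, inv_one, Finset.prod_const_one, one_mul,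
      Finset.prod_const, Finset.card_univ, Fintype.card_fin, inv_pow]
  · rw [if_neg hp, mul_one]
    refine Finset.prod_congr rfl fun j _ => ?_
    rw [par_modM_notMem hp]

lemma one_sub_prime_ne (p : Nat.Primes) (τ : ℝ) :
    1 - ((p : ℕ) : ℂ) ^ (-(1 + (τ : ℂ) * Complex.I)) ≠ 0 := by
  refine one_sub_ne ?_
  rw [Complex.norm_natCast_cpow_of_pos p.2.pos]
  have h1 : (-(1 + (τ : ℂ) * Complex.I)).re = -1 := by simp
  rw [h1]
  have h2 : (1 : ℝ) < ((p : ℕ) : ℝ) := by exact_mod_cast p.2.one_lt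
  exact Real.rpow_lt_one_of_one_lt_of_neg h2 (by norm_num)

lemma corr_ne (S : Finset ℕ) (m : ℕ) (τ : ℝ) : corr S m (1 + τ * Complex.I) ≠ 0 :=
  Finset.prod_ne_zero_iff.2 fun p _ => inv_ne_zero (pow_ne_zero _ (one_sub_prime_ne p τ))

lemma corr_mem (S : Finset ℕ) (m : ℕ) (τ : ℝ) {k : Subfield ℂ} (s : Set ℂ)
    (hs : Set.range (powers τ) ⊆ s) :
    corr S m (1 + τ * Complex.I) ∈ IntermediateField.adjoin k s :=
  prod_mem fun p _ => inv_mem (pow_mem (sub_mem (one_mem _) (powers_mem hs p)) _)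

lemma corr_cont (S : Finset ℕ) (m : ℕ) (τ : ℝ) :
    ContinuousAt (corr S m) (1 + τ * Complex.I) := by
  unfold corr
  refine tendsto_finsetProd _ fun p _ => ?_
  refine ContinuousAt.inv₀ (ContinuousAt.pow ?_ _) (pow_ne_zero _ (one_sub_prime_ne p τ))
  have hp : (((p : Nat.Primes) : ℕ) : ℂ) ≠ 0 := by exact_mod_cast (p : Nat.Primes).2.ne_zero
  exact continuousAt_const.sub
    (ContinuousAt.const_cpow continuousAt_id.neg (Or.inl hp))

/-- the boundary function of the modified family -/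
theorem modM_boundary (h : Bd S B w) {l : ℝ → ℂ} (hl : IsBoundary S B w l) :
    IsBoundary ∅ (modM S w B) w fun τ => l τ * corr S m (1 + τ * Complex.I) := by
  obtain ⟨Z, hZ, h1⟩ := hl
  refine ⟨Z, hZ, fun τ hτ => ⟨mul_ne_zero (h1 τ hτ).1 (corr_ne S m τ), fun C => ?_⟩⟩
  have h2 : Tendsto (fun s : ℂ => corr S m (s - w)) (𝓝[ang w τ C] (pt w τ))
      (𝓝 (corr S m (1 + τ * Complex.I))) := by
    have h3 : Tendsto (fun s : ℂ => s - (w : ℂ)) (𝓝[ang w τ C] (pt w τ))
        (𝓝 (1 + τ * Complex.I)) := by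
      have h4 : Tendsto (fun s : ℂ => s - (w : ℂ)) (𝓝 (pt w τ)) (𝓝 (pt w τ - w)) :=
        (continuous_id.sub continuous_const).tendsto _
      rw [pt_sub] at h4
      exact h4.mono_left nhdsWithin_le_nhds
    exact (corr_cont S m τ).tendsto.comp h3
  refine (((h1 τ hτ).2 C).mul h2).congr' ?_
  filter_upwards [self_mem_nhdsWithin] with s hs
  have h3 : 1 < (s - w).re := by
    rw [Complex.sub_re, Complex.ofReal_re]
    linarith [hs.1]
  have h4 := LM_modM h h3
  rw [sub_add_cancel] at h4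
  exact h4.symm

end

/-- **The criterion with arbitrary finite sets of omitted primes.** -/
theorem main_var {J : Type} [Countable J] {n : ℕ} {m : J → ℕ} {SA : Finset ℕ} {SB : J → Finset ℕ}
    {w : ℝ} {A : Nat.Primes → Matrix (Fin n) (Fin n) ℂ}
    {B : ∀ j, Nat.Primes → Matrix (Fin (m j)) (Fin (m j)) ℂ}
    (hA : Bd SA A w) (hB : ∀ j, Bd (SB j) (B j) w)
    (hdA : ∀ p : Nat.Primes, (p : ℕ) ∉ SA → (A p).det ≠ 0)
    (hdB : ∀ j (p : Nat.Primes), (p : ℕ) ∉ SB j → (B j p).det ≠ 0)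
    {l : ℝ → ℂ} (hl : IsBoundary SA A w l) {lB : J → ℝ → ℂ}
    (hlB : ∀ j, IsBoundary (SB j) (B j) w (lB j)) :
    (VirtualRelation ∅ A B ↔ DependentOn l lB) ∧ (DependentOn l lB ∨ IndependentOf l lB) := by
  have h1 := dichotomy (tfae_gen (S := ∅) (w := w) (modM_bd hA) (fun j => modM_bd (hB j))
    (fun p _ => modM_det hdA p) (fun j p _ => modM_det (hdB j) p) (modM_boundary hA hl)
    (fun j => modM_boundary (hB j) (hlB j)))
  have h2 : ∀ (k : Subfield ℂ) (τ : ℝ),
      IsAlgebraic (IntermediateField.adjoin k (valSet (fun j => lB j τ) τ)) (l τ) ↔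
      IsAlgebraic (IntermediateField.adjoin k (valSet (fun j => lB j τ *
        corr (SB j) (m j) (1 + τ * Complex.I)) τ)) (l τ * corr SA n (1 + τ * Complex.I)) :=
    fun k τ => alg_twist (y := fun j => lB j τ)
      (cj := fun j => corr (SB j) (m j) (1 + τ * Complex.I)) (corr_ne SA n τ)
      (fun j => corr_ne (SB j) (m j) τ) (fun s hs => corr_mem SA n τ s hs)
      (fun j s hs => corr_mem (SB j) (m j) τ s hs)
  have hdep : DependentOn l lB ↔ DependentOn (fun τ => l τ * corr SA n (1 + τ * Complex.I))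
      (fun j τ => lB j τ * corr (SB j) (m j) (1 + τ * Complex.I)) := by
    unfold DependentOn
    simp only [h2]
  have hind : IndependentOf l lB ↔ IndependentOf (fun τ => l τ * corr SA n (1 + τ * Complex.I))
      (fun j τ => lB j τ * corr (SB j) (m j) (1 + τ * Complex.I)) := by
    unfold IndependentOf Transcendental
    simp only [h2]
  have hrel : VirtualRelation ∅ A B ↔
      VirtualRelation ∅ (modM SA w A) fun j => modM (SB j) w (B j) := by
    have hfin : ∀ T : Finset ℕ, {p : Nat.Primes | (p : ℕ) ∈ T}.Finite := fun T =>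
      Set.Finite.preimage (f := fun p : Nat.Primes => (p : ℕ)) Subtype.val_injective.injOn
        T.finite_toSet
    have key : ∀ (d : ℕ) (e : J →₀ ℤ), ∀ p : Nat.Primes, (p : ℕ) ∉ SA →
        (∀ j ∈ e.support, (p : ℕ) ∉ SB j) → ∀ z,
        ((d : ℤ) * ((A p).charpoly.rootMultiplicity z : ℤ) ≠
          e.sum fun j k => k * ((B j p).charpoly.rootMultiplicity z : ℤ)) ↔
        ((d : ℤ) * ((modM SA w A p).charpoly.rootMultiplicity z : ℤ) ≠
          e.sum fun j k => k * ((modM (SB j) w (B j) p).charpoly.rootMultiplicity z : ℤ)) := by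
      intro d e p hp hpj z
      rw [modM_of_notMem hp]
      have h3 : (e.sum fun j k => k * ((modM (SB j) w (B j) p).charpoly.rootMultiplicity z : ℤ)) =
          e.sum fun j k => k * ((B j p).charpoly.rootMultiplicity z : ℤ) :=
        Finset.sum_congr rfl fun j hj => by
          change e j * ((modM (SB j) w (B j) p).charpoly.rootMultiplicity z : ℤ) = _
          rw [modM_of_notMem (hpj j hj)]
      rw [h3]
    refine exists_congr fun d => and_congr_right fun _ => exists_congr fun e => ?_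
    have hbad : ({p : Nat.Primes | (p : ℕ) ∈ SA} ∪
        ⋃ j ∈ e.support, {p : Nat.Primes | (p : ℕ) ∈ SB j}).Finite :=
      (hfin SA).union (e.support.finite_toSet.biUnion fun j _ => hfin (SB j))
    constructor
    · intro h
      refine (h.union hbad).subset ?_
      rintro p ⟨hp, z, hz⟩
      by_cases hb : p ∈ ({p : Nat.Primes | (p : ℕ) ∈ SA} ∪
        ⋃ j ∈ e.support, {p : Nat.Primes | (p : ℕ) ∈ SB j})
      · exact Or.inr hb
      · left
        rw [Set.mem_union, not_or, Set.mem_iUnion₂] at hb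
        push Not at hb
        exact ⟨hp, z, (key d e p hb.1 hb.2 z).2 hz⟩
    · intro h
      refine (h.union hbad).subset ?_
      rintro p ⟨hp, z, hz⟩
      by_cases hb : p ∈ ({p : Nat.Primes | (p : ℕ) ∈ SA} ∪
        ⋃ j ∈ e.support, {p : Nat.Primes | (p : ℕ) ∈ SB j})
      · exact Or.inr hb
      · left
        rw [Set.mem_union, not_or, Set.mem_iUnion₂] at hb
        push Not at hb
        exact ⟨hp, z, (key d e p hb.1 hb.2 z).1 hz⟩
  rw [hrel, hdep, hind]
  exact h1

end Pool.Agent.R629.NF
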