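import Pool.Agent.R629.NF.Geo
import Pool.Agent.R629.NF.Var
import Pool.Agent.R629.NF.Sys

/-!
# Galois representations of number fields and relations between edge values
-/

set_option autoImplicit false

namespace Pool.Agent.R629.NF

open Representation Filter Topology Finset NumberField IsDedekindDomain
open scoped MonoidAlgebra
open Pool.Agent.R629.SP
open Pool.Agent.TH339.MP (nm pr dg Sp mem_Sp nm_eq dg_pos)

/-! ### Subquotients of the same dimension -/

section
variable {k : Type} [Field k] {G : Type} [Group G]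

lemma equiv_of_subquotient {V W : Type} [AddCommGroup V] [Module k V] [AddCommGroup W] [Module k W]
    [FiniteDimensional k V] [FiniteDimensional k W] {σ : Representation k G W}
    {ρ : Representation k G V} (h : IsSubquotient σ ρ)
    (hd : Module.finrank k V ≤ Module.finrank k W) : Nonempty (ρ.Equiv σ) := by
  obtain ⟨B, hB, π, hπ, heq⟩ := h
  have h1 : Module.finrank k W ≤ Module.finrank k B := LinearMap.finrank_le_finrank_of_surjective hπ
  have h2 : Module.finrank k B ≤ Module.finrank k V := Submodule.finrank_le B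
  have hBt : B = ⊤ := Submodule.eq_top_of_finrank_eq (le_antisymm h2 (hd.trans h1))
  have hfr : Module.finrank k B = Module.finrank k W := le_antisymm (h2.trans hd) h1
  have hinj : Function.Injective π := (LinearMap.injective_iff_surjective_of_finrank_eq_finrank
    hfr).2 hπ
  set e1 : B ≃ₗ[k] W := LinearEquiv.ofBijective π ⟨hinj, hπ⟩ with he1
  set e2 : V ≃ₗ[k] B := (LinearEquiv.ofTop B hBt).symm with he2
  refine ⟨Representation.Equiv.mk (e2.trans e1) ?_⟩
  intro g
  ext x
  have h3 : e2 (ρ g x) = ⟨ρ g (e2 x : B), hB g _ (e2 x).2⟩ := by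
    apply Subtype.ext
    rfl
  change e1 (e2 (ρ g x)) = σ g (e1 (e2 x))
  rw [h3]
  exact heq g (e2 x)

lemma equiv_of_irreducible {V W : Type} [AddCommGroup V] [Module k V] [AddCommGroup W]
    [Module k W] [FiniteDimensional k V] [FiniteDimensional k W] {σ : Representation k G W}
    {ρ : Representation k G V} (hρ : ρ.IsIrreducible) (hσ : σ.IsIrreducible)
    (h : IsSubquotient σ ρ) : Nonempty (ρ.Equiv σ) := by
  refine equiv_of_subquotient h ?_
  obtain ⟨B, hB, π, hπ, heq⟩ := h
  have hW : Nontrivial W := by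
    by_contra hW
    rw [not_nontrivial_iff_subsingleton] at hW
    obtain ⟨a, b, hab⟩ : Nontrivial (Subrepresentation σ) := hσ.toNontrivial
    apply hab
    apply Subrepresentation.toSubmodule_injective
    exact Subsingleton.elim _ _
  have hBt : B = ⊤ := by
    rcases hρ.eq_bot_or_eq_top ⟨B, fun g x hx => hB g x hx⟩ with h1 | h1
    · exfalso
      have h2 : B = ⊥ := congrArg Subrepresentation.toSubmodule h1
      subst h2
      obtain ⟨x, y, hxy⟩ := hW
      obtain ⟨a, ha⟩ := hπ x
      obtain ⟨b, hb⟩ := hπ y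
      apply hxy
      rw [← ha, ← hb, Subsingleton.elim a b]
    · exact congrArg Subrepresentation.toSubmodule h1
  have hker : (LinearMap.ker π).map B.subtype = ⊥ := by
    have hst : ∀ (g : G) (x : V), x ∈ (LinearMap.ker π).map B.subtype →
        ρ g x ∈ (LinearMap.ker π).map B.subtype := by
      rintro g _ ⟨y, hy, rfl⟩
      refine ⟨⟨ρ g y, hB g _ y.2⟩, ?_, rfl⟩
      change π _ = 0
      rw [heq g y, show π y = 0 from hy, map_zero]
    rcases hρ.eq_bot_or_eq_top ⟨(LinearMap.ker π).map B.subtype, fun g x hx => hst g x hx⟩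
      with h1 | h1
    · exact congrArg Subrepresentation.toSubmodule h1
    · exfalso
      have h2 : (LinearMap.ker π).map B.subtype = ⊤ := congrArg Subrepresentation.toSubmodule h1
      obtain ⟨x, hx⟩ := exists_ne (0 : W)
      obtain ⟨y, hy⟩ := hπ x
      have h3 : (y : V) ∈ (LinearMap.ker π).map B.subtype := by
        rw [h2]
        exact Submodule.mem_top
      obtain ⟨z, hz, hzy⟩ := h3
      have h4 : z = y := Subtype.ext hzy
      apply hx
      rw [← hy, ← h4]
      exact hz
  have hinj : Function.Injective π := by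
    rw [← LinearMap.ker_eq_bot, eq_bot_iff]
    intro y hy
    have h2 : (y : V) ∈ (LinearMap.ker π).map B.subtype := ⟨y, hy, rfl⟩
    rw [hker] at h2
    exact Subtype.ext h2
  have h1 := LinearMap.finrank_le_finrank_of_injective hinj
  rwa [hBt, finrank_top] at h1

lemma subquotient_trans {V V' W : Type} [AddCommGroup V] [Module k V] [AddCommGroup V']
    [Module k V'] [AddCommGroup W] [Module k W] {σ : Representation k G W}
    {ρ : Representation k G V} {ρ' : Representation k G V'} (h : IsSubquotient σ ρ)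
    (e : ρ.Equiv ρ') : IsSubquotient σ ρ' := by
  obtain ⟨B, hB, π, hπ, heq⟩ := h
  have hsymm : ∀ (g : G) (x : V'), e.toLinearEquiv.symm (ρ' g x) =
      ρ g (e.toLinearEquiv.symm x) := by
    intro g x
    rw [LinearEquiv.symm_apply_eq]
    have h2 := IntertwiningMap.isIntertwining _ _ e.toIntertwiningMap g (e.toLinearEquiv.symm x)
    change e.toLinearEquiv (ρ g (e.toLinearEquiv.symm x)) =
      ρ' g (e.toLinearEquiv (e.toLinearEquiv.symm x)) at h2
    rw [h2, LinearEquiv.apply_symm_apply]
  let f : V' →ₗ[k] V := e.toLinearEquiv.symm.toLinearMap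
  have hB' : ∀ (g : G), ∀ x ∈ B.comap f, ρ' g x ∈ B.comap f := by
    intro g x hx
    change e.toLinearEquiv.symm (ρ' g x) ∈ B
    rw [hsymm]
    exact hB g _ hx
  let f' : B.comap f →ₗ[k] B := f.restrict (p := B.comap f) (q := B) fun x hx => hx
  refine ⟨B.comap f, hB', π ∘ₗ f', fun y => ?_, fun g x => ?_⟩
  · obtain ⟨z, hz⟩ := hπ y
    refine ⟨⟨e.toLinearEquiv z, ?_⟩, ?_⟩
    · change e.toLinearEquiv.symm (e.toLinearEquiv (z : V)) ∈ B
      rw [LinearEquiv.symm_apply_apply]
      exact z.2
    · rw [LinearMap.comp_apply, ← hz]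
      congr 1
      apply Subtype.ext
      exact e.toLinearEquiv.symm_apply_apply (z : V)
  · rw [LinearMap.comp_apply, LinearMap.comp_apply, ← heq]
    congr 1
    apply Subtype.ext
    exact hsymm g x

lemma trace_equiv {V W : Type} [AddCommGroup V] [Module k V] [AddCommGroup W] [Module k W]
    {σ : Representation k G W} {ρ : Representation k G V} (e : ρ.Equiv σ) (g : G) :
    LinearMap.trace k V (ρ g) = LinearMap.trace k W (σ g) := by
  have h1 : σ g = e.toLinearEquiv.conj (ρ g) := by
    ext x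
    rw [LinearEquiv.conj_apply_apply]
    have h2 := IntertwiningMap.isIntertwining _ _ e.toIntertwiningMap g (e.toLinearEquiv.symm x)
    change e.toLinearEquiv (ρ g (e.toLinearEquiv.symm x)) =
      σ g (e.toLinearEquiv (e.toLinearEquiv.symm x)) at h2
    rw [h2, LinearEquiv.apply_symm_apply]
  rw [h1, LinearMap.trace_conj']

lemma charpoly_equiv {n m : ℕ} {ρ : G →* GL (Fin n) k} {σ : G →* GL (Fin m) k}
    (e : (rep ρ).Equiv (rep σ)) (g : G) : (ρ g).val.charpoly = (σ g).val.charpoly := by
  have h1 : rep σ g = e.toLinearEquiv.conj (rep ρ g) := by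
    refine LinearMap.ext fun x => ?_
    rw [LinearEquiv.conj_apply_apply]
    have h2 := IntertwiningMap.isIntertwining _ _ e.toIntertwiningMap g (e.toLinearEquiv.symm x)
    change e.toLinearEquiv (rep ρ g (e.toLinearEquiv.symm x)) =
      rep σ g (e.toLinearEquiv (e.toLinearEquiv.symm x)) at h2
    rw [h2, LinearEquiv.apply_symm_apply]
  have h2 : ∀ {r : ℕ} (τ : G →* GL (Fin r) k), (rep τ g).charpoly = (τ g).val.charpoly :=
    fun τ => Matrix.charpoly_toLin' _
  rw [← h2 ρ, ← h2 σ, h1, LinearEquiv.charpoly_conj]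

/-- **A relation between sums of characters gives a subquotient.** -/
theorem subquotient_sum [CharZero k] {G' : Type} [Group G'] {I : Type} [Fintype I] {n : ℕ}
    {ρ : G →* GL (Fin n) k} (c : I → G' →* G) (i₀ : I)
    (hρ : (rep (ρ.comp (c i₀))).IsIrreducible) {J : Type} {m : J → ℕ}
    {H : ∀ j, G →* GL (Fin (m j)) k} {d : ℕ} (hd : 0 < d) (e : J →₀ ℤ)
    (h : ∀ g, (d : k) * ∑ i, (ρ (c i g)).val.trace =
      ∑ j ∈ e.support, (e j : k) * ∑ i, (H j (c i g)).val.trace) :
    ∃ j i, IsSubquotient (rep (ρ.comp (c i₀))) (rep ((H j).comp (c i))) := by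
  classical
  by_contra hno
  push Not at hno
  -- an element killing a finite family of representations
  have h1 : ∀ (X : Type) (dm : X → ℕ) (R : ∀ x, G' →* GL (Fin (dm x)) k) (s' : Finset X),
      (∀ x ∈ s', ¬ IsSubquotient (rep (ρ.comp (c i₀))) (rep (R x))) →
      ∃ r : k[G'], (rep (ρ.comp (c i₀))).asAlgebraHom r = 1 ∧
      ∀ x ∈ s', (rep (R x)).asAlgebraHom r = 0 := by
    intro X dm R s'
    induction s' using Finset.induction_on with
    | empty => exact fun _ => ⟨1, map_one _, fun j hj => absurd hj (Finset.notMem_empty j)⟩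
    | insert x s' hx ih =>
      intro hsub
      obtain ⟨r, hr1, hr2⟩ := ih fun j hj => hsub j (Finset.mem_insert_of_mem hj)
      obtain ⟨r', hr1', hr2'⟩ := exists_ann hρ _ (Fin (dm x) → k) (rep (R x)) rfl
        (hsub x (Finset.mem_insert_self _ _))
      refine ⟨r * r', by rw [map_mul, hr1, hr1', one_mul], fun j hj => ?_⟩
      rw [map_mul]
      rcases Finset.mem_insert.1 hj with rfl | hj
      · rw [hr2', mul_zero]
      · rw [hr2 j hj, zero_mul]
  set s₁ : Finset I := Finset.univ.filter fun i =>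
    ¬ IsSubquotient (rep (ρ.comp (c i₀))) (rep (ρ.comp (c i))) with hs₁
  obtain ⟨r₁, hr1, hr2⟩ := h1 (J × I) (fun x => m x.1) (fun x => (H x.1).comp (c x.2))
    (e.support ×ˢ Finset.univ) fun x _ => hno x.1 x.2
  obtain ⟨r₂, hr3, hr4⟩ := h1 I (fun _ => n) (fun i => ρ.comp (c i)) s₁ fun x hx =>
    (Finset.mem_filter.1 hx).2
  have h2 : ∀ r : k[G'], (d : k) * ∑ i, LinearMap.trace k _ ((rep (ρ.comp (c i))).asAlgebraHom r) =
      ∑ j ∈ e.support, (e j : k) * ∑ i, LinearMap.trace k _
        ((rep ((H j).comp (c i))).asAlgebraHom r) := by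
    intro r
    induction r using MonoidAlgebra.induction_on with
    | of g =>
      simp only [asAlgebraHom_of, trace_rep]
      exact h g
    | add a b ha hb =>
      simp only [map_add, Finset.sum_add_distrib, mul_add]
      rw [ha, hb]
    | smul x a ha =>
      simp only [map_smul, smul_eq_mul, ← Finset.mul_sum]
      have h3 : ∑ j ∈ e.support, (e j : k) * (x * ∑ i, LinearMap.trace k _
          ((rep ((H j).comp (c i))).asAlgebraHom a)) =
          x * ∑ j ∈ e.support, (e j : k) * ∑ i, LinearMap.trace k _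
            ((rep ((H j).comp (c i))).asAlgebraHom a) := by
        rw [Finset.mul_sum]
        exact Finset.sum_congr rfl fun j _ => by ring
      rw [h3, ← ha]
      ring
  have h3 := h2 (r₁ * r₂)
  -- the traces on the conjugates of `ρ`
  have h4 : ∀ i, LinearMap.trace k _ ((rep (ρ.comp (c i))).asAlgebraHom (r₁ * r₂)) =
      if i ∈ s₁ then 0 else (n : k) := by
    intro i
    split_ifs with hi
    · rw [map_mul, hr4 i hi, mul_zero, map_zero]
    · have hi' : IsSubquotient (rep (ρ.comp (c i₀))) (rep (ρ.comp (c i))) := by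
        by_contra hne
        exact hi (Finset.mem_filter.2 ⟨Finset.mem_univ _, hne⟩)
      obtain ⟨E⟩ := equiv_of_subquotient hi' le_rfl
      have h5 : ∀ r : k[G'], LinearMap.trace k _ ((rep (ρ.comp (c i))).asAlgebraHom r) =
          LinearMap.trace k _ ((rep (ρ.comp (c i₀))).asAlgebraHom r) := by
        intro r
        induction r using MonoidAlgebra.induction_on with
        | of g =>
          simp only [asAlgebraHom_of]
          exact trace_equiv E g
        | add a b ha hb =>
          simp only [map_add, ha, hb]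
        | smul x a ha =>
          simp only [map_smul, ha]
      rw [h5, map_mul, hr1, hr3, mul_one, Module.End.one_eq_id, LinearMap.trace_id,
        Module.finrank_fin_fun]
  have h5 : ∑ j ∈ e.support, (e j : k) * ∑ i, LinearMap.trace k _
      ((rep ((H j).comp (c i))).asAlgebraHom (r₁ * r₂)) = 0 := by
    refine Finset.sum_eq_zero fun j hj => ?_
    rw [Finset.sum_eq_zero fun i _ => ?_, mul_zero]
    rw [map_mul, hr2 (j, i) (Finset.mem_product.2 ⟨hj, Finset.mem_univ _⟩), zero_mul, map_zero]
  rw [h5] at h3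
  simp only [h4] at h3
  have hi₀ : i₀ ∉ s₁ := by
    intro hi
    refine (Finset.mem_filter.1 hi).2 (isSubquotient_of_equiv ?_)
    exact Representation.Equiv.refl _
  have h6 : (∑ i, if i ∈ s₁ then 0 else (n : k)) =
      (((Finset.univ.filter fun i => i ∉ s₁).card * n : ℕ) : k) := by
    have h7 : ∀ i, (if i ∈ s₁ then 0 else (n : k)) = if i ∉ s₁ then (n : k) else 0 := fun i => by
      by_cases hi : i ∈ s₁ <;> simp [hi]
    rw [Finset.sum_congr rfl fun i _ => h7 i, ← Finset.sum_filter, Finset.sum_const, nsmul_eq_mul]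
    push_cast
    rfl
  rw [h6] at h3
  have h7 : 0 < (Finset.univ.filter fun i => i ∉ s₁).card :=
    Finset.card_pos.2 ⟨i₀, Finset.mem_filter.2 ⟨Finset.mem_univ _, hi₀⟩⟩
  have h8 : d * ((Finset.univ.filter fun i => i ∉ s₁).card * n) = 0 := by exact_mod_cast h3
  have hn : n = 0 := by
    rcases Nat.mul_eq_zero.1 h8 with h9 | h9
    · omega
    · rcases Nat.mul_eq_zero.1 h9 with h10 | h10
      · omega
      · exact h10
  subst hn
  have h9 : Nontrivial (Subrepresentation (rep (ρ.comp (c i₀)))) := hρ.toNontrivial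
  obtain ⟨a, b, hab⟩ := h9
  apply hab
  apply Subrepresentation.toSubmodule_injective
  ext x
  have hx : x = 0 := Subsingleton.elim _ _
  rw [hx]
  exact ⟨fun _ => zero_mem _, fun _ => zero_mem _⟩

end

/-! ### Frobenius elements -/

section
variable {K : Type} [Field K] [NumberField K] {k : Type} [Field k] {G : Type} [Group G]

/-- The characteristic polynomials of the matrices of the Frobenius elements, considered as complex
polynomials by `ι : k → ℂ`. -/
noncomputable def frobPoly (ι : k →+* ℂ) (Frob : HeightOneSpectrum (𝓞 K) → G) {n : ℕ}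
    (ρ : G →* GL (Fin n) k) : HeightOneSpectrum (𝓞 K) → Polynomial ℂ :=
  fun v => (ρ (Frob v)).val.charpoly.map ι

variable {I : Type} [Fintype I] {G' : Type} [Group G']

/-- The primes of `K` above `p` have degree one and are numbered by `I`, and `c_i(x)` is conjugate to
the Frobenius element at the `i`-th of them. -/
def SplitFrob (Frob : HeightOneSpectrum (𝓞 K) → G) (c : I → G' →* G) (p : Nat.Primes)
    (x : G') : Prop :=
  ∃ b : I → HeightOneSpectrum (𝓞 K), Function.Injective b ∧
    (∀ v : HeightOneSpectrum (𝓞 K), v ∈ Sp p ↔ ∃ i, b i = v) ∧ (∀ i, dg (b i) = 1) ∧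
    ∀ i, ∃ h : G, c i x = h * Frob (b i) * h⁻¹

lemma charpoly_conj {n : ℕ} (ρ : G →* GL (Fin n) k) (h g : G) :
    (ρ (h * g * h⁻¹)).val.charpoly = (ρ g).val.charpoly := by
  rw [map_mul, map_mul, map_inv, Units.val_mul, Units.val_mul, Matrix.charpoly_mul_comm,
    ← mul_assoc, ← Units.val_mul, inv_mul_cancel, Units.val_one, one_mul]

lemma above_split {ι : k →+* ℂ} {Frob : HeightOneSpectrum (𝓞 K) → G} {c : I → G' →* G}
    {p : Nat.Primes} {x : G'} (hx : SplitFrob Frob c p x) {n : ℕ} (ρ : G →* GL (Fin n) k) :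
    above (frobPoly ι Frob ρ) p = ∏ i, ((ρ (c i x)).val.charpoly.map ι) := by
  classical
  obtain ⟨b, hb, hSp, hdg, hc⟩ := hx
  have h1 : (Sp p : Finset (HeightOneSpectrum (𝓞 K))) = Finset.univ.image b := by
    ext v
    rw [hSp, Finset.mem_image]
    simp
  unfold above
  rw [h1, Finset.prod_image fun i _ j _ h => hb h]
  refine Finset.prod_congr rfl fun i _ => ?_
  obtain ⟨h, hh⟩ := hc i
  rw [hdg i, Polynomial.expand_one, hh, charpoly_conj]
  rfl

lemma trace_split {ι : k →+* ℂ} {Frob : HeightOneSpectrum (𝓞 K) → G} {c : I → G' →* G}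
    {p : Nat.Primes} {x : G'} (hx : SplitFrob Frob c p x) {n r : ℕ} (ρ : G →* GL (Fin n) k)
    {A : Matrix (Fin r) (Fin r) ℂ} (hA : A.charpoly = above (frobPoly ι Frob ρ) p) :
    A.trace = ι (∑ i, (ρ (c i x)).val.trace) := by
  have h1 : A.charpoly.nextCoeff = ∑ i, ((ρ (c i x)).val.charpoly.map ι).nextCoeff := by
    rw [hA, above_split hx]
    exact Polynomial.Monic.nextCoeff_prod _ _ fun i _ => (Matrix.charpoly_monic _).map ι
  rw [Matrix.trace_eq_neg_charpoly_nextCoeff A, h1, map_sum, ← Finset.sum_neg_distrib]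
  refine Finset.sum_congr rfl fun i _ => ?_
  rw [Polynomial.nextCoeff_map ι.injective, Matrix.trace_eq_neg_charpoly_nextCoeff, map_neg]

variable [TopologicalSpace k] [TopologicalSpace G']

/-- **From a virtual relation at the primes to a relation between sums of characters.** -/
theorem character_relationK [IsTopologicalRing k] [T1Space k] (ι : k →+* ℂ)
    {Frob : HeightOneSpectrum (𝓞 K) → G} {c : I → G' →* G}
    (hC : ∀ T : Finset ℕ, Dense {x : G' | ∃ p : Nat.Primes, (p : ℕ) ∉ T ∧ SplitFrob Frob c p x})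
    {n : ℕ} {ρ : G →* GL (Fin n) k} (hρ : ∀ i, IsCont (ρ.comp (c i))) {J : Type} {m : J → ℕ}
    {H : ∀ j, G →* GL (Fin (m j)) k} (hH : ∀ j i, IsCont ((H j).comp (c i)))
    {SA : Finset ℕ} {SB : J → Finset ℕ} {r : ℕ} {A : Nat.Primes → Matrix (Fin r) (Fin r) ℂ}
    {q : J → ℕ} {B : ∀ j, Nat.Primes → Matrix (Fin (q j)) (Fin (q j)) ℂ}
    (hA : ∀ p : Nat.Primes, (p : ℕ) ∉ SA → (A p).charpoly = above (frobPoly ι Frob ρ) p)
    (hB : ∀ j (p : Nat.Primes), (p : ℕ) ∉ SB j →
      (B j p).charpoly = above (frobPoly ι Frob (H j)) p)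
    (h : VirtualRelation ∅ A B) :
    ∃ d : ℕ, 0 < d ∧ ∃ e : J →₀ ℤ, ∀ g : G', (d : k) * ∑ i, (ρ (c i g)).val.trace =
      ∑ j ∈ e.support, (e j : k) * ∑ i, (H j (c i g)).val.trace := by
  classical
  obtain ⟨d, hd, e, hfin⟩ := h
  refine ⟨d, hd, e, ?_⟩
  set F : G' → k := fun g => (d : k) * ∑ i, (ρ (c i g)).val.trace -
    ∑ j ∈ e.support, (e j : k) * ∑ i, (H j (c i g)).val.trace with hF
  have hcont : Continuous F := by
    have h1 : ∀ {r : ℕ} {σ : G' →* GL (Fin r) k}, IsCont σ →
        Continuous fun g => (σ g).val.trace := by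
      intro r σ hσ
      unfold Matrix.trace
      exact continuous_finsetSum _ fun i _ => hσ i i
    exact (continuous_const.mul (continuous_finsetSum _ fun i _ => h1 (hρ i))).sub
      (continuous_finsetSum _ fun j _ => continuous_const.mul
        (continuous_finsetSum _ fun i _ => h1 (hH j i)))
  set T : Finset ℕ := (hfin.toFinset.image fun p : Nat.Primes => (p : ℕ)) ∪ SA ∪
    e.support.biUnion SB with hT
  have hzero : ∀ g ∈ {x : G' | ∃ p : Nat.Primes, (p : ℕ) ∉ T ∧ SplitFrob Frob c p x},
      F g = 0 := by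
    rintro g ⟨p, hpT, hsp⟩
    have hp1 : (p : ℕ) ∉ hfin.toFinset.image fun p : Nat.Primes => (p : ℕ) := fun hp =>
      hpT (by rw [hT]; exact Finset.mem_union_left _ (Finset.mem_union_left _ hp))
    have hp2 : (p : ℕ) ∉ SA := fun hp =>
      hpT (by rw [hT]; exact Finset.mem_union_left _ (Finset.mem_union_right _ hp))
    have hp3 : ∀ j ∈ e.support, (p : ℕ) ∉ SB j := fun j hj hp =>
      hpT (by rw [hT]; exact Finset.mem_union_right _ (Finset.mem_biUnion.2 ⟨j, hj, hp⟩))
    have h1 : ∀ z, (d : ℤ) * ((A p).charpoly.rootMultiplicity z : ℤ) =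
        e.sum fun j c => c * ((B j p).charpoly.rootMultiplicity z : ℤ) := by
      by_contra hne
      push Not at hne
      apply hp1
      rw [Finset.mem_image]
      exact ⟨p, hfin.mem_toFinset.2 ⟨Finset.notMem_empty _, hne⟩, rfl⟩
    set Z : Finset ℂ := (A p).charpoly.roots.toFinset ∪
      e.support.biUnion fun j => (B j p).charpoly.roots.toFinset with hZ
    have h2 := trace_eq_mult (A p) Z fun z hz =>
      Finset.mem_union_left _ (Multiset.mem_toFinset.2 hz)
    have h3 : ∀ j ∈ e.support, (B j p).trace =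
        ∑ z ∈ Z, ((B j p).charpoly.rootMultiplicity z : ℂ) * z := fun j hj =>
      trace_eq_mult _ Z fun z hz => Finset.mem_union_right _ (Finset.mem_biUnion.2
        ⟨j, hj, Multiset.mem_toFinset.2 hz⟩)
    have h4 : (d : ℂ) * (A p).trace = ∑ j ∈ e.support, (e j : ℂ) * (B j p).trace := by
      have hR : ∑ j ∈ e.support, (e j : ℂ) * (B j p).trace =
          ∑ j ∈ e.support, ∑ z ∈ Z, (e j : ℂ) *
            (((B j p).charpoly.rootMultiplicity z : ℂ) * z) :=
        Finset.sum_congr rfl fun j hj => by rw [h3 j hj, Finset.mul_sum]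
      rw [h2, hR, Finset.sum_comm (s := e.support), Finset.mul_sum]
      refine Finset.sum_congr rfl fun z _ => ?_
      have h5 := h1 z
      unfold Finsupp.sum at h5
      have h6 : (((d : ℤ) * ((A p).charpoly.rootMultiplicity z : ℤ) : ℤ) : ℂ) =
          ((∑ j ∈ e.support, e j *
            ((B j p).charpoly.rootMultiplicity z : ℤ) : ℤ) : ℂ) := by rw [h5]
      push_cast at h6
      rw [← mul_assoc, h6, Finset.sum_mul]
      exact Finset.sum_congr rfl fun j _ => by ring
    have h7 : ∑ j ∈ e.support, (e j : ℂ) * (B j p).trace =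
        ∑ j ∈ e.support, (e j : ℂ) * ι (∑ i, (H j (c i g)).val.trace) :=
      Finset.sum_congr rfl fun j hj => by rw [trace_split hsp (H j) (hB j p (hp3 j hj))]
    rw [trace_split hsp ρ (hA p hp2), h7] at h4
    have h6 : ι ((d : k) * ∑ i, (ρ (c i g)).val.trace) =
        ι (∑ j ∈ e.support, (e j : k) * ∑ i, (H j (c i g)).val.trace) := by
      rw [map_mul, map_natCast, map_sum ι (fun j => (e j : k) * ∑ i, (H j (c i g)).val.trace), h4]
      exact Finset.sum_congr rfl fun j _ => by rw [map_mul, map_intCast]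
    simp only [hF]
    rw [ι.injective h6, sub_self]
  intro g
  have h1 : F g = 0 := by
    have h2 : IsClosed {g | F g = 0} := isClosed_singleton.preimage hcont
    have h3 : Dense {g | F g = 0} := (hC T).mono hzero
    have h4 := h3.closure_eq
    rw [h2.closure_eq] at h4
    have h5 : g ∈ {g | F g = 0} := by
      rw [h4]
      exact Set.mem_univ g
    exact h5
  exact sub_eq_zero.1 h1

/-- **The edge values of a Galois representation against those of a countable family.** -/
theorem main_geoK [CharZero k] [IsTopologicalRing k] [T1Space k] (ι : k →+* ℂ)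
    {Frob : HeightOneSpectrum (𝓞 K) → G} {c : I → G' →* G} (i₀ : I)
    (hC : ∀ T : Finset ℕ, Dense {x : G' | ∃ p : Nat.Primes, (p : ℕ) ∉ T ∧ SplitFrob Frob c p x})
    {n : ℕ} {ρ : G →* GL (Fin n) k} (hρ : ∀ i, IsCont (ρ.comp (c i)))
    (hirr : (rep (ρ.comp (c i₀))).IsIrreducible) {J : Type} [Countable J] {m : J → ℕ}
    {H : ∀ j, G →* GL (Fin (m j)) k} (hH : ∀ j i, IsCont ((H j).comp (c i)))
    {S : Finset ℕ} (hS : Unram K S) {SJ : J → Finset ℕ} (hSJ : ∀ j, Unram K (SJ j)) {w : ℝ}
    (hP : IsSys S n w (frobPoly ι Frob ρ)) (hPJ : ∀ j, IsSys (SJ j) (m j) w (frobPoly ι Frob (H j)))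
    {l : ℝ → ℂ} (hl : IsEdgeOf S n (frobPoly ι Frob ρ) w l) {lH : J → ℝ → ℂ}
    (hlH : ∀ j, IsEdgeOf (SJ j) (m j) (frobPoly ι Frob (H j)) w (lH j)) :
    (DependentOn l lH → ∃ j i, IsSubquotient (rep (ρ.comp (c i₀))) (rep ((H j).comp (c i)))) ∧
      ((∃ j, Nonempty ((rep ρ).Equiv (rep (H j)))) → DependentOn l lH) ∧
      (DependentOn l lH ∨ IndependentOf l lH) := by
  obtain ⟨A, hA⟩ := exists_mats hS (fun v hv => (hP v hv).1) (fun v hv => (hP v hv).2.1)
  have h1 : ∀ j, ∃ B : Nat.Primes → Matrix (Fin (m j * Module.finrank ℚ K))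
      (Fin (m j * Module.finrank ℚ K)) ℂ, ∀ p : Nat.Primes, (p : ℕ) ∉ SJ j →
      (B p).charpoly = above (frobPoly ι Frob (H j)) p := fun j =>
    exists_mats (hSJ j) (fun v hv => (hPJ j v hv).1) (fun v hv => (hPJ j v hv).2.1)
  choose B hB using h1
  obtain ⟨a1, a2, a3⟩ := sys_bridge hP hA
  have b := fun j => sys_bridge (hPJ j) (hB j)
  obtain ⟨h2, h3⟩ := main_var a1 (fun j => (b j).1) a2 (fun j => (b j).2.1) ((a3 l).1 hl)
    (fun j => ((b j).2.2 _).1 (hlH j))
  refine ⟨fun h => ?_, ?_, h3⟩
  · obtain ⟨d, hd, e, h4⟩ := character_relationK ι hC hρ hH hA hB (h2.2 h)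
    exact subquotient_sum c i₀ hirr hd e h4
  · rintro ⟨j, ⟨E⟩⟩
    refine h2.1 ⟨1, one_pos, Finsupp.single j 1, ?_⟩
    have hfin : ∀ T : Finset ℕ, {p : Nat.Primes | (p : ℕ) ∈ T}.Finite := fun T =>
      Set.Finite.preimage (f := fun p : Nat.Primes => (p : ℕ)) Subtype.val_injective.injOn
        T.finite_toSet
    refine ((hfin S).union (hfin (SJ j))).subset ?_
    rintro p ⟨-, z, hne⟩
    by_contra hno
    rw [Set.mem_union, not_or] at hno
    apply hne
    rw [Finsupp.sum_single_index (zero_mul _), hA p hno.1, hB j p hno.2]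
    have h5 : frobPoly ι Frob ρ = frobPoly ι Frob (H j) := by
      funext v
      unfold frobPoly
      rw [charpoly_equiv E]
    rw [h5]
    push_cast
    ring

end

end Pool.Agent.R629.NF
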