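import Pool.Agent.R629.SP.Tfae
import Pool.Agent.TH339.MP.P7

/-!
# Euler products over number fields as Euler products of matrices over the rational primes
-/

set_option autoImplicit false

namespace Pool.Agent.R629.NF

open Filter Topology MeasureTheory Finset NumberField IsDedekindDomain
open Pool.Agent.R629.SP
open Pool.Agent.TH339.MP (PP FF bl ap bb nm pr dg Sp mem_Sp nm_eq dg_pos hasProd_L eqv sum_fiber
  nm_cpow)

/-- every monic polynomial is the characteristic polynomial of a matrix -/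
theorem exists_matrix {n : ℕ} {P : Polynomial ℂ} (hP : P.Monic) (hn : P.natDegree = n) :
    ∃ M : Matrix (Fin n) (Fin n) ℂ, M.charpoly = P := by
  have h1 : P.roots.card = n := by
    rw [← hn, (IsAlgClosed.splits P).natDegree_eq_card_roots]
  obtain ⟨l, hl⟩ : ∃ l : List ℂ, (l : Multiset ℂ) = P.roots := Quot.exists_rep _
  have h2 : l.length = n := by
    rw [← h1, ← hl]
    rfl
  subst h2
  refine ⟨Matrix.diagonal l.get, ?_⟩
  rw [Matrix.charpoly_diagonal]
  have h3 := (IsAlgClosed.splits P).eq_prod_roots_of_monic hP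
  rw [← hl] at h3
  rw [h3]
  have h4 : (l : Multiset ℂ) = univ.val.map l.get := by
    rw [Fin.univ_val_map]
    simp
  rw [h4, Multiset.map_map]
  rfl

section
variable {K : Type} [Field K] [NumberField K] {N : ℕ}

/-- the characteristic polynomial of the induced matrices -/
noncomputable def polyAt (β : HeightOneSpectrum (𝓞 K) → Fin N → ℂ) (p : Nat.Primes) :
    Polynomial ℂ := ∏ v ∈ Sp p, ∏ j, (Polynomial.X ^ dg v - Polynomial.C (β v j))

lemma polyAt_monic (β : HeightOneSpectrum (𝓞 K) → Fin N → ℂ) (p : Nat.Primes) :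
    (polyAt β p).Monic :=
  Polynomial.monic_prod_of_monic _ _ fun v _ => Polynomial.monic_prod_of_monic _ _ fun j _ =>
    Polynomial.monic_X_pow_sub_C _ (dg_pos v).ne'

lemma polyAt_natDegree (β : HeightOneSpectrum (𝓞 K) → Fin N → ℂ) (p : Nat.Primes) :
    (polyAt β p).natDegree = N * ∑ v ∈ (Sp p : Finset (HeightOneSpectrum (𝓞 K))), dg v := by
  unfold polyAt
  rw [Polynomial.natDegree_prod_of_monic _ _ fun v _ => Polynomial.monic_prod_of_monic _ _
    fun j _ => Polynomial.monic_X_pow_sub_C _ (dg_pos v).ne', Finset.mul_sum]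
  refine Finset.sum_congr rfl fun v _ => ?_
  rw [Polynomial.natDegree_prod_of_monic _ _ fun j _ =>
    Polynomial.monic_X_pow_sub_C _ (dg_pos v).ne']
  simp [Polynomial.natDegree_X_pow_sub_C]

/-- The primes `p ∉ S` are unramified: the residue degrees of the primes above `p` add up to the
degree of the field. -/
def Unram (K : Type) [Field K] [NumberField K] (S : Finset ℕ) : Prop :=
  ∀ p : Nat.Primes, (p : ℕ) ∉ S →
    ∑ v ∈ (Sp p : Finset (HeightOneSpectrum (𝓞 K))), dg v = Module.finrank ℚ K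

/-- `A` is a family of induced matrices. -/
def IsInd {n : ℕ} (S : Finset ℕ) (β : HeightOneSpectrum (𝓞 K) → Fin N → ℂ)
    (A : Nat.Primes → Matrix (Fin n) (Fin n) ℂ) : Prop :=
  ∀ p : Nat.Primes, (p : ℕ) ∉ S → (A p).charpoly = polyAt β p

theorem exists_ind {S : Finset ℕ} (hS : Unram K S) (β : HeightOneSpectrum (𝓞 K) → Fin N → ℂ) :
    ∃ A : Nat.Primes → Matrix (Fin (N * Module.finrank ℚ K)) (Fin (N * Module.finrank ℚ K)) ℂ,
      IsInd S β A := by
  classical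
  have h1 : ∀ p : Nat.Primes, ∃ M : Matrix (Fin (N * Module.finrank ℚ K))
      (Fin (N * Module.finrank ℚ K)) ℂ, (p : ℕ) ∉ S → M.charpoly = polyAt β p := by
    intro p
    by_cases hp : (p : ℕ) ∈ S
    · exact ⟨0, fun h => absurd hp h⟩
    · obtain ⟨M, hM⟩ := exists_matrix (polyAt_monic β p)
        (n := N * Module.finrank ℚ K) (by rw [polyAt_natDegree, hS p hp])
      exact ⟨M, fun _ => hM⟩
  choose A hA using h1
  exact ⟨A, hA⟩

variable {n : ℕ} {S : Finset ℕ} {β : HeightOneSpectrum (𝓞 K) → Fin N → ℂ}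
  {A : Nat.Primes → Matrix (Fin n) (Fin n) ℂ}

lemma ind_bd (hA : IsInd S β A) {w : ℝ}
    (hβ : ∀ v, (pr v : ℕ) ∉ S → ∀ j, ‖β v j‖ ≤ ((nm v : ℕ) : ℝ) ^ w) : Bd S A w := by
  intro p hp z hz
  rw [hA p hp] at hz
  have h1 := (Polynomial.mem_roots (polyAt_monic β p).ne_zero).1 hz
  unfold polyAt at h1
  rw [Polynomial.IsRoot, Polynomial.eval_prod, Finset.prod_eq_zero_iff] at h1
  obtain ⟨v, hv, h2⟩ := h1
  rw [Polynomial.eval_prod, Finset.prod_eq_zero_iff] at h2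
  obtain ⟨j, _, h3⟩ := h2
  rw [Polynomial.eval_sub, Polynomial.eval_pow, Polynomial.eval_X, Polynomial.eval_C,
    sub_eq_zero] at h3
  rw [mem_Sp] at hv
  have h4 := hβ v (by rw [hv]; exact hp) j
  rw [← h3, norm_pow, nm_eq, hv] at h4
  have h5 : (((((p : ℕ)) ^ dg v : ℕ)) : ℝ) ^ w = (((p : ℕ) : ℝ) ^ w) ^ dg v := by
    have hp0 : (0 : ℝ) ≤ ((p : ℕ) : ℝ) := by positivity
    rw [Nat.cast_pow, ← Real.rpow_natCast, ← Real.rpow_natCast, ← Real.rpow_mul hp0,
      ← Real.rpow_mul hp0, mul_comm]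
  rw [h5] at h4
  exact le_of_pow_le_pow_left₀ (dg_pos v).ne' (by positivity) h4

lemma ind_det (hA : IsInd S β A) (hβ : ∀ v, (pr v : ℕ) ∉ S → ∀ j, β v j ≠ 0) (p : Nat.Primes)
    (hp : (p : ℕ) ∉ S) : (A p).det ≠ 0 := by
  intro h0
  have h1 : (A p).charpoly.IsRoot 0 := by
    rw [Polynomial.IsRoot, Matrix.eval_charpoly]
    simp [Matrix.det_neg, h0]
  rw [hA p hp] at h1
  unfold polyAt at h1
  rw [Polynomial.IsRoot, Polynomial.eval_prod, Finset.prod_eq_zero_iff] at h1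
  obtain ⟨v, hv, h2⟩ := h1
  rw [Polynomial.eval_prod, Finset.prod_eq_zero_iff] at h2
  obtain ⟨j, _, h3⟩ := h2
  rw [Polynomial.eval_sub, Polynomial.eval_pow, Polynomial.eval_X, Polynomial.eval_C,
    zero_pow (dg_pos v).ne', zero_sub, neg_eq_zero] at h3
  rw [mem_Sp] at hv
  exact hβ v (by rw [hv]; exact hp) j h3

lemma ind_factor (hA : IsInd S β A) (p : Nat.Primes) (hp : (p : ℕ) ∉ S) (t : ℂ) (ht : t ≠ 0) :
    (1 - t • A p).det = ∏ v ∈ Sp p, ∏ j, (1 - β v j * t ^ dg v) := by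
  rw [det_one_sub (eig_spec (A p)) t ht]
  have h1 : (A p).charpoly = ∏ j, (Polynomial.X - Polynomial.C (eig (A p) j)) := by
    have h3 := (IsAlgClosed.splits (A p).charpoly).eq_prod_roots_of_monic (A p).charpoly_monic
    rw [eig_spec, Multiset.map_map] at h3
    exact h3
  have h2 : (∏ j, (1 - t * eig (A p) j)) = t ^ n * (A p).charpoly.eval t⁻¹ := by
    rw [h1, Polynomial.eval_prod]
    have h4 : t ^ n = ∏ _j : Fin n, t := by simp
    rw [h4, ← Finset.prod_mul_distrib]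
    refine Finset.prod_congr rfl fun j _ => ?_
    rw [Polynomial.eval_sub, Polynomial.eval_X, Polynomial.eval_C, mul_sub, mul_inv_cancel₀ ht]
  have h3 : n = N * ∑ v ∈ (Sp p : Finset (HeightOneSpectrum (𝓞 K))), dg v := by
    rw [← polyAt_natDegree β p, ← hA p hp, Matrix.charpoly_natDegree_eq_dim, Fintype.card_fin]
  have h5 : t ^ n = ∏ v ∈ (Sp p : Finset (HeightOneSpectrum (𝓞 K))), ∏ _j : Fin N, t ^ dg v := by
    rw [h3, mul_comm, pow_mul, ← Finset.prod_pow_eq_pow_sum, ← Finset.prod_pow]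
    refine Finset.prod_congr rfl fun v _ => ?_
    simp
  rw [h2, hA p hp, h5]
  unfold polyAt
  rw [Polynomial.eval_prod, ← Finset.prod_mul_distrib]
  refine Finset.prod_congr rfl fun v _ => ?_
  rw [Polynomial.eval_prod, ← Finset.prod_mul_distrib]
  refine Finset.prod_congr rfl fun j _ => ?_
  rw [Polynomial.eval_sub, Polynomial.eval_pow, Polynomial.eval_X, Polynomial.eval_C, mul_sub,
    ← mul_pow, mul_inv_cancel₀ ht, one_pow]
  ring

open Classical in
/-- The Euler product over the primes of `K` which do not lie above the primes in `S`. -/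
noncomputable def LK (S : Finset ℕ) (β : HeightOneSpectrum (𝓞 K) → Fin N → ℂ) (s : ℂ) : ℂ :=
  ∏' v : HeightOneSpectrum (𝓞 K), if (pr v : ℕ) ∈ S then 1 else
    ∏ j, (1 - β v j * ((nm v : ℕ) : ℂ) ^ (-s))⁻¹

open Classical in
theorem LK_eq (hA : IsInd S β A) {w : ℝ}
    (hβ : ∀ v, (pr v : ℕ) ∉ S → ∀ j, ‖β v j‖ ≤ ((nm v : ℕ) : ℝ) ^ w) {s : ℂ}
    (hs : 1 + w < s.re) : LK S β s = LM S A s := by
  set γ : HeightOneSpectrum (𝓞 K) → Fin N → ℂ := fun v j =>
    if (pr v : ℕ) ∈ S then 0 else β v j * ((nm v : ℕ) : ℂ) ^ (-(w : ℂ)) with hγdef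
  have hpos : ∀ v : HeightOneSpectrum (𝓞 K), 0 < nm v := fun v => by
    rw [nm_eq]
    exact pow_pos (pr v).2.pos _
  have hne : ∀ v : HeightOneSpectrum (𝓞 K), ((nm v : ℕ) : ℂ) ≠ 0 := fun v => by
    exact_mod_cast (hpos v).ne'
  have hγ : ∀ v j, ‖γ v j‖ ≤ 1 := by
    intro v j
    simp only [hγdef]
    split_ifs with hv
    · simp
    · have hq : (0 : ℝ) < ((nm v : ℕ) : ℝ) := by exact_mod_cast hpos v
      rw [norm_mul, Complex.norm_natCast_cpow_of_pos (hpos v)]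
      have h2 : (-(w : ℂ)).re = -w := by simp
      rw [h2]
      calc ‖β v j‖ * ((nm v : ℕ) : ℝ) ^ (-w) ≤ ((nm v : ℕ) : ℝ) ^ w * ((nm v : ℕ) : ℝ) ^ (-w) :=
            mul_le_mul_of_nonneg_right (hβ v hv j) (by positivity)
        _ = 1 := by rw [← Real.rpow_add hq]; simp
  have hsw : 1 < (s - w).re := by
    rw [Complex.sub_re, Complex.ofReal_re]
    linarith
  have h1 := hasProd_L hγ hsw
  have h2 : ∀ v : HeightOneSpectrum (𝓞 K),
      (∏ j, (1 - γ v j * ((nm v : ℕ) : ℂ) ^ (-(s - w)))⁻¹) = if (pr v : ℕ) ∈ S then 1 else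
        ∏ j, (1 - β v j * ((nm v : ℕ) : ℂ) ^ (-s))⁻¹ := by
    intro v
    simp only [hγdef]
    split_ifs with hv
    · simp
    · refine Finset.prod_congr rfl fun j _ => ?_
      have h3 : -s = -(w : ℂ) + -(s - w) := by ring
      rw [h3, Complex.cpow_add _ _ (hne v)]
      ring
  simp only [h2] at h1
  have h3 : LK S β s = Complex.exp (FF (bb γ) (s - w)) := h1.tprod_eq
  have h4 := ((eqv (K := K)).hasProd_iff).2 h1
  have h5 := h4.sigma (g := fun p : Nat.Primes => if (p : ℕ) ∈ S then 1 else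
      ((1 - (((p : ℕ) : ℂ) ^ (-s)) • A p).det)⁻¹) (fun p => by
    have h6 := hasProd_fintype (fun c : {v : HeightOneSpectrum (𝓞 K) // pr v = p} =>
      ((fun v : HeightOneSpectrum (𝓞 K) => if (pr v : ℕ) ∈ S then (1 : ℂ) else
        ∏ j, (1 - β v j * ((nm v : ℕ) : ℂ) ^ (-s))⁻¹) ∘ eqv) ⟨p, c⟩)
    convert h6 using 1
    have h7 : (∏ c : {v : HeightOneSpectrum (𝓞 K) // pr v = p},
        ((fun v : HeightOneSpectrum (𝓞 K) => if (pr v : ℕ) ∈ S then (1 : ℂ) else
        ∏ j, (1 - β v j * ((nm v : ℕ) : ℂ) ^ (-s))⁻¹) ∘ eqv) ⟨p, c⟩) =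
        ∏ v ∈ Sp p, if (pr v : ℕ) ∈ S then (1 : ℂ) else
        ∏ j, (1 - β v j * ((nm v : ℕ) : ℂ) ^ (-s))⁻¹ :=
      (Finset.prod_subtype (Sp p) (fun v => mem_Sp p v) (fun v => if (pr v : ℕ) ∈ S then
        (1 : ℂ) else ∏ j, (1 - β v j * ((nm v : ℕ) : ℂ) ^ (-s))⁻¹)).symm
    rw [h7]
    have hq : ((p : ℕ) : ℂ) ≠ 0 := by exact_mod_cast p.2.ne_zero
    by_cases hp : (p : ℕ) ∈ S
    · rw [if_pos hp]
      symm
      refine Finset.prod_eq_one fun v hv => ?_
      rw [mem_Sp] at hv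
      rw [hv, if_pos hp]
    · rw [if_neg hp, ind_factor hA p hp _ (by
        rw [Ne, Complex.cpow_eq_zero_iff]
        exact fun h => hq h.1), ← Finset.prod_inv_distrib]
      refine Finset.prod_congr rfl fun v hv => ?_
      rw [mem_Sp] at hv
      rw [hv, if_neg hp, ← Finset.prod_inv_distrib]
      refine Finset.prod_congr rfl fun j _ => ?_
      rw [nm_cpow, hv])
  rw [h3]
  unfold LM
  exact h5.tprod_eq.symm

/-- `l` is the boundary function on the line `Re s = 1 + w` of the Euler product over the primes of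
`K`. -/
def IsBdK (S : Finset ℕ) (β : HeightOneSpectrum (𝓞 K) → Fin N → ℂ) (w : ℝ) (l : ℝ → ℂ) : Prop :=
  ∃ Z : Set ℝ, dimH Z = 0 ∧ ∀ τ : ℝ, τ ∉ Z → l τ ≠ 0 ∧ ∀ C : ℝ,
    Tendsto (LK S β) (𝓝[ang w τ C] (pt w τ)) (𝓝 (l τ))

theorem isBdK_iff (hA : IsInd S β A) {w : ℝ}
    (hβ : ∀ v, (pr v : ℕ) ∉ S → ∀ j, ‖β v j‖ ≤ ((nm v : ℕ) : ℝ) ^ w) (l : ℝ → ℂ) :
    IsBdK S β w l ↔ IsBoundary S A w l := by
  have h1 : ∀ (τ C : ℝ), Tendsto (LK S β) (𝓝[ang w τ C] (pt w τ)) (𝓝 (l τ)) ↔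
      Tendsto (LM S A) (𝓝[ang w τ C] (pt w τ)) (𝓝 (l τ)) := by
    intro τ C
    refine tendsto_congr' ?_
    filter_upwards [self_mem_nhdsWithin] with s hs
    exact LK_eq hA hβ hs.1
  unfold IsBdK IsBoundary
  simp only [h1]

end

end Pool.Agent.R629.NF
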