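import Pool.Agent.R629.NF.Weights
import Mathlib.RingTheory.AlgebraicIndependent.AlgebraicClosure

/-!
# Edge values and linear independence modulo a family
-/

set_option autoImplicit false

namespace Pool.Agent.R629.NF

open Filter Topology Finset MeasureTheory
open Pool.Agent.R629.SP

lemma sum_split {X Y : Type} (e : X ⊕ Y →₀ ℤ) (f : X ⊕ Y → ℤ) :
    ∃ (e1 : X →₀ ℤ) (e2 : Y →₀ ℤ), (∀ x, e1 x = e (Sum.inl x)) ∧ (∀ y, e2 y = e (Sum.inr y)) ∧
      e.sum (fun x k => k * f x) = e1.sum (fun x k => k * f (Sum.inl x)) +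
        e2.sum fun y k => k * f (Sum.inr y) := by
  classical
  refine ⟨e.comapDomain Sum.inl Sum.inl_injective.injOn,
    e.comapDomain Sum.inr Sum.inr_injective.injOn, fun _ => rfl, fun _ => rfl, ?_⟩
  induction e using Finsupp.induction_linear with
  | zero => simp
  | add a b ha hb =>
    rw [Finsupp.sum_add_index' (fun _ => zero_mul _) (fun _ _ _ => add_mul _ _ _), ha, hb,
      Finsupp.comapDomain_add_of_injective Sum.inl_injective,
      Finsupp.comapDomain_add_of_injective Sum.inr_injective,
      Finsupp.sum_add_index' (fun _ => zero_mul _) (fun _ _ _ => add_mul _ _ _),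
      Finsupp.sum_add_index' (fun _ => zero_mul _) (fun _ _ _ => add_mul _ _ _)]
    ring
  | single x k =>
    rw [Finsupp.sum_single_index (zero_mul _)]
    cases x with
    | inl x =>
      have h1 : (Finsupp.single (Sum.inl x : X ⊕ Y) k).comapDomain Sum.inl
          Sum.inl_injective.injOn = Finsupp.single x k := Finsupp.comapDomain_single _ _ _ _
      have h2 : (Finsupp.single (Sum.inl x : X ⊕ Y) k).comapDomain Sum.inr
          Sum.inr_injective.injOn = 0 := by
        ext y
        simp
      rw [h1, h2, Finsupp.sum_single_index (zero_mul _)]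
      simp
    | inr y =>
      have h1 : (Finsupp.single (Sum.inr y : X ⊕ Y) k).comapDomain Sum.inr
          Sum.inr_injective.injOn = Finsupp.single y k := Finsupp.comapDomain_single _ _ _ _
      have h2 : (Finsupp.single (Sum.inr y : X ⊕ Y) k).comapDomain Sum.inl
          Sum.inl_injective.injOn = 0 := by
        ext y
        simp
      rw [h1, h2, Finsupp.sum_single_index (zero_mul _)]
      simp

section
variable {I J : Type} {n : I → ℕ} {m : J → ℕ}

/-- No relation between the `A_i` modulo the `B_j`: if an integral combination of the divisors of the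
eigenvalues of the `A_{i,p}` is equal to one of the divisors of the eigenvalues of the `B_{j,p}` for
almost all `p`, its coefficients are zero. -/
def NoRelation (A : ∀ i, Nat.Primes → Matrix (Fin (n i)) (Fin (n i)) ℂ)
    (B : ∀ j, Nat.Primes → Matrix (Fin (m j)) (Fin (m j)) ℂ) : Prop :=
  ∀ (c : I →₀ ℤ) (e : J →₀ ℤ), {p : Nat.Primes | ∃ z,
    (c.sum fun i k => k * ((A i p).charpoly.rootMultiplicity z : ℤ)) ≠
      e.sum fun j k => k * ((B j p).charpoly.rootMultiplicity z : ℤ)}.Finite → c = 0

/-- The family of the `B_j` and the `A_i'`, `i' ≠ i`. -/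
def withOthers (A : ∀ i, Nat.Primes → Matrix (Fin (n i)) (Fin (n i)) ℂ)
    (B : ∀ j, Nat.Primes → Matrix (Fin (m j)) (Fin (m j)) ℂ) (i : I) :
    ∀ x : J ⊕ {i' // i' ≠ i}, Nat.Primes →
      Matrix (Fin (Sum.elim m (fun i' => n i'.1) x)) (Fin (Sum.elim m (fun i' => n i'.1) x)) ℂ
  | Sum.inl j => B j
  | Sum.inr i' => A i'.1

theorem noRelation_iff {A : ∀ i, Nat.Primes → Matrix (Fin (n i)) (Fin (n i)) ℂ}
    {B : ∀ j, Nat.Primes → Matrix (Fin (m j)) (Fin (m j)) ℂ} :
    NoRelation A B ↔ ∀ i, ¬ VirtualRelation ∅ (A i) (withOthers A B i) := by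
  classical
  constructor
  · rintro h i ⟨d, hd, e, hfin⟩
    obtain ⟨e1, e2, he1, he2, -⟩ := sum_split e (fun _ => 0)
    set c : I →₀ ℤ := Finsupp.single i (d : ℤ) - e2.mapDomain Subtype.val with hc
    have h1 : c = 0 := by
      refine h c e1 (hfin.subset ?_)
      rintro p ⟨z, hz⟩
      refine ⟨Finset.notMem_empty _, z, fun h2 => hz ?_⟩
      obtain ⟨e1', e2', he1', he2', h3⟩ := sum_split e
        (fun x => ((withOthers A B i x p).charpoly.rootMultiplicity z : ℤ))
      have h4 : e1' = e1 := by
        ext x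
        rw [he1', he1]
      have h5 : e2' = e2 := by
        ext x
        rw [he2', he2]
      rw [h3, h4, h5] at h2
      rw [hc, Finsupp.sum_sub_index (fun _ _ _ => sub_mul _ _ _),
        Finsupp.sum_single_index (zero_mul _),
        Finsupp.sum_mapDomain_index (fun _ => zero_mul _) (fun _ _ _ => add_mul _ _ _), h2]
      change _ + (e2.sum fun y k => k * ((A y.1 p).charpoly.rootMultiplicity z : ℤ)) - _ = _
      rw [add_sub_cancel_right]
      rfl
    have h2 := DFunLike.congr_fun h1 i
    rw [hc, Finsupp.sub_apply, Finsupp.single_eq_same, Finsupp.mapDomain_of_notMem_range,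
      sub_zero] at h2
    · simp only [Finsupp.coe_zero, Pi.zero_apply, Nat.cast_eq_zero] at h2
      omega
    · rintro ⟨y, hy⟩
      exact y.2 hy
  · intro h c e hfin
    by_contra hc
    obtain ⟨i, hi⟩ := Finsupp.ne_iff.1 hc
    rw [Finsupp.zero_apply] at hi
    -- change the sign
    have key : ∀ (c : I →₀ ℤ) (e : J →₀ ℤ), 0 < c i → {p : Nat.Primes | ∃ z,
        (c.sum fun i k => k * ((A i p).charpoly.rootMultiplicity z : ℤ)) ≠
        e.sum fun j k => k * ((B j p).charpoly.rootMultiplicity z : ℤ)}.Finite → False := by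
      intro c e hpos hfin
      apply h i
      set e2 : {i' // i' ≠ i} →₀ ℤ := (c.erase i).subtypeDomain fun i' => i' ≠ i with he2
      refine ⟨(c i).toNat, by omega, Finsupp.sumElim e (-e2), hfin.subset ?_⟩
      rintro p ⟨-, z, hz⟩
      refine ⟨z, fun h2 => hz ?_⟩
      obtain ⟨e1', e2', he1', he2', h3⟩ := sum_split (Finsupp.sumElim e (-e2))
        (fun x => ((withOthers A B i x p).charpoly.rootMultiplicity z : ℤ))
      have h4 : e1' = e := by
        ext x
        rw [he1']
        rfl
      have h5 : e2' = -e2 := by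
        ext x
        rw [he2']
        rfl
      rw [h3, h4, h5, Finsupp.sum_neg_index (fun _ => zero_mul _)]
      change _ = (e.sum fun j k => k * ((B j p).charpoly.rootMultiplicity z : ℤ)) +
        e2.sum fun y k => -k * ((A y.1 p).charpoly.rootMultiplicity z : ℤ)
      rw [← h2, Int.toNat_of_nonneg hpos.le]
      have h6 : (e2.sum fun y k => k * ((A y.1 p).charpoly.rootMultiplicity z : ℤ)) =
          (c.erase i).sum fun i k => k * ((A i p).charpoly.rootMultiplicity z : ℤ) :=
        Finsupp.sum_subtypeDomain_index (h := fun i k =>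
          k * ((A i p).charpoly.rootMultiplicity z : ℤ)) fun x hx => by
            rintro rfl
            rw [Finsupp.mem_support_iff, Finsupp.erase_same] at hx
            exact hx rfl
      have h7 : (e2.sum fun y k => -k * ((A y.1 p).charpoly.rootMultiplicity z : ℤ)) =
          -(e2.sum fun y k => k * ((A y.1 p).charpoly.rootMultiplicity z : ℤ)) := by
        unfold Finsupp.sum
        rw [← Finset.sum_neg_distrib]
        exact Finset.sum_congr rfl fun _ _ => by ring
      have h8 := Finsupp.add_sum_erase c i (fun i k =>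
        k * ((A i p).charpoly.rootMultiplicity z : ℤ))
        (Finsupp.mem_support_iff.2 hpos.ne')
      rw [h7, h6, ← h8]
      ring
    rcases lt_or_gt_of_ne hi with h1 | h1
    · refine key (-c) (-e) (by rw [Finsupp.neg_apply]; omega) (hfin.subset ?_)
      rintro p ⟨z, hz⟩
      refine ⟨z, fun h2 => hz ?_⟩
      rw [Finsupp.sum_neg_index (fun _ => zero_mul _), Finsupp.sum_neg_index (fun _ => zero_mul _)]
      unfold Finsupp.sum at h2 ⊢
      simp only [neg_mul, Finset.sum_neg_distrib]
      rw [h2]
    · exact key c e h1 hfin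

lemma not_algInd {l : I → ℂ} {lB : J → ℂ} {k : Subfield ℂ} {t : ℝ} {i : I}
    (h : IsAlgebraic (IntermediateField.adjoin k
      (valSet (Sum.elim lB fun i' : {i' // i' ≠ i} => l i'.1) t)) (l i)) :
    ¬ AlgebraicIndependent (IntermediateField.adjoin k (valSet lB t)) l := by
  intro hx
  set F := IntermediateField.adjoin k (valSet lB t) with hF
  set M := IntermediateField.adjoin F (l '' {i}ᶜ) with hM
  have h1 : IsAlgebraic M (l i) := by
    have hFM : ∀ z : ℂ, z ∈ F → z ∈ M := fun z hz => M.algebraMap_mem ⟨z, hz⟩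
    have h2 : ∀ z : ℂ, z ∈ IntermediateField.adjoin k (valSet (Sum.elim lB
        fun i' : {i' // i' ≠ i} => l i'.1) t) → z ∈ M := by
      intro z hz
      induction hz using IntermediateField.adjoin_induction with
      | mem x hx =>
        obtain ⟨(j | i') | o, rfl⟩ := hx
        · exact hFM _ (IntermediateField.subset_adjoin _ _ ⟨Sum.inl j, rfl⟩)
        · exact IntermediateField.subset_adjoin _ _ ⟨i'.1, i'.2, rfl⟩
        · exact hFM _ (IntermediateField.subset_adjoin _ _ ⟨Sum.inr o, rfl⟩)
      | algebraMap x => exact hFM _ (F.algebraMap_mem x)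
      | add x y _ _ hx hy => exact add_mem hx hy
      | inv x _ hx => exact inv_mem hx
      | mul x y _ _ hx hy => exact mul_mem hx hy
    exact isAlgebraic_of_le (IntermediateField.adjoin k (valSet (Sum.elim lB
      fun i' : {i' // i' ≠ i} => l i'.1) t)).toSubalgebra M h2 h
  rw [hM, IntermediateField.isAlgebraic_adjoin_iff] at h1
  exact hx.transcendental_adjoin (s := {i}ᶜ) (i := i) (fun h => h rfl) h1

/-- **Algebraic independence of edge values is linear independence modulo the family.** -/
theorem matroid [Countable I] [Countable J]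
    {A : ∀ i, Nat.Primes → Matrix (Fin (n i)) (Fin (n i)) ℂ}
    {B : ∀ j, Nat.Primes → Matrix (Fin (m j)) (Fin (m j)) ℂ} {w : ℝ} {SI : I → Finset ℕ}
    {SJ : J → Finset ℕ} (hA : ∀ i, Bd (SI i) (A i) w) (hB : ∀ j, Bd (SJ j) (B j) w)
    (hdA : ∀ i (p : Nat.Primes), (p : ℕ) ∉ SI i → (A i p).det ≠ 0)
    (hdB : ∀ j (p : Nat.Primes), (p : ℕ) ∉ SJ j → (B j p).det ≠ 0)
    {l : I → ℝ → ℂ} (hl : ∀ i, IsBoundary (SI i) (A i) w (l i))
    {lB : J → ℝ → ℂ} (hlB : ∀ j, IsBoundary (SJ j) (B j) w (lB j)) :
    [NoRelation A B,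
      ∀ k : Subfield ℂ, (k : Set ℂ).Countable → ∀ᵐ t : ℝ, AlgebraicIndependent
        (IntermediateField.adjoin k (valSet (fun j => lB j t) t)) fun i => l i t,
      ∀ k : Subfield ℂ, (k : Set ℂ).Countable → ¬ ∀ᵐ t : ℝ, ¬ AlgebraicIndependent
        (IntermediateField.adjoin k (valSet (fun j => lB j t) t)) fun i => l i t].TFAE := by
  have hmain := fun i => main_var (J := J ⊕ {i' // i' ≠ i})
    (m := Sum.elim m fun i' => n i'.1) (SB := Sum.elim SJ fun i' => SI i'.1)
    (B := withOthers A B i) (lB := Sum.elim lB fun i' => l i'.1) (hA i)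
    (by rintro (j | i'); exacts [hB j, hA i'.1]) (hdA i)
    (by rintro (j | i'); exacts [hdB j, hdA i'.1]) (hl i)
    (by rintro (j | i'); exacts [hlB j, hl i'.1])
  tfae_have 1 → 2 := by
    intro h k hk
    rw [noRelation_iff] at h
    refine algInd_of_indep (fun i => ?_) k hk
    rcases (hmain i).2 with h1 | h1
    · exact absurd ((hmain i).1.2 h1) (h i)
    · exact h1
  tfae_have 2 → 3 := by
    intro h k hk h1
    obtain ⟨t, h2, h3⟩ := ((h k hk).and h1).exists
    exact h3 h2
  tfae_have 3 → 1 := by
    intro h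
    rw [noRelation_iff]
    intro i hi
    obtain ⟨k, hk, h1⟩ := (hmain i).1.1 hi
    refine h k hk ?_
    filter_upwards [h1] with t ht
    have e1 : (fun j => Sum.elim lB (fun i' : {i' // i' ≠ i} => l i'.1) j t) =
        Sum.elim (fun j => lB j t) fun i' : {i' // i' ≠ i} => l i'.1 t := by
      funext x
      cases x <;> rfl
    rw [e1] at ht
    exact not_algInd (l := fun i => l i t) (lB := fun j => lB j t) (i := i) ht
  tfae_finish

end

end Pool.Agent.R629.NF
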