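import Pool.Agent.R629.NF.Poly2

/-!
# Representations over algebraically closed fields of any characteristic and lifts of eigenvalues
-/

set_option autoImplicit false

namespace Pool.Agent.R629.NF

open Representation Filter Topology Finset NumberField IsDedekindDomain
open scoped MonoidAlgebra

section
variable {k : Type} [Field k] {G : Type} [Group G]

/-- an element of the group algebra acting as the projection to one of the representations -/
theorem exists_projA {J : Type} [Fintype J] [DecidableEq J] {V : J → Type}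
    [∀ j, AddCommGroup (V j)] [∀ j, Module k (V j)]
    [∀ j, FiniteDimensional k (V j)] (σ : ∀ j, Representation k G (V j))
    (hirr : ∀ j, (σ j).IsIrreducible) (hne : ∀ i j, i ≠ j → IsEmpty ((σ i).Equiv (σ j)))
    (i0 : J) (f0 : V i0 →ₗ[k] V i0)
    (hf0 : ∀ g : Module.End k[G] (σ i0).asModule, ∀ x : (σ i0).asModule,
      (σ i0).asModuleEquiv (g ((σ i0).asModuleEquiv.symm (f0 ((σ i0).asModuleEquiv x)))) =
        f0 ((σ i0).asModuleEquiv (g x))) :
    ∃ r : k[G], (σ i0).asAlgebraHom r = f0 ∧ ∀ j, j ≠ i0 → (σ j).asAlgebraHom r = 0 := by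
  classical
  have hs : ∀ j, IsSimpleModule k[G] (σ j).asModule := fun j =>
    (irreducible_iff_isSimpleModule_asModule (σ j)).1 (hirr j)
  let M := ∀ j, (σ j).asModule
  have hoff : ∀ (i j : J), i ≠ j → ∀ φ : (σ i).asModule →ₗ[k[G]] (σ j).asModule, φ = 0 := by
    intro i j hij φ
    have := hirr i
    have := hirr j
    rcases IsIrreducible.bijective_or_eq_zero
      ((IntertwiningMap.equivLinearMapAsModule (σ i) (σ j)).symm φ) with h | h
    · exact ((hne i j hij).false (IntertwiningMap.ofBijective _ h)).elim
    · rwa [LinearEquiv.map_eq_zero_iff] at h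
  have hoff' : ∀ (g : Module.End k[G] M) (i j : J), i ≠ j → ∀ x : (σ i).asModule,
      g (Pi.single i x) j = 0 := by
    intro g i j hij x
    have h := hoff i j hij ((LinearMap.proj j).comp (g.comp (LinearMap.single k[G] _ i)))
    exact LinearMap.congr_fun h x
  have hdiag : ∀ (g : Module.End k[G] M) (m : M) (i : J),
      g m i = g (Pi.single i (m i)) i := by
    intro g m i
    conv_lhs => rw [← Finset.univ_sum_single m]
    rw [map_sum, Finset.sum_apply, Finset.sum_eq_single i]
    · intro b _ hb
      exact hoff' g b i hb _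
    · intro h
      exact absurd (Finset.mem_univ i) h
  let F : (σ i0).asModule → (σ i0).asModule := fun x =>
    (σ i0).asModuleEquiv.symm (f0 ((σ i0).asModuleEquiv x))
  have hF : ∀ (g : Module.End k[G] (σ i0).asModule) (x : (σ i0).asModule), g (F x) = F (g x) := by
    intro g x
    apply (σ i0).asModuleEquiv.injective
    change (σ i0).asModuleEquiv (g (F x)) = (σ i0).asModuleEquiv ((σ i0).asModuleEquiv.symm
      (f0 ((σ i0).asModuleEquiv (g x))))
    rw [LinearEquiv.apply_symm_apply]
    exact hf0 g x
  let f : Module.End (Module.End k[G] M) M :=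
    { toFun := fun m => Pi.single i0 (F (m i0))
      map_add' := fun a b => by
        have h1 : F ((a + b) i0) = F (a i0) + F (b i0) := by
          change (σ i0).asModuleEquiv.symm (f0 ((σ i0).asModuleEquiv (a i0 + b i0))) = _
          rw [map_add, map_add, map_add]
        rw [h1]
        exact Pi.single_add i0 _ _
      map_smul' := fun g m => by
        funext j
        simp only [Module.End.smul_def, RingHom.id_apply]
        by_cases hj : j = i0
        · subst hj
          rw [Pi.single_eq_same]
          have h1 := hF ((LinearMap.proj j).comp (g.comp (LinearMap.single k[G] _ j))) (m j)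
          change g (Pi.single j (F (m j))) j = F (g (Pi.single j (m j)) j) at h1
          rw [h1, hdiag g m j]
        · rw [Pi.single_eq_of_ne hj]
          exact (hoff' g i0 j (Ne.symm hj) _).symm }
  have hbas : ∀ j, ∃ s : Finset (V j), Submodule.span k (s : Set (V j)) = ⊤ := fun j =>
    Module.Finite.fg_top
  choose s hs' using hbas
  let T : Finset M := Finset.univ.biUnion fun j => (s j).image fun v =>
    (Pi.single j ((σ j).asModuleEquiv.symm v) : M)
  obtain ⟨r, hr⟩ := jacobson_density f T
  have key : ∀ j, ∀ v ∈ (s j : Set (V j)), (σ j).asAlgebraHom r v =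
      (σ j).asModuleEquiv ((Pi.single i0 (F ((Pi.single j ((σ j).asModuleEquiv.symm v) : M) i0)) :
        M) j) := by
    intro j v hv
    have h1 := hr (Pi.single j ((σ j).asModuleEquiv.symm v)) (by
      rw [Finset.mem_biUnion]
      exact ⟨j, Finset.mem_univ j, Finset.mem_image_of_mem _ hv⟩)
    have h2 := congr_fun h1 j
    have h3 : (r • (Pi.single j ((σ j).asModuleEquiv.symm v) : M)) j =
        r • ((σ j).asModuleEquiv.symm v) := by
      rw [Pi.smul_apply, Pi.single_eq_same]
    rw [h3] at h2
    have h4 := congrArg (σ j).asModuleEquiv h2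
    rw [asModuleEquiv_map_smul, LinearEquiv.apply_symm_apply] at h4
    rw [← h4]
    rfl
  refine ⟨r, LinearMap.ext_on (hs' i0) fun v hv => ?_, fun j hj =>
    LinearMap.ext_on (hs' j) fun v hv => ?_⟩
  · rw [key i0 v hv, Pi.single_eq_same, Pi.single_eq_same]
    change (σ i0).asModuleEquiv ((σ i0).asModuleEquiv.symm
      (f0 ((σ i0).asModuleEquiv ((σ i0).asModuleEquiv.symm v)))) = _
    rw [LinearEquiv.apply_symm_apply, LinearEquiv.apply_symm_apply]
  · rw [key j v hv, Pi.single_eq_of_ne hj, map_zero]
    rfl

/-- **Linear independence of characters over an algebraically closed field.** -/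
theorem char_indepA [IsAlgClosed k] {J : Type} [Fintype J] {V : J → Type}
    [∀ j, AddCommGroup (V j)] [∀ j, Module k (V j)]
    [∀ j, FiniteDimensional k (V j)] (σ : ∀ j, Representation k G (V j))
    (hirr : ∀ j, (σ j).IsIrreducible) (hne : ∀ i j, i ≠ j → IsEmpty ((σ i).Equiv (σ j)))
    (e : J → k) (he : ∀ g : G, ∑ j, e j * LinearMap.trace k (V j) (σ j g) = 0) (i0 : J) :
    e i0 = 0 := by
  classical
  have hnt : Nontrivial (V i0) := by
    have hs : IsSimpleModule k[G] (σ i0).asModule :=
      (irreducible_iff_isSimpleModule_asModule (σ i0)).1 (hirr i0)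
    have h7 : Nontrivial (σ i0).asModule := IsSimpleModule.nontrivial k[G] _
    exact (σ i0).asModuleEquiv.symm.toEquiv.nontrivial
  obtain ⟨v, hv⟩ := exists_ne (0 : V i0)
  obtain ⟨φ, hφ⟩ := Module.Projective.exists_dual_eq_one k hv
  have hirr0 := hirr i0
  obtain ⟨r, hr0, hr⟩ := exists_projA σ hirr hne i0 (φ.smulRight v) (by
    intro g x
    obtain ⟨c, hc⟩ := (IsIrreducible.algebraMap_intertwiningMap_bijective_of_isAlgClosed
      (ρ := σ i0)).2 ((IntertwiningMap.equivLinearMapAsModule (σ i0) (σ i0)).symm g)
    have hg : ∀ y : (σ i0).asModule, (σ i0).asModuleEquiv (g y) = c • (σ i0).asModuleEquiv y := by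
      intro y
      have h1 : (algebraMap k (IntertwiningMap (σ i0) (σ i0)) c) ((σ i0).asModuleEquiv y) =
          c • (σ i0).asModuleEquiv y := rfl
      rw [← h1, hc]
      rfl
    rw [hg, hg, LinearEquiv.apply_symm_apply, map_smul])
  have h1 : ∀ r : k[G], ∑ j, e j * LinearMap.trace k (V j) ((σ j).asAlgebraHom r) = 0 := by
    intro r
    induction r using MonoidAlgebra.induction_on with
    | of g =>
      simp only [asAlgebraHom_of]
      exact he g
    | add a b ha hb =>
      simp only [map_add, mul_add, Finset.sum_add_distrib]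
      rw [ha, hb, add_zero]
    | smul c a ha =>
      simp only [map_smul, smul_eq_mul]
      have h3 : ∑ j, e j * (c * LinearMap.trace k (V j) ((σ j).asAlgebraHom a)) =
          c * ∑ j, e j * LinearMap.trace k (V j) ((σ j).asAlgebraHom a) := by
        rw [Finset.mul_sum]
        exact Finset.sum_congr rfl fun j _ => by ring
      rw [h3, ha, mul_zero]
  have h2 := h1 r
  rw [Finset.sum_eq_single i0] at h2
  · rw [hr0, LinearMap.trace_smulRight, hφ, mul_one] at h2
    exact h2
  · intro j _ hj
    rw [hr j hj, map_zero, mul_zero]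
  · intro h
    exact absurd (Finset.mem_univ i0) h

/-- **Linear independence of the multisets of eigenvalues.** -/
theorem mult_indep [IsAlgClosed k] {J : Type} [Fintype J] {n : J → ℕ}
    (σ : ∀ j, G →* GL (Fin (n j)) k) (hirr : ∀ j, (rep (σ j)).IsIrreducible)
    (hne : ∀ i j, i ≠ j → IsEmpty ((rep (σ i)).Equiv (rep (σ j)))) (e : J → ℤ)
    (he : ∀ (g : G) (z : k), ∑ j, e j * ((σ j g).val.charpoly.rootMultiplicity z : ℤ) = 0)
    (i0 : J) : e i0 = 0 := by
  classical
  by_contra h0
  -- divide by the greatest common divisor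
  set d : ℤ := Finset.univ.gcd e with hd
  have hd0 : d ≠ 0 := by
    intro h
    exact h0 ((Finset.gcd_eq_zero_iff.1 h) i0 (Finset.mem_univ _))
  obtain ⟨e', he', hgcd⟩ := Finset.extract_gcd e ⟨i0, Finset.mem_univ i0⟩
  have hrel : ∀ (g : G) (z : k),
      ∑ j, e' j * ((σ j g).val.charpoly.rootMultiplicity z : ℤ) = 0 := by
    intro g z
    have h1 := he g z
    have h2 : ∑ j, e j * ((σ j g).val.charpoly.rootMultiplicity z : ℤ) =
        d * ∑ j, e' j * ((σ j g).val.charpoly.rootMultiplicity z : ℤ) := by
      rw [Finset.mul_sum]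
      refine Finset.sum_congr rfl fun j _ => ?_
      rw [he' j (Finset.mem_univ j), mul_assoc]
    rw [h2] at h1
    exact (mul_eq_zero.1 h1).resolve_left hd0
  have htr : ∀ (g : G), ∑ j, (e' j : k) * LinearMap.trace k _ (rep (σ j) g) = 0 := by
    intro g
    set Z : Finset k := Finset.univ.biUnion fun j => (σ j g).val.charpoly.roots.toFinset with hZ
    have h1 : ∀ j, LinearMap.trace k _ (rep (σ j) g) =
        ∑ z ∈ Z, ((σ j g).val.charpoly.rootMultiplicity z : k) * z := by
      intro j
      rw [trace_rep, Matrix.trace_eq_sum_roots_charpoly,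
        Finset.sum_multiset_count_of_subset (s := Z)]
      · refine Finset.sum_congr rfl fun z _ => ?_
        rw [Polynomial.count_roots, nsmul_eq_mul]
      · intro z hz
        exact Finset.mem_biUnion.2 ⟨j, Finset.mem_univ _, hz⟩
    have h2 : ∑ j, (e' j : k) * LinearMap.trace k _ (rep (σ j) g) =
        ∑ z ∈ Z, ((∑ j, e' j * ((σ j g).val.charpoly.rootMultiplicity z : ℤ) : ℤ) : k) * z := by
      have h3 : ∑ j, (e' j : k) * LinearMap.trace k _ (rep (σ j) g) =
          ∑ j, ∑ z ∈ Z, (e' j : k) * (((σ j g).val.charpoly.rootMultiplicity z : k) * z) :=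
        Finset.sum_congr rfl fun j _ => by rw [h1 j, Finset.mul_sum]
      rw [h3, Finset.sum_comm]
      refine Finset.sum_congr rfl fun z _ => ?_
      push_cast
      rw [Finset.sum_mul]
      exact Finset.sum_congr rfl fun j _ => by ring
    rw [h2]
    refine Finset.sum_eq_zero fun z _ => ?_
    rw [hrel g z]
    simp
  have hall : ∀ j, (e' j : k) = 0 := fun j =>
    char_indepA (fun j => rep (σ j)) hirr hne (fun j => (e' j : k)) htr j
  obtain ⟨q, hq⟩ := CharP.exists k
  have hdvd : ∀ j, (q : ℤ) ∣ e' j := fun j => (CharP.intCast_eq_zero_iff k q (e' j)).1 (hall j)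
  have h1 : (q : ℤ) ∣ Finset.univ.gcd e' := Finset.dvd_gcd fun j _ => hdvd j
  rw [hgcd] at h1
  have h2 : q = 1 := by
    have := Int.natAbs_dvd_natAbs.2 h1
    simpa using this
  subst h2
  exact CharP.char_ne_one k 1 rfl

end

end Pool.Agent.R629.NF
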