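import Pool.Agent.R629.NF.ModP

/-!
# Euler products of lifted eigenvalues of mod p representations
-/

set_option autoImplicit false

namespace Pool.Agent.R629.NF

open Representation Filter Topology Finset NumberField IsDedekindDomain MeasureTheory
open scoped MonoidAlgebra
open Pool.Agent.R629.SP
open Pool.Agent.TH339.MP (nm pr dg Sp mem_Sp nm_eq dg_pos)

section
variable {k : Type} [Field k] {G : Type} [Group G]

/-- **Relations between multisets of eigenvalues of irreducible representations.** -/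
theorem class_indep [IsAlgClosed k] {X : Type} [Fintype X] {n : X → ℕ}
    (σ : ∀ x, G →* GL (Fin (n x)) k) (hirr : ∀ x, (rep (σ x)).IsIrreducible) (a : X → ℤ)
    (ha : ∀ (g : G) (z : k), ∑ x, a x * ((σ x g).val.charpoly.rootMultiplicity z : ℤ) = 0)
    (x₀ : X) (s : Finset X)
    (hs : ∀ x, x ∈ s ↔ Nonempty ((rep (σ x)).Equiv (rep (σ x₀)))) : ∑ x ∈ s, a x = 0 := by
  classical
  let r : Setoid X := {
    r := fun x y => Nonempty ((rep (σ x)).Equiv (rep (σ y)))
    iseqv := ⟨fun x => ⟨Representation.Equiv.refl _⟩, fun ⟨e⟩ => ⟨e.symm⟩,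
      fun ⟨e⟩ ⟨f⟩ => ⟨e.trans f⟩⟩ }
  have hfin : Fintype (Quotient r) := Fintype.ofFinite _
  have hout : ∀ q : Quotient r, Quotient.mk r q.out = q := fun q => Quotient.out_eq q
  have h1 : ∀ q : Quotient r, ∑ x ∈ Finset.univ.filter (fun x => Quotient.mk r x = q), a x = 0 :=
    mult_indep (fun q : Quotient r => σ q.out) (fun q => hirr q.out) (fun q q' hqq => by
      refine ⟨fun E => hqq ?_⟩
      rw [← hout q, ← hout q']
      exact Quotient.sound ⟨E⟩) _ (fun g z => by
      rw [← ha g z, ← Finset.sum_fiberwise Finset.univ (fun x => Quotient.mk r x)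
        (fun x => a x * ((σ x g).val.charpoly.rootMultiplicity z : ℤ))]
      refine Finset.sum_congr rfl fun q _ => ?_
      rw [Finset.sum_mul]
      refine Finset.sum_congr rfl fun x hx => ?_
      have h2 : Quotient.mk r x = Quotient.mk r q.out := by
        rw [hout q]
        exact (Finset.mem_filter.1 hx).2
      obtain ⟨E⟩ : Nonempty ((rep (σ x)).Equiv (rep (σ q.out))) := Quotient.exact h2
      rw [charpoly_equiv E g])
  have h2 := h1 (Quotient.mk r x₀)
  convert h2 using 1
  refine Finset.sum_congr ?_ fun _ _ => rfl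
  ext x
  rw [hs, Finset.mem_filter]
  constructor
  · intro h
    exact ⟨Finset.mem_univ _, Quotient.sound h⟩
  · rintro ⟨-, h⟩
    exact Quotient.exact h

end

/-! ### Lifts -/

section
variable {k : Type} [Field k] [IsAlgClosed k]

/-- The polynomial over `ℂ` whose roots are the images under `θ` of the roots of `P`. -/
noncomputable def liftPoly (θ : k → ℂ) (P : Polynomial k) : Polynomial ℂ :=
  (P.roots.map fun z => Polynomial.X - Polynomial.C (θ z)).prod

lemma liftPoly_monic (θ : k → ℂ) (P : Polynomial k) : (liftPoly θ P).Monic := by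
  unfold liftPoly
  exact Polynomial.monic_multiset_prod_of_monic _ _ fun z _ => Polynomial.monic_X_sub_C _

lemma liftPoly_roots (θ : k → ℂ) (P : Polynomial k) : (liftPoly θ P).roots = P.roots.map θ := by
  unfold liftPoly
  have h1 : (P.roots.map fun z => Polynomial.X - Polynomial.C (θ z)) =
      (P.roots.map θ).map fun z => Polynomial.X - Polynomial.C z := by
    rw [Multiset.map_map]
    rfl
  rw [h1, Polynomial.roots_multiset_prod_X_sub_C]

lemma liftPoly_natDegree (θ : k → ℂ) {n : ℕ} (A : Matrix (Fin n) (Fin n) k) :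
    (liftPoly θ A.charpoly).natDegree = n := by
  have h1 : (liftPoly θ A.charpoly).roots.card = n := by
    rw [liftPoly_roots, Multiset.card_map, ← (IsAlgClosed.splits _).natDegree_eq_card_roots,
      Matrix.charpoly_natDegree_eq_dim, Fintype.card_fin]
  exact (IsAlgClosed.splits _).natDegree_eq_card_roots.trans h1

lemma liftPoly_mult {θ : k → ℂ} (hθ : Function.Injective θ) (P : Polynomial k) (z : k) :
    (liftPoly θ P).rootMultiplicity (θ z) = P.rootMultiplicity z := by
  classical
  rw [← Polynomial.count_roots, ← Polynomial.count_roots, liftPoly_roots,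
    Multiset.count_map_eq_count' _ _ hθ]

variable {K : Type} [Field K] [NumberField K] {G : Type} [Group G]

/-- The polynomials whose roots are the lifts of the eigenvalues of the Frobenius elements. -/
noncomputable def frobLift (θ : k → ℂ) (Frob : HeightOneSpectrum (𝓞 K) → G) {n : ℕ}
    (ρ : G →* GL (Fin n) k) : HeightOneSpectrum (𝓞 K) → Polynomial ℂ :=
  fun v => liftPoly θ (ρ (Frob v)).val.charpoly

lemma frobLift_sys {θ : k → ℂ} (hθ1 : ∀ z : k, z ≠ 0 → ‖θ z‖ = 1)
    (Frob : HeightOneSpectrum (𝓞 K) → G) {n : ℕ} (ρ : G →* GL (Fin n) k) (S : Finset ℕ) :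
    IsSysLe S n 0 (frobLift θ Frob ρ) := by
  intro v _
  refine ⟨liftPoly_monic _ _, liftPoly_natDegree _ _, fun z hz => ?_⟩
  unfold frobLift at hz
  rw [liftPoly_roots, Multiset.mem_map] at hz
  obtain ⟨y, hy, rfl⟩ := hz
  have hy0 : y ≠ 0 := by
    rintro rfl
    have h1 := (Polynomial.mem_roots (Matrix.charpoly_monic _).ne_zero).1 hy
    rw [Polynomial.IsRoot, Matrix.eval_charpoly, map_zero, zero_sub, Matrix.det_neg,
      mul_eq_zero] at h1
    rcases h1 with h1 | h1
    · exact pow_ne_zero _ (neg_ne_zero.2 one_ne_zero) h1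
    · exact ((Matrix.isUnit_iff_isUnit_det _).1 (ρ (Frob v)).isUnit).ne_zero h1
  have h1 := hθ1 y hy0
  refine ⟨fun h0 => ?_, ?_⟩
  · rw [h0, norm_zero] at h1
    exact zero_ne_one h1
  · rw [h1, Real.rpow_zero]

variable {Γ : Type} [Fintype Γ] {S₀ : Finset ℕ} [TopologicalSpace G]
  {Frob : HeightOneSpectrum (𝓞 K) → G} {c : Γ → G →* G}
  {act : Γ → HeightOneSpectrum (𝓞 K) → HeightOneSpectrum (𝓞 K)}

lemma lift_conj (hG : IsGalData S₀ Frob c act) (θ : k → ℂ) {n : ℕ} (H : G →* GL (Fin n) k)
    (σ : Γ) {p : Nat.Primes} (hp : (p : ℕ) ∉ S₀) :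
    above (frobLift θ Frob (H.comp (c σ))) p = above (frobLift θ Frob H) p := by
  unfold above
  refine Finset.prod_bij (fun v _ => act σ v) (fun v hv => ?_) (fun v _ v' _ h => ?_)
    (fun v hv => ?_) (fun v hv => ?_)
  · rw [mem_Sp] at hv ⊢
    rw [hG.pr_act, hv]
  · exact (hG.bij σ).1 h
  · obtain ⟨u, rfl⟩ := (hG.bij σ).2 v
    refine ⟨u, ?_, rfl⟩
    rw [mem_Sp] at hv ⊢
    rw [← hv, hG.pr_act]
  · rw [mem_Sp] at hv
    obtain ⟨h, hh⟩ := hG.conj σ v (by rw [hv]; exact hp)
    have h1 : frobLift θ Frob (H.comp (c σ)) v = frobLift θ Frob H (act σ v) := by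
      unfold frobLift
      rw [MonoidHom.comp_apply, hh, charpoly_conj]
    rw [h1, hG.dg_act]

lemma lift_split {θ : k → ℂ} (hθ : Function.Injective θ) {p : Nat.Primes} {x : G}
    (hx : SplitFrob Frob c p x) {n : ℕ} (ρ : G →* GL (Fin n) k) (z : k) :
    (above (frobLift θ Frob ρ) p).rootMultiplicity (θ z) =
      ∑ σ, (ρ (c σ x)).val.charpoly.rootMultiplicity z := by
  classical
  obtain ⟨b, hb, hSp, hdg, hc⟩ := hx
  have h1 : (Sp p : Finset (HeightOneSpectrum (𝓞 K))) = Finset.univ.image b := by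
    ext v
    rw [hSp, Finset.mem_image]
    simp
  unfold above
  rw [h1, Finset.prod_image fun i _ j _ h => hb h, rm_prod _ _ fun i _ => ?_]
  · refine Finset.sum_congr rfl fun i _ => ?_
    obtain ⟨h, hh⟩ := hc i
    rw [hdg i, Polynomial.expand_one, hh, charpoly_conj]
    exact liftPoly_mult hθ _ z
  · rw [hdg i, Polynomial.expand_one]
    exact (liftPoly_monic _ _).ne_zero

/-- The representation is continuous for the discrete topology on the matrices. -/
def IsDiscCont {n : ℕ} (ρ : G →* GL (Fin n) k) : Prop := ∀ g, IsOpen {x | ρ x = ρ g}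

lemma irr_comp {n : ℕ} {ρ : G →* GL (Fin n) k} (hρ : (rep ρ).IsIrreducible) {f : G →* G}
    (hf : Function.Surjective f) : (rep (ρ.comp f)).IsIrreducible := by
  have h0 : Nontrivial (Subrepresentation (rep ρ)) := hρ.toNontrivial
  obtain ⟨a, b, hab⟩ := h0
  have key : ∀ W : Subrepresentation (rep (ρ.comp f)), ∀ (g : G), ∀ x ∈ W.toSubmodule,
      rep ρ g x ∈ W.toSubmodule := by
    intro W g x hx
    obtain ⟨g', rfl⟩ := hf g
    exact W.apply_mem_toSubmodule g' hx
  have hab' : a.toSubmodule ≠ b.toSubmodule := fun h =>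
    hab (Subrepresentation.toSubmodule_injective h)
  let A : Subrepresentation (rep (ρ.comp f)) :=
    ⟨a.toSubmodule, fun g x hx => a.apply_mem_toSubmodule (f g) hx⟩
  let B : Subrepresentation (rep (ρ.comp f)) :=
    ⟨b.toSubmodule, fun g x hx => b.apply_mem_toSubmodule (f g) hx⟩
  have hAB : A ≠ B := fun h => hab'
    (congrArg (fun W : Subrepresentation (rep (ρ.comp f)) => W.toSubmodule) h)
  refine { exists_pair_ne := ⟨A, B, hAB⟩
           eq_bot_or_eq_top := fun W => ?_ }
  let W' : Subrepresentation (rep ρ) := ⟨W.toSubmodule, fun g x hx => key W g x hx⟩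
  rcases hρ.eq_bot_or_eq_top W' with h | h
  · left
    have h1 : W'.toSubmodule = ⊥ :=
      congrArg (fun W : Subrepresentation (rep ρ) => W.toSubmodule) h
    exact Subrepresentation.toSubmodule_injective h1
  · right
    have h1 : W'.toSubmodule = ⊤ :=
      congrArg (fun W : Subrepresentation (rep ρ) => W.toSubmodule) h
    exact Subrepresentation.toSubmodule_injective h1

end

end Pool.Agent.R629.NF
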