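import Pool.Agent.R629.NF.ModP2
import Pool.Agent.R629.NF.Poly2

/-!
# Edge values of mod p representations of a Galois number field
-/

set_option autoImplicit false

namespace Pool.Agent.R629.NF

open Representation Filter Topology Finset NumberField IsDedekindDomain MeasureTheory
open Pool.Agent.R629.SP
open Pool.Agent.TH339.MP (nm pr dg Sp mem_Sp nm_eq dg_pos)

section
variable {k : Type} [Field k] {G : Type} [Group G] {Γ : Type}

/-- `ρ` is isomorphic to a conjugate `ρ' ∘ c_σ` of `ρ'`. -/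
def IsConjugate (c : Γ → G →* G) {n m : ℕ} (ρ : G →* GL (Fin n) k) (ρ' : G →* GL (Fin m) k) :
    Prop :=
  ∃ σ, Nonempty ((rep ρ).Equiv (rep (ρ'.comp (c σ))))

end

section
variable {k : Type} [Field k] [IsAlgClosed k]
variable {K : Type} [Field K] [NumberField K] {G : Type} [Group G]
variable {Γ : Type} [Fintype Γ] {S₀ : Finset ℕ} [TopologicalSpace G]
  {Frob : HeightOneSpectrum (𝓞 K) → G} {c : Γ → G →* G}
  {act : Γ → HeightOneSpectrum (𝓞 K) → HeightOneSpectrum (𝓞 K)}
variable {I J : Type} {n : I → ℕ} {m : J → ℕ}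

/-- A relation between the Euler products is one between the multisets of eigenvalues. -/
lemma rel_all (hG : IsGalData S₀ Frob c act) {θ : k → ℂ} (hθ : Function.Injective θ)
    {R : ∀ i, G →* GL (Fin (n i)) k} (hR : ∀ i, IsDiscCont (R i))
    {H : ∀ j, G →* GL (Fin (m j)) k} (hH : ∀ j, IsDiscCont (H j)) (a : I →₀ ℤ) (e : J →₀ ℤ)
    (hfin : {p : Nat.Primes | ∃ z,
      (a.sum fun i k => k * ((above (frobLift θ Frob (R i)) p).rootMultiplicity z : ℤ)) ≠
      e.sum fun j k => k * ((above (frobLift θ Frob (H j)) p).rootMultiplicity z : ℤ)}.Finite)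
    (g : G) (z : k) :
    (a.sum fun i k => k * ∑ σ, ((R i (c σ g)).val.charpoly.rootMultiplicity z : ℤ)) =
      e.sum fun j k => k * ∑ σ, ((H j (c σ g)).val.charpoly.rootMultiplicity z : ℤ) := by
  classical
  set U : Set G := (⋂ i ∈ a.support, ⋂ σ : Γ, {x | R i (c σ x) = R i (c σ g)}) ∩
    ⋂ j ∈ e.support, ⋂ σ : Γ, {x | H j (c σ x) = H j (c σ g)} with hU
  have hUo : IsOpen U := by
    refine IsOpen.inter ?_ ?_
    · refine isOpen_biInter_finset fun i _ => isOpen_iInter_of_finite fun σ => ?_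
      exact (hR i (c σ g)).preimage (hG.continuous σ)
    · refine isOpen_biInter_finset fun j _ => isOpen_iInter_of_finite fun σ => ?_
      exact (hH j (c σ g)).preimage (hG.continuous σ)
  have hgU : g ∈ U := by
    refine ⟨?_, ?_⟩
    · simp only [Set.mem_iInter]
      intro i _ σ
      rfl
    · simp only [Set.mem_iInter]
      intro j _ σ
      rfl
  obtain ⟨x, hxU, p, hpT, hx⟩ := (galData_split hG
    (hfin.toFinset.image fun p : Nat.Primes => (p : ℕ))).inter_open_nonempty U hUo ⟨g, hgU⟩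
  have hp : ∀ z, (a.sum fun i k => k * ((above (frobLift θ Frob (R i)) p).rootMultiplicity z : ℤ)) =
      e.sum fun j k => k * ((above (frobLift θ Frob (H j)) p).rootMultiplicity z : ℤ) := by
    intro z
    by_contra hne
    exact hpT (Finset.mem_image.2 ⟨p, hfin.mem_toFinset.2 ⟨z, hne⟩, rfl⟩)
  have h1 := hp (θ z)
  obtain ⟨hx1, hx2⟩ := hxU
  simp only [Set.mem_iInter] at hx1 hx2
  convert h1 using 1
  · refine Finset.sum_congr rfl fun i hi => ?_
    change a i * _ = a i * _
    rw [lift_split hθ hx, Nat.cast_sum]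
    congr 1
    refine Finset.sum_congr rfl fun σ _ => ?_
    have h2 : R i (c σ x) = R i (c σ g) := hx1 i hi σ
    rw [h2]
  · refine Finset.sum_congr rfl fun j hj => ?_
    change e j * _ = e j * _
    rw [lift_split hθ hx, Nat.cast_sum]
    congr 1
    refine Finset.sum_congr rfl fun σ _ => ?_
    have h2 : H j (c σ x) = H j (c σ g) := hx2 j hj σ
    rw [h2]

/-- A representation which is not conjugate to the others has the coefficient zero. -/
theorem modP_noRel (hG : IsGalData S₀ Frob c act) (hsurj : ∀ σ, Function.Surjective (c σ))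
    {θ : k → ℂ} (hθ : Function.Injective θ)
    {R : ∀ i, G →* GL (Fin (n i)) k} (hR : ∀ i, IsDiscCont (R i))
    (hRirr : ∀ i, (rep (R i)).IsIrreducible)
    {H : ∀ j, G →* GL (Fin (m j)) k} (hH : ∀ j, IsDiscCont (H j))
    (hHirr : ∀ j, (rep (H j)).IsIrreducible) (a : I →₀ ℤ) (e : J →₀ ℤ)
    (hfin : {p : Nat.Primes | ∃ z,
      (a.sum fun i k => k * ((above (frobLift θ Frob (R i)) p).rootMultiplicity z : ℤ)) ≠
      e.sum fun j k => k * ((above (frobLift θ Frob (H j)) p).rootMultiplicity z : ℤ)}.Finite)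
    (i₀ : I) (h1 : ∀ i, i ≠ i₀ → ¬ IsConjugate c (R i₀) (R i))
    (h2 : ∀ j, ¬ IsConjugate c (R i₀) (H j)) : a i₀ = 0 := by
  classical
  by_contra ha
  have hmem : i₀ ∈ a.support := Finsupp.mem_support_iff.2 ha
  obtain ⟨σ₀, hσ₀⟩ := hG.one
  have hcomp : (R i₀).comp (c σ₀) = R i₀ := by
    rw [hσ₀]
    exact MonoidHom.comp_id _
  let X : Type := (a.support × Γ) ⊕ (e.support × Γ)
  let N : X → ℕ := Sum.elim (fun x => n x.1) fun y => m y.1
  let σX : ∀ x : X, G →* GL (Fin (N x)) k := fun x => match x with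
    | Sum.inl x => (R x.1).comp (c x.2)
    | Sum.inr y => (H y.1).comp (c y.2)
  let b : X → ℤ := Sum.elim (fun x => a x.1) fun y => - e y.1
  have hXirr : ∀ x, (rep (σX x)).IsIrreducible := by
    rintro (x | y)
    · exact irr_comp (hRirr x.1) (hsurj x.2)
    · exact irr_comp (hHirr y.1) (hsurj y.2)
  have hb : ∀ (g : G) (z : k), ∑ x, b x * ((σX x g).val.charpoly.rootMultiplicity z : ℤ) = 0 := by
    intro g z
    have h3 := rel_all hG hθ hR hH a e hfin g z
    rw [Fintype.sum_sum_type, Fintype.sum_prod_type, Fintype.sum_prod_type]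
    have h4 : (a.sum fun i k => k * ∑ σ, ((R i (c σ g)).val.charpoly.rootMultiplicity z : ℤ)) =
        ∑ i : a.support, ∑ σ : Γ, a i * ((R i (c σ g)).val.charpoly.rootMultiplicity z : ℤ) := by
      unfold Finsupp.sum
      rw [← Finset.sum_coe_sort]
      exact Finset.sum_congr rfl fun i _ => Finset.mul_sum _ _ _
    have h5 : (e.sum fun j k => k * ∑ σ, ((H j (c σ g)).val.charpoly.rootMultiplicity z : ℤ)) =
        ∑ j : e.support, ∑ σ : Γ, e j * ((H j (c σ g)).val.charpoly.rootMultiplicity z : ℤ) := by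
      unfold Finsupp.sum
      rw [← Finset.sum_coe_sort]
      exact Finset.sum_congr rfl fun i _ => Finset.mul_sum _ _ _
    rw [h4, h5] at h3
    have h6 : ∑ j : e.support, ∑ σ : Γ,
        b (Sum.inr (j, σ)) * ((σX (Sum.inr (j, σ)) g).val.charpoly.rootMultiplicity z : ℤ) =
        - ∑ j : e.support, ∑ σ : Γ,
          e j * ((H j (c σ g)).val.charpoly.rootMultiplicity z : ℤ) := by
      rw [← Finset.sum_neg_distrib]
      refine Finset.sum_congr rfl fun j _ => ?_
      rw [← Finset.sum_neg_distrib]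
      exact Finset.sum_congr rfl fun σ _ => neg_mul _ _
    rw [h6, ← h3]
    exact add_neg_cancel _
  have h7 := class_indep σX hXirr b hb (Sum.inl (⟨i₀, hmem⟩, σ₀))
    (Finset.univ.filter fun x =>
      Nonempty ((rep (σX x)).Equiv (rep (σX (Sum.inl (⟨i₀, hmem⟩, σ₀))))))
    (fun x => by rw [Finset.mem_filter]; exact and_iff_right (Finset.mem_univ _))
  have h8 : ∀ x ∈ Finset.univ.filter (fun x : X =>
      Nonempty ((rep (σX x)).Equiv (rep (σX (Sum.inl (⟨i₀, hmem⟩, σ₀)))))), b x = a i₀ := by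
    intro x hx
    have hx := (Finset.mem_filter.1 hx).2
    have hE : Nonempty ((rep (R i₀)).Equiv (rep (σX x))) := by
      obtain ⟨E⟩ := hx
      have h9 : σX (Sum.inl (⟨i₀, hmem⟩, σ₀)) = R i₀ := hcomp
      rw [h9] at E
      exact ⟨E.symm⟩
    match x with
    | Sum.inl (i, σ) =>
      by_cases hi : (i : I) = i₀
      · change a i = a i₀
        rw [hi]
      · exact absurd ⟨σ, hE⟩ (h1 i hi)
    | Sum.inr (j, σ) => exact absurd ⟨σ, hE⟩ (h2 j)
  rw [Finset.sum_congr rfl h8, Finset.sum_const, nsmul_eq_mul] at h7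
  have h9 : (Finset.univ.filter (fun x : X =>
      Nonempty ((rep (σX x)).Equiv (rep (σX (Sum.inl (⟨i₀, hmem⟩, σ₀))))))).card ≠ 0 := by
    rw [Finset.card_ne_zero]
    exact ⟨Sum.inl (⟨i₀, hmem⟩, σ₀), Finset.mem_filter.2
      ⟨Finset.mem_univ _, ⟨Representation.Equiv.refl _⟩⟩⟩
  rcases mul_eq_zero.1 h7 with h10 | h10
  · exact h9 (by exact_mod_cast h10)
  · exact ha h10

/-- **Edge values of irreducible mod p representations of a Galois number field.** -/
theorem main_modP [Countable I] [Countable J] (hG : IsGalData S₀ Frob c act)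
    (hsurj : ∀ σ, Function.Surjective (c σ))
    {θ : k → ℂ} (hθ : Function.Injective θ) (hθ1 : ∀ z : k, z ≠ 0 → ‖θ z‖ = 1)
    {R : ∀ i, G →* GL (Fin (n i)) k} (hR : ∀ i, IsDiscCont (R i))
    (hRirr : ∀ i, (rep (R i)).IsIrreducible)
    {H : ∀ j, G →* GL (Fin (m j)) k} (hH : ∀ j, IsDiscCont (H j))
    (hHirr : ∀ j, (rep (H j)).IsIrreducible)
    {SI : I → Finset ℕ} (hSI : ∀ i, S₀ ⊆ SI i) {SJ : J → Finset ℕ} (hSJ : ∀ j, S₀ ⊆ SJ j)
    {l : I → ℝ → ℂ} (hl : ∀ i, IsEdgeOf (SI i) (n i) (frobLift θ Frob (R i)) 0 (l i))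
    {lH : J → ℝ → ℂ} (hlH : ∀ j, IsEdgeOf (SJ j) (m j) (frobLift θ Frob (H j)) 0 (lH j)) :
    (∀ i, ((∃ j, IsConjugate c (R i) (H j)) ↔ DependentOn (l i) lH) ∧
      (DependentOn (l i) lH ∨ IndependentOf (l i) lH)) ∧
    ((∀ i i', i' ≠ i → ¬ IsConjugate c (R i) (R i')) →
      ∀ k' : Subfield ℂ, (k' : Set ℂ).Countable → ∀ᵐ t : ℝ, AlgebraicIndependent
        (IntermediateField.adjoin k' (valSet (fun j => lH j t) t))
        fun i : {i : I // ∀ j, ¬ IsConjugate c (R i) (H j)} => l i t) := by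
  classical
  have hUI := fun i => unram_mono hG.unram (hSI i)
  have hUJ := fun j => unram_mono hG.unram (hSJ j)
  have hP := fun i => frobLift_sys hθ1 Frob (R i) (SI i)
  have hQ := fun j => frobLift_sys hθ1 Frob (H j) (SJ j)
  refine ⟨fun i => ?_, fun hnc => ?_⟩
  · obtain ⟨h1, h2⟩ := singleK (K := K) (L := fun _ : J => K) (hUI i) hUJ (hP i) hQ (hl i) hlH
    refine ⟨?_, h2⟩
    rw [← h1]
    constructor
    · rintro ⟨j, σ, ⟨E⟩⟩
      refine ⟨1, one_pos, Finsupp.single j 1, ?_⟩
      have hfin : {p : Nat.Primes | (p : ℕ) ∈ S₀}.Finite :=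
        Set.Finite.preimage (f := fun p : Nat.Primes => (p : ℕ)) Subtype.val_injective.injOn
          S₀.finite_toSet
      refine hfin.subset ?_
      rintro p ⟨z, hne⟩
      by_contra hno
      apply hne
      rw [Finsupp.sum_single_index (zero_mul _)]
      beta_reduce
      rw [← lift_conj hG θ (H j) σ hno]
      have h5 : frobLift θ Frob (R i) = frobLift θ Frob ((H j).comp (c σ)) := by
        funext v
        unfold frobLift
        rw [charpoly_equiv E]
      rw [h5]
      push_cast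
      ring
    · rintro ⟨d, hd, e, hfin⟩
      by_contra hno
      push Not at hno
      have h3 := modP_noRel (I := Unit) hG hsurj hθ (R := fun _ => R i) (fun _ => hR i)
        (fun _ => hRirr i) hH hHirr (Finsupp.single () (d : ℤ)) e (by
          refine hfin.subset ?_
          rintro p ⟨z, hz⟩
          refine ⟨z, fun h => hz ?_⟩
          rw [Finsupp.sum_single_index (zero_mul _)]
          exact h) () (fun i' hi' => absurd (Subsingleton.elim i' ()) hi') hno
      rw [Finsupp.single_eq_same] at h3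
      omega
  · intro k' hk'
    have h1 := (matroidK (K := fun _ : {i : I // ∀ j, ¬ IsConjugate c (R i) (H j)} => K)
      (L := fun _ : J => K) (fun i => hUI i.1) hUJ (fun i => hP i.1) hQ (fun i => hl i.1)
      hlH).out 0 1
    refine h1.1 (fun a e hfin => ?_) k' hk'
    ext i₀
    exact modP_noRel hG hsurj hθ (R := fun i : {i : I // ∀ j, ¬ IsConjugate c (R i) (H j)} => R i.1)
      (fun i => hR i.1) (fun i => hRirr i.1) hH hHirr a e hfin i₀
      (fun i hi => hnc _ _ fun h => hi (Subtype.ext h)) i₀.2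

end

end Pool.Agent.R629.NF
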