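import Pool.Agent.R629.NF.ModP3

/-!
# Families of mod p representations which are closed under conjugation
-/

set_option autoImplicit false

namespace Pool.Agent.R629.NF

open Representation Filter Topology Finset NumberField IsDedekindDomain MeasureTheory
open Pool.Agent.R629.SP
open Pool.Agent.TH339.MP (nm pr dg Sp mem_Sp nm_eq dg_pos)

section
variable {k : Type} [Field k] {G : Type} [Group G]

/-- `ρ` is isomorphic to a member of the family `H`. -/
def IsIn {J : Type} {m : J → ℕ} (H : ∀ j, G →* GL (Fin (m j)) k) {n : ℕ}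
    (ρ : G →* GL (Fin n) k) : Prop :=
  ∃ j, Nonempty ((rep ρ).Equiv (rep (H j)))

lemma equiv_comp {n m : ℕ} {ρ : G →* GL (Fin n) k} {ρ' : G →* GL (Fin m) k} (f : G →* G)
    (h : Nonempty ((rep ρ).Equiv (rep ρ'))) :
    Nonempty ((rep (ρ.comp f)).Equiv (rep (ρ'.comp f))) := by
  obtain ⟨E⟩ := h
  exact ⟨Representation.Equiv.mk E.toLinearEquiv fun g => E.isIntertwining' (f g)⟩

variable {Γ : Type} {c : Γ → G →* G} {J : Type} {m : J → ℕ} {H : ∀ j, G →* GL (Fin (m j)) k}

lemma isIn_iff (hone : ∃ σ, c σ = MonoidHom.id G)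
    (hstab : ∀ j σ, IsIn H ((H j).comp (c σ))) {n : ℕ} {ρ : G →* GL (Fin n) k} :
    IsIn H ρ ↔ ∃ j, IsConjugate c ρ (H j) := by
  constructor
  · rintro ⟨j, hj⟩
    obtain ⟨σ, hσ⟩ := hone
    refine ⟨j, σ, ?_⟩
    rw [hσ]
    exact hj
  · rintro ⟨j, σ, ⟨E⟩⟩
    obtain ⟨j', ⟨E'⟩⟩ := hstab j σ
    exact ⟨j', ⟨E.trans E'⟩⟩

lemma isIn_conj (hstab : ∀ j σ, IsIn H ((H j).comp (c σ))) {n n' : ℕ} {ρ : G →* GL (Fin n) k}
    {ρ' : G →* GL (Fin n') k} (h : IsConjugate c ρ ρ') (h' : IsIn H ρ') : IsIn H ρ := by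
  obtain ⟨σ, ⟨E⟩⟩ := h
  obtain ⟨j, hj⟩ := h'
  obtain ⟨E1⟩ := equiv_comp (c σ) hj
  obtain ⟨j', ⟨E2⟩⟩ := hstab j σ
  exact ⟨j', ⟨(E.trans E1).trans E2⟩⟩

end

/-- A countable family of dependent functions is dependent over one countable field. -/
lemma dependent_all {I J : Type} [Countable I] {l : I → ℝ → ℂ} {lH : J → ℝ → ℂ} :
    (∀ i, DependentOn (l i) lH) ↔ ∃ k' : Subfield ℂ, (k' : Set ℂ).Countable ∧ ∀ᵐ t : ℝ, ∀ i,
      IsAlgebraic (IntermediateField.adjoin k' (valSet (fun j => lH j t) t)) (l i t) := by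
  constructor
  · intro h
    choose f hf1 hf2 using h
    set X : Set ℂ := ⋃ i, (f i : Set ℂ) with hX
    have hXc : X.Countable := Set.countable_iUnion hf1
    set k' : Subfield ℂ := Subfield.closure X with hk'
    have hk'c : (k' : Set ℂ).Countable := by
      have : Countable X := hXc.to_subtype
      have h1 : Cardinal.mk (Subfield.closure X) ≤ max (Cardinal.mk X) Cardinal.aleph0 :=
        Subfield.cardinalMk_closure_le_max X
      have h2 : Cardinal.mk (Subfield.closure X) ≤ Cardinal.aleph0 :=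
        h1.trans (max_le (Cardinal.mk_le_aleph0) le_rfl)
      exact Set.countable_coe_iff.1 (Cardinal.mk_le_aleph0_iff.1 h2)
    refine ⟨k', hk'c, ?_⟩
    rw [ae_all_iff]
    intro i
    filter_upwards [hf2 i] with t ht
    have hle : f i ≤ k' := fun z hz => Subfield.subset_closure (Set.mem_iUnion.2 ⟨i, hz⟩)
    have h2 : ∀ z : ℂ, z ∈ IntermediateField.adjoin (f i) (valSet (fun j => lH j t) t) →
        z ∈ IntermediateField.adjoin k' (valSet (fun j => lH j t) t) := by
      intro z hz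
      induction hz using IntermediateField.adjoin_induction with
      | mem x hx => exact IntermediateField.subset_adjoin _ _ hx
      | algebraMap x =>
        exact IntermediateField.algebraMap_mem _ (⟨x.1, hle x.2⟩ : k')
      | add x y _ _ hx hy => exact add_mem hx hy
      | inv x _ hx => exact inv_mem hx
      | mul x y _ _ hx hy => exact mul_mem hx hy
    exact isAlgebraic_of_le (IntermediateField.adjoin (f i)
      (valSet (fun j => lH j t) t)).toSubalgebra _ h2 ht
  · rintro ⟨k', hk', h⟩ i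
    exact ⟨k', hk', h.mono fun t ht => ht i⟩

end Pool.Agent.R629.NF
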