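import Pool.Agent.R629.NF.Matroid

/-!
# Euler products over several number fields
-/

set_option autoImplicit false

namespace Pool.Agent.R629.NF

open Filter Topology Finset MeasureTheory NumberField IsDedekindDomain
open Pool.Agent.R629.SP
open Pool.Agent.TH339.MP (nm pr dg Sp mem_Sp nm_eq dg_pos)

/-- No relation between the families of polynomials `P_i` modulo the `Q_j`: if an integral combination
of the divisors of the `P_{i,p}` is equal to one of the divisors of the `Q_{j,p}` for almost all `p`,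
its coefficients are zero. -/
def NoRelP {I J : Type} (P : I → Nat.Primes → Polynomial ℂ) (Q : J → Nat.Primes → Polynomial ℂ) :
    Prop :=
  ∀ (c : I →₀ ℤ) (e : J →₀ ℤ), {p : Nat.Primes | ∃ z,
    (c.sum fun i k => k * ((P i p).rootMultiplicity z : ℤ)) ≠
      e.sum fun j k => k * ((Q j p).rootMultiplicity z : ℤ)}.Finite → c = 0

section
variable {I J : Type} {n : I → ℕ} {m : J → ℕ}

lemma noRelP_iff {A : ∀ i, Nat.Primes → Matrix (Fin (n i)) (Fin (n i)) ℂ}
    {B : ∀ j, Nat.Primes → Matrix (Fin (m j)) (Fin (m j)) ℂ}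
    {P : I → Nat.Primes → Polynomial ℂ} {Q : J → Nat.Primes → Polynomial ℂ}
    {SI : I → Finset ℕ} {SJ : J → Finset ℕ}
    (hA : ∀ i (p : Nat.Primes), (p : ℕ) ∉ SI i → (A i p).charpoly = P i p)
    (hB : ∀ j (p : Nat.Primes), (p : ℕ) ∉ SJ j → (B j p).charpoly = Q j p) :
    NoRelation A B ↔ NoRelP P Q := by
  classical
  have hfin : ∀ T : Finset ℕ, {p : Nat.Primes | (p : ℕ) ∈ T}.Finite := fun T =>
    Set.Finite.preimage (f := fun p : Nat.Primes => (p : ℕ)) Subtype.val_injective.injOn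
      T.finite_toSet
  refine forall_congr' fun c => forall_congr' fun e => imp_congr_left ?_
  have hbad : ((⋃ i ∈ c.support, {p : Nat.Primes | (p : ℕ) ∈ SI i}) ∪
      ⋃ j ∈ e.support, {p : Nat.Primes | (p : ℕ) ∈ SJ j}).Finite :=
    (c.support.finite_toSet.biUnion fun i _ => hfin (SI i)).union
      (e.support.finite_toSet.biUnion fun j _ => hfin (SJ j))
  have key : ∀ p : Nat.Primes, p ∉ ((⋃ i ∈ c.support, {p : Nat.Primes | (p : ℕ) ∈ SI i}) ∪
      ⋃ j ∈ e.support, {p : Nat.Primes | (p : ℕ) ∈ SJ j}) → ∀ z,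
      ((c.sum fun i k => k * ((A i p).charpoly.rootMultiplicity z : ℤ)) ≠
        e.sum fun j k => k * ((B j p).charpoly.rootMultiplicity z : ℤ)) ↔
      ((c.sum fun i k => k * ((P i p).rootMultiplicity z : ℤ)) ≠
        e.sum fun j k => k * ((Q j p).rootMultiplicity z : ℤ)) := by
    intro p hp z
    rw [Set.mem_union, not_or, Set.mem_iUnion₂, Set.mem_iUnion₂] at hp
    push Not at hp
    have h1 : (c.sum fun i k => k * ((A i p).charpoly.rootMultiplicity z : ℤ)) =
        c.sum fun i k => k * ((P i p).rootMultiplicity z : ℤ) :=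
      Finset.sum_congr rfl fun i hi => by
        change c i * ((A i p).charpoly.rootMultiplicity z : ℤ) = _
        rw [hA i p (hp.1 i hi)]
    have h2 : (e.sum fun j k => k * ((B j p).charpoly.rootMultiplicity z : ℤ)) =
        e.sum fun j k => k * ((Q j p).rootMultiplicity z : ℤ) :=
      Finset.sum_congr rfl fun j hj => by
        change e j * ((B j p).charpoly.rootMultiplicity z : ℤ) = _
        rw [hB j p (hp.2 j hj)]
    rw [h1, h2]
  constructor
  · intro h
    refine (h.union hbad).subset ?_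
    rintro p ⟨z, hz⟩
    by_cases hb : p ∈ ((⋃ i ∈ c.support, {p : Nat.Primes | (p : ℕ) ∈ SI i}) ∪
      ⋃ j ∈ e.support, {p : Nat.Primes | (p : ℕ) ∈ SJ j})
    · exact Or.inr hb
    · exact Or.inl ⟨z, (key p hb z).2 hz⟩
  · intro h
    refine (h.union hbad).subset ?_
    rintro p ⟨z, hz⟩
    by_cases hb : p ∈ ((⋃ i ∈ c.support, {p : Nat.Primes | (p : ℕ) ∈ SI i}) ∪
      ⋃ j ∈ e.support, {p : Nat.Primes | (p : ℕ) ∈ SJ j})
    · exact Or.inr hb
    · exact Or.inl ⟨z, (key p hb z).1 hz⟩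

end

/-- **The theorem on independence for Euler products over several number fields.** -/
theorem matroidK {I J : Type} [Countable I] [Countable J]
    {K : I → Type} [∀ i, Field (K i)] [∀ i, NumberField (K i)]
    {L : J → Type} [∀ j, Field (L j)] [∀ j, NumberField (L j)]
    {N : I → ℕ} {m : J → ℕ} {SI : I → Finset ℕ} {SJ : J → Finset ℕ} {w : ℝ}
    (hSI : ∀ i, Unram (K i) (SI i)) (hSJ : ∀ j, Unram (L j) (SJ j))
    {P : ∀ i, HeightOneSpectrum (𝓞 (K i)) → Polynomial ℂ}
    (hP : ∀ i, IsSysLe (SI i) (N i) w (P i))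
    {Q : ∀ j, HeightOneSpectrum (𝓞 (L j)) → Polynomial ℂ}
    (hQ : ∀ j, IsSysLe (SJ j) (m j) w (Q j))
    {l : I → ℝ → ℂ} (hl : ∀ i, IsEdgeOf (SI i) (N i) (P i) w (l i))
    {lQ : J → ℝ → ℂ} (hlQ : ∀ j, IsEdgeOf (SJ j) (m j) (Q j) w (lQ j)) :
    [NoRelP (fun i => above (P i)) (fun j => above (Q j)),
      ∀ k : Subfield ℂ, (k : Set ℂ).Countable → ∀ᵐ t : ℝ, AlgebraicIndependent
        (IntermediateField.adjoin k (valSet (fun j => lQ j t) t)) fun i => l i t,
      ∀ k : Subfield ℂ, (k : Set ℂ).Countable → ¬ ∀ᵐ t : ℝ, ¬ AlgebraicIndependent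
        (IntermediateField.adjoin k (valSet (fun j => lQ j t) t)) fun i => l i t].TFAE := by
  have h1 : ∀ i, ∃ A : Nat.Primes → Matrix (Fin (N i * Module.finrank ℚ (K i)))
      (Fin (N i * Module.finrank ℚ (K i))) ℂ, ∀ p : Nat.Primes, (p : ℕ) ∉ SI i →
      (A p).charpoly = above (P i) p := fun i =>
    exists_mats (hSI i) (fun v hv => (hP i v hv).1) (fun v hv => (hP i v hv).2.1)
  have h2 : ∀ j, ∃ B : Nat.Primes → Matrix (Fin (m j * Module.finrank ℚ (L j)))
      (Fin (m j * Module.finrank ℚ (L j))) ℂ, ∀ p : Nat.Primes, (p : ℕ) ∉ SJ j →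
      (B p).charpoly = above (Q j) p := fun j =>
    exists_mats (hSJ j) (fun v hv => (hQ j v hv).1) (fun v hv => (hQ j v hv).2.1)
  choose A hA using h1
  choose B hB using h2
  have a := fun i => sys_bridge_le (hP i) (hA i)
  have b := fun j => sys_bridge_le (hQ j) (hB j)
  have h3 := matroid (fun i => (a i).1) (fun j => (b j).1) (fun i => (a i).2.1)
    (fun j => (b j).2.1) (fun i => ((a i).2.2 _).1 (hl i)) (fun j => ((b j).2.2 _).1 (hlQ j))
  rwa [noRelP_iff hA hB] at h3

end Pool.Agent.R629.NF
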