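import Pool.Agent.R629.NF.Field
import Mathlib.FieldTheory.Galois.Profinite
import Mathlib.FieldTheory.IsAlgClosed.AlgebraicClosure

/-!
# Finite rank, finitely many conjugates and number fields
-/

set_option autoImplicit false

namespace Pool.Agent.R629.NF

open Filter Topology MeasureTheory Finset
open Pool.Agent.R629.SP

section
variable {n : ℕ} {S : Finset ℕ}

lemma cls_eq_iff (X Y : Nat.Primes → Matrix (Fin n) (Fin n) ℂ) :
    cls S X = cls S Y ↔
      {p : Nat.Primes | (p : ℕ) ∉ S ∧ (X p).charpoly ≠ (Y p).charpoly}.Finite := by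
  unfold cls
  rw [← sub_eq_zero, ← map_sub, Submodule.mkQ_apply, Submodule.Quotient.mk_eq_zero, mem_nullMod]
  have h1 : {p : Nat.Primes | (p : ℕ) ∉ S ∧ (dv X - dv Y) p ≠ 0} =
      {p : Nat.Primes | (p : ℕ) ∉ S ∧ (X p).charpoly ≠ (Y p).charpoly} := by
    ext p
    simp only [Set.mem_ofPred_eq]
    refine and_congr_right fun _ => not_congr ?_
    rw [monic_eq_iff (Matrix.charpoly_monic _) (Matrix.charpoly_monic _), Pi.sub_apply,
      sub_eq_zero]
    unfold dv
    constructor
    · intro h z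
      exact_mod_cast congrFun h z
    · intro h
      funext z
      rw [h z]
  rw [h1]

lemma mult_le (X : Matrix (Fin n) (Fin n) ℂ) (z : ℂ) : X.charpoly.rootMultiplicity z ≤ n := by
  classical
  have h1 : X.charpoly.rootMultiplicity z ≤ X.charpoly.roots.card := by
    rw [← Polynomial.count_roots]
    exact Multiset.count_le_card _ _
  rw [card_roots_charpoly'] at h1
  exact h1
where
  card_roots_charpoly' : X.charpoly.roots.card = n := by
    have := (IsAlgClosed.splits X.charpoly).natDegree_eq_card_roots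
    rw [← this, Matrix.charpoly_natDegree_eq_dim, Fintype.card_fin]

/-- **Finite rank implies finitely many classes.** -/
theorem finite_classes {Φ : Type} (B : Φ → Nat.Primes → Matrix (Fin n) (Fin n) ℂ) (r : ℕ)
    (h : ∀ φ : Fin (r + 1) → Φ, ¬ LinearIndependent ℚ fun i => cls S (B (φ i))) :
    (Set.range fun φ => cls S (B φ)).Finite := by
  classical
  obtain ⟨κ, a, ha, hspan, hli⟩ := exists_linearIndependent' ℚ fun φ => cls S (B φ)
  have hκ : Finite κ := by
    by_contra hinf
    rw [not_finite_iff_infinite] at hinf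
    have hg : Function.Injective fun i : Fin (r + 1) => Infinite.natEmbedding κ (i : ℕ) :=
      fun i j hij => Fin.val_injective ((Infinite.natEmbedding κ).injective hij)
    exact h (fun i => a (Infinite.natEmbedding κ (i : ℕ))) (hli.comp _ hg)
  have _ : Fintype κ := Fintype.ofFinite κ
  have hex : ∀ φ, ∃ c : κ → ℚ, ∑ i, c i • cls S (B (a i)) = cls S (B φ) := by
    intro φ
    have h1 : cls S (B φ) ∈ Submodule.span ℚ (Set.range ((fun φ => cls S (B φ)) ∘ a)) := by
      rw [hspan]
      exact Submodule.subset_span ⟨φ, rfl⟩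
    exact (Submodule.mem_span_range_iff_exists_fun ℚ).1 h1
  choose c hc using hex
  suffices hfin : (Set.range c).Finite by
    have h1 : (Set.range fun φ => cls S (B φ)) ⊆
        (fun x : κ → ℚ => ∑ i, x i • cls S (B (a i))) '' Set.range c := by
      rintro _ ⟨φ, rfl⟩
      exact ⟨c φ, ⟨φ, rfl⟩, hc φ⟩
    exact (hfin.image _).subset h1
  -- the vectors of multiplicities
  set U : Nat.Primes → ℂ → κ → ℕ := fun p z i => (B (a i) p).charpoly.rootMultiplicity z with hU
  set V : Set (κ → ℕ) := {u | {p : Nat.Primes | (p : ℕ) ∉ S ∧ ∃ z, u = U p z}.Infinite} with hV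
  set W : Set (κ → ℕ) := {u | ∀ i, u i ≤ n} with hW
  have hWfin : W.Finite := by
    have h1 : (Set.pi Set.univ fun _ : κ => Set.Iic n).Finite :=
      Set.Finite.pi fun _ => Set.finite_Iic n
    refine h1.subset fun u hu => ?_
    rw [Set.mem_pi]
    exact fun i _ => hu i
  have hUW : ∀ p z, U p z ∈ W := fun p z i => mult_le _ _
  have hVW : V ⊆ W := by
    intro u hu
    obtain ⟨p, hp, z, hz⟩ := Set.Infinite.nonempty hu
    rw [hz]
    exact hUW p z
  have hVfin : V.Finite := hWfin.subset hVW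
  have _ : Finite V := hVfin.to_subtype
  set Ψ : (κ → ℚ) → (V → ℚ) := fun x u => ∑ i, x i * (u.1 i : ℚ) with hΨ
  refine Set.Finite.of_finite_image (f := Ψ) ?_ ?_
  · -- the image is finite
    have h1 : (Set.pi Set.univ fun _ : V => (fun k : ℕ => (k : ℚ)) '' Set.Iic n).Finite :=
      Set.Finite.pi fun _ => (Set.finite_Iic n).image _
    refine h1.subset ?_
    rintro _ ⟨_, ⟨φ, rfl⟩, rfl⟩
    rw [Set.mem_pi]
    intro u _
    have h2 := hc φ
    unfold cls at h2
    simp only [← map_smul] at h2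
    rw [← map_sum, ← sub_eq_zero, ← map_sub, Submodule.mkQ_apply,
      Submodule.Quotient.mk_eq_zero, mem_nullMod] at h2
    obtain ⟨p, ⟨hp, z, hz⟩, hp2⟩ := (Set.Infinite.sdiff u.2 h2).nonempty
    rw [Set.mem_ofPred_eq, not_and, not_not] at hp2
    have h3 := congrFun (hp2 hp) z
    simp only [Pi.sub_apply, Finset.sum_apply, Pi.smul_apply, smul_eq_mul, Pi.zero_apply] at h3
    unfold dv at h3
    refine ⟨(B φ p).charpoly.rootMultiplicity z, mult_le _ _, ?_⟩
    simp only [hΨ]
    rw [hz]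
    simp only [hU]
    linear_combination -h3
  · -- injectivity
    intro x _ y _ hxy
    have h1 : ∑ i, (x i - y i) • cls S (B (a i)) = 0 := by
      unfold cls
      simp only [← map_smul]
      rw [← map_sum, Submodule.mkQ_apply, Submodule.Quotient.mk_eq_zero, mem_nullMod]
      have h2 : (⋃ u ∈ W \ V, {p : Nat.Primes | (p : ℕ) ∉ S ∧ ∃ z, u = U p z}).Finite := by
        refine (hWfin.subset Set.sdiff_subset).biUnion fun u hu => ?_
        exact Set.not_infinite.1 hu.2
      refine h2.subset ?_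
      rintro p ⟨hp, hne⟩
      by_contra hno
      apply hne
      funext z
      simp only [Finset.sum_apply, Pi.smul_apply, smul_eq_mul, Pi.zero_apply]
      unfold dv
      have h3 : U p z ∈ V := by
        by_contra h4
        exact hno (Set.mem_iUnion₂.2 ⟨U p z, ⟨hUW p z, h4⟩, hp, z, rfl⟩)
      have h4 := congrFun hxy ⟨U p z, h3⟩
      simp only [hΨ, hU] at h4
      simp only [sub_mul, Finset.sum_sub_distrib]
      linear_combination h4
    have h2 := Fintype.linearIndependent_iff.1 hli _ h1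
    funext i
    have := h2 i
    linarith

end

section
variable {n : ℕ} {S : Finset ℕ}

/-- the field of algebraic numbers -/
abbrev Qbar : Type := AlgebraicClosure ℚ

/-- the conjugates of a family over the algebraic numbers -/
noncomputable def embFam (C : Nat.Primes → Matrix (Fin n) (Fin n) Qbar) (φ : Qbar →+* ℂ) :
    Nat.Primes → Matrix (Fin n) (Fin n) ℂ := fun p => (C p).map φ

instance qbar_algebraic : Algebra.IsAlgebraic ℚ Qbar := by
  have h : (AlgebraicClosure.instAlgebra ℚ : Algebra ℚ (AlgebraicClosure ℚ)) =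
    DivisionRing.toRatAlgebra := Subsingleton.elim _ _
  have h2 := AlgebraicClosure.isAlgebraic ℚ
  rw [h] at h2
  exact h2

instance qbar_closure : IsAlgClosure ℚ Qbar := ⟨inferInstance, qbar_algebraic⟩

instance qbar_galois : IsGalois ℚ Qbar := IsAlgClosure.isGalois ℚ Qbar

lemma isClosed_eval (σ₀ : Gal(Qbar/ℚ)) (x : Qbar) : IsClosed {σ : Gal(Qbar/ℚ) | σ x = σ₀ x} := by
  have h1 : IsClosed ((IntermediateField.adjoin ℚ {x}).fixingSubgroup : Set Gal(Qbar/ℚ)) :=
    InfiniteGalois.fixingSubgroup_isClosed _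
  have h2 : {σ : Gal(Qbar/ℚ) | σ x = σ₀ x} = (fun σ => σ₀⁻¹ * σ) ⁻¹'
      ((IntermediateField.adjoin ℚ {x}).fixingSubgroup : Set Gal(Qbar/ℚ)) := by
    ext σ
    rw [Set.mem_preimage, SetLike.mem_coe, IntermediateField.mem_fixingSubgroup_iff]
    constructor
    · intro h y hy
      have hx : (σ₀⁻¹ * σ) x = x := by
        change σ₀⁻¹ (σ x) = x
        have h' : σ x = σ₀ x := h
        rw [h']
        exact σ₀.symm_apply_apply x
      induction hy using IntermediateField.adjoin_induction with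
      | mem z hz =>
        rw [Set.mem_singleton_iff] at hz
        rw [hz]
        exact hx
      | algebraMap z => exact (σ₀⁻¹ * σ).commutes z
      | add y z _ _ hy hz => rw [map_add, hy, hz]
      | inv y _ hy => rw [map_inv₀, hy]
      | mul y z _ _ hy hz => rw [map_mul, hy, hz]
    · intro h
      have h3 := h x (IntermediateField.mem_adjoin_simple_self ℚ x)
      have h4 : σ₀.symm (σ x) = x := h3
      change σ x = σ₀ x
      have h5 := congrArg σ₀ h4
      rwa [σ₀.apply_symm_apply] at h5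
  rw [h2]
  exact h1.preimage (continuous_const_mul _)

/-- **Finitely many conjugates imply a number field.** -/
theorem number_field_of_finite (C : Nat.Primes → Matrix (Fin n) (Fin n) Qbar) (ι : Qbar →+* ℂ)
    (hfin : (Set.range fun φ : Qbar →+* ℂ => cls S (embFam C φ)).Finite) :
    ∃ L : IntermediateField ℚ Qbar, FiniteDimensional ℚ L ∧
      {p : Nat.Primes | (p : ℕ) ∉ S ∧ ¬ ∀ i, (C p).charpoly.coeff i ∈ L}.Finite := by
  classical
  set g : Gal(Qbar/ℚ) → (Nat.Primes → ℂ → ℚ) ⧸ nullMod S := fun σ =>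
    cls S (embFam C (ι.comp (σ : Qbar →+* Qbar))) with hg
  have hgfin : (Set.range g).Finite := by
    refine hfin.subset ?_
    rintro _ ⟨σ, rfl⟩
    exact ⟨_, rfl⟩
  have _ : Countable (Set.range g) := hgfin.countable.to_subtype
  choose s hs using fun x : Set.range g => x.2
  set F : Set.range g × ℕ → Set Gal(Qbar/ℚ) := fun x =>
    {σ | ∀ p : Nat.Primes, (p : ℕ) ∉ S → x.2 < (p : ℕ) → ∀ i,
      σ ((C p).charpoly.coeff i) = s x.1 ((C p).charpoly.coeff i)} with hF
  have hclosed : ∀ x, IsClosed (F x) := by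
    intro x
    have h1 : F x = ⋂ (p : Nat.Primes) (_ : (p : ℕ) ∉ S) (_ : x.2 < (p : ℕ)) (i : ℕ),
        {σ : Gal(Qbar/ℚ) | σ ((C p).charpoly.coeff i) = s x.1 ((C p).charpoly.coeff i)} := by
      ext σ
      simp only [hF, Set.mem_ofPred_eq, Set.mem_iInter]
    rw [h1]
    exact isClosed_iInter fun p => isClosed_iInter fun _ => isClosed_iInter fun _ =>
      isClosed_iInter fun i => isClosed_eval _ _
  have hcover : ⋃ x, F x = Set.univ := by
    rw [Set.eq_univ_iff_forall]
    intro σ
    rw [Set.mem_iUnion]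
    have h1 : g (s ⟨g σ, ⟨σ, rfl⟩⟩) = g σ := hs ⟨g σ, ⟨σ, rfl⟩⟩
    simp only [hg] at h1
    rw [cls_eq_iff] at h1
    obtain ⟨m, hm⟩ := (h1.image fun p : Nat.Primes => (p : ℕ)).bddAbove
    refine ⟨(⟨g σ, ⟨σ, rfl⟩⟩, m), fun p hp hmp i => ?_⟩
    have h2 : (embFam C (ι.comp ((s ⟨g σ, ⟨σ, rfl⟩⟩ : Gal(Qbar/ℚ)) : Qbar →+* Qbar)) p).charpoly =
        (embFam C (ι.comp (σ : Qbar →+* Qbar)) p).charpoly := by
      by_contra hne
      exact absurd (hm ⟨p, ⟨hp, hne⟩, rfl⟩) (not_le.2 hmp)
    unfold embFam at h2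
    have h3 : ∀ ψ : Qbar →+* ℂ, ((C p).map ψ).charpoly = (C p).charpoly.map ψ := fun ψ =>
      Matrix.charpoly_map (C p) ψ
    rw [h3, h3] at h2
    have h4 := congrArg (fun P : Polynomial ℂ => P.coeff i) h2
    simp only [Polynomial.coeff_map] at h4
    exact (ι.injective h4).symm
  have hne : Nonempty Gal(Qbar/ℚ) := ⟨1⟩
  obtain ⟨x, σ₁, hσ₁⟩ := nonempty_interior_of_iUnion_of_closed hclosed hcover
  have h1 : F x ∈ 𝓝 σ₁ := mem_interior_iff_mem_nhds.1 hσ₁
  have h2 : (fun τ : Gal(Qbar/ℚ) => σ₁ * τ) ⁻¹' F x ∈ 𝓝 (1 : Gal(Qbar/ℚ)) := by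
    have h3 : Continuous fun τ : Gal(Qbar/ℚ) => σ₁ * τ := continuous_const_mul _
    refine h3.continuousAt.preimage_mem_nhds ?_
    rw [mul_one]
    exact h1
  rw [krullTopology_mem_nhds_one_iff] at h2
  obtain ⟨L, hL, hsub⟩ := h2
  refine ⟨L, hL, ?_⟩
  have h4 : {p : Nat.Primes | (p : ℕ) ≤ x.2}.Finite := by
    refine Set.Finite.of_finite_image (f := fun p : Nat.Primes => (p : ℕ)) ?_
      (Nat.Primes.coe_nat_injective.injOn)
    refine (Set.finite_Iic x.2).subset ?_
    rintro _ ⟨p, hp, rfl⟩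
    exact hp
  refine h4.subset ?_
  rintro p ⟨hp, hnot⟩
  by_contra hlt
  rw [Set.mem_ofPred_eq, not_le] at hlt
  apply hnot
  intro i
  have h5 : σ₁ ∈ F x := interior_subset hσ₁
  rw [← InfiniteGalois.fixedField_fixingSubgroup L, IntermediateField.mem_fixedField_iff]
  intro τ hτ
  have h6 : σ₁ * τ ∈ F x := hsub hτ
  have h7 := h6 p hp hlt i
  rw [← h5 p hp hlt i] at h7
  exact σ₁.injective h7

end

end Pool.Agent.R629.NF
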