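import Pool.Agent.R629.NF.CharK

/-!
# Subquotients of representations and traces
-/

set_option autoImplicit false

namespace Pool.Agent.R629.NF

open Representation
open scoped MonoidAlgebra

section
variable {k : Type} [Field k] {G : Type} [Group G]

/-- `σ` is a quotient of a subrepresentation of `ρ`. -/
def IsSubquotient {V W : Type} [AddCommGroup V] [Module k V] [AddCommGroup W] [Module k W]
    (σ : Representation k G W) (ρ : Representation k G V) : Prop :=
  ∃ (B : Submodule k V) (hB : ∀ (g : G), ∀ x ∈ B, ρ g x ∈ B) (π : B →ₗ[k] W),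
    Function.Surjective π ∧ ∀ (g : G) (x : B), π ⟨ρ g x, hB g x x.2⟩ = σ g (π x)

variable {V W V' : Type} [AddCommGroup V] [Module k V] [AddCommGroup W] [Module k W]
  [AddCommGroup V'] [Module k V']

lemma isSubquotient_of_equiv {σ : Representation k G W} {ρ : Representation k G V}
    (e : ρ.Equiv σ) : IsSubquotient σ ρ := by
  refine ⟨⊤, fun _ _ _ => Submodule.mem_top, e.toLinearEquiv.toLinearMap ∘ₗ (⊤ : Submodule k V).subtype,
    fun y => ⟨⟨e.toLinearEquiv.symm y, Submodule.mem_top⟩, ?_⟩, fun g x => ?_⟩
  · exact e.toLinearEquiv.apply_symm_apply y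
  · exact IntertwiningMap.isIntertwining _ _ e.toIntertwiningMap g x

/-- equivariant maps from a quotient of a subrepresentation of something mapping to `ρ` -/
lemma isSubquotient_sub {σ : Representation k G W} {ρ : Representation k G V} (U : Submodule k V)
    (hU : ∀ g, U ≤ U.comap (ρ g)) (h : IsSubquotient σ (ρ.subrepresentation U hU)) :
    IsSubquotient σ ρ := by
  obtain ⟨B, hB, π, hπ, heq⟩ := h
  obtain ⟨f, hf⟩ : ∃ f : B.map U.subtype →ₗ[k] B,
      ∀ x : B.map U.subtype, (((f x : B) : U) : V) = x := by
    have hinj : Function.Injective (U.subtype.domRestrict B) := fun x y hxy =>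
      Subtype.ext (Subtype.ext hxy)
    refine ⟨(LinearEquiv.ofInjective (U.subtype.domRestrict B) hinj).symm.toLinearMap ∘ₗ
      (LinearEquiv.ofEq (B.map U.subtype) (LinearMap.range (U.subtype.domRestrict B))
        (by rw [LinearMap.range_domRestrict])).toLinearMap, fun x => ?_⟩
    have h1 := LinearEquiv.apply_symm_apply (LinearEquiv.ofInjective (U.subtype.domRestrict B)
      hinj) (LinearEquiv.ofEq (B.map U.subtype)
        (LinearMap.range (U.subtype.domRestrict B)) (by rw [LinearMap.range_domRestrict]) x)
    exact congrArg Subtype.val h1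
  have hB' : ∀ (g : G), ∀ x ∈ B.map U.subtype, ρ g x ∈ B.map U.subtype := by
    rintro g _ ⟨y, hy, rfl⟩
    exact ⟨_, hB g y hy, rfl⟩
  refine ⟨B.map U.subtype, hB', π ∘ₗ f, fun y => ?_, fun g x => ?_⟩
  · obtain ⟨z, hz⟩ := hπ y
    refine ⟨⟨((z : U) : V), ⟨z, z.2, rfl⟩⟩, ?_⟩
    rw [LinearMap.comp_apply, ← hz]
    congr 1
    apply Subtype.ext
    apply Subtype.ext
    exact hf _
  · rw [LinearMap.comp_apply, LinearMap.comp_apply, ← heq]
    congr 1
    apply Subtype.ext
    apply Subtype.ext
    rw [hf]
    change ρ g x = ρ g ((f x : B) : U)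
    rw [hf]

lemma isSubquotient_quo {σ : Representation k G W} {ρ : Representation k G V} (U : Submodule k V)
    (hU : ∀ g, U ≤ U.comap (ρ g)) (h : IsSubquotient σ (ρ.quotient U hU)) :
    IsSubquotient σ ρ := by
  obtain ⟨B, hB, π, hπ, heq⟩ := h
  have hmk : ∀ (g : G) (x : V), U.mkQ (ρ g x) = ρ.quotient U hU g (U.mkQ x) := by
    intro g x
    rw [Representation.quotient_apply]
    rfl
  have hB' : ∀ (g : G), ∀ x ∈ B.comap U.mkQ, ρ g x ∈ B.comap U.mkQ := by
    intro g x hx
    exact hB g _ hx
  let f : B.comap U.mkQ →ₗ[k] B :=
    (U.mkQ.domRestrict (B.comap U.mkQ)).codRestrict B fun x => x.2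
  refine ⟨B.comap U.mkQ, hB', π ∘ₗ f, fun y => ?_, fun g x => ?_⟩
  · obtain ⟨z, hz⟩ := hπ y
    obtain ⟨x, hx⟩ := U.mkQ_surjective z
    refine ⟨⟨x, ?_⟩, ?_⟩
    · rw [Submodule.mem_comap, hx]
      exact z.2
    · rw [LinearMap.comp_apply, ← hz]
      congr 1
      apply Subtype.ext
      exact hx
  · rw [LinearMap.comp_apply, LinearMap.comp_apply, ← heq]
    congr 1

lemma sub_alg {ρ : Representation k G V} (U : Submodule k V) (hU : ∀ g, U ≤ U.comap (ρ g))
    (r : k[G]) (x : U) : (((ρ.subrepresentation U hU).asAlgebraHom r x : U) : V) =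
      ρ.asAlgebraHom r x := by
  induction r using MonoidAlgebra.induction_on with
  | of g =>
    rw [asAlgebraHom_of, asAlgebraHom_of]
    rfl
  | add a b ha hb =>
    rw [map_add, map_add, LinearMap.add_apply, LinearMap.add_apply, Submodule.coe_add, ha, hb]
  | smul c a ha =>
    rw [map_smul, map_smul, LinearMap.smul_apply, LinearMap.smul_apply, Submodule.coe_smul, ha]

lemma quo_alg {ρ : Representation k G V} (U : Submodule k V) (hU : ∀ g, U ≤ U.comap (ρ g))
    (r : k[G]) (x : V) : (ρ.quotient U hU).asAlgebraHom r (U.mkQ x) =
      U.mkQ (ρ.asAlgebraHom r x) := by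
  induction r using MonoidAlgebra.induction_on with
  | of g =>
    rw [asAlgebraHom_of, asAlgebraHom_of, Representation.quotient_apply]
    rfl
  | add a b ha hb =>
    rw [map_add, map_add, LinearMap.add_apply, LinearMap.add_apply, map_add, ha, hb]
  | smul c a ha =>
    rw [map_smul, map_smul, LinearMap.smul_apply, LinearMap.smul_apply, map_smul, ha]

/-- two non-isomorphic irreducible representations -/
lemma ann_irr [CharZero k] [FiniteDimensional k V] [FiniteDimensional k W]
    {σ : Representation k G W} {ρ : Representation k G V} (hσ : σ.IsIrreducible)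
    (hρ : ρ.IsIrreducible) (h1 : IsEmpty (σ.Equiv ρ)) (h2 : IsEmpty (ρ.Equiv σ)) :
    ∃ r : k[G], σ.asAlgebraHom r = 1 ∧ ρ.asAlgebraHom r = 0 := by
  classical
  let T : Bool → Type := fun b => match b with
    | true => W
    | false => V
  let i1 : ∀ b, AddCommGroup (T b) := fun b => match b with
    | true => (inferInstance : AddCommGroup W)
    | false => (inferInstance : AddCommGroup V)
  let i2 : ∀ b, Module k (T b) := fun b => match b with
    | true => (inferInstance : Module k W)
    | false => (inferInstance : Module k V)
  have i3 : ∀ b, FiniteDimensional k (T b) := fun b => match b with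
    | true => (inferInstance : FiniteDimensional k W)
    | false => (inferInstance : FiniteDimensional k V)
  let τ : ∀ b, Representation k G (T b) := fun b => match b with
    | true => σ
    | false => ρ
  obtain ⟨r, hr⟩ := exists_projK (V := T) τ (fun b => match b with
    | true => hσ
    | false => hρ) (fun i j hij => by
      cases i <;> cases j
      · exact absurd rfl hij
      · exact h2
      · exact h1
      · exact absurd rfl hij) true
  refine ⟨r, ?_, ?_⟩
  · have := hr true
    rw [if_pos rfl] at this
    exact this
  · have := hr false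
    rw [if_neg (by decide)] at this
    exact this

/-- **An irreducible representation which is not a subquotient is separated by an element of the
group algebra.** -/
theorem exists_ann [CharZero k] [FiniteDimensional k W] {σ : Representation k G W}
    (hσ : σ.IsIrreducible) (n : ℕ) : ∀ (V : Type) [AddCommGroup V] [Module k V]
      [FiniteDimensional k V] (ρ : Representation k G V), Module.finrank k V = n →
      ¬ IsSubquotient σ ρ → ∃ r : k[G], σ.asAlgebraHom r = 1 ∧ ρ.asAlgebraHom r = 0 := by
  induction n using Nat.strong_induction_on with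
  | _ n ih =>
    intro V _ _ _ ρ hn hnot
    by_cases hirr : ρ.IsIrreducible
    · refine ann_irr hσ hirr ⟨fun e => hnot ?_⟩ ⟨fun e => hnot ?_⟩
      · exact isSubquotient_of_equiv e.symm
      · exact isSubquotient_of_equiv e
    · by_cases hsub : Subsingleton V
      · refine ⟨1, map_one _, ?_⟩
        ext x
        exact Subsingleton.elim _ _
      · rw [not_subsingleton_iff_nontrivial] at hsub
        -- a proper subrepresentation
        obtain ⟨U, hU1, hU2⟩ : ∃ U : Subrepresentation ρ, U ≠ ⊥ ∧ U ≠ ⊤ := by
          by_contra hno
          push Not at hno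
          have hnt : Nontrivial (Subrepresentation ρ) := by
            refine ⟨⊥, ⊤, fun h => ?_⟩
            obtain ⟨x, hx⟩ := exists_ne (0 : V)
            have h1 : (⊥ : Submodule k V) = ⊤ := congrArg Subrepresentation.toSubmodule h
            have h2 : x ∈ (⊥ : Submodule k V) := by
              rw [h1]
              exact Submodule.mem_top
            exact hx ((Submodule.mem_bot k).1 h2)
          exact hirr { eq_bot_or_eq_top := fun U => by
                         by_cases h : U = ⊥
                         · exact Or.inl h
                         · exact Or.inr (hno U h) }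
        have hU : ∀ g, U.toSubmodule ≤ U.toSubmodule.comap (ρ g) := fun g x hx =>
          U.apply_mem_toSubmodule g hx
        have hne_top : U.toSubmodule ≠ ⊤ := fun h =>
          hU2 (Subrepresentation.toSubmodule_injective h)
        have hne_bot : U.toSubmodule ≠ ⊥ := fun h =>
          hU1 (Subrepresentation.toSubmodule_injective h)
        have hlt : Module.finrank k U.toSubmodule < n := by
          rw [← hn]
          exact Submodule.finrank_lt hne_top
        have hlt' : Module.finrank k (V ⧸ U.toSubmodule) < n := by
          have h1 := U.toSubmodule.finrank_quotient_add_finrank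
          have h2 : 0 < Module.finrank k U.toSubmodule := by
            have := Submodule.nontrivial_iff_ne_bot.2 hne_bot
            exact Module.finrank_pos
          omega
        obtain ⟨r₁, h1, h2⟩ := ih _ hlt U.toSubmodule (ρ.subrepresentation U.toSubmodule hU) rfl
          fun h => hnot (isSubquotient_sub _ hU h)
        obtain ⟨r₂, h3, h4⟩ := ih _ hlt' (V ⧸ U.toSubmodule) (ρ.quotient U.toSubmodule hU) rfl
          fun h => hnot (isSubquotient_quo _ hU h)
        refine ⟨r₁ * r₂, by rw [map_mul, h1, h3, one_mul], ?_⟩
        apply LinearMap.ext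
        intro x
        rw [map_mul, Module.End.mul_apply]
        have h5 : ρ.asAlgebraHom r₂ x ∈ U.toSubmodule := by
          have h6 := quo_alg U.toSubmodule hU r₂ x
          rw [h4] at h6
          rw [← Submodule.Quotient.mk_eq_zero]
          exact h6.symm
        have h7 := sub_alg U.toSubmodule hU r₁ ⟨_, h5⟩
        rw [h2] at h7
        exact h7.symm

end

end Pool.Agent.R629.NF
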