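import Pool.Agent.R629.NF.GalK

/-!
# Absolute values of eigenvalues and relations between edge values
-/

set_option autoImplicit false

namespace Pool.Agent.R629.NF

open Filter Topology MeasureTheory Finset NumberField IsDedekindDomain
open Pool.Agent.R629.SP
open Pool.Agent.TH339.MP (nm pr dg Sp mem_Sp nm_eq dg_pos)

section
variable {K : Type} [Field K] [NumberField K] {N : ℕ}

/-- The conditions on a system of polynomials: monic of degree `N`, with non-zero roots of absolute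
value at most `q_v^w`, for all `v` which do not lie above the primes in `S`. -/
def IsSysLe (S : Finset ℕ) (N : ℕ) (w : ℝ) (P : HeightOneSpectrum (𝓞 K) → Polynomial ℂ) : Prop :=
  ∀ v, (pr v : ℕ) ∉ S → (P v).Monic ∧ (P v).natDegree = N ∧
    ∀ z ∈ (P v).roots, z ≠ 0 ∧ ‖z‖ ≤ ((nm v : ℕ) : ℝ) ^ w

theorem sys_bridge_le {S : Finset ℕ} {w : ℝ} {P : HeightOneSpectrum (𝓞 K) → Polynomial ℂ}
    (hP : IsSysLe S N w P) {n : ℕ} {A : Nat.Primes → Matrix (Fin n) (Fin n) ℂ}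
    (hA : ∀ p : Nat.Primes, (p : ℕ) ∉ S → (A p).charpoly = above P p) :
    Bd S A w ∧ (∀ p : Nat.Primes, (p : ℕ) ∉ S → (A p).det ≠ 0) ∧
      ∀ l : ℝ → ℂ, IsEdgeOf S N P w l ↔ IsBoundary S A w l := by
  classical
  have hpos : ∀ v : HeightOneSpectrum (𝓞 K), 0 < nm v := fun v => by
    rw [nm_eq]
    exact pow_pos (pr v).2.pos _
  have h1 : ∀ v : HeightOneSpectrum (𝓞 K), ∃ α : Fin N → ℂ, (pr v : ℕ) ∉ S →
      P v = ∏ j, (Polynomial.X - Polynomial.C (α j)) := by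
    intro v
    by_cases hv : (pr v : ℕ) ∈ S
    · exact ⟨0, fun h => absurd hv h⟩
    · obtain ⟨α, hα⟩ := exists_rt (hP v hv).1 (hP v hv).2.1
      exact ⟨α, fun _ => hα⟩
  choose β hβ using h1
  have hroot : ∀ v, (pr v : ℕ) ∉ S → ∀ j, β v j ∈ (P v).roots := by
    intro v hv j
    rw [Polynomial.mem_roots (hP v hv).1.ne_zero, Polynomial.IsRoot, hβ v hv,
      Polynomial.eval_prod]
    refine Finset.prod_eq_zero (Finset.mem_univ j) ?_
    simp
  have hind : IsInd S β A := by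
    intro p hp
    rw [hA p hp]
    unfold above polyAt
    refine Finset.prod_congr rfl fun v hv => ?_
    rw [mem_Sp] at hv
    rw [hβ v (by rw [hv]; exact hp), map_prod]
    refine Finset.prod_congr rfl fun j _ => ?_
    rw [map_sub, Polynomial.expand_X, Polynomial.expand_C]
  have hle : ∀ v, (pr v : ℕ) ∉ S → ∀ j, ‖β v j‖ ≤ ((nm v : ℕ) : ℝ) ^ w :=
    fun v hv j => ((hP v hv).2.2 _ (hroot v hv j)).2
  refine ⟨ind_bd hind hle, fun p hp => ind_det hind
    (fun v hv j => ((hP v hv).2.2 _ (hroot v hv j)).1) p hp, fun l => ?_⟩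
  rw [← isBdK_iff hind hle]
  have h2 : LPoly S N P = LK S β := by
    funext s
    unfold LPoly LK
    congr 1
    funext v
    split_ifs with hv
    · rfl
    · exact factorAt_eq (hβ v hv) (hpos v) s
  unfold IsEdgeOf IsBdK
  rw [h2]

theorem exists_edgeOf_le {S : Finset ℕ} (hS : Unram K S) {w : ℝ}
    {P : HeightOneSpectrum (𝓞 K) → Polynomial ℂ} (hP : IsSysLe S N w P) :
    ∃ l : ℝ → ℂ, IsEdgeOf S N P w l := by
  obtain ⟨A, hA⟩ := exists_mats hS (fun v hv => (hP v hv).1) (fun v hv => (hP v hv).2.1)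
  obtain ⟨h1, -, h3⟩ := sys_bridge_le hP hA
  exact ⟨_, (h3 _).2 (isBoundary_bd h1)⟩

/-- The roots of the polynomials have absolute values `q_v^{m/2}` with integers `m` (which may depend on
the root). -/
def HasWeights (S : Finset ℕ) (P : HeightOneSpectrum (𝓞 K) → Polynomial ℂ) : Prop :=
  ∀ v, (pr v : ℕ) ∉ S → ∀ z ∈ (P v).roots, ∃ m : ℤ, ‖z‖ = ((nm v : ℕ) : ℝ) ^ ((m : ℝ) / 2)

lemma above_ne {R : Type} [CommRing R] [Nontrivial R] {S : Finset ℕ}
    {P : HeightOneSpectrum (𝓞 K) → Polynomial R}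
    (hP : ∀ v, (pr v : ℕ) ∉ S → (P v).Monic) {p : Nat.Primes} (hp : (p : ℕ) ∉ S) :
    above P p ≠ 0 := (above_monic hP hp).ne_zero

lemma nm_rpow (v : HeightOneSpectrum (𝓞 K)) (r : ℝ) :
    ((nm v : ℕ) : ℝ) ^ r = (((pr v : ℕ) : ℝ) ^ r) ^ dg v := by
  have hp0 : (0 : ℝ) ≤ ((pr v : ℕ) : ℝ) := by positivity
  rw [nm_eq, Nat.cast_pow, ← Real.rpow_natCast, ← Real.rpow_natCast, ← Real.rpow_mul hp0,
    ← Real.rpow_mul hp0, mul_comm]

/-- **The edge criterion for systems with different sets of omitted primes.** -/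
theorem sys_var {J : Type} [Countable J] {m : J → ℕ} {S : Finset ℕ} {SJ : J → Finset ℕ} {w : ℝ}
    (hS : Unram K S) (hSJ : ∀ j, Unram K (SJ j))
    {P : HeightOneSpectrum (𝓞 K) → Polynomial ℂ} (hP : IsSysLe S N w P)
    {Q : J → HeightOneSpectrum (𝓞 K) → Polynomial ℂ} (hQ : ∀ j, IsSysLe (SJ j) (m j) w (Q j))
    {l : ℝ → ℂ} (hl : IsEdgeOf S N P w l) {lQ : J → ℝ → ℂ}
    (hlQ : ∀ j, IsEdgeOf (SJ j) (m j) (Q j) w (lQ j)) :
    ∃ (A : Nat.Primes → Matrix (Fin (N * Module.finrank ℚ K)) (Fin (N * Module.finrank ℚ K)) ℂ)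
      (B : ∀ j, Nat.Primes → Matrix (Fin (m j * Module.finrank ℚ K))
        (Fin (m j * Module.finrank ℚ K)) ℂ),
      (∀ p : Nat.Primes, (p : ℕ) ∉ S → (A p).charpoly = above P p) ∧
      (∀ j (p : Nat.Primes), (p : ℕ) ∉ SJ j → (B j p).charpoly = above (Q j) p) ∧
      (VirtualRelation ∅ A B ↔ DependentOn l lQ) ∧ (DependentOn l lQ ∨ IndependentOf l lQ) := by
  obtain ⟨A, hA⟩ := exists_mats hS (fun v hv => (hP v hv).1) (fun v hv => (hP v hv).2.1)
  have h1 : ∀ j, ∃ B : Nat.Primes → Matrix (Fin (m j * Module.finrank ℚ K))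
      (Fin (m j * Module.finrank ℚ K)) ℂ, ∀ p : Nat.Primes, (p : ℕ) ∉ SJ j →
      (B p).charpoly = above (Q j) p := fun j =>
    exists_mats (hSJ j) (fun v hv => (hQ j v hv).1) (fun v hv => (hQ j v hv).2.1)
  choose B hB using h1
  obtain ⟨a1, a2, a3⟩ := sys_bridge_le hP hA
  have b := fun j => sys_bridge_le (hQ j) (hB j)
  obtain ⟨h2, h3⟩ := main_var a1 (fun j => (b j).1) a2 (fun j => (b j).2.1) ((a3 l).1 hl)
    (fun j => ((b j).2.2 _).1 (hlQ j))
  exact ⟨A, B, hA, hB, h2, h3⟩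

/-- **A relation transports the absolute values.** -/
theorem weights_of_relation {J : Type} {m : J → ℕ} {S : Finset ℕ} {SJ : J → Finset ℕ} {w w' : ℝ}
    {P : HeightOneSpectrum (𝓞 K) → Polynomial ℂ} (hP : IsSysLe S N w P)
    {Q : J → HeightOneSpectrum (𝓞 K) → Polynomial ℂ} (hQ : ∀ j, IsSysLe (SJ j) (m j) w' (Q j))
    (hW : ∀ j, HasWeights (SJ j) (Q j)) {n : ℕ} {r : J → ℕ}
    {A : Nat.Primes → Matrix (Fin n) (Fin n) ℂ}
    {B : ∀ j, Nat.Primes → Matrix (Fin (r j)) (Fin (r j)) ℂ}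
    (hA : ∀ p : Nat.Primes, (p : ℕ) ∉ S → (A p).charpoly = above P p)
    (hB : ∀ j (p : Nat.Primes), (p : ℕ) ∉ SJ j → (B j p).charpoly = above (Q j) p)
    (h : VirtualRelation ∅ A B) :
    ∃ T : Finset ℕ, S ⊆ T ∧ HasWeights T P := by
  classical
  obtain ⟨d, hd, e, hfin⟩ := h
  refine ⟨(hfin.toFinset.image fun p : Nat.Primes => (p : ℕ)) ∪ S ∪ e.support.biUnion SJ,
    fun x hx => Finset.mem_union_left _ (Finset.mem_union_right _ hx), fun v hv z hz => ?_⟩
  have hp1 : (pr v : ℕ) ∉ hfin.toFinset.image fun p : Nat.Primes => (p : ℕ) := fun hp =>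
    hv (Finset.mem_union_left _ (Finset.mem_union_left _ hp))
  have hp2 : (pr v : ℕ) ∉ S := fun hp =>
    hv (Finset.mem_union_left _ (Finset.mem_union_right _ hp))
  have hp3 : ∀ j ∈ e.support, (pr v : ℕ) ∉ SJ j := fun j hj hp =>
    hv (Finset.mem_union_right _ (Finset.mem_biUnion.2 ⟨j, hj, hp⟩))
  have h1 : ∀ z, (d : ℤ) * ((A (pr v)).charpoly.rootMultiplicity z : ℤ) =
      e.sum fun j c => c * ((B j (pr v)).charpoly.rootMultiplicity z : ℤ) := by
    by_contra hne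
    push Not at hne
    apply hp1
    rw [Finset.mem_image]
    exact ⟨pr v, hfin.mem_toFinset.2 ⟨Finset.notMem_empty _, hne⟩, rfl⟩
  -- a root of the polynomial above `p`
  obtain ⟨y, hy⟩ := IsAlgClosed.exists_pow_nat_eq z (dg_pos v)
  have hPm : ∀ v, (pr v : ℕ) ∉ S → (P v).Monic := fun v hv => (hP v hv).1
  have hyr : y ∈ (A (pr v)).charpoly.roots := by
    rw [hA _ hp2, Polynomial.mem_roots (above_ne hPm hp2), Polynomial.IsRoot]
    unfold above
    rw [Polynomial.eval_prod]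
    refine Finset.prod_eq_zero (i := v) ((mem_Sp _ _).2 rfl) ?_
    rw [Polynomial.expand_eval, hy]
    exact ((Polynomial.mem_roots (hPm v hp2).ne_zero).1 hz)
  have hpos : 0 < (A (pr v)).charpoly.rootMultiplicity y := by
    rw [← Polynomial.count_roots]
    exact Multiset.count_pos.2 hyr
  have h2 : (e.sum fun j c => c * ((B j (pr v)).charpoly.rootMultiplicity y : ℤ)) ≠ 0 := by
    rw [← h1 y]
    positivity
  obtain ⟨j, hj, hne⟩ := Finset.exists_ne_zero_of_sum_ne_zero h2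
  have hm : (B j (pr v)).charpoly.rootMultiplicity y ≠ 0 := by
    intro h0
    apply hne
    change e j * ((B j (pr v)).charpoly.rootMultiplicity y : ℤ) = 0
    rw [h0]
    simp
  have hyB : y ∈ (B j (pr v)).charpoly.roots := by
    rw [← Multiset.count_pos, Polynomial.count_roots]
    omega
  have hQm : ∀ v, (pr v : ℕ) ∉ SJ j → (Q j v).Monic := fun v hv => (hQ j v hv).1
  rw [hB j _ (hp3 j hj), Polynomial.mem_roots (above_ne hQm (hp3 j hj)),
    Polynomial.IsRoot] at hyB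
  unfold above at hyB
  rw [Polynomial.eval_prod, Finset.prod_eq_zero_iff] at hyB
  obtain ⟨u, hu, hyu⟩ := hyB
  rw [mem_Sp] at hu
  rw [Polynomial.expand_eval] at hyu
  have hu' : (pr u : ℕ) ∉ SJ j := by
    rw [hu]
    exact hp3 j hj
  obtain ⟨c, hc⟩ := hW j u hu' (y ^ dg u)
    ((Polynomial.mem_roots (hQm u hu').ne_zero).2 hyu)
  refine ⟨c, ?_⟩
  rw [norm_pow, nm_rpow, hu] at hc
  have hyn : ‖y‖ = ((pr v : ℕ) : ℝ) ^ ((c : ℝ) / 2) :=
    (pow_left_inj₀ (norm_nonneg _) (by positivity) (dg_pos u).ne').1 hc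
  rw [← hy, norm_pow, hyn, nm_rpow]

end

end Pool.Agent.R629.NF
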